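import Mathlib
import Pool.Agent.Helper86.CollatzInt
import Pool.Agent.Collatz3.DNIface
import Pool.Agent.Collatz3.FWTyp

set_option autoImplicit false

/-!
# CPR: primes in invariant sets of the 3x+1 map. Definitions

Conventions: `σ = 1` or `σ = -1` is a sign; words `w` are read at the lower end point `b`, the first
letters are next to `b`, `n = en w b` is the upper end point: `2 ^ S b = 3 ^ k n + cw w` (`k` letters,
`S = w.sum`), `T^[S] n = b`.  `(words I k)`: `k` letters in `1, …, I`.  `II k = 12 log₂ k`.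
-/

namespace Pool.Agent.CPR

open Finset
open Pool.Agent.Collatz3 (cw)
open Pool.Agent.Collatz3.Mix (words mem_words)
open Pool.Agent.Collatz3.PD (rd en Fw II P cat Per)
open Pool.Agent.Collatz3.FW (Hit)
open Pool.Agent.Collatz3.DN (EvInv)
open Pool.Agent.Helper86.CollatzChain (s0 s1 u w vv)
open Pool.Agent.Helper14 (T)

/-! ### Sets of odd integers, densities -/

/-- The odd integers `n` with `α < σ n ≤ β`. -/
noncomputable def Ob (σ : ℤ) (α β : ℝ) : Finset ℤ :=
  ((Ioc ⌊α⌋ ⌊β⌋).image fun m => σ * m).filter fun n => n % 2 = 1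

/-- `A` has density `d` in all progressions `σ (q m + r)`. -/
def Dens (σ : ℤ) (A : Set ℤ) (d : ℝ) : Prop :=
  ∀ q r : ℕ, 1 ≤ q → Filter.Tendsto (fun x : ℝ =>
    (Set.ncard {m : ℕ | (m : ℝ) ≤ x ∧ σ * (q * m + r) ∈ A} : ℝ) / x) Filter.atTop (nhds d)

/-- The number of odd terms among `x, T x, …, T^[n-1] x`. -/
def pc (n : ℕ) (x : ℤ) : ℕ := ((range n).filter fun i => T^[i] x % 2 = 1).card

/-! ### The pair chain -/

/-- Probability that the level (first coordinate) is `≤ l` at some time `≤ n`. -/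
noncomputable def hh (l : ℕ) : ℕ → ℕ × ℤ → ℝ
  | 0, s => if s.1 ≤ l then 1 else 0
  | n + 1, s => if s.1 ≤ l then 1 else (hh l n (s0 s) + hh l n (s1 s)) / 2

/-- Probability that the level `0` is reached within `n` steps but the pair is not absorbed within
`n + m` steps. -/
noncomputable def cr : ℕ → ℕ → ℕ × ℤ → ℝ
  | 0, m, s => if s.1 = 0 then u m s else 0
  | n + 1, m, s => if s.1 = 0 then u (n + 1 + m) s else (cr n m (s0 s) + cr n m (s1 s)) / 2

/-- Indicator: the pair `(x, 3 ^ j x + e)`, `s = (j, e)`, reaches level `0` within `n` steps. -/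
noncomputable def wh : ℕ → ℕ × ℤ → ℤ → ℝ
  | 0, s, _ => if s.1 = 0 then 1 else 0
  | n + 1, s, x => if s.1 = 0 then 1
    else if x % 2 = 0 then wh n (s0 s) (x / 2) else wh n (s1 s) ((3 * x + 1) / 2)

/-- Indicator: level `0` is reached within `n` steps, but not absorbed within `n + m` steps. -/
noncomputable def wc : ℕ → ℕ → ℕ × ℤ → ℤ → ℝ
  | 0, m, s, x => if s.1 = 0 then w m s x else 0
  | n + 1, m, s, x => if s.1 = 0 then w (n + 1 + m) s x
    else if x % 2 = 0 then wc n m (s0 s) (x / 2) else wc n m (s1 s) ((3 * x + 1) / 2)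

/-! ### Good blocks -/

/-- Good blocks: `|S - 2k| ≤ k / J`, and `cw` not too large. -/
noncomputable def Gs (J k : ℕ) : Finset (List ℕ) :=
  (words (II k) k).filter fun v => 2 * J * k ≤ J * v.sum + k ∧ J * v.sum ≤ 2 * J * k + k ∧
    (cw v : ℝ) ≤ (5 / 4) ^ k * 2 ^ v.sum

/-- Words of `i` good blocks. -/
noncomputable def GJ (J k : ℕ) : ℕ → Finset (List ℕ)
  | 0 => {[]}
  | i + 1 => cat (Gs J k) (GJ J k i)

/-- The window of the lower end points after `i` blocks with total sum `s`, from `(α, α + ℓ]`. -/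
noncomputable def Wi (σ : ℤ) (α ℓ : ℝ) (k i s : ℕ) : Finset ℤ :=
  Ob σ (3 ^ (i * k) * α / 2 ^ s - i * (5 / 4) ^ k) (3 ^ (i * k) * (α + ℓ) / 2 ^ s + i * (5 / 4) ^ k)

/-- The expected number of words with `i k` letters and sum `s` that can be read at `b`, given `b`
modulo `3 ^ k`. -/
noncomputable def fJ (k i s : ℕ) (b : ℤ) : ℝ := 2 ^ s * 3 ^ k / 3 ^ (i * k) * Fw (II k) (i * k) s k b

open Classical in
/-- The number of words of `i` good blocks with sum `s` from `b` into the window `(α, α + ℓ]`. -/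
noncomputable def NJ (σ : ℤ) (α ℓ : ℝ) (J k i s : ℕ) (b : ℤ) : ℕ :=
  ((GJ J k i).filter fun w => w.sum = s ∧ rd w b ∧ en w b ∈ Ob σ α (α + ℓ)).card

/-! ### The parameters of the main construction -/

/-- `ℓ = X ^ (3 / 10)`. -/
noncomputable def ll (X : ℕ) : ℝ := (X : ℝ) ^ (3 / 10 : ℝ)

/-- The number `k` of letters of a block: the window `ℓ / 4 ^ k₁` shrinks to about `2 ^ (5 k)` after
`J` blocks. -/
def Rel (J k k₁ X : ℕ) : Prop :=
  ((4 / 3 : ℝ) ^ J * 64) ^ k * 4 ^ k₁ ≤ ll X ∧ ll X < ((4 / 3 : ℝ) ^ J * 64) ^ (k + 1) * 4 ^ k₁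

/-- Half of the number of levels. -/
def Dp (K J k : ℕ) : ℕ := K * (Nat.sqrt (J * k) + 1)

/-- The total time. -/
def tt (K J k k₁ : ℕ) : ℕ := 2 * (J * k + k₁) + Dp K J k

/-- The position at the total time, for the starting point `x`. -/
def zz (K J k k₁ x : ℕ) : ℕ := 3 ^ (J * k + k₁) * x / 2 ^ tt K J k k₁

/-- The event: the pair `(z, 3 ^ D z)` crosses within `n` steps, and `z` is in `A`. -/
def Ev (σ : ℤ) (A : Set ℤ) (n D z : ℕ) : Prop := wh n (D, 0) (σ * z) = 1 ∧ σ * (z : ℤ) ∈ A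

/-- The three bad events for the integer `z` and the offset `o` after `r` steps. -/
noncomputable def bad (n m D r : ℕ) (σ o z : ℤ) : ℝ :=
  wc n m (pc r (σ * o), T^[r] (σ * o)) (σ * z) +
  wc n m (D - pc r (σ * o), -3 ^ (D - pc r (σ * o)) * T^[r] (σ * o))
    (3 ^ pc r (σ * o) * (σ * z) + T^[r] (σ * o)) +
  wc n m (D, 0) (σ * z)

/-! ### Basic lemmas -/

theorem sig_sq {σ : ℤ} (hσ : σ = 1 ∨ σ = -1) : σ * σ = 1 := by
  rcases hσ with h | h <;> rw [h] <;> norm_num

theorem mem_Ob {σ : ℤ} (hσ : σ = 1 ∨ σ = -1) {α β : ℝ} {n : ℤ} :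
    n ∈ Ob σ α β ↔ n % 2 = 1 ∧ α < ((σ * n : ℤ) : ℝ) ∧ ((σ * n : ℤ) : ℝ) ≤ β := by
  unfold Ob
  rw [mem_filter, mem_image]
  constructor
  · rintro ⟨⟨m, hm, rfl⟩, h2⟩
    rw [mem_Ioc] at hm
    have e : σ * (σ * m) = m := by rw [← mul_assoc, sig_sq hσ, one_mul]
    rw [e]
    exact ⟨h2, Int.floor_lt.1 hm.1, Int.le_floor.1 hm.2⟩
  · rintro ⟨h1, h2, h3⟩
    refine ⟨⟨σ * n, ?_, ?_⟩, h1⟩
    · rw [mem_Ioc]
      exact ⟨Int.floor_lt.2 h2, Int.le_floor.2 h3⟩
    · rw [← mul_assoc, sig_sq hσ, one_mul]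

theorem Ob_subset {σ : ℤ} (hσ : σ = 1 ∨ σ = -1) {α β α' β' : ℝ} (h1 : α' ≤ α) (h2 : β ≤ β') :
    Ob σ α β ⊆ Ob σ α' β' := by
  intro n hn
  rw [mem_Ob hσ] at hn ⊢
  exact ⟨hn.1, h1.trans_lt hn.2.1, hn.2.2.trans h2⟩

theorem card_Ob_le {σ : ℤ} {α β : ℝ} (h : α ≤ β) : ((Ob σ α β).card : ℝ) ≤ β - α + 1 := by
  have h1 : (Ob σ α β).card ≤ (Ioc ⌊α⌋ ⌊β⌋).card :=
    (card_filter_le _ _).trans card_image_le
  rw [Int.card_Ioc] at h1
  have h2 : ((⌊β⌋ - ⌊α⌋).toNat : ℤ) = ⌊β⌋ - ⌊α⌋ :=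
    Int.toNat_of_nonneg (sub_nonneg.2 (Int.floor_le_floor h))
  have h3 : (((⌊β⌋ - ⌊α⌋).toNat : ℕ) : ℝ) = (⌊β⌋ : ℝ) - ⌊α⌋ := by exact_mod_cast h2
  have h4 : ((Ob σ α β).card : ℝ) ≤ (((⌊β⌋ - ⌊α⌋).toNat : ℕ) : ℝ) := by exact_mod_cast h1
  have h5 := Int.floor_le β
  have h6 := Int.lt_floor_add_one α
  linarith

theorem pc_zero (x : ℤ) : pc 0 x = 0 := by simp [pc]

/-- Splitting off the first step. -/
theorem pc_succ (n : ℕ) (x : ℤ) : pc (n + 1) x = (if x % 2 = 1 then 1 else 0) + pc n (T x) := by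
  unfold pc
  rw [card_filter, card_filter, sum_range_succ', add_comm]
  simp only [Function.iterate_zero, id_eq, Function.iterate_succ_apply]
  rfl

/-- Splitting off the last step. -/
theorem pc_succ' (n : ℕ) (x : ℤ) :
    pc (n + 1) x = pc n x + (if T^[n] x % 2 = 1 then 1 else 0) := by
  unfold pc
  simp only [card_filter]
  rw [sum_range_succ]

theorem pc_le (n : ℕ) (x : ℤ) : pc n x ≤ n := by
  unfold pc
  exact (card_filter_le _ _).trans (card_range n).le

theorem T_two_mul (y : ℤ) : T (2 * y) = y := Helper86.CollatzInt.T_even y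

theorem T_two_mul_add_one (y : ℤ) : T (2 * y + 1) = 3 * y + 2 := Helper86.CollatzInt.T_odd y

/-- The iterates of `T` on a class modulo a power of two. -/
theorem T_iter_affine (r : ℕ) : ∀ y c : ℤ,
    T^[r] (2 ^ r * y + c) = 3 ^ pc r c * y + T^[r] c := by
  induction r with
  | zero => intro y c; simp [pc_zero]
  | succ r ih =>
    intro y c
    rw [Function.iterate_succ_apply, Function.iterate_succ_apply, pc_succ]
    rcases Int.even_or_odd' c with ⟨t, rfl | rfl⟩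
    · have e : (2 : ℤ) ^ (r + 1) * y + 2 * t = 2 * (2 ^ r * y + t) := by ring
      rw [e, T_two_mul, T_two_mul, ih, if_neg (by omega), zero_add]
    · have e : (2 : ℤ) ^ (r + 1) * y + (2 * t + 1) = 2 * (2 ^ r * y + t) + 1 := by ring
      have e2 : 3 * ((2 : ℤ) ^ r * y + t) + 2 = 2 ^ r * (3 * y) + (3 * t + 2) := by ring
      rw [e, T_two_mul_add_one, T_two_mul_add_one, e2, ih, if_pos (by omega)]
      ring

theorem pc_affine (r : ℕ) : ∀ y c : ℤ, pc r (2 ^ r * y + c) = pc r c := by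
  induction r with
  | zero => intro y c; simp [pc_zero]
  | succ r ih =>
    intro y c
    rw [pc_succ, pc_succ]
    have e0 : (2 : ℤ) ^ (r + 1) * y + c = 2 * (2 ^ r * y) + c := by ring
    rcases Int.even_or_odd' c with ⟨t, rfl | rfl⟩
    · have e : (2 : ℤ) ^ (r + 1) * y + 2 * t = 2 * (2 ^ r * y + t) := by ring
      rw [e, T_two_mul, T_two_mul, ih, if_neg (by omega), if_neg (by omega)]
    · have e : (2 : ℤ) ^ (r + 1) * y + (2 * t + 1) = 2 * (2 ^ r * y + t) + 1 := by ring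
      have e2 : 3 * ((2 : ℤ) ^ r * y + t) + 2 = 2 ^ r * (3 * y) + (3 * t + 2) := by ring
      rw [e, T_two_mul_add_one, T_two_mul_add_one, e2, ih, if_pos (by omega), if_pos (by omega)]

theorem abs_T_ge (n : ℤ) : |n| ≤ 2 * |T n| := by
  unfold Pool.Agent.Helper14.T
  split_ifs with h
  · obtain ⟨t, rfl⟩ := h
    rw [Int.mul_ediv_cancel_left _ (by norm_num), abs_mul]
    norm_num
  · obtain ⟨t, ht⟩ : ∃ t, n = 2 * t + 1 := ⟨n / 2, by omega⟩
    subst ht
    have e : (3 * (2 * t + 1) + 1) / 2 = 3 * t + 2 := by omega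
    rw [e]
    rcases le_or_gt 0 t with h0 | h0
    · rw [abs_of_nonneg (by omega), abs_of_nonneg (by omega)]
      omega
    · rw [abs_of_neg (by omega), abs_of_neg (by omega)]
      omega

theorem abs_iter_ge (j : ℕ) : ∀ n : ℤ, |n| ≤ 2 ^ j * |T^[j] n| := by
  induction j with
  | zero => intro n; simp
  | succ j ih =>
    intro n
    rw [Function.iterate_succ_apply]
    have h1 := abs_T_ge n
    have h2 := ih (T n)
    calc |n| ≤ 2 * |T n| := h1
      _ ≤ 2 * (2 ^ j * |T^[j] (T n)|) := by linarith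
      _ = 2 ^ (j + 1) * |T^[j] (T n)| := by ring

theorem abs_T_le (n : ℤ) : |T n| ≤ 2 * |n| + 1 := by
  unfold Pool.Agent.Helper14.T
  split_ifs with h
  · obtain ⟨t, rfl⟩ := h
    rw [Int.mul_ediv_cancel_left _ (by norm_num), abs_mul]
    norm_num
    have := abs_nonneg t
    linarith
  · obtain ⟨t, ht⟩ : ∃ t, n = 2 * t + 1 := ⟨n / 2, by omega⟩
    subst ht
    have e : (3 * (2 * t + 1) + 1) / 2 = 3 * t + 2 := by omega
    rw [e]
    rcases le_or_gt 0 t with h0 | h0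
    · rw [abs_of_nonneg (by omega), abs_of_nonneg (by omega)]
      omega
    · rw [abs_of_neg (by omega), abs_of_neg (by omega)]
      omega

theorem abs_iter_le (j : ℕ) : ∀ n : ℤ, |T^[j] n| ≤ 2 ^ j * (|n| + 1) := by
  have key : ∀ j : ℕ, ∀ n : ℤ, |T^[j] n| + 1 ≤ 2 ^ j * (|n| + 1) := by
    intro j
    induction j with
    | zero => intro n; simp
    | succ j ih =>
      intro n
      rw [Function.iterate_succ_apply]
      have h1 := abs_T_le n
      have h2 := ih (T n)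
      have h3 : (2 : ℤ) ^ j * (|T n| + 1) ≤ 2 ^ j * (2 * |n| + 2) :=
        mul_le_mul_of_nonneg_left (by linarith) (by positivity)
      calc |T^[j] (T n)| + 1 ≤ 2 ^ j * (|T n| + 1) := h2
        _ ≤ 2 ^ j * (2 * |n| + 2) := h3
        _ = 2 ^ (j + 1) * (|n| + 1) := by ring
  intro n
  have := key j n
  linarith

/-- Membership is the same along the first `s` steps of the orbit of a large integer. -/
theorem inv_iter {C : ℕ} {A : Set ℤ} (hA : EvInv C A) : ∀ (s : ℕ) (n : ℤ),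
    2 ^ s * (C : ℤ) < |n| → (T^[s] n ∈ A ↔ n ∈ A) := by
  intro s
  induction s with
  | zero => intro n _; simp
  | succ s ih =>
    intro n hn
    rw [Function.iterate_succ_apply]
    have h1 := abs_T_ge n
    have hC : (0 : ℤ) ≤ C := Int.natCast_nonneg C
    have hp : (1 : ℤ) ≤ 2 ^ s := one_le_pow₀ (by norm_num)
    have h2 : 2 ^ s * (C : ℤ) < |T n| := by
      rw [pow_succ] at hn
      nlinarith
    rw [ih (T n) h2]
    apply hA
    have h3 : (C : ℤ) ≤ 2 ^ (s + 1) * C := by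
      rw [pow_succ]
      nlinarith
    linarith

theorem Gs_subset (J k : ℕ) : Gs J k ⊆ words (II k) k := filter_subset _ _

theorem fJ_nonneg (k i s : ℕ) (b : ℤ) : 0 ≤ fJ k i s b := by
  unfold fJ Fw
  positivity

theorem fJ_per (k i s : ℕ) : Per k (fJ k i s) := by
  intro x t
  unfold fJ
  rw [Pool.Agent.Collatz3.FW.per_Fw1 (II k) (i * k) s k x t]

end Pool.Agent.CPR
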