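import Mathlib
import Pool.Agent.CPR.Defs
import Pool.Agent.Collatz3.PRDefs

set_option autoImplicit false

/-!
# CPR: statements of the parts, with proofs on paper

THEOREM.  `∃ c > 0`: if `A` is invariant under `T` outside a finite set and `A` has density `d` in
all progressions (of sign `σ`), then `#{p ≤ x prime, σ p ∈ A} ≥ c d x / log x` for all large `x`.

Every `St_X` is proved as `theorem thm_X : St_X` or `theorem thm_X (h : St_Y) … : St_X` in its own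
file `Pool/Agent/CPR/X.lean`.  All statements are about explicit finite objects; the sketches below
are complete up to routine estimates.
-/

namespace Pool.Agent.CPR

open Finset Filter
open Pool.Agent.Collatz3 (cw)
open Pool.Agent.Collatz3.Mix (words Vp)
open Pool.Agent.Collatz3.PD (rd en Fw II P Per)
open Pool.Agent.Collatz3.FW (Hit)
open Pool.Agent.Collatz3.DN (EvInv)
open Pool.Agent.Collatz3.PR (Sf VV W2)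
open Pool.Agent.Helper90.Straus (Sys)
open Pool.Agent.Helper86.CollatzChain (s0 s1 u w vv)
open Pool.Agent.Helper14 (T)

/-! ### 1. The pair chain -/

/-- [Win] `vv i ≤ v₂(i) + 2` (`vv_le_val`), `vv 0 = 0`; `∑ v₂(i)` over `a ≤ i < a + n`, `i > 0`, is
`∑_{t ≥ 1} #{i : 2^t ∣ i} ≤ ∑_{1 ≤ t ≤ log₂(a+n)} (n / 2^t + 1) ≤ n + log₂ (a + n)`. -/
def St_Win : Prop := ∀ a n : ℕ, ∑ i ∈ range n, vv (a + i) ≤ 3 * n + Nat.log 2 (a + n)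

/-- [Hit] Reaching level `0`.  `CollatzChain`: `s0_even, s0_odd, s1_even, s1_odd_succ, tau, tau_step,
tau_odd, tau_le, tau_nonneg, vv_spec`.

STAGE LEMMA.  Let `l, ρ ≥ 1`, `R = l + 2ρ`, `log₂ (R + 1) ≤ ρ`.  For `l < j ≤ l + ρ` and all `e`:
`hh l (256 ρ^2) (j, e) ≥ 1/4`.  Proof: `b_i = 2 + (vv (i+1) + vv (i-1)) / 2`,
`B(j) = ∑_{l<i<j} 2 (j - i) b_i` (so `B(j+1) - 2 B(j) + B(j-1) = 2 b_j` for `j > l`, `B` is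
nondecreasing), `Ψ (j, e) = B(R) - B(j) + tau (vv j) e ≥ 0` for `j ≤ R`.  For `l < j < R`:
`(Ψ (s0 s) + Ψ (s1 s)) / 2 ≤ Ψ s - 1`: `e` even: the level does not change, `tau_step`; `e` odd:
`tau (vv j) e = 0`, the level becomes `j ± 1`, `tau (vv i) ≤ vv i + 1`.  `inn k s` := probability that
the level is in `(l, R)` at all times `0, …, k`; it is nonincreasing in `k` and
`∑_{i ≤ k} inn i s ≤ Ψ s` (induction on `k`), so `inn (256 ρ²) s ≤ Ψ s / (256 ρ²) ≤ 1/4`, since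
`B(R) ≤ 4ρ ∑_{l<i<R} b_i ≤ 4ρ (4ρ + (6ρ + ρ)) = 44 ρ²` (`St_Win` for the windows `[l, R-2]`,
`[l+2, R]`) and `tau (vv j) e ≤ vv j + 1 ≤ 4 + ρ`.  `up k s` := probability that the level reaches
`R` before `l` within `k` steps `≤ (s.1 - l) / (2ρ) ≤ 1/2` (the level is a martingale).  And
`hh l k s + inn k s + up k s ≥ 1`.
MARKOV.  `l' ≤ l`, `hh l n₁ s ≥ a`, `hh l' n₂ t ≥ b` for all `t` with `t.1 ≤ l`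
⟹ `hh l' (n₁ + n₂) s ≥ a b` (induction on `n₁`; `hh` is nondecreasing in `n`).
END.  `M = 1024 K + 1`, `ρ = ⌊√(n / (256 M))⌋`, so `M ρ ≥ j` for large `n`, `256 M ρ² ≤ n`; `M` stages
from `≤ (i+1) ρ` to `≤ i ρ`; `c = 4 ^ (-M)`.  `log₂ ((M + 2) ρ + 1) ≤ ρ` for large `n`. -/
def St_Hit : Prop := ∀ K : ℕ, ∃ c : ℝ, 0 < c ∧ ∃ n₀ : ℕ, ∀ n j : ℕ, n₀ ≤ n → j ^ 2 ≤ K * n →
  ∀ e : ℤ, c ≤ hh 0 n (j, e)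

/-- [Cross] After reaching level `0` the pair merges soon.  `CollatzRate.rate`,
`CollatzChain`: `V, eps, g, H, H_zero, H_le, drift_even_succ, drift_odd_succ, u_le_one, u_antitone`.
(1) By induction on `n`: `cr n m s ≤ E[…]`; precisely, for every `φ : ℤ → ℝ`, `φ ≥ 0` with
`u m (0, e) ≤ φ e` for all `e`, and every `Φ ≥ 0` with `φ e ≤ Φ (0, e)`,
`(Φ (s0 s) + Φ (s1 s)) / 2 ≤ Φ s` for `s.1 ≥ 1`: `cr n m s ≤ Φ s` (`u` is nonincreasing in time).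
(2) `u m (0, e) ≤ δ/2 + 2 g 0 e · exp (- ε₂ m / 2)` for `m ≥ m₀`: from `rate`, `ε₂` with
`C √(3 ε₂) ≤ δ/2`: if `log (1 + |e|) ≤ 2 ε₂ m` use `rate` (`1 ≤ ε₂ m`); otherwise
`|e| ≥ exp (2 ε₂ m) - 1 ≥ exp (ε₂ m) / 4` and `g 0 e = √|e|`, so the right side is `≥ 1`.
(3) `Φ s = δ/2 + 2 exp (-ε₂ m / 2) · (V eps s - s.1) / eps`: `V eps s - s.1 = 1 - (39/40)^j + eps H s
≥ 0` satisfies the supermartingale inequality for `s.1 ≥ 1` since `V eps` does (`drift_*_succ`) and the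
level is a martingale there; at `s.1 = 0` it is `eps g 0 e`.
(4) `(V eps s - s.1) / eps ≤ 1 / eps + g + (19/20)^j (2j+1) ≤ 243240 + √|e| ≤ 243240 + exp (ε m / 2)`,
`ε = ε₂ / 2`. -/
def St_Cross : Prop := ∀ δ : ℝ, 0 < δ → ∃ ε : ℝ, 0 < ε ∧ ∃ m₀ : ℕ, ∀ (n m : ℕ) (s : ℕ × ℤ),
  m₀ ≤ m → Real.log (1 + |(s.2 : ℝ)|) ≤ ε * m → cr n m s ≤ δ

/-- [Per] Induction on `n`; compare `w_periodic`, `sum_w` in `CollatzChain`. -/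
def St_Per : Prop := ∀ (n m : ℕ) (s : ℕ × ℤ),
  (∀ x, wh n s x = 0 ∨ wh n s x = 1) ∧ (∀ x, wc n m s x = 0 ∨ wc n m s x = 1) ∧
  (∀ x, wh n s (x + (2 ^ n : ℕ)) = wh n s x) ∧
  (∀ x, wc n m s (x + (2 ^ (n + m) : ℕ)) = wc n m s x) ∧
  ∑ i ∈ range (2 ^ n), wh n s i = 2 ^ n * hh 0 n s ∧
  ∑ i ∈ range (2 ^ (n + m)), wc n m s i = 2 ^ (n + m) * cr n m s

/-- [Extr] The extremal pair.  `y = 3^j x + e`, `Y = 3^D x = 3^(D-j) y - 3^(D-j) e`.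
Semantics (induction on `n`, first step, `CollatzInt.T_even, T_odd, coalesce`, `pc_succ`):
(a) `wh n (j, e) x = 1 ↔ ∃ i ≤ n, j + pc i y ≤ pc i x` (the level of the pair changes by the difference
of the parities; at the first time of `≤` there is equality);
(b) `wh n (j, e) x = 1`, `wc n m (j, e) x = 0` ⟹ `T^[n+m] x = T^[n+m] y`.
Proof of [Extr]: for some `i ≤ n`, `D + pc i Y ≤ pc i x`.  If `j + pc i y ≤ pc i x`: (b) for `(x, y)`.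
Otherwise `(D - j) + pc i Y ≤ pc i y` and by (b) `T^[n+m] y = T^[n+m] Y = T^[n+m] x`. -/
def St_Extr : Prop := ∀ (n m D j : ℕ) (e x : ℤ), j ≤ D → wh n (D, 0) x = 1 →
  wc n m (j, e) x = 0 → wc n m (D - j, -3 ^ (D - j) * e) (3 ^ j * x + e) = 0 →
  wc n m (D, 0) x = 0 → T^[n + m] x = T^[n + m] (3 ^ j * x + e)

/-! ### 2. Periodic sums, good blocks -/

/-- [Mix2] Cover `range L` by `⌊L/(2^M 3^κ)⌋ + 1` full periods; one full period gives the product by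
the Chinese remainder theorem. -/
def St_Mix2 : Prop := ∀ (M κ : ℕ) (f g : ℤ → ℝ), Per κ f → (∀ x t : ℤ, g (x + 2 ^ M * t) = g x) →
  (∀ x, 0 ≤ f x) → (∀ x, 0 ≤ g x) → ∀ (a : ℤ) (L : ℕ),
  ∑ i ∈ range L, f (a + i) * g (a + i) ≤
    ((L : ℝ) / (2 ^ M * 3 ^ κ) + 1) * ((∑ x ∈ range (3 ^ κ), f x) * ∑ x ∈ range (2 ^ M), g x)

/-- [Sum1] From `St_Mix2` with `M = 0`, `g = 1` (there are at most `L + 1` integers in the window). -/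
def St_Sum1 : Prop := ∀ σ : ℤ, (σ = 1 ∨ σ = -1) → ∀ (κ : ℕ) (f : ℤ → ℝ), Per κ f → (∀ x, 0 ≤ f x) →
  ∀ α L : ℝ, 3 ^ κ ≤ L →
  ∑ n ∈ Ob σ α (α + L), f n ≤ 3 * L / 3 ^ κ * ∑ x ∈ range (3 ^ κ), f x

/-- [Gs] `FW.lower_dev, upper_dev` with `δ = 1/J` (they give `exp (-k / (16 J²))` each); the bound for
`cw` and the letters `> II k` as in `FW.P_good_ge` (`FW.Num`, `hN.bad`, eventually true, see
`FWNum`/`FWMain`/`FWFin`). -/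
def St_Gs : Prop := ∀ J : ℕ, 3 ≤ J → ∀ᶠ k : ℕ in atTop, 1 - 1 / (k : ℝ) ^ 7 ≤ P (Gs J k)

/-- [GJ] Induction on `i`: `words_add`, `cw_append'`: `cw (v ++ w) = 2^(w.sum) cw v + 3^(v.length) cw w`,
and `3^k ≤ 2^(v.sum)` for `v ∈ Gs J k` since `3 v.sum ≥ 5 k` and `27 ≤ 32`. -/
def St_GJ : Prop := ∀ J k i : ℕ, 3 ≤ J → ∀ w ∈ GJ J k i, w ∈ words (II k) (i * k) ∧
  2 * J * (i * k) ≤ J * w.sum + i * k ∧ J * w.sum ≤ 2 * J * (i * k) + i * k ∧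
  (cw w : ℝ) ≤ i * (5 / 4) ^ k * 2 ^ w.sum

/-- [Inv] `k` with `C < 2^k`.  Induction on `i`; for `v ∈ Gs J k`, `n = en v b`:
`3^k |n| ≥ 2^S (|b| - (5/4)^k) ≥ 3^k |b|` (`S = v.sum`, `3 S ≥ 5 k`, `(32/27)^(k/3) (1 - 2^(-3k)) ≥ 1`),
`S ≤ 7k/3`, and `T^[S] n = b` (`T_en` in `PDEnd`), so `inv_iter` applies:
`2^S C < 2^(7k/3 + k) ≤ 2^(4k) ≤ |n|`. -/
def St_Inv : Prop := ∀ J : ℕ, 3 ≤ J → ∀ C : ℕ, ∀ᶠ k : ℕ in atTop, ∀ A : Set ℤ, EvInv C A →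
  ∀ (i : ℕ), ∀ w ∈ GJ J k i, ∀ b : ℤ, 2 ^ (4 * k) ≤ |b| → rd w b →
  (en w b ∈ A ↔ b ∈ A) ∧ |b| ≤ |en w b|

open Classical in
/-- [NonHit] `St_Mix2` (or `f` times the indicator of the bad odd classes modulo `2^(3k)`): whether
`Hit (Gs J k) univ n` depends on `n` modulo `2^(3k)` (`PR.Res_per`; all sums are `≤ 7k/3 < 3k`), and the
number of odd classes that are not hit is `≤ 2^(3k) (1 - P (Gs J k)) / 2 + 2^(7k/3) + 1`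
(`FW.hit_count` with `X = 2^(3k)`, `card_words_le`) `≤ 2^(3k) / k^7`.  The window has at most
`L + 1 ≤ 2 L` integers, `L ≥ 2^(3k) 3^κ`. -/
def St_NonHit : Prop := ∀ J : ℕ, 3 ≤ J → ∀ᶠ k : ℕ in atTop, ∀ σ : ℤ, (σ = 1 ∨ σ = -1) →
  ∀ (κ : ℕ) (f : ℤ → ℝ), Per κ f → (∀ x, 0 ≤ f x) → ∀ α L : ℝ, 2 ^ (3 * k) * 3 ^ κ ≤ L →
  ∑ n ∈ (Ob σ α (α + L)).filter (fun n => ¬ Hit (Gs J k) (fun _ => Set.univ) n), f n ≤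
    L / (3 ^ κ * (k : ℝ) ^ 6) * ∑ x ∈ range (3 ^ κ), f x

/-! ### 3. Blocks -/

/-- [Mass] `∑_{x < 3^k} Fw I N s k x = P (words with sum s)`: every word is counted for exactly one
class `x` modulo `3^k`. -/
def St_Mass : Prop := ∀ k i s : ℕ, ∑ x ∈ range (3 ^ k), fJ k i s x =
  2 ^ s * 3 ^ k / 3 ^ (i * k) * P ((words (II k) (i * k)).filter fun w => w.sum = s)

/-- [Exc] The excess over the expected number.  Write `L_s = 3^(ik) ℓ / 2^s`; for `s ≤ 2ik + ik/J`,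
`i ≤ J`: `L_s ≥ 2^(5k)` (`ℓ ≥ ((4/3)^J 64)^k`).  If `NJ ≠ 0` then `J s ≤ 2 J i k + i k` (`St_GJ`).
`i = 1`: `NJ ≤ fJ` (`FW.two_pow_Fw`).
`i → i + 1`: words `v ++ w'`, `v ∈ Gs J k` next to `b`, `b' = en v b`, `w' ∈ GJ J k i` read at `b'`
(`rd_append`, `en_append`), and `b' ∈ Wi σ α ℓ k i s'` (`FW.sign_key`, `en_spec`, `St_GJ`), so
`NJ (i+1) s b ≤ ∑_{v ∈ Gs, rd v b} NJ i (s - v.sum) (en v b)
 ≤ ∑_v fJ k i (s - v.sum) (en v b) + ∑_v max 0 (NJ i - fJ i) (s - v.sum, en v b)`.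
The second sums, over all `s` and `b`, are at most the excess for `i`: each `(s', b')` comes from at
most one pair `(v, b)` with `b` odd, `rd v b`, `en v b = b'` (`FW.pair_inj`).  The first sum is
`≤ 3^k / 3^(ik) · 2^s Fw (II k) ((i+1)k) s (2k) b` (for `v` with `rd v b`:
`3^k ∣ 2^s' b' - cw w' ↔ 3^(2k) ∣ 2^s b - cw (v ++ w')`), while
`fJ (i+1) s b = 3^k / 3^(ik) · 2^s Fw (II k) ((i+1)k) s k b / 3^k`.  The difference is bounded by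
`3^k / 3^(ik) 2^s |Fw … (2k) b - Fw … k b / 3^k|`, a function of period `3^(2k)`; `St_Sum1` over the
window of length `≤ 2 · 3^((i+1)k) ℓ / 2^s` gives `6 ℓ Δ_s`,
`Δ_s = ∑_{x < 3^(2k)} |Fw … (2k) x - Fw … k x / 3^k|`, and `∑_s Δ_s ≤ C (II k)^10 / k^4` by
`PD.mixRate 4` with `m = k` and words of `(i+1) k` letters (the sum over the classes modulo
`3^((i+1)k)` above a class modulo `3^(2k)`: triangle inequality, `∑ Fw … n` over a fibre). -/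
def St_Exc : Prop := ∀ J : ℕ, 3 ≤ J → ∀ᶠ k : ℕ in atTop, ∀ σ : ℤ, (σ = 1 ∨ σ = -1) → ∀ α ℓ : ℝ,
  0 ≤ α → 2 ^ ((2 * J + 6) * k) ≤ 3 ^ (J * k) * ℓ → ∀ i : ℕ, 1 ≤ i → i ≤ J →
  ∑ s ∈ range (3 * J * k + 1), ∑ b ∈ Wi σ α ℓ k i s,
    max 0 ((NJ σ α ℓ J k i s b : ℝ) - fJ k i s b) ≤ i * ℓ / (k : ℝ) ^ 2

open Classical in
/-- [Cov] `i = 0`: nothing.  `i → i + 1`: an `n` of the window that is hit by `GJ J k i`, at `b`, but not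
by `GJ J k (i+1)`, has `b` not hit by `Gs J k` (if `b = en v b'`, `n = en (v ++ w) b'`), and
`b ∈ Wi σ α ℓ k i s`.  For `i = 0`: `St_NonHit` with `κ = 0`, `f = 1`.  For `i ≥ 1` their number is at
most `∑_s ∑_{b ∈ Wi, b not hit} NJ i s b ≤ (excess) + ∑_s ∑_{b ∈ Wi, not hit} fJ k i s b
≤ i ℓ / k² + ∑_s 2 · 3^(ik) ℓ / 2^s / (3^k k^6) · ∑_{x<3^k} fJ k i s x = i ℓ / k² + 2 ℓ / k^6 ∑_s P(s)`
(`St_NonHit` with `κ = k`, the windows have length between `2^(5k)` and `2 · 3^(ik) ℓ / 2^s`; `St_Mass`;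
only the `s` with `2 J i k ≤ J s + i k`, `J s ≤ 2 J i k + i k` matter). -/
def St_Cov : Prop := ∀ J : ℕ, 3 ≤ J → ∀ᶠ k : ℕ in atTop, ∀ σ : ℤ, (σ = 1 ∨ σ = -1) → ∀ α ℓ : ℝ,
  0 ≤ α → 2 ^ ((2 * J + 6) * k) ≤ 3 ^ (J * k) * ℓ → ∀ i : ℕ, i ≤ J →
  (((Ob σ α (α + ℓ)).filter fun n => ¬ Hit (GJ J k i) (fun _ => Set.univ) n).card : ℝ) ≤
    i ^ 2 * ℓ / (k : ℝ) ^ 2

open Classical in
/-- [Blk] From `St_Exc`, `St_Cov` with `i = J`, `k ≥ J² + J`: an `n` that does not satisfy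
`Hit (GJ J k J) (Fᶜ) n` is not hit or is `en w b` with `b ∈ F ∩ Wi`. -/
def St_Blk : Prop := ∀ J : ℕ, 3 ≤ J → ∀ᶠ k : ℕ in atTop, ∀ σ : ℤ, (σ = 1 ∨ σ = -1) →
  ∀ (α ℓ : ℝ) (F : Set ℤ), 0 ≤ α → 2 ^ ((2 * J + 6) * k) ≤ 3 ^ (J * k) * ℓ →
  (((Ob σ α (α + ℓ)).filter fun n => ¬ Hit (GJ J k J) (fun _ => Fᶜ) n).card : ℝ) ≤
    ∑ s ∈ Icc ((2 * J - 1) * k) ((2 * J + 1) * k),
      ∑ b ∈ (Wi σ α ℓ k J s).filter (fun b => b ∈ F), fJ k J s b + ℓ / k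

/-! ### 4. Mixing at levels beyond the number of letters -/

/-- [V1] `w = ⌊k/50⌋`, `k' = k - w`.  `V(k, k+l) ≤ V(k', k'+r)` for `l ≤ r ≤ l + w`: with
`x = w - (r - l)`, `Vp_comp` (second factor, first factor `≤ 1`) gives
`V(k, k+l) ≤ V(k-x, k-x+l)`, and `Vp_anti_left` (`k' ≤ k - x`) gives `≤ V(k', k-x+l) = V(k', k'+r)`.
So `w V(k, k+l) ≤ ∑_{n ∈ Ico k' (Lh δ I k')} V(k', n)` when `k + l ≤ Lh δ I k'` (`le_Lh`,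
`4 (k+l) ≤ 5 k'`), and this is `≤ 12 δ k'` by `sum_Vp_le` and `collect` with `δ = k'^(-3/10)`: see the
proof of `sum_Vp_half` (`PDMixB`).  Its conditions: `half_params` with `δ = 1/12`, except
`Df (1/2) I ≤ δ`: `Df = - log (1 - 2^(-I)) ≤ 2 · 2^(-I) ≤ 2 / k`; `pbad_le`:
`k' pbad ≤ V := 42 k'^(6/10) + 1` (`vr_half_le`), `V I ≤ δ k' = k'^(7/10)` by `(50 I)^10 ≤ k`. -/
def St_V1 : Prop := ∃ I₀ k₀ : ℕ, ∀ I k l : ℕ, I₀ ≤ I → k₀ ≤ k → k ≤ 2 ^ I → (50 * I) ^ 10 ≤ k →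
  5 * l ≤ k → Vp (1 / 2) I k (k + l) ≤ 700 * (k : ℝ) ^ (-(3 / 10) : ℝ)

/-- [V2] `c = ⌊k/1296⌋ ≥ b`, `k = (k - 215c) + 180c + 30c + 5c`; three times `Vp_comp`, then `St_V1`
for `(k - 215c, 215c + b)`, `(180c, 35c + b)`, `(30c, 5c + b)`, `(5c, b)`. -/
def St_V2 : Prop := ∃ (C : ℝ) (k₀ : ℕ), 0 < C ∧ ∀ k b : ℕ, k₀ ≤ k → 1296 * b ≤ k →
  Vp (1 / 2) (II k) k (k + b) ≤ C * (k : ℝ) ^ (-(6 / 5) : ℝ)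

/-- [L1x] `Mix.l1_claw` with `(k, m, j) = (k, k, b)`, `b C k^(-6/5) → 0`; from `claw` to `Fw` as in
`PD.mixRate_strong`. -/
def St_L1x : Prop := ∀ ε : ℝ, 0 < ε → ∀ᶠ k : ℕ in atTop, ∀ b : ℕ, 1296 * b ≤ k →
  ∑ s ∈ range (II k * k + 1), ∑ x ∈ range (3 ^ (k + b)),
    |Fw (II k) k s (k + b) (x : ℤ) - Fw (II k) k s k (x : ℤ) / 3 ^ b| ≤ ε

/-! ### 5. Equidistribution in progressions modulo small powers of 3 and of 2 -/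

open Classical in
/-- [Dodd] `A` is equidistributed modulo `3^b`.  `G = Gs 3 k`, `K = (5/4)^k`, `v = en w b'`,
`w ∈ words (II k) k`, only sums `s` with `5k ≤ 3s ≤ 7k` (all `w ∈ G`).  Inner windows
`W°(s) = Ob σ (3^k Y / 2^s + K) (3^k 2Y / 2^s - K)`: if `b' ∈ W°(s)`, `w ∈ G`, `w.sum = s`, `rd w b'`, then
`en w b' ∈ Ob σ Y (2Y)` (`en_spec`).  If `w ∈ G` and `v = en w b' ∈ Ob σ Y (2Y)` then `v ∈ A ↔ b' ∈ A`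
(`T^[s] v = b'` by `T_en`, `inv_iter`: `2^(7k/3) C < 2^(4k) ≤ |v|`).
(1) `#{v ∈ Ob ∩ A} ≤ #(not hit by G) + #edge + ∑_s ∑_{b' ∈ W°(s) ∩ A} #{w ∈ G, sum s, rd w b'}`; edge:
`v = en w b'`, `w ∈ G`, `b' ∉ W°(s)`, so `σ v` is within `2 K 2^s / 3^k ≤ 2^(11k/10 + 1)` of `Y` or `2Y`;
the first two terms are `≤ ε' Y` (`St_NonHit` with `κ = 0`, `f = 1`), and
`#{w ∈ words, sum s, rd w b'} = 2^s Fw (II k) k s k b'` (`FW.two_pow_Fw`).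
(2) `#{v ∈ Ob ∩ A, 3^b ∣ v - ρ} ≥ ∑_s ∑_{b' ∈ W°(s) ∩ A} #{w ∈ G, sum s, 3^(k+b) ∣ 2^s b' - cw w - 3^k ρ}
≥ ∑_s ∑_{b' ∈ W°(s) ∩ A} 2^s Fw (II k) k s (k+b) (b' + 3^k ρ_s) - #{w ∉ G}`, where
`2^s ρ_s ≡ - ρ` modulo `3^b`, and `#{w ∉ G}` counts pairs `(w, b')`, `b' ∈ W°(s)`, `w ∈ words (II k) k` not
in `G`, `v = en w b' ≡ ρ` modulo `3^b`: such a `v` is odd, lies in `Ob σ (Y/2) (3Y)`
(`cw w ≤ 2^(k+s)`, `PR.CS_cw'`; `2^(k+s) / 3^k ≤ 2^(2k) ≤ Y/2`), is not hit by `G` and determines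
`(w, b')` (`FW.pair_inj`); so `#{w ∉ G} ≤ 5/2 · Y / (3^b k^6)` (`St_NonHit`, `κ = b`, `f` = indicator of
`3^b ∣ v - ρ`, `2^(3k) 3^b ≤ 2^(4k)`).
(3) `Fw … (k+b) b'' ≥ Fw … k b'' / 3^b - |…|` for `b'' = b' + 3^k ρ_s`, `Fw … k b'' = Fw … k b'`, and
`∑_{b' ∈ W°(s)} 2^s |…| ≤ 3 · 2^s (3^k Y / 2^s) / 3^(k+b) Δ_s = 3 Y / 3^b Δ_s` (`St_Sum1`;
`3^(k+b) ≤ 3^k Y / 2^s - 2K`), `∑_s Δ_s ≤ ε'` by `St_L1x`.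
From (1), (2), (3): the claim, because `Fw … k b' / 3^b` summed over `s`, `b' ∈ W°(s) ∩ A` is at least
`(#{v ∈ Ob ∩ A} - ε' Y) / 3^b`. -/
def St_Dodd : Prop := ∀ ε : ℝ, 0 < ε → ∀ C : ℕ, ∃ k₀ : ℕ, ∀ k b : ℕ, k₀ ≤ k → 1296 * b ≤ k →
  ∀ σ : ℤ, (σ = 1 ∨ σ = -1) → ∀ A : Set ℤ, EvInv C A → ∀ Y : ℝ, 2 ^ (4 * k) ≤ Y → ∀ ρ : ℤ,
  (((Ob σ Y (2 * Y)).filter fun v => v ∈ A).card : ℝ) / 3 ^ b - ε * Y / 3 ^ b ≤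
    (((Ob σ Y (2 * Y)).filter fun v => v ∈ A ∧ (3 : ℤ) ^ b ∣ v - ρ).card : ℝ)

open Classical in
/-- [D] `A` is equidistributed modulo `2^n`.  `0 ≤ r < 2^n` w.l.o.g., `z = 2^n y + r`,
`T^[n] (σ z) = 3^a (σ y) + T^[n] (σ r)`, `a = pc n (σ r) ≤ n` (`T_iter_affine`), and `σ z ∈ A ↔
T^[n] (σ z) ∈ A` (`inv_iter`).  So we count the `y ∈ [Z/2^n, 2Z/2^n)` (up to `O(1)`) with
`v = 3^a σ y + T^[n] (σ r) ∈ A`, that is the `v ∈ A` in a class modulo `3^a` with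
`σ v ∈ (V, 2V]`, `V = 3^a Z / 2^n` (up to `O(1)` elements, and `|T^[n] (σ r)| ≤ 2^n (2^n + 1)` shifts the
window: negligible, `V / 3^a ≥ 2^(5999 n)`).  Put `v = 2^i v'`, `v'` odd, `i ≤ I₀`: `v ∈ A ↔ v' ∈ A`
(`inv_iter`), `v'` in a class modulo `3^a`, `σ v' ∈ (V/2^i, 2V/2^i]`.  `St_Dodd` with `k = 1296 n`
(`2^(4·1296 n) = 2^(5184 n) ≤ V / 2^i`) and `Dens` with `q = 2`, `r = 1`
(`#{v' ∈ Ob σ (V/2^i) (2V/2^i), v' ∈ A} ≥ (d - ε') V / 2^(i+1)`) give for each `i` at least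
`(d/2 - ε'') V / (2^i 3^a)` elements; sum over `i ≤ I₀`. -/
def St_D : Prop := ∀ (C : ℕ) (A : Set ℤ) (σ : ℤ) (d : ℝ), (σ = 1 ∨ σ = -1) → EvInv C A →
  Dens σ A d → ∀ ε : ℝ, 0 < ε → ∃ n₀ : ℕ, ∀ n Z : ℕ, n₀ ≤ n → 2 ^ (6000 * n) ≤ Z → ∀ r : ℤ,
  (d - ε) * Z / 2 ^ n ≤ (((Ico Z (2 * Z)).filter fun z : ℕ =>
    (2 : ℤ) ^ n ∣ (z : ℤ) - r ∧ σ * (z : ℤ) ∈ A).card : ℝ)

/-! ### 6. The main construction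

Notation: `N = log₂ X`, `n = N / 10000`, `m = N / 2`, `ℓ = ll X = X^(3/10)`, `D' = Dp K J k`, `D = 2 D'`,
`t = tt K J k k₁`, `z = zz K J k k₁ x`, `α = 3^k₁ x / 2^s'`, `ℓ' = 3^k₁ ℓ / 2^s'`.  All size estimates follow
from `St_Par` (with `M` large). -/

/-- [Par] Sizes of the parameters, `N = log₂ X`, `2^N ≤ X < 2^(N+1)`.  From `Rel`:
`J k log (4/3) ≤ log ℓ ≤ (3/10) (N + 1) log 2`; `(k + 1) log ((4/3)^J 64) ≥ (3/10) N log 2 - k₁ log 4`, so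
`k ≥ c_J N` for large `X`, and `k₁² ≤ √N`, `Dp K J k ≤ K (√(Jk) + 1) = O(√N)`.
`(3/4)^(Jk) ≥ 64^k 4^k₁ / ℓ`, so `3^(Jk+k₁) x / 2^t ≥ 64^k 3^k₁ X^(7/10) / 2^D' ≥ 2^k X^(7/10)`, and
`X^(7/10) ≥ 2^(7N/10)`, `k ≤ (3/10) (N + 1) / (6 + 3 · 0.41) ≤ (N + 1) / 24`.
`(3/4)^(Jk) (3/2)^k₁ 2^k ℓ < (4/3)^J 64^(k+1) 4^k₁ (3/2)^k₁ 2^k ≤ 2^(8k) / 4`. -/
def St_Par : Prop := ∀ K J M : ℕ, 1 ≤ K → 3 ≤ J → ∀ᶠ X : ℕ in atTop, ∀ k₁ k : ℕ,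
  k₁ ^ 4 ≤ Nat.log 2 X → Rel J k k₁ X →
  M ≤ k ∧ M * k₁ ^ 2 ≤ k ∧ M * Dp K J k ≤ k ∧ 4 * (J * k) ≤ 3 * (Nat.log 2 X + 1) ∧
  (∀ x : ℕ, X ≤ x → M * 2 ^ (Nat.log 2 X / 10000 + Nat.log 2 X / 2) ≤ zz K J k k₁ x ∧
    M * 2 ^ (10 * k) ≤ zz K J k k₁ x ∧ (X : ℝ) ^ (7 / 10 : ℝ) ≤ (zz K J k k₁ x : ℝ)) ∧
  ∀ s' : ℕ, k₁ ≤ s' → s' ≤ 3 * k₁ →
    (2 : ℝ) ^ ((2 * J + 6) * k) ≤ 3 ^ (J * k) * (3 ^ k₁ * ll X / 2 ^ s') ∧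
    ∀ s : ℕ, (2 * J - 1) * k ≤ s → s ≤ (2 * J + 1) * k →
      (2 : ℝ) ^ (5 * k) ≤ 3 ^ (J * k) * (3 ^ k₁ * ll X / 2 ^ s') / 2 ^ s ∧
      4 * (3 ^ (J * k) * (3 ^ k₁ * ll X / 2 ^ s') / 2 ^ s) ≤ (2 : ℝ) ^ (8 * k) ∧
      ∀ x : ℕ, X ≤ x → (M : ℝ) * 2 ^ (4 * k) ≤ 3 ^ (J * k) * (3 ^ k₁ * (x : ℝ) / 2 ^ s') / 2 ^ s

/-- [Ptw] The pointwise statement.  `σ b ∈ (3^(Jk) α / 2^s - J (5/4)^k, 3^(Jk) (α+ℓ') / 2^s + J (5/4)^k]`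
and `2^r z ∈ (3^(Jk) α / 2^s - 2^r, 3^(Jk) α / 2^s]` (`r = t - s - s' ≤ 2 D' = D`), so
`o = σ b - 2^r z ∈ [-J (5/4)^k, 2^r + 3^(Jk) ℓ' / 2^s + J (5/4)^k]`, and
`3^(Jk) ℓ' / 2^s ≤ (3/4)^(Jk) 2^k (3/2)^k₁ ℓ ≤ (4/3)^J 64^(k+1) 4^k₁ 2^k (3/2)^k₁ ≤ 2^(15k/2)`, so
`|o| ≤ 2^(8k)`.  `b = 2^r (σ z) + σ o`, so `T^[r] b = 3^j (σ z) + e` with `j = pc r (σ o) ≤ r ≤ D`,
`e = T^[r] (σ o)`, `|e| ≤ 2^r (2^(8k) + 1)` (`T_iter_affine`, `abs_iter_le`).  If all three terms of `bad`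
are `0` (`St_Per`: they are `0` or `1`), then `St_Extr`: `T^[n+m] (σ z) = T^[n+m] (T^[r] b)`.  As
`σ z ∈ A`, `z > 2^(n+m) C`, also `|T^[r] b| > 2^(n+m) C` and `|b| > 2^r C`, `inv_iter` gives `b ∈ A`
(`n + m ≤ N/2 + N/10000`, `z ≥ X^(7/10)`). -/
def St_Ptw : Prop := ∀ K J : ℕ, 1 ≤ K → 3 ≤ J → ∀ (C : ℕ) (A : Set ℤ) (σ : ℤ), (σ = 1 ∨ σ = -1) →
  EvInv C A → ∀ᶠ X : ℕ in atTop, ∀ k₁ k s s' x : ℕ, k₁ ^ 4 ≤ Nat.log 2 X → Rel J k k₁ X →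
  k₁ ≤ s' → s' ≤ 3 * k₁ → (2 * J - 1) * k ≤ s → s ≤ (2 * J + 1) * k →
  2 * (J * k + k₁) ≤ s + s' + Dp K J k → s + s' ≤ 2 * (J * k + k₁) + Dp K J k →
  X ≤ x → x < 2 * X → Ev σ A (Nat.log 2 X / 10000) (2 * Dp K J k) (zz K J k k₁ x) →
  ∀ b ∈ Wi σ (3 ^ k₁ * x / 2 ^ s') (3 ^ k₁ * ll X / 2 ^ s') k J s, b ∉ A →
    |σ * b - 2 ^ (tt K J k k₁ - s - s') * (zz K J k k₁ x : ℤ)| ≤ 2 ^ (8 * k) ∧
    1 ≤ bad (Nat.log 2 X / 10000) (Nat.log 2 X / 2) (2 * Dp K J k) (tt K J k k₁ - s - s') σ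
      (σ * b - 2 ^ (tt K J k k₁ - s - s') * (zz K J k k₁ x : ℤ)) (zz K J k k₁ x)

/-- [AvB] The average of `bad` over a period.  Each of the three terms is `wc` of an affine function of
`z` with odd slope (`sum_affine` in `CollatzChain`, `St_Per`), with average `cr n m (·, e')`, `e'` one of
`e, -3^(D-j) e, 0`, `|e'| ≤ 3^D 2^D (2^(8k) + 1) ≤ 2^(11k)`; `log (1 + |e'|) ≤ 8 k ≤ 6 (N + 1) / J + … ≤ ε m`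
for `J ≥ J₀(ε)`; `St_Cross`. -/
def St_AvB : Prop := ∀ δ : ℝ, 0 < δ → ∃ J₀ : ℕ, ∀ J : ℕ, J₀ ≤ J → ∀ K : ℕ, 1 ≤ K →
  ∀ᶠ X : ℕ in atTop, ∀ k₁ k : ℕ, k₁ ^ 4 ≤ Nat.log 2 X → Rel J k k₁ X →
  ∀ (r : ℕ) (σ o : ℤ), (σ = 1 ∨ σ = -1) → r ≤ 2 * Dp K J k → |o| ≤ 2 ^ (8 * k) →
  ∑ i ∈ range (2 ^ (Nat.log 2 X / 10000 + Nat.log 2 X / 2)),
    bad (Nat.log 2 X / 10000) (Nat.log 2 X / 2) (2 * Dp K J k) r σ o (i : ℤ) ≤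
    δ * 2 ^ (Nat.log 2 X / 10000 + Nat.log 2 X / 2)

open Classical in
/-- [Est] Fix `s'`.  For `x` with `Ev`: `St_Blk` with `F = Aᶜ` and `St_Inv` (all `b ∈ Wi` have
`|b| ≥ 2^(4k)`) give `#{n ∈ Ob, n ∉ A} ≤ ℓ'/k + ∑_s ∑_{b ∈ Wi(s), b ∉ A} fJ k J s b`.
(1) The `s` with `|s + s' - 2 (Jk + k₁)| > D'`: `∑_{b ∈ Wi(s)} fJ ≤ 3 (2 · 3^(Jk) ℓ' / 2^s) / 3^k ·
2^s 3^k / 3^(Jk) P(sum = s) = 6 ℓ' P(sum = s)` (`St_Sum1`, `St_Mass`), and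
`P(|sum - 2Jk| > D' - k₁) ≤ C e^(-K/4)` (`PR.St_Tail3` = `thm_Tail3` with `l = K/2`, `D' - k₁ ≥ (K/2) √(Jk)`).
(2) The other `s`: by `St_Ptw`, `∑_x ∑_{b ∉ A} fJ ≤ ∑_o ∑_x fJ k J s (σ (2^r z + o)) bad(z, o)` over the
integers `o ∈ [-J (5/4)^k, 2^r + 3^(Jk) ℓ' / 2^s + J (5/4)^k]`, at most `2 · 3^(Jk) ℓ' / 2^s` many, with
`|o| ≤ 2^(8k)`.  Each `z` comes from at most `2^t / 3^(Jk+k₁) + 1` integers `x`, and `z` runs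
over an interval of at most `L = 3^(Jk+k₁) X / 2^t + 1` integers; `z ↦ fJ k J s (σ (2^r z + o))` has period
`3^k` and the sum over a period is that of `fJ` (`FW.S_affine`), `z ↦ bad` has period `2^(n+m)`;
`L ≥ 3^k 2^(n+m)` (`J ≥ 12`: `3^k ≤ 2^(N/10)`); by `St_Mix2`, `St_AvB`, `St_Mass` the sum over `z` is
`≤ 2 L (2^s 3^k / 3^(Jk) P(s)) / 3^k δ'`.  Total for `s`:
`≤ (2 · 3^(Jk) ℓ' / 2^s) (2 · 2^t / 3^(Jk+k₁)) (2 · 2 · 3^(Jk+k₁) X / 2^t) (2^s / 3^(Jk)) P(s) δ'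
= 16 ℓ' X P(s) δ'`; sum over `s`; `δ' = δ / 32`; the term `ℓ'/k · X` is `≤ (δ/2) ℓ' X`. -/
def St_Est : Prop := ∃ C₀ : ℝ, 0 < C₀ ∧ ∀ K : ℕ, 1 ≤ K → ∀ δ : ℝ, 0 < δ → ∃ J₀ : ℕ, ∀ J : ℕ, J₀ ≤ J →
  ∀ (C : ℕ) (A : Set ℤ) (σ : ℤ), (σ = 1 ∨ σ = -1) → EvInv C A → ∀ᶠ X : ℕ in atTop, ∀ k₁ k s' : ℕ,
  k₁ ^ 4 ≤ Nat.log 2 X → Rel J k k₁ X → k₁ ≤ s' → s' ≤ 3 * k₁ →
  ∑ x ∈ (Ico X (2 * X)).filter (fun x =>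
      Ev σ A (Nat.log 2 X / 10000) (2 * Dp K J k) (zz K J k k₁ x)),
    (((Ob σ (3 ^ k₁ * x / 2 ^ s') (3 ^ k₁ * x / 2 ^ s' + 3 ^ k₁ * ll X / 2 ^ s')).filter
      fun n => n ∉ A).card : ℝ) ≤
    3 ^ k₁ * ll X / 2 ^ s' * (C₀ * Real.exp (-(K / 4)) *
      ((Ico X (2 * X)).filter (fun x =>
        Ev σ A (Nat.log 2 X / 10000) (2 * Dp K J k) (zz K J k k₁ x))).card + δ * X)

open Classical in
/-- [Evt] `D² = 4 K² (√(Jk) + 1)² ≤ 10^6 K² n` for large `X` (`J k ≤ 3/4 (N+1)`), `St_Hit` with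
`10^6 K²` gives `c'` with `hh 0 n (D, 0) ≥ c'`; `a = 3^(Jk+k₁) / 2^t < 1`, `Z = ⌊a X⌋ + 1 ≥ 2^(6000 n)`.
By `St_D` (with `ε`) and `St_Per` (`∑_{i<2^n} wh n (D,0) (σ i) = 2^n hh`):
`#{z ∈ [Z, 2Z) : Ev z} ≥ (d - ε) Z c'`.  Every `z ∈ [Z, 2Z - 2)` is `zz x` for at least `1/a - 1 ≥ 1/(2a)`
integers `x ∈ [X, 2X)`.  `c = c' / 4` (if `d ≤ ε` nothing is claimed; `2 (d-ε) c' Z ≥ …` absorbs the
two lost `z`, because `Z → ∞`). -/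
def St_Evt : Prop := ∀ K : ℕ, 1 ≤ K → ∃ c : ℝ, 0 < c ∧ ∀ J : ℕ, 3 ≤ J → ∀ (C : ℕ) (A : Set ℤ) (σ : ℤ)
  (d : ℝ), (σ = 1 ∨ σ = -1) → EvInv C A → Dens σ A d → ∀ ε : ℝ, 0 < ε → ∀ᶠ X : ℕ in atTop,
  ∀ k₁ k : ℕ, k₁ ^ 4 ≤ Nat.log 2 X → Rel J k k₁ X →
  c * (d - ε) * X ≤ (((Ico X (2 * X)).filter (fun x =>
    Ev σ A (Nat.log 2 X / 10000) (2 * Dp K J k) (zz K J k k₁ x))).card : ℝ)

open Classical in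
/-- [Pers] From `St_Est`, `St_Evt`: `K` with `C₀ e^(-K/4) ≤ δ/2`, `c'` from `St_Evt`, `c = c'/2`,
`ε = d/2`, `St_Est` with `δ_E = δ/2 · c' d / 2`, `J = max 3 J₀`; `k` with `Rel` exists
(`exists_nat_pow_near`). -/
def St_Pers : Prop := ∀ δ : ℝ, 0 < δ → ∃ c : ℝ, 0 < c ∧ ∀ (C : ℕ) (A : Set ℤ) (σ : ℤ) (d : ℝ),
  (σ = 1 ∨ σ = -1) → EvInv C A → Dens σ A d → 0 < d → ∀ᶠ X : ℕ in atTop, ∀ k₁ : ℕ,
  k₁ ^ 4 ≤ Nat.log 2 X → ∃ G ⊆ Ico X (2 * X), c * d * X ≤ G.card ∧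
    ∀ s' : ℕ, k₁ ≤ s' → s' ≤ 3 * k₁ →
    ∑ x ∈ G, (((Ob σ (3 ^ k₁ * x / 2 ^ s') (3 ^ k₁ * x / 2 ^ s' + 3 ^ k₁ * ll X / 2 ^ s')).filter
      fun n => n ∉ A).card : ℝ) ≤ δ * G.card * (3 ^ k₁ * ll X / 2 ^ s')

/-! ### 7. Sieve -/

open Classical in
/-- [ResB] The proof of `PR.thm_Res` for the window `(α, α + ℓ]`: the `σ n` lie in `Ioc A (A + ⌊ℓ + 1⌋)`,
`A = ⌊α⌋` (for `σ = -1` the `n` lie in an interval of the same length), so `St_S1` with `X = ℓ + 1`. -/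
def St_ResB : Prop := ∀ κ : ℕ, 1 ≤ κ → ∃ C : ℝ, 0 < C ∧ ∀ (z : ℕ) (α ℓ : ℝ) (I k : ℕ)
  (G : Finset (List ℕ)) (σ : ℤ) (Ω : ℕ → Finset ℕ), G ⊆ words I k →
  (∀ w ∈ G, 100 * w.sum ≤ 201 * k) → 10 ≤ k → 2 ≤ z → (z : ℝ) ≤ ℓ → 2 ^ (6 * k) ≤ ℓ →
  Sys κ Ω → (σ = 1 ∨ σ = -1) →
  (((Ob σ α (α + ℓ)).filter fun n => Sf Ω z n ∧ ¬ Hit G (fun _ => Set.univ) n).card : ℝ) ≤
    C * ℓ * VV Ω z * (1 - P G + (1 / 2) ^ (k / 2))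

open Classical in
/-- [CSB] The proof of `PR.thm_CS` for the window `(α, α + ℓ]`. -/
def St_CSB : Prop := ∀ κ : ℕ, 1 ≤ κ → ∃ (C : ℝ) (I₀ : ℕ), 0 < C ∧ ∀ (I k s R B z : ℕ)
  (u α ℓ δ : ℝ) (σ : ℤ) (F : Set ℤ) (Ω : ℕ → Finset ℕ), I₀ ≤ I → 1 ≤ k → 1 ≤ u → 2 * R ≤ k →
  100 * s ≤ 201 * k → 2 ≤ z → (z : ℝ) ≤ ℓ → z ≤ 2 ^ B →
  (B : ℝ) ^ (8 * κ + 4) * (4 / 5) ^ (k / 2) ≤ 1 → 2 ^ (6 * k) ≤ ℓ → Sys κ Ω →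
  k * 3 ^ k ≤ 2 ^ s * VV Ω z → (σ = 1 ∨ σ = -1) → 0 ≤ α → 0 ≤ δ →
  (((Ob σ (3 ^ k * α / 2 ^ s - 2 ^ k) (3 ^ k * (α + ℓ) / 2 ^ s + 2 ^ k)).filter
    fun b => b ∈ F).card : ℝ) ≤ δ * (3 ^ k * ℓ / 2 ^ s + 2 * 2 ^ k) →
  (((Ob σ α (α + ℓ)).filter fun n => Sf Ω z n ∧
    Hit ((W2 u I k R).filter fun w => w.sum = s) (fun _ => F) n).card : ℝ) ≤
    C * ℓ * VV Ω z * (√(δ * u / k) * ((R : ℝ) + 1) ^ (4 * κ))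

open Classical in
/-- [SvB] Primes in a short interval.  `κ = 1`, `Ω p = {0}`, `z = ⌊ℓ⌋`, `ℓ = X^(3/10)`, `VV ≤ 1/log z ≤
4/log X` (`PRPrimes`: `sys_zero, VV_zero_le, prime_Sf`; a prime `p > X ≥ z`, `σ p` satisfies `Sf`),
`I = k = A₁ (log₂ log₂ X + 1)` with a large `A₁` (depending on the exponent in `thm_VL`),
`G = W2 u k k R ∩ {|sum - 2k| ≤ l √k}`.  The primes with `σ p ∈ F`, `p ∈ (x, x + ℓ]` are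
(a) not hit by `G`: `St_ResB`, with `1 - P G ≤ (1 - Z^k) + 1/u + C ρ^R + C e^(-l/2)`
(`thm_Tail1, 2, 3`, `P_words`, `one_sub_Z_pow`), or
(b) `σ p = en w b` with `w ∈ G`, and then `b ∈ F` by the hypothesis: `St_CSB` for each `s`, with `δ_s` = the
fraction of `F` in the window (the enlargement of the window by `2^k` on both sides adds at most
`2 (2^k + 1)` elements, negligible).  `∑_s √δ_s ≤ √((2 l √k + 1) (δ √k + …)) ≤ √(3 l k · 2 δ)` (Cauchy), so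
the sum over `s` is `≤ C (ℓ / log X) √(6 l δ u) (R + 1)^4`.
Choose `u`, `R`, `l`, then `δ`.  The conditions of `St_CSB`: `z ≤ 2^B` with `B = log₂ X + 1`,
`B^12 (4/5)^(k/2) ≤ 1`; `k 3^k ≤ 2^s VV`: `2^s ≥ 4^k / 2^(l √k)`, `VV ≥ c / (log z + 1)^A` (`thm_VL`). -/
def St_SvB : Prop := ∀ η : ℝ, 0 < η → ∃ (l : ℕ) (δ : ℝ), 1 ≤ l ∧ 0 < δ ∧ ∀ᶠ X : ℕ in atTop, ∃ k : ℕ,
  k ^ 4 ≤ Nat.log 2 X ∧ l ^ 2 ≤ k ∧ ∀ x : ℕ, X ≤ x → x ≤ 2 * X → ∀ σ : ℤ, (σ = 1 ∨ σ = -1) →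
  ∀ F : Set ℤ, (∀ w ∈ words k k, ∀ b : ℤ, b % 2 = 1 → rd w b → (X : ℤ) ≤ |en w b| →
    en w b ∈ F → b ∈ F) →
  ∑ s ∈ (range (3 * k + 1)).filter (fun s : ℕ => |(s : ℝ) - 2 * k| ≤ l * √k),
    (((Ob σ (3 ^ k * x / 2 ^ s) (3 ^ k * x / 2 ^ s + 3 ^ k * ll X / 2 ^ s)).filter
      fun b => b ∈ F).card : ℝ) / (3 ^ k * ll X / 2 ^ s) ≤ δ * √k →
  (((Icc X (3 * X)).filter (fun p : ℕ => p.Prime ∧ x < p ∧ (p : ℝ) ≤ x + ll X ∧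
    σ * (p : ℤ) ∈ F)).card : ℝ) ≤ η * ll X / Real.log X

open Classical in
/-- [Fin] `c₁` from `SI.gap` (`ε = 1/20`, `A = 2`), `η = c₁/4`, `l`, `δ` from `St_SvB`, `c₂` from `St_Pers`
with `δ / (6 l)`.  Large `X`, `k` from `St_SvB`, `k₁ = k`, `G` from `St_Pers`.  `F = Aᶜ` satisfies the
hypothesis of `St_SvB` (`T_en`: `T^[w.sum] (en w b) = b`, `w.sum ≤ k²`, `inv_iter`:
`2^(k²) C < X`).  `Σ(x)` := the sum over `s` in `St_SvB`; `k ≤ s ≤ 3k` there since `l² ≤ k`;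
`∑_{x ∈ G} Σ(x) ≤ (2 l √k + 1) δ/(6l) #G ≤ (δ/2) √k #G`, so at least half of the `x ∈ G` have
`Σ(x) ≤ δ √k`.  Remove from them the `x` with at most `c₁ ℓ / log X` primes in `(x, x + ℓ]`
(at most `X / log² X`).  Each of the remaining `≥ #G/3` integers `x` has
`≥ c₁ ℓ / log X - η ℓ / log X ≥ (c₁/2) ℓ / log X` primes `p` with `σ p ∈ A` in `(x, x + ℓ]`, and a prime is
counted for at most `ℓ + 1` integers `x`.  So `#{p ∈ [X, 3X] : σ p ∈ A} ≥ c₃ d X / log X`; take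
`X = ⌊x/3⌋`. -/
def St_Fin : Prop := ∃ c : ℝ, 0 < c ∧ ∀ (C : ℕ) (A : Set ℤ) (σ : ℤ) (d : ℝ), (σ = 1 ∨ σ = -1) →
  EvInv C A → Dens σ A d → 0 < d → ∀ᶠ x : ℝ in atTop,
  c * d * x / Real.log x ≤ (Set.ncard {p : ℕ | p.Prime ∧ (p : ℝ) ≤ x ∧ σ * (p : ℤ) ∈ A} : ℝ)

end Pool.Agent.CPR
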