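import Mathlib
import Pool.Agent.CPR.St

set_option autoImplicit false

/-!
# CPR: the average of `bad` over a period
-/

namespace Pool.Agent.CPR

open Finset Filter
open Pool.Agent.Helper86.CollatzChain (s0 s1 u w vv sum_affine)
open Pool.Agent.Helper14 (T)

theorem AvB_sum (hP : St_Per) (n m : ℕ) (s : ℕ × ℤ) (a c : ℤ)
    (ha : IsUnit (a : ZMod (2 ^ (n + m)))) :
    ∑ i ∈ range (2 ^ (n + m)), wc n m s (a * (i : ℤ) + c) = 2 ^ (n + m) * cr n m s := by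
  have h0 : NeZero (2 ^ (n + m)) := ⟨by positivity⟩
  obtain ⟨-, -, -, h4, -, h6⟩ := hP n m s
  rw [← h6]
  exact sum_affine h4 a c ha

theorem AvB_unit (N p : ℕ) (σ : ℤ) (hσ : σ = 1 ∨ σ = -1) :
    IsUnit ((3 ^ p * σ : ℤ) : ZMod (2 ^ N)) := by
  have h3 : IsUnit ((3 : ℕ) : ZMod (2 ^ N)) := by
    rw [ZMod.isUnit_iff_coprime]
    exact Nat.Coprime.pow_right N (by norm_num)
  have h3' : IsUnit ((3 : ZMod (2 ^ N)) ^ p) := by
    have h : IsUnit (3 : ZMod (2 ^ N)) := by exact_mod_cast h3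
    exact h.pow p
  rcases hσ with rfl | rfl
  · push_cast
    rw [mul_one]
    exact h3'
  · push_cast
    exact h3'.mul isUnit_one.neg

theorem AvB_log (D k : ℕ) (e : ℤ) (hD : 50 * D ≤ k) (hk : 100 ≤ k)
    (he : |e| ≤ 3 ^ D * (2 ^ D * (2 ^ (8 * k) + 1))) : Real.log (1 + |(e : ℝ)|) ≤ 8 * k := by
  have he' : |(e : ℝ)| ≤ 3 ^ D * (2 ^ D * (2 ^ (8 * k) + 1)) := by
    have h : ((|e| : ℤ) : ℝ) ≤ ((3 ^ D * (2 ^ D * (2 ^ (8 * k) + 1)) : ℤ) : ℝ) := by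
      exact_mod_cast he
    push_cast at h
    exact h
  have h6 : (1 : ℝ) ≤ 6 ^ D := one_le_pow₀ (by norm_num)
  have e6 : (3 : ℝ) ^ D * (2 ^ D * (2 ^ (8 * k) + 1)) = 6 ^ D * (2 ^ (8 * k) + 1) := by
    rw [← mul_assoc, ← mul_pow]
    norm_num
  have h8 : (1 : ℝ) ≤ 2 ^ (8 * k) := one_le_pow₀ (by norm_num)
  have hle : 1 + |(e : ℝ)| ≤ 6 ^ D * 2 ^ (8 * k + 2) := by
    rw [e6] at he'
    have e2 : (2 : ℝ) ^ (8 * k + 2) = 2 ^ (8 * k) * 4 := by rw [pow_add]; norm_num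
    rw [e2]
    nlinarith
  have hpos : 0 < 1 + |(e : ℝ)| := by
    have := abs_nonneg (e : ℝ)
    linarith
  have h1 := Real.log_le_log hpos hle
  rw [Real.log_mul (by positivity) (by positivity), Real.log_pow, Real.log_pow] at h1
  have l6 : Real.log 6 ≤ 5 := by
    have := Real.log_le_sub_one_of_pos (show (0 : ℝ) < 6 by norm_num)
    linarith
  have l2 : Real.log 2 ≤ 0.7 := by
    have := Real.log_two_lt_d9
    linarith
  have hD' : 50 * (D : ℝ) ≤ k := by exact_mod_cast hD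
  have hk' : (100 : ℝ) ≤ k := by exact_mod_cast hk
  have hD0 : (0 : ℝ) ≤ D := Nat.cast_nonneg D
  push_cast at h1
  have a1 : (D : ℝ) * Real.log 6 ≤ D * 5 := mul_le_mul_of_nonneg_left l6 hD0
  have a2 : (8 * (k : ℝ) + 2) * Real.log 2 ≤ (8 * (k : ℝ) + 2) * 0.7 :=
    mul_le_mul_of_nonneg_left l2 (by positivity)
  linarith

theorem thm_AvB (hC : St_Cross) (hP : St_Per) (hA : St_Par) : St_AvB := by
  intro δ hδ
  obtain ⟨ε, hε, m₀, hcr⟩ := hC (δ / 3) (by positivity)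
  refine ⟨max 3 ⌈24 / ε⌉₊, ?_⟩
  intro J hJ K hK
  have hJ3 : 3 ≤ J := (le_max_left _ _).trans hJ
  have hJε : 24 / ε ≤ J := (Nat.le_ceil _).trans (by exact_mod_cast (le_max_right _ _).trans hJ)
  filter_upwards [hA K J 100 hK hJ3, eventually_ge_atTop (2 ^ (2 * m₀ + 3))] with X hX hX2
  intro k₁ k hk₁ hRel r σ o hσ hr ho
  obtain ⟨hk, -, hDp, hJk, -, -⟩ := hX k₁ k hk₁ hRel
  have hN : 2 * m₀ + 3 ≤ Nat.log 2 X :=
    Nat.le_log_of_pow_le (by norm_num) hX2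
  set N := Nat.log 2 X with hNdef
  set n := N / 10000 with hn
  set m := N / 2 with hm
  set D := 2 * Dp K J k with hD
  have hD50 : 50 * D ≤ k := by omega
  have hm0 : m₀ ≤ m := by omega
  -- the logarithm
  have hlog : ∀ e : ℤ, |e| ≤ 3 ^ D * (2 ^ D * (2 ^ (8 * k) + 1)) →
      Real.log (1 + |(e : ℝ)|) ≤ ε * m := by
    intro e he
    refine (AvB_log D k e hD50 hk he).trans ?_
    have hJpos : (0 : ℝ) < J := by
      have : (3 : ℝ) ≤ J := by exact_mod_cast hJ3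
      linarith
    have h1 : 4 * ((J : ℝ) * k) ≤ 3 * (N + 1) := by exact_mod_cast hJk
    have h2 : (N : ℝ) ≤ 2 * m + 1 := by
      have : N ≤ 2 * m + 1 := by omega
      exact_mod_cast this
    have h3 : (1 : ℝ) ≤ m := by
      have : 1 ≤ m := by omega
      exact_mod_cast this
    have h4 : 24 ≤ ε * J := by
      rw [div_le_iff₀ hε] at hJε
      linarith
    have h5 : J * (8 * (k : ℝ)) ≤ J * (ε * m) := by
      have h6 : (24 : ℝ) * m ≤ ε * J * m := mul_le_mul_of_nonneg_right h4 (by positivity)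
      nlinarith
    exact le_of_mul_le_mul_left h5 hJpos
  -- the iterate
  have hT : |T^[r] (σ * o)| ≤ 2 ^ D * (2 ^ (8 * k) + 1) := by
    refine (abs_iter_le r (σ * o)).trans ?_
    have h1 : |σ * o| = |o| := by
      rw [abs_mul]
      rcases hσ with rfl | rfl <;> simp
    rw [h1]
    have h2 : (2 : ℤ) ^ r ≤ 2 ^ D := pow_le_pow_right₀ (by norm_num) hr
    have h3 : |o| + 1 ≤ 2 ^ (8 * k) + 1 := by linarith
    have h4 := abs_nonneg o
    exact mul_le_mul h2 h3 (by linarith) (by positivity)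
  have h3D : ∀ j : ℕ, j ≤ D → (3 : ℤ) ^ j ≤ 3 ^ D := fun j hj =>
    pow_le_pow_right₀ (by norm_num) hj
  have hc1 : cr n m (pc r (σ * o), T^[r] (σ * o)) ≤ δ / 3 := by
    apply hcr n m _ hm0
    apply hlog
    have h1 : (1 : ℤ) ≤ 3 ^ D := one_le_pow₀ (by norm_num)
    have h2 : (0 : ℤ) ≤ 2 ^ D * (2 ^ (8 * k) + 1) := by positivity
    calc |T^[r] (σ * o)| ≤ 1 * (2 ^ D * (2 ^ (8 * k) + 1)) := by rw [one_mul]; exact hT
      _ ≤ 3 ^ D * (2 ^ D * (2 ^ (8 * k) + 1)) := mul_le_mul_of_nonneg_right h1 h2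
  have hc2 : cr n m (D - pc r (σ * o), -3 ^ (D - pc r (σ * o)) * T^[r] (σ * o)) ≤ δ / 3 := by
    apply hcr n m _ hm0
    apply hlog
    rw [abs_mul, abs_neg, abs_pow]
    have h1 : |(3 : ℤ)| = 3 := by norm_num
    rw [h1]
    exact mul_le_mul (h3D _ (Nat.sub_le _ _)) hT (abs_nonneg _) (by positivity)
  have hc3 : cr n m (D, 0) ≤ δ / 3 := by
    apply hcr n m _ hm0
    apply hlog
    rw [abs_zero]
    positivity
  -- the sums
  have e1 : ∑ i ∈ range (2 ^ (n + m)), wc n m (pc r (σ * o), T^[r] (σ * o)) (σ * (i : ℤ)) =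
      2 ^ (n + m) * cr n m (pc r (σ * o), T^[r] (σ * o)) := by
    rw [← AvB_sum hP n m _ (3 ^ 0 * σ) 0 (AvB_unit _ 0 σ hσ)]
    apply sum_congr rfl
    intro i _
    rw [pow_zero, one_mul, add_zero]
  have e2 : ∑ i ∈ range (2 ^ (n + m)),
      wc n m (D - pc r (σ * o), -3 ^ (D - pc r (σ * o)) * T^[r] (σ * o))
        (3 ^ pc r (σ * o) * (σ * (i : ℤ)) + T^[r] (σ * o)) =
      2 ^ (n + m) * cr n m (D - pc r (σ * o), -3 ^ (D - pc r (σ * o)) * T^[r] (σ * o)) := by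
    rw [← AvB_sum hP n m _ (3 ^ pc r (σ * o) * σ) (T^[r] (σ * o)) (AvB_unit _ _ σ hσ)]
    apply sum_congr rfl
    intro i _
    rw [mul_assoc]
  have e3 : ∑ i ∈ range (2 ^ (n + m)), wc n m (D, 0) (σ * (i : ℤ)) =
      2 ^ (n + m) * cr n m (D, 0) := by
    rw [← AvB_sum hP n m _ (3 ^ 0 * σ) 0 (AvB_unit _ 0 σ hσ)]
    apply sum_congr rfl
    intro i _
    rw [pow_zero, one_mul, add_zero]
  unfold bad
  rw [sum_add_distrib, sum_add_distrib, e1, e2, e3]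
  have hp : (0 : ℝ) < 2 ^ (n + m) := by positivity
  nlinarith

end Pool.Agent.CPR
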