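import Mathlib
import Pool.Agent.CPR.St

set_option autoImplicit false

/-!
# CPR: module Blk
-/

namespace Pool.Agent.CPR

open Finset Filter
open Pool.Agent.Collatz3 (cw)
open Pool.Agent.Collatz3.Mix (words)
open Pool.Agent.Collatz3.PD (rd en Fw II P Per)
open Pool.Agent.Collatz3.FW (Hit)

/-- the lower end point is in the window -/
private theorem Blk_mem_Wi {σ : ℤ} (hσ : σ = 1 ∨ σ = -1) {α ℓ : ℝ} {k i : ℕ} {w : List ℕ} {b : ℤ}
    (hlen : w.length = i * k) (hcw : (cw w : ℝ) ≤ i * (5 / 4) ^ k * 2 ^ w.sum)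
    (hb : b % 2 = 1) (hr : rd w b) (hn : en w b ∈ Ob σ α (α + ℓ)) :
    b ∈ Wi σ α ℓ k i w.sum := by
  rw [mem_Ob hσ] at hn
  obtain ⟨_, h1, h2⟩ := hn
  unfold Wi
  rw [mem_Ob hσ]
  have h3 := Pool.Agent.Collatz3.PD.en_spec hr
  have h4 : (2 : ℤ) ^ w.sum * (σ * b) = 3 ^ w.length * (σ * en w b) + σ * cw w := by
    linear_combination -σ * h3
  have h5 : (2 : ℝ) ^ w.sum * ((σ * b : ℤ) : ℝ) =
      3 ^ w.length * ((σ * en w b : ℤ) : ℝ) + (σ : ℝ) * cw w := by exact_mod_cast h4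
  rw [hlen] at h5
  have hp : (0 : ℝ) < 2 ^ w.sum := by positivity
  have hp3 : (0 : ℝ) < 3 ^ (i * k) := by positivity
  have h6 : (0 : ℝ) ≤ cw w := Nat.cast_nonneg _
  have h7 : (σ : ℝ) * cw w ≤ cw w ∧ -(cw w : ℝ) ≤ (σ : ℝ) * cw w := by
    rcases hσ with h | h <;> rw [h] <;> push_cast <;> constructor <;> linarith
  have h8 : (3 : ℝ) ^ (i * k) * α < 3 ^ (i * k) * ((σ * en w b : ℤ) : ℝ) :=
    mul_lt_mul_of_pos_left h1 hp3
  have h9 : (3 : ℝ) ^ (i * k) * ((σ * en w b : ℤ) : ℝ) ≤ 3 ^ (i * k) * (α + ℓ) :=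
    mul_le_mul_of_nonneg_left h2 hp3.le
  refine ⟨hb, ?_, ?_⟩
  · rw [div_sub' hp.ne', div_lt_iff₀ hp]
    linarith [h7.2]
  · rw [div_add' _ _ _ hp.ne', le_div_iff₀ hp]
    linarith [h7.1]

open Classical in
/-- counting the integers which are hit -/
private theorem Blk_count (hJ : St_GJ) {J k : ℕ} (hJ3 : 3 ≤ J) {σ : ℤ} (hσ : σ = 1 ∨ σ = -1)
    (α ℓ : ℝ) (F : Set ℤ) :
    (((Ob σ α (α + ℓ)).filter fun n => ¬ Hit (GJ J k J) (fun _ => Fᶜ) n).card : ℝ) ≤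
      (((Ob σ α (α + ℓ)).filter fun n => ¬ Hit (GJ J k J) (fun _ => Set.univ) n).card : ℝ) +
      ∑ s ∈ Icc ((2 * J - 1) * k) ((2 * J + 1) * k),
        ∑ b ∈ (Wi σ α ℓ k J s).filter (fun b => b ∈ F), (NJ σ α ℓ J k J s b : ℝ) := by
  let X : Finset ℤ := (Icc ((2 * J - 1) * k) ((2 * J + 1) * k)).biUnion fun s =>
    ((Wi σ α ℓ k J s).filter (fun b => b ∈ F)).biUnion fun b =>
      ((GJ J k J).filter fun w => w.sum = s ∧ rd w b ∧ en w b ∈ Ob σ α (α + ℓ)).image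
        fun w => en w b
  have hsub : ((Ob σ α (α + ℓ)).filter fun n => ¬ Hit (GJ J k J) (fun _ => Fᶜ) n) ⊆
      ((Ob σ α (α + ℓ)).filter fun n => ¬ Hit (GJ J k J) (fun _ => Set.univ) n) ∪ X := by
    intro n hn
    rw [mem_filter] at hn
    obtain ⟨h1, h2⟩ := hn
    rw [mem_union]
    by_cases h3 : Hit (GJ J k J) (fun _ => Set.univ) n
    · right
      obtain ⟨w, hw, b, hb, hr, he, _⟩ := h3
      have hbF : b ∈ F := by
        by_contra hb'
        exact h2 ⟨w, hw, b, hb, hr, he, hb'⟩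
      obtain ⟨g1, g2, g3, g4⟩ := hJ J k J hJ3 w hw
      have hJ0 : 0 < J := by omega
      have hmem : en w b ∈ Ob σ α (α + ℓ) := by rw [he]; exact h1
      have hWi : b ∈ Wi σ α ℓ k J w.sum :=
        Blk_mem_Wi hσ (Pool.Agent.Collatz3.PD.words_length g1) g4 hb hr hmem
      have hs1 : (2 * J - 1) * k ≤ w.sum := by
        apply Nat.le_of_mul_le_mul_left _ hJ0
        have e1 : (2 * J - 1) * k = 2 * J * k - k := by rw [Nat.sub_mul, one_mul]
        have e2 : J * (2 * J * k - k) = 2 * J * (J * k) - J * k := by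
          rw [Nat.mul_sub]
          congr 1
          ring
        rw [e1, e2]
        omega
      have hs2 : w.sum ≤ (2 * J + 1) * k := by
        apply Nat.le_of_mul_le_mul_left _ hJ0
        have e2 : J * ((2 * J + 1) * k) = 2 * J * (J * k) + J * k := by ring
        rw [e2]
        exact g3
      show n ∈ (Icc ((2 * J - 1) * k) ((2 * J + 1) * k)).biUnion _
      rw [mem_biUnion]
      refine ⟨w.sum, mem_Icc.2 ⟨hs1, hs2⟩, ?_⟩
      rw [mem_biUnion]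
      refine ⟨b, mem_filter.2 ⟨hWi, hbF⟩, ?_⟩
      rw [mem_image]
      exact ⟨w, mem_filter.2 ⟨hw, rfl, hr, hmem⟩, he⟩
    · left
      exact mem_filter.2 ⟨h1, h3⟩
  have h1 : (X.card : ℝ) ≤ ∑ s ∈ Icc ((2 * J - 1) * k) ((2 * J + 1) * k),
        ∑ b ∈ (Wi σ α ℓ k J s).filter (fun b => b ∈ F), (NJ σ α ℓ J k J s b : ℝ) := by
    have h2 : X.card ≤ ∑ s ∈ Icc ((2 * J - 1) * k) ((2 * J + 1) * k),
        ∑ b ∈ (Wi σ α ℓ k J s).filter (fun b => b ∈ F), NJ σ α ℓ J k J s b := by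
      refine card_biUnion_le.trans (sum_le_sum fun s _ => ?_)
      refine card_biUnion_le.trans (sum_le_sum fun b _ => ?_)
      exact card_image_le
    exact_mod_cast h2
  have h2 : (((Ob σ α (α + ℓ)).filter fun n => ¬ Hit (GJ J k J) (fun _ => Fᶜ) n).card : ℝ) ≤
      (((Ob σ α (α + ℓ)).filter fun n => ¬ Hit (GJ J k J) (fun _ => Set.univ) n).card : ℝ) +
        (X.card : ℝ) := by
    exact_mod_cast (card_le_card hsub).trans (card_union_le _ _)
  linarith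

open Classical in
/-- [Blk] -/
theorem thm_Blk (hE : St_Exc) (hC : St_Cov) (hJ : St_GJ) : St_Blk := by
  intro J hJ3
  filter_upwards [hE J hJ3, hC J hJ3, eventually_ge_atTop (J ^ 2 + J)] with k h1 h2 hk
  intro σ hσ α ℓ F hα hℓ
  have hJ1 : 1 ≤ J := by omega
  have h3 := h1 σ hσ α ℓ hα hℓ J hJ1 le_rfl
  have h4 := h2 σ hσ α ℓ hα hℓ J le_rfl
  have h5 := Blk_count hJ (k := k) hJ3 hσ α ℓ F
  have hk1 : 1 ≤ k := by nlinarith
  have hkR : (1 : ℝ) ≤ k := by exact_mod_cast hk1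
  have hℓ0 : 0 < ℓ := by
    have g1 : (0 : ℝ) < 2 ^ ((2 * J + 6) * k) := by positivity
    have g2 : (0 : ℝ) < 3 ^ (J * k) := by positivity
    exact (mul_pos_iff_of_pos_left g2).1 (g1.trans_le hℓ)
  have h6 : ∑ s ∈ Icc ((2 * J - 1) * k) ((2 * J + 1) * k),
        ∑ b ∈ (Wi σ α ℓ k J s).filter (fun b => b ∈ F), (NJ σ α ℓ J k J s b : ℝ) ≤
      ∑ s ∈ Icc ((2 * J - 1) * k) ((2 * J + 1) * k),
        ∑ b ∈ (Wi σ α ℓ k J s).filter (fun b => b ∈ F), fJ k J s b +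
      ∑ s ∈ range (3 * J * k + 1), ∑ b ∈ Wi σ α ℓ k J s,
        max 0 ((NJ σ α ℓ J k J s b : ℝ) - fJ k J s b) := by
    have g1 : ∑ s ∈ Icc ((2 * J - 1) * k) ((2 * J + 1) * k),
        ∑ b ∈ (Wi σ α ℓ k J s).filter (fun b => b ∈ F), (NJ σ α ℓ J k J s b : ℝ) ≤
      ∑ s ∈ Icc ((2 * J - 1) * k) ((2 * J + 1) * k),
        (∑ b ∈ (Wi σ α ℓ k J s).filter (fun b => b ∈ F), fJ k J s b +
        ∑ b ∈ Wi σ α ℓ k J s, max 0 ((NJ σ α ℓ J k J s b : ℝ) - fJ k J s b)) := by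
      apply sum_le_sum
      intro s _
      have g2 : ∑ b ∈ (Wi σ α ℓ k J s).filter (fun b => b ∈ F), (NJ σ α ℓ J k J s b : ℝ) ≤
          ∑ b ∈ (Wi σ α ℓ k J s).filter (fun b => b ∈ F), (fJ k J s b +
            max 0 ((NJ σ α ℓ J k J s b : ℝ) - fJ k J s b)) := by
        apply sum_le_sum
        intro b _
        have := le_max_right 0 ((NJ σ α ℓ J k J s b : ℝ) - fJ k J s b)
        linarith
      rw [sum_add_distrib] at g2
      refine g2.trans (add_le_add le_rfl ?_)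
      exact sum_le_sum_of_subset_of_nonneg (filter_subset _ _) fun b _ _ => le_max_left _ _
    rw [sum_add_distrib] at g1
    refine g1.trans (add_le_add le_rfl ?_)
    apply sum_le_sum_of_subset_of_nonneg
    · intro s hs
      rw [mem_Icc] at hs
      rw [mem_range]
      have g2 : (2 * J + 1) * k ≤ 3 * J * k := Nat.mul_le_mul_right k (by omega)
      omega
    · intro s _ _
      exact sum_nonneg fun b _ => le_max_left _ _
  have h7 : (J : ℝ) ^ 2 * ℓ / (k : ℝ) ^ 2 + J * ℓ / (k : ℝ) ^ 2 ≤ ℓ / k := by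
    have g1 : ((J : ℝ) ^ 2 + J) ≤ k := by exact_mod_cast hk
    have g2 : (0 : ℝ) < k := by linarith
    rw [← add_div, div_le_div_iff₀ (by positivity) g2]
    have g3 : ((J : ℝ) ^ 2 + J) * (ℓ * k) ≤ k * (ℓ * k) :=
      mul_le_mul_of_nonneg_right g1 (by positivity)
    nlinarith
  linarith

end Pool.Agent.CPR
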