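import Mathlib
import Pool.Agent.CPR.St
import Pool.Agent.Collatz3.PRCS

set_option autoImplicit false

/-!
# CPR [CSB]: the inequality of Cauchy and Schwarz in a short window
-/

namespace Pool.Agent.CPR

open Finset
open Pool.Agent.Collatz3 (cw)
open Pool.Agent.Collatz3.Mix (words mem_words)
open Pool.Agent.Collatz3.PD (rd en P en_spec words_length)
open Pool.Agent.Collatz3.FW (Hit)
open Pool.Agent.Collatz3.PR (Sf VV W2 mem_W1 mem_W2 sg dl prs CS_cw' CS_class VV_nonneg)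
open Pool.Agent.Helper90.Straus (Sys)

/-- The integers of a window are in a half open interval. -/
theorem CSB_ioc {σ : ℤ} (hσ : σ = 1 ∨ σ = -1) (α ℓ : ℝ) :
    ∃ A : ℤ, ∀ n ∈ Ob σ α (α + ℓ), n ∈ Ioc A (A + ⌊ℓ + 1⌋) := by
  have h0 : ⌊ℓ + 1⌋ = ⌊ℓ⌋ + 1 := Int.floor_add_one ℓ
  have h1 : ⌊α + ℓ⌋ ≤ ⌊α⌋ + ⌊ℓ⌋ + 1 := by
    have a1 := Int.floor_le (α + ℓ)
    have a2 := Int.lt_floor_add_one α
    have a3 := Int.lt_floor_add_one ℓ
    have a4 : (⌊α + ℓ⌋ : ℝ) < ((⌊α⌋ + ⌊ℓ⌋ + 1 + 1 : ℤ) : ℝ) := by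
      push_cast
      linarith
    have a5 : ⌊α + ℓ⌋ < ⌊α⌋ + ⌊ℓ⌋ + 1 + 1 := by exact_mod_cast a4
    omega
  rcases hσ with h' | h'
  · refine ⟨⌊α⌋, fun n hn => ?_⟩
    obtain ⟨-, h2, h3⟩ := (mem_Ob (Or.inl h')).1 hn
    rw [h', one_mul] at h2 h3
    rw [mem_Ioc, h0]
    have h4 : n ≤ ⌊α + ℓ⌋ := Int.le_floor.2 h3
    have h5 : ⌊α⌋ < n := Int.floor_lt.2 h2
    omega
  · refine ⟨-⌊α + ℓ⌋ - 1, fun n hn => ?_⟩
    obtain ⟨-, h2, h3⟩ := (mem_Ob (Or.inr h')).1 hn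
    rw [h'] at h2 h3
    rw [mem_Ioc, h0]
    have h4 : -1 * n ≤ ⌊α + ℓ⌋ := Int.le_floor.2 h3
    have h5 : ⌊α⌋ < -1 * n := Int.floor_lt.2 h2
    omega

/-- The window of the lower end points. -/
theorem CSB_window {σ : ℤ} (hσ : σ = 1 ∨ σ = -1) {w : List ℕ} {b : ℤ} {k s : ℕ} {α β : ℝ}
    (hr : rd w b) (hl : w.length = k) (hs : w.sum = s) (hc : (cw w : ℝ) ≤ 2 ^ k * 2 ^ s)
    (h1 : α < ((σ * en w b : ℤ) : ℝ)) (h2 : ((σ * en w b : ℤ) : ℝ) ≤ β) :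
    3 ^ k * α / 2 ^ s - 2 ^ k < ((σ * b : ℤ) : ℝ) ∧
      ((σ * b : ℤ) : ℝ) ≤ 3 ^ k * β / 2 ^ s + 2 ^ k := by
  have e1 := en_spec hr
  rw [hl, hs] at e1
  have e2 : (3 : ℝ) ^ k * (en w b : ℝ) = 2 ^ s * (b : ℝ) - cw w := by exact_mod_cast e1
  have e3 : (2 : ℝ) ^ s * ((σ * b : ℤ) : ℝ) = 3 ^ k * ((σ * en w b : ℤ) : ℝ) + σ * cw w := by
    push_cast
    linear_combination (-(σ : ℝ)) * e2
  have hc0 : (0 : ℝ) ≤ cw w := Nat.cast_nonneg _
  have e4 : |(σ : ℝ) * cw w| ≤ 2 ^ k * 2 ^ s := by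
    have e5 : |(σ : ℝ)| = 1 := by
      rcases hσ with h | h <;> rw [h] <;> norm_num
    rw [abs_mul, e5, one_mul, abs_of_nonneg hc0]
    exact hc
  obtain ⟨e6, e7⟩ := abs_le.1 e4
  have hp : (0 : ℝ) < 2 ^ s := by positivity
  have hp3 : (0 : ℝ) < 3 ^ k := by positivity
  constructor
  · have : 3 ^ k * α / 2 ^ s < ((σ * b : ℤ) : ℝ) + 2 ^ k := by
      rw [div_lt_iff₀ hp]
      have h3 : (3 : ℝ) ^ k * α < 3 ^ k * ((σ * en w b : ℤ) : ℝ) :=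
        mul_lt_mul_of_pos_left h1 hp3
      nlinarith
    linarith
  · have : ((σ * b : ℤ) : ℝ) - 2 ^ k ≤ 3 ^ k * β / 2 ^ s := by
      rw [le_div_iff₀ hp]
      have h3 : (3 : ℝ) ^ k * ((σ * en w b : ℤ) : ℝ) ≤ 3 ^ k * β :=
        mul_le_mul_of_nonneg_left h2 hp3.le
      nlinarith
    linarith

open Classical in
theorem thm_CSB (hAvg : Pool.Agent.Collatz3.PR.St_Avg) (hS2 : Pool.Agent.Collatz3.PR.St_S2) :
    St_CSB := by
  intro κ hκ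
  obtain ⟨C₁, I₀, hC₁, hAvg⟩ := hAvg κ hκ
  obtain ⟨C₂, hC₂, hS2⟩ := hS2 κ hκ
  refine ⟨1 + 6 * C₁ * C₂, I₀, by positivity, ?_⟩
  intro I k s R B z u α ℓ δ σ F Ω hI hk hu hRk hs hz hzX hzB hB hX hΩ _ hσ hα hδ hF
  have hV := VV_nonneg hΩ z
  have hz2 : (2 : ℝ) ≤ z := by exact_mod_cast hz
  have hX0 : (0 : ℝ) < ℓ := by linarith
  have hk0 : (0 : ℝ) < k := by exact_mod_cast hk
  obtain ⟨Y, hY⟩ : ∃ Y : ℝ, Y = 3 ^ k * ℓ / 2 ^ s + 2 * 2 ^ k := ⟨_, rfl⟩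
  obtain ⟨OY, hOY⟩ : ∃ OY : Finset ℤ, OY = Ob σ (3 ^ k * α / 2 ^ s - 2 ^ k)
    (3 ^ k * (α + ℓ) / 2 ^ s + 2 ^ k) := ⟨_, rfl⟩
  rw [← hOY, ← hY] at hF
  obtain ⟨G, hG⟩ : ∃ G, G = (W2 u I k R).filter (fun w => w.sum = s) := ⟨_, rfl⟩
  have hGw : G ⊆ words I k := by
    intro w hw
    rw [hG, mem_filter, mem_W2, mem_W1] at hw
    exact hw.1.1.1
  have hlen : ∀ w ∈ G, w.length = k := fun w hw => words_length (hGw hw)
  have hpos : ∀ w ∈ G, ∀ i ∈ w, 1 ≤ i := fun w hw i hi => ((mem_words.1 (hGw hw)).2 i hi).1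
  have hsum : ∀ w ∈ G, w.sum = s := fun w hw => by
    rw [hG, mem_filter] at hw
    exact hw.2
  obtain ⟨S, hS⟩ : ∃ S, S = OY.filter (fun b => b ∈ F) := ⟨_, rfl⟩
  obtain ⟨Ab, hAb⟩ : ∃ Ab : ℤ → Finset (List ℕ), Ab = fun b => G.filter fun w => rd w b ∧
    en w b ∈ Ob σ α (α + ℓ) ∧ Sf Ω z (en w b) := ⟨_, rfl⟩
  have memAb : ∀ (b : ℤ) (w : List ℕ), w ∈ Ab b ↔ w ∈ G ∧ rd w b ∧
      en w b ∈ Ob σ α (α + ℓ) ∧ Sf Ω z (en w b) := by
    intro b w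
    rw [hAb, mem_filter]
  obtain ⟨T, hT⟩ : ∃ T, T = prs (W2 u I k R) s k := ⟨_, rfl⟩
  -- step A
  have hA : (((Ob σ α (α + ℓ)).filter fun n => Sf Ω z n ∧ Hit G (fun _ => F) n).card : ℝ) ≤
      ∑ b ∈ S, ((Ab b).card : ℝ) := by
    have h1 : (Ob σ α (α + ℓ)).filter (fun n => Sf Ω z n ∧ Hit G (fun _ => F) n) ⊆
        S.biUnion fun b => (Ab b).image fun w => en w b := by
      intro n hn
      rw [mem_filter] at hn
      obtain ⟨hn1, hn2, w, hw, b, hb, hr, hen, hbF⟩ := hn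
      have hn3 := (mem_Ob hσ).1 hn1
      rw [mem_biUnion]
      refine ⟨b, ?_, ?_⟩
      · rw [hS, mem_filter, hOY, mem_Ob hσ]
        have h2 := CSB_window hσ hr (hlen w hw) (hsum w hw) (α := α) (β := α + ℓ)
          (by rw [← hlen w hw, ← hsum w hw]; exact CS_cw' (hpos w hw))
          (by rw [hen]; exact hn3.2.1) (by rw [hen]; exact hn3.2.2)
        exact ⟨⟨hb, h2.1, h2.2⟩, hbF⟩
      · rw [mem_image]
        refine ⟨w, ?_, hen⟩
        rw [memAb]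
        exact ⟨hw, hr, by rw [hen]; exact hn1, by rw [hen]; exact hn2⟩
    have h2 : ((Ob σ α (α + ℓ)).filter (fun n => Sf Ω z n ∧ Hit G (fun _ => F) n)).card ≤
        ∑ b ∈ S, (Ab b).card := by
      refine (card_le_card h1).trans (card_biUnion_le.trans ?_)
      exact sum_le_sum fun b _ => card_image_le
    exact_mod_cast h2
  -- step C, D
  have hD : ∀ p ∈ T, ((OY.filter fun b => p.1 ∈ Ab b ∧ p.2 ∈ Ab b).card : ℝ) ≤
      C₂ * ((ℓ + 1) / 2 ^ s) * VV Ω z ^ 2 * sg κ Ω z (dl k p) := by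
    intro p hp
    by_cases hpG : p.1 ∈ G ∧ p.2 ∈ G
    · obtain ⟨h1, h2⟩ := hpG
      obtain ⟨r, hr⟩ := CS_class p.1
      obtain ⟨A, hA⟩ := CSB_ioc hσ α ℓ
      have h4s : (4 : ℝ) ^ s ≤ ℓ + 1 := by
        refine le_trans ?_ (hX.trans (by linarith))
        rw [show (4 : ℝ) = 2 ^ 2 by norm_num, ← pow_mul]
        exact pow_le_pow_right₀ (by norm_num) (by omega)
      have h3 := hS2 z (ℓ + 1) s A r (dl k p) Ω hz (by linarith) h4s hΩ
      refine le_trans ?_ h3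
      have h4 : (OY.filter fun b => p.1 ∈ Ab b ∧ p.2 ∈ Ab b).card ≤
          ((Ioc A (A + ⌊ℓ + 1⌋)).filter fun n => Sf Ω z n ∧ Sf Ω z (n + dl k p) ∧
            (2 : ℤ) ^ s ∣ n - r).card := by
        apply card_le_card_of_injOn (fun b => en p.1 b)
        · intro b hb
          rw [mem_coe, mem_filter] at hb
          obtain ⟨-, hb1, hb2⟩ := hb
          rw [memAb] at hb1 hb2
          obtain ⟨-, r1, o1, f1⟩ := hb1
          obtain ⟨-, r2, o2, f2⟩ := hb2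
          rw [mem_coe, mem_filter]
          refine ⟨hA _ o1, f1, ?_, ?_⟩
          · have e1 := en_spec r1
            have e2 := en_spec r2
            rw [hlen _ h1, hsum _ h1] at e1
            rw [hlen _ h2, hsum _ h2] at e2
            have e3 : (cw p.1 : ℤ) - cw p.2 = 3 ^ k * (en p.2 b - en p.1 b) := by linarith
            have e4 : dl k p = en p.2 b - en p.1 b := by
              unfold dl
              rw [e3, Int.mul_ediv_cancel_left _ (by positivity)]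
            rw [e4, add_sub_cancel]
            exact f2
          · have := hr b r1
            rwa [hsum _ h1] at this
        · intro b hb b' hb' hbb
          rw [mem_coe, mem_filter] at hb hb'
          obtain ⟨-, hb1, -⟩ := hb
          obtain ⟨-, hb1', -⟩ := hb'
          rw [memAb] at hb1 hb1'
          have e1 := en_spec hb1.2.1
          have e2 := en_spec hb1'.2.1
          simp only at hbb
          rw [hbb, e2] at e1
          have e3 : (2 : ℤ) ^ p.1.sum * b' = 2 ^ p.1.sum * b := by linarith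
          exact (mul_left_cancel₀ (pow_ne_zero _ (by norm_num)) e3).symm
      exact_mod_cast h4
    · have h1 : (OY.filter fun b => p.1 ∈ Ab b ∧ p.2 ∈ Ab b) = ∅ := by
        rw [filter_eq_empty_iff]
        intro b _ hb
        exact hpG ⟨((memAb _ _).1 hb.1).1, ((memAb _ _).1 hb.2).1⟩
      rw [h1, card_empty, Nat.cast_zero]
      have h2 : 0 ≤ sg κ Ω z (dl k p) := by
        unfold sg
        exact prod_nonneg fun _ _ => by positivity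
      positivity
  have hC : ∑ b ∈ S, ((Ab b).card : ℝ) ^ 2 ≤
      C₂ * ((ℓ + 1) / 2 ^ s) * VV Ω z ^ 2 * ∑ p ∈ T, sg κ Ω z (dl k p) := by
    have h1 : ∀ b, ((Ab b).card : ℝ) ^ 2 ≤
        ∑ p ∈ T, if p.1 ∈ Ab b ∧ p.2 ∈ Ab b then (1 : ℝ) else 0 := by
      intro b
      rw [← sum_filter, sum_const, nsmul_eq_mul, mul_one, pow_two]
      have h2 : Ab b ×ˢ Ab b ⊆ T.filter fun p => p.1 ∈ Ab b ∧ p.2 ∈ Ab b := by
        intro p hp
        rw [mem_product] at hp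
        obtain ⟨g1, g2⟩ := hp
        rw [mem_filter]
        refine ⟨?_, g1, g2⟩
        rw [memAb] at g1 g2
        obtain ⟨h1, r1, -, -⟩ := g1
        obtain ⟨h2, r2, -, -⟩ := g2
        rw [hT]
        unfold prs
        rw [mem_filter, mem_product]
        rw [rd, hlen _ h1, hsum _ h1] at r1
        rw [rd, hlen _ h2, hsum _ h2] at r2
        rw [hG, mem_filter] at h1 h2
        refine ⟨⟨h1.1, h2.1⟩, h1.2, h2.2, ?_⟩
        have e1 : (cw p.1 : ℤ) - cw p.2 = (2 ^ s * b - cw p.2) - (2 ^ s * b - cw p.1) := by ring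
        rw [e1]
        exact dvd_sub r2 r1
      have h3 := card_le_card h2
      rw [card_product] at h3
      exact_mod_cast h3
    calc ∑ b ∈ S, ((Ab b).card : ℝ) ^ 2 ≤ ∑ b ∈ OY, ((Ab b).card : ℝ) ^ 2 := by
          rw [hS]
          exact sum_le_sum_of_subset_of_nonneg (filter_subset _ _) fun _ _ _ => by positivity
      _ ≤ ∑ b ∈ OY, ∑ p ∈ T, (if p.1 ∈ Ab b ∧ p.2 ∈ Ab b then (1 : ℝ) else 0) :=
          sum_le_sum fun b _ => h1 b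
      _ = ∑ p ∈ T, ((OY.filter fun b => p.1 ∈ Ab b ∧ p.2 ∈ Ab b).card : ℝ) := by
          rw [sum_comm]
          apply sum_congr rfl
          intro p _
          rw [← sum_filter, sum_const, nsmul_eq_mul, mul_one]
      _ ≤ ∑ p ∈ T, C₂ * ((ℓ + 1) / 2 ^ s) * VV Ω z ^ 2 * sg κ Ω z (dl k p) := sum_le_sum hD
      _ = _ := by rw [mul_sum]
  -- Cauchy-Schwarz
  have hcs : (∑ b ∈ S, ((Ab b).card : ℝ)) ^ 2 ≤ (S.card : ℝ) * ∑ b ∈ S, ((Ab b).card : ℝ) ^ 2 :=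
    sq_sum_le_card_mul_sum_sq
  have hav := hAvg I k s R B z u Ω hI hk hu hRk hΩ hzB hB
  rw [← hT] at hav
  have hYle : Y ≤ 3 * (3 ^ k * ℓ / 2 ^ s) := by
    have h1 : (2 : ℝ) ^ k ≤ 3 ^ k * ℓ / 2 ^ s := by
      rw [le_div_iff₀ (by positivity), ← pow_add]
      calc (2 : ℝ) ^ (k + s) ≤ 2 ^ (6 * k) := pow_le_pow_right₀ (by norm_num) (by omega)
        _ ≤ ℓ := hX
        _ ≤ 3 ^ k * ℓ := le_mul_of_one_le_left hX0.le (one_le_pow₀ (by norm_num))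
    rw [hY]
    linarith
  have hY0 : 0 ≤ Y := by
    rw [hY]
    positivity
  obtain ⟨Q, hQ⟩ : ∃ Q : ℝ, Q = VV Ω z ^ 2 *
    (C₁ * ((R : ℝ) + 1) ^ (8 * κ) * u * 4 ^ s / (k * 3 ^ k)) := ⟨_, rfl⟩
  have hQ0 : 0 ≤ Q := by
    rw [hQ]
    positivity
  have h1 : (∑ b ∈ S, ((Ab b).card : ℝ)) ^ 2 ≤ (δ * Y) * (C₂ * ((ℓ + 1) / 2 ^ s) * Q) := by
    refine hcs.trans ?_
    rw [← hS] at hF
    apply mul_le_mul hF _ (sum_nonneg fun _ _ => by positivity) (by positivity)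
    refine hC.trans ?_
    rw [hQ]
    calc C₂ * ((ℓ + 1) / 2 ^ s) * VV Ω z ^ 2 * ∑ p ∈ T, sg κ Ω z (dl k p)
        ≤ C₂ * ((ℓ + 1) / 2 ^ s) * VV Ω z ^ 2 *
          (C₁ * ((R : ℝ) + 1) ^ (8 * κ) * u * 4 ^ s / (k * 3 ^ k)) :=
          mul_le_mul_of_nonneg_left hav (by positivity)
      _ = _ := by ring
  have h2 : (δ * Y) * (C₂ * ((ℓ + 1) / 2 ^ s) * Q) ≤ ((1 + 6 * C₁ * C₂) * ℓ * VV Ω z *
      (√(δ * u / k) * ((R : ℝ) + 1) ^ (4 * κ))) ^ 2 := by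
    have e1 : ((1 + 6 * C₁ * C₂) * ℓ * VV Ω z * (√(δ * u / k) * ((R : ℝ) + 1) ^ (4 * κ))) ^ 2 =
        (1 + 6 * C₁ * C₂) ^ 2 * (ℓ ^ 2 * VV Ω z ^ 2 * (δ * u / k) * ((R : ℝ) + 1) ^ (8 * κ)) := by
      have e2 : √(δ * u / k) ^ 2 = δ * u / k := Real.sq_sqrt (by positivity)
      have e3 : (((R : ℝ) + 1) ^ (4 * κ)) ^ 2 = ((R : ℝ) + 1) ^ (8 * κ) := by
        rw [← pow_mul]
        congr 1
        ring
      rw [mul_pow, mul_pow, mul_pow, mul_pow, e2, e3]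
      ring
    rw [e1]
    have e4 : 6 * C₁ * C₂ ≤ (1 + 6 * C₁ * C₂) ^ 2 := by nlinarith [mul_pos hC₁ hC₂]
    have e6 : ℓ + 1 ≤ 2 * ℓ := by linarith
    calc (δ * Y) * (C₂ * ((ℓ + 1) / 2 ^ s) * Q)
        ≤ (δ * (3 * (3 ^ k * ℓ / 2 ^ s))) * (C₂ * ((2 * ℓ) / 2 ^ s) * Q) := by
          apply mul_le_mul (mul_le_mul_of_nonneg_left hYle hδ) _ (by positivity) (by positivity)
          exact mul_le_mul_of_nonneg_right (mul_le_mul_of_nonneg_left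
            (div_le_div_of_nonneg_right e6 (by positivity)) hC₂.le) hQ0
      _ = 6 * C₁ * C₂ * (ℓ ^ 2 * VV Ω z ^ 2 * (δ * u / k) * ((R : ℝ) + 1) ^ (8 * κ)) := by
          have e5 : (4 : ℝ) ^ s = 2 ^ s * 2 ^ s := by
            rw [← mul_pow]
            norm_num
          rw [hQ, e5]
          field_simp
          ring
      _ ≤ _ := mul_le_mul_of_nonneg_right e4 (by positivity)
  rw [← hG]
  refine hA.trans ?_
  exact le_of_sq_le_sq (h1.trans h2) (by positivity)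

end Pool.Agent.CPR
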