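import Pool.Agent.CPR.St

set_option autoImplicit false

/-!
# CPR: the integers of a window that are not hit by words of good blocks
-/

namespace Pool.Agent.CPR

open Finset Filter
open Pool.Agent.Collatz3 (cw)
open Pool.Agent.Collatz3.Mix (words mem_words)
open Pool.Agent.Collatz3.PD (rd en Fw II P Per cat en_spec rd_append en_append rd_nil en_nil
  P_words Z_nonneg Z_le_one P_nonneg)
open Pool.Agent.Collatz3.FW (Hit)

/-- The lower end point lies in the window `Wi`. -/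
private theorem Cov_mem_Wi {σ : ℤ} (hσ : σ = 1 ∨ σ = -1) {α ℓ : ℝ} {k i : ℕ} {w : List ℕ}
    (hcw : (cw w : ℝ) ≤ i * (5 / 4) ^ k * 2 ^ w.sum) (hlen : w.length = i * k) {b : ℤ}
    (hr : rd w b) (hb : b % 2 = 1) (hn : en w b ∈ Ob σ α (α + ℓ)) :
    b ∈ Wi σ α ℓ k i w.sum := by
  rw [mem_Ob hσ] at hn
  obtain ⟨-, hn1, hn2⟩ := hn
  unfold Wi
  rw [mem_Ob hσ]
  have h1 := en_spec hr
  have h2 : (2 : ℤ) ^ w.sum * (σ * b) = 3 ^ (i * k) * (σ * en w b) + σ * cw w := by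
    rw [← hlen]
    linear_combination -σ * h1
  have h3 : (2 : ℝ) ^ w.sum * ((σ * b : ℤ) : ℝ) =
      3 ^ (i * k) * ((σ * en w b : ℤ) : ℝ) + (σ : ℝ) * cw w := by exact_mod_cast h2
  have hp : (0 : ℝ) < 2 ^ w.sum := by positivity
  have h5 : (0 : ℝ) ≤ cw w := Nat.cast_nonneg _
  have h4 : (σ : ℝ) * cw w ≤ i * (5 / 4) ^ k * 2 ^ w.sum := by
    rcases hσ with h' | h' <;> rw [h'] <;> push_cast <;> linarith
  have h4' : -(i * (5 / 4) ^ k * 2 ^ w.sum) ≤ (σ : ℝ) * cw w := by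
    rcases hσ with h' | h' <;> rw [h'] <;> push_cast <;> linarith
  have h6 : (3 : ℝ) ^ (i * k) * α < 3 ^ (i * k) * ((σ * en w b : ℤ) : ℝ) :=
    mul_lt_mul_of_pos_left hn1 (by positivity)
  have h7 : (3 : ℝ) ^ (i * k) * ((σ * en w b : ℤ) : ℝ) ≤ 3 ^ (i * k) * (α + ℓ) :=
    mul_le_mul_of_nonneg_left hn2 (by positivity)
  refine ⟨hb, ?_, ?_⟩
  · rw [sub_lt_iff_lt_add, div_lt_iff₀ hp]
    linarith
  · rw [← sub_le_iff_le_add, le_div_iff₀ hp]
    linarith

/-- The size of the windows. -/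
private theorem Cov_size {J k i : ℕ} {ℓ : ℝ} (hi : i ≤ J)
    (h : (2 : ℝ) ^ ((2 * J + 6) * k) ≤ 3 ^ (J * k) * ℓ) :
    (2 : ℝ) ^ ((2 * i + 6) * k) ≤ 3 ^ (i * k) * ℓ := by
  obtain ⟨d, rfl⟩ := Nat.exists_eq_add_of_le hi
  have hℓ : 0 < ℓ := by
    by_contra hcon
    push Not at hcon
    have h1 : (3 : ℝ) ^ ((i + d) * k) * ℓ ≤ 0 :=
      mul_nonpos_of_nonneg_of_nonpos (by positivity) hcon
    have h2 : (0 : ℝ) < 2 ^ ((2 * (i + d) + 6) * k) := by positivity
    linarith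
  have e1 : (2 : ℝ) ^ ((2 * (i + d) + 6) * k) = 2 ^ ((2 * i + 6) * k) * 4 ^ (d * k) := by
    have : (4 : ℝ) = 2 ^ 2 := by norm_num
    rw [this, ← pow_mul, ← pow_add]
    congr 1
    ring
  have e2 : (3 : ℝ) ^ ((i + d) * k) * ℓ = 3 ^ (i * k) * ℓ * 3 ^ (d * k) := by
    rw [add_mul, pow_add]
    ring
  have h3 : (3 : ℝ) ^ (d * k) ≤ 4 ^ (d * k) := pow_le_pow_left₀ (by norm_num) (by norm_num) _
  rw [e1, e2] at h
  have h4 : 3 ^ (i * k) * ℓ * 3 ^ (d * k) ≤ 3 ^ (i * k) * ℓ * 4 ^ (d * k) :=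
    mul_le_mul_of_nonneg_left h3 (by positivity)
  exact le_of_mul_le_mul_right (h.trans h4) (by positivity)

/-- The sums of the words. -/
private theorem Cov_P_sum (S : Finset ℕ) (W : Finset (List ℕ)) :
    ∑ s ∈ S, P (W.filter fun w => w.sum = s) ≤ P W := by
  unfold P
  simp only [sum_filter]
  rw [sum_comm]
  refine sum_le_sum fun w _ => ?_
  rw [sum_ite_eq]
  split_ifs
  · exact le_rfl
  · positivity

open Classical in
/-- The integers hit by `GJ J k i` at an integer that is not hit by `Gs J k`. -/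
private theorem Cov_card (hJ' : St_GJ) {J : ℕ} (hJ : 3 ≤ J) {σ : ℤ} (hσ : σ = 1 ∨ σ = -1)
    {α ℓ : ℝ} {k i : ℕ} (hi : i ≤ J) :
    (((Ob σ α (α + ℓ)).filter fun n => Hit (GJ J k i)
      (fun _ => {b | ¬ Hit (Gs J k) (fun _ => Set.univ) b}) n).card : ℝ) ≤
    ∑ s ∈ (range (3 * J * k + 1)).filter
        (fun s => 2 * J * (i * k) ≤ J * s + i * k ∧ J * s ≤ 2 * J * (i * k) + i * k),
      ∑ b ∈ (Wi σ α ℓ k i s).filter (fun b => ¬ Hit (Gs J k) (fun _ => Set.univ) b),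
        (NJ σ α ℓ J k i s b : ℝ) := by
  have hsub : (Ob σ α (α + ℓ)).filter (fun n => Hit (GJ J k i)
      (fun _ => {b | ¬ Hit (Gs J k) (fun _ => Set.univ) b}) n) ⊆
      (((range (3 * J * k + 1)).filter
        (fun s => 2 * J * (i * k) ≤ J * s + i * k ∧ J * s ≤ 2 * J * (i * k) + i * k)).sigma
        fun s => ((Wi σ α ℓ k i s).filter
          (fun b => ¬ Hit (Gs J k) (fun _ => Set.univ) b)).sigma
        fun b => (GJ J k i).filter fun w => w.sum = s ∧ rd w b ∧ en w b ∈ Ob σ α (α + ℓ)).image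
      fun p => en p.2.2 p.2.1 := by
    intro n hn
    rw [mem_filter] at hn
    obtain ⟨h1, w, hw, b, hb, hr, rfl, hB⟩ := hn
    obtain ⟨g1, g2, g3, g4⟩ := hJ' J k i hJ w hw
    rw [mem_words] at g1
    rw [mem_image]
    refine ⟨⟨w.sum, b, w⟩, ?_, rfl⟩
    rw [mem_sigma, mem_sigma, mem_filter, mem_filter, mem_filter, mem_range]
    refine ⟨⟨?_, g2, g3⟩, ⟨Cov_mem_Wi hσ g4 g1.1 hr hb h1, hB⟩, hw, rfl, hr, h1⟩
    show w.sum < 3 * J * k + 1
    have h2 : i * k ≤ J * k := Nat.mul_le_mul_right _ hi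
    have h3 : J * w.sum ≤ J * (3 * J * k) := by
      have h4 : 2 * J * (i * k) ≤ 2 * J * (J * k) := Nat.mul_le_mul_left _ h2
      have h5 : J * k ≤ J * (J * k) := Nat.le_mul_of_pos_left _ (by omega)
      have h6 : J * (3 * J * k) = 2 * J * (J * k) + J * (J * k) := by ring
      omega
    have h4 := Nat.le_of_mul_le_mul_left h3 (by omega)
    omega
  have h1 := (card_le_card hsub).trans card_image_le
  rw [card_sigma] at h1
  have h2 : (((Ob σ α (α + ℓ)).filter fun n => Hit (GJ J k i)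
      (fun _ => {b | ¬ Hit (Gs J k) (fun _ => Set.univ) b}) n).card : ℝ) ≤
      ((∑ s ∈ (range (3 * J * k + 1)).filter
        (fun s => 2 * J * (i * k) ≤ J * s + i * k ∧ J * s ≤ 2 * J * (i * k) + i * k),
        (((Wi σ α ℓ k i s).filter
          (fun b => ¬ Hit (Gs J k) (fun _ => Set.univ) b)).sigma
        fun b => (GJ J k i).filter fun w => w.sum = s ∧ rd w b ∧
          en w b ∈ Ob σ α (α + ℓ)).card : ℕ) : ℝ) := by
    exact_mod_cast h1
  refine h2.trans (le_of_eq ?_)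
  push_cast
  refine sum_congr rfl fun s _ => ?_
  rw [card_sigma]
  push_cast
  rfl

open Classical in
/-- One step. -/
private theorem Cov_step (hM : St_Mass) (hJ' : St_GJ) {J : ℕ} (hJ : 3 ≤ J) {k : ℕ} (hk2 : 2 ≤ k)
    (hkJ : J ≤ k) {σ : ℤ} (hσ : σ = 1 ∨ σ = -1) {α ℓ : ℝ}
    (hN : ∀ (κ : ℕ) (f : ℤ → ℝ), Per κ f → (∀ x, 0 ≤ f x) → ∀ α L : ℝ, 2 ^ (3 * k) * 3 ^ κ ≤ L →
      ∑ n ∈ (Ob σ α (α + L)).filter (fun n => ¬ Hit (Gs J k) (fun _ => Set.univ) n), f n ≤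
        L / (3 ^ κ * (k : ℝ) ^ 6) * ∑ x ∈ range (3 ^ κ), f x)
    (hE : ∀ i : ℕ, 1 ≤ i → i ≤ J → ∑ s ∈ range (3 * J * k + 1), ∑ b ∈ Wi σ α ℓ k i s,
      max 0 ((NJ σ α ℓ J k i s b : ℝ) - fJ k i s b) ≤ i * ℓ / (k : ℝ) ^ 2)
    (hℓ : (2 : ℝ) ^ ((2 * J + 6) * k) ≤ 3 ^ (J * k) * ℓ) {i : ℕ} (hi1 : 1 ≤ i) (hi : i ≤ J) :
    (((Ob σ α (α + ℓ)).filter fun n => Hit (GJ J k i)
      (fun _ => {b | ¬ Hit (Gs J k) (fun _ => Set.univ) b}) n).card : ℝ) ≤
    i * ℓ / (k : ℝ) ^ 2 + 2 * ℓ / (k : ℝ) ^ 6 := by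
  have hk0 : (0 : ℝ) < k := by
    have : 0 < k := by omega
    exact_mod_cast this
  have hsz := Cov_size hi hℓ
  have hℓ0 : 0 < ℓ := by
    have h0 := Cov_size (Nat.zero_le J) hℓ
    rw [Nat.zero_mul, pow_zero, one_mul] at h0
    exact lt_of_lt_of_le (by positivity) h0
  refine (Cov_card hJ' hJ hσ hi).trans ?_
  have hsplit : ∀ s ∈ (range (3 * J * k + 1)).filter
        (fun s => 2 * J * (i * k) ≤ J * s + i * k ∧ J * s ≤ 2 * J * (i * k) + i * k),
      ∑ b ∈ (Wi σ α ℓ k i s).filter (fun b => ¬ Hit (Gs J k) (fun _ => Set.univ) b),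
        (NJ σ α ℓ J k i s b : ℝ) ≤
      2 * ℓ / (k : ℝ) ^ 6 * P ((words (II k) (i * k)).filter fun w => w.sum = s) +
        ∑ b ∈ Wi σ α ℓ k i s, max 0 ((NJ σ α ℓ J k i s b : ℝ) - fJ k i s b) := by
    intro s hs
    rw [mem_filter] at hs
    obtain ⟨-, -, hs2⟩ := hs
    have hs3 : s ≤ (2 * i + 1) * k := by
      have h1 : i * k ≤ J * k := Nat.mul_le_mul_right _ hi
      have h2 : J * s ≤ J * ((2 * i + 1) * k) := by
        calc J * s ≤ 2 * J * (i * k) + i * k := hs2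
          _ ≤ 2 * J * (i * k) + J * k := by omega
          _ = J * ((2 * i + 1) * k) := by ring
      exact Nat.le_of_mul_le_mul_left h2 (by omega)
    have h2s : (0 : ℝ) < 2 ^ s := by positivity
    have hwin : (2 : ℝ) ^ (5 * k) ≤ 3 ^ (i * k) * ℓ / 2 ^ s := by
      rw [le_div_iff₀ h2s]
      refine le_trans ?_ hsz
      rw [← pow_add]
      refine pow_le_pow_right₀ (by norm_num) ?_
      have e : (2 * i + 6) * k = 5 * k + (2 * i + 1) * k := by ring
      omega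
    have hb5 : 2 * (i * (5 / 4 : ℝ) ^ k) ≤ 2 ^ (5 * k) := by
      have h1 : (i : ℝ) ≤ 2 ^ k := by
        have h2 : i < 2 ^ k := lt_of_le_of_lt (hi.trans hkJ) Nat.lt_two_pow_self
        exact_mod_cast h2.le
      have h3 : (2 : ℝ) ≤ 2 ^ k := by
        calc (2 : ℝ) = 2 ^ 1 := by norm_num
          _ ≤ 2 ^ k := pow_le_pow_right₀ (by norm_num) (by omega)
      calc 2 * (i * (5 / 4 : ℝ) ^ k) ≤ 2 ^ k * (2 ^ k * (5 / 4 : ℝ) ^ k) := by
            refine mul_le_mul h3 (mul_le_mul_of_nonneg_right h1 (by positivity)) (by positivity)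
              (by positivity)
        _ = 5 ^ k := by
            rw [← mul_pow, ← mul_pow]
            norm_num
        _ ≤ 32 ^ k := pow_le_pow_left₀ (by norm_num) (by norm_num) _
        _ = 2 ^ (5 * k) := by
            rw [pow_mul]
            norm_num
    obtain ⟨A, hA⟩ : ∃ A : ℝ, A = 3 ^ (i * k) * α / 2 ^ s - i * (5 / 4) ^ k := ⟨_, rfl⟩
    obtain ⟨L, hL⟩ : ∃ L : ℝ, L = 3 ^ (i * k) * ℓ / 2 ^ s + 2 * (i * (5 / 4) ^ k) := ⟨_, rfl⟩
    have hW : Wi σ α ℓ k i s = Ob σ A (A + L) := by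
      unfold Wi
      rw [hA, hL]
      congr 1
      rw [mul_add, add_div]
      ring
    have hL1 : 2 ^ (3 * k) * 3 ^ k ≤ L := by
      have h1 : (2 : ℝ) ^ (3 * k) * 3 ^ k ≤ 2 ^ (5 * k) := by
        rw [pow_mul, pow_mul, ← mul_pow]
        exact pow_le_pow_left₀ (by norm_num) (by norm_num) _
      have h2 : (0 : ℝ) ≤ 2 * (i * (5 / 4) ^ k) := by positivity
      rw [hL]
      linarith
    have hL2 : L ≤ 2 * (3 ^ (i * k) * ℓ / 2 ^ s) := by
      rw [hL]
      linarith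
    have h1 := hN k (fJ k i s) (fJ_per k i s) (fJ_nonneg k i s) A L hL1
    rw [hM k i s, ← hW] at h1
    have hP := P_nonneg ((words (II k) (i * k)).filter fun w => w.sum = s)
    have h2 : L / (3 ^ k * (k : ℝ) ^ 6) * (2 ^ s * 3 ^ k / 3 ^ (i * k) *
        P ((words (II k) (i * k)).filter fun w => w.sum = s)) ≤
        2 * ℓ / (k : ℝ) ^ 6 * P ((words (II k) (i * k)).filter fun w => w.sum = s) := by
      calc L / (3 ^ k * (k : ℝ) ^ 6) * (2 ^ s * 3 ^ k / 3 ^ (i * k) *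
            P ((words (II k) (i * k)).filter fun w => w.sum = s))
          ≤ 2 * (3 ^ (i * k) * ℓ / 2 ^ s) / (3 ^ k * (k : ℝ) ^ 6) *
            (2 ^ s * 3 ^ k / 3 ^ (i * k) *
            P ((words (II k) (i * k)).filter fun w => w.sum = s)) := by
            refine mul_le_mul_of_nonneg_right ?_ (by positivity)
            exact div_le_div_of_nonneg_right hL2 (by positivity)
        _ = 2 * ℓ / (k : ℝ) ^ 6 * P ((words (II k) (i * k)).filter fun w => w.sum = s) := by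
            field_simp
    have h3 : ∑ b ∈ (Wi σ α ℓ k i s).filter (fun b => ¬ Hit (Gs J k) (fun _ => Set.univ) b),
        (NJ σ α ℓ J k i s b : ℝ) ≤
        ∑ b ∈ (Wi σ α ℓ k i s).filter (fun b => ¬ Hit (Gs J k) (fun _ => Set.univ) b),
          fJ k i s b +
        ∑ b ∈ (Wi σ α ℓ k i s).filter (fun b => ¬ Hit (Gs J k) (fun _ => Set.univ) b),
          max 0 ((NJ σ α ℓ J k i s b : ℝ) - fJ k i s b) := by
      rw [← sum_add_distrib]
      refine sum_le_sum fun b _ => ?_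
      have := le_max_right 0 ((NJ σ α ℓ J k i s b : ℝ) - fJ k i s b)
      linarith
    have h4 : ∑ b ∈ (Wi σ α ℓ k i s).filter (fun b => ¬ Hit (Gs J k) (fun _ => Set.univ) b),
          max 0 ((NJ σ α ℓ J k i s b : ℝ) - fJ k i s b) ≤
        ∑ b ∈ Wi σ α ℓ k i s, max 0 ((NJ σ α ℓ J k i s b : ℝ) - fJ k i s b) :=
      sum_le_sum_of_subset_of_nonneg (filter_subset _ _) fun _ _ _ => le_max_left _ _
    linarith
  refine (sum_le_sum hsplit).trans ?_
  rw [sum_add_distrib, ← mul_sum]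
  have h5 : ∑ s ∈ (range (3 * J * k + 1)).filter
        (fun s => 2 * J * (i * k) ≤ J * s + i * k ∧ J * s ≤ 2 * J * (i * k) + i * k),
      P ((words (II k) (i * k)).filter fun w => w.sum = s) ≤ 1 := by
    refine (Cov_P_sum _ _).trans ?_
    rw [P_words]
    exact pow_le_one₀ (Z_nonneg _) (Z_le_one _)
  have h6 : ∑ s ∈ (range (3 * J * k + 1)).filter
        (fun s => 2 * J * (i * k) ≤ J * s + i * k ∧ J * s ≤ 2 * J * (i * k) + i * k),
      ∑ b ∈ Wi σ α ℓ k i s, max 0 ((NJ σ α ℓ J k i s b : ℝ) - fJ k i s b) ≤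
      i * ℓ / (k : ℝ) ^ 2 := by
    refine le_trans ?_ (hE i hi1 hi)
    exact sum_le_sum_of_subset_of_nonneg (filter_subset _ _) fun _ _ _ =>
      sum_nonneg fun _ _ => le_max_left _ _
  have h7 : 2 * ℓ / (k : ℝ) ^ 6 * ∑ s ∈ (range (3 * J * k + 1)).filter
        (fun s => 2 * J * (i * k) ≤ J * s + i * k ∧ J * s ≤ 2 * J * (i * k) + i * k),
      P ((words (II k) (i * k)).filter fun w => w.sum = s) ≤ 2 * ℓ / (k : ℝ) ^ 6 * 1 :=
    mul_le_mul_of_nonneg_left h5 (by positivity)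
  linarith

/-- [Cov] -/
theorem thm_Cov (hN : St_NonHit) (hE : St_Exc) (hJ' : St_GJ) (hM : St_Mass) : St_Cov := by
  classical
  intro J hJ
  filter_upwards [hN J hJ, hE J hJ, eventually_ge_atTop 2, eventually_ge_atTop J] with
    k hNk hEk hk2 hkJ
  intro σ hσ α ℓ hα hℓ i
  have hk0 : (0 : ℝ) < k := by
    have : 0 < k := by omega
    exact_mod_cast this
  have hℓ64 : (2 : ℝ) ^ ((2 * 0 + 6) * k) ≤ ℓ := by
    have h0 := Cov_size (Nat.zero_le J) hℓ
    rwa [Nat.zero_mul, pow_zero, one_mul] at h0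
  have hℓ0 : 0 < ℓ := lt_of_lt_of_le (by positivity) hℓ64
  have hk6 : 2 * ℓ / (k : ℝ) ^ 6 ≤ ℓ / (k : ℝ) ^ 2 := by
    rw [div_le_div_iff₀ (by positivity) (by positivity)]
    have h1 : (2 : ℝ) ≤ k ^ 4 := by
      have h2 : (2 : ℝ) ≤ k := by exact_mod_cast hk2
      calc (2 : ℝ) ≤ 2 ^ 4 := by norm_num
        _ ≤ (k : ℝ) ^ 4 := pow_le_pow_left₀ (by norm_num) h2 _
    have e : (k : ℝ) ^ 6 = k ^ 4 * k ^ 2 := by ring
    rw [e, ← mul_assoc]
    refine mul_le_mul_of_nonneg_right ?_ (by positivity)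
    rw [mul_comm 2 ℓ]
    exact mul_le_mul_of_nonneg_left h1 hℓ0.le
  induction i with
  | zero =>
    intro _
    have h1 : (Ob σ α (α + ℓ)).filter
        (fun n => ¬ Hit (GJ J k 0) (fun _ => Set.univ) n) = ∅ := by
      rw [filter_eq_empty_iff]
      intro n hn
      rw [not_not]
      rw [mem_Ob hσ] at hn
      refine ⟨[], ?_, n, hn.1, rd_nil n, en_nil n, Set.mem_univ _⟩
      simp [GJ]
    rw [h1]
    simp
  | succ i ih =>
    intro hi
    have hi' : i ≤ J := by omega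
    specialize ih hi'
    have hsub : (Ob σ α (α + ℓ)).filter
        (fun n => ¬ Hit (GJ J k (i + 1)) (fun _ => Set.univ) n) ⊆
        (Ob σ α (α + ℓ)).filter (fun n => ¬ Hit (GJ J k i) (fun _ => Set.univ) n) ∪
        (Ob σ α (α + ℓ)).filter (fun n => Hit (GJ J k i)
          (fun _ => {b | ¬ Hit (Gs J k) (fun _ => Set.univ) b}) n) := by
      intro n hn
      rw [mem_filter] at hn
      rw [mem_union, mem_filter, mem_filter]
      by_cases h1 : Hit (GJ J k i) (fun _ => Set.univ) n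
      · right
        refine ⟨hn.1, ?_⟩
        obtain ⟨w, hw, b, hb, hr, rfl, -⟩ := h1
        refine ⟨w, hw, b, hb, hr, rfl, ?_⟩
        intro h2
        obtain ⟨v, hv, b', hb', hr', he', -⟩ := h2
        apply hn.2
        refine ⟨v ++ w, ?_, b', hb', rd_append.2 ⟨hr', by rw [he']; exact hr⟩, ?_,
          Set.mem_univ _⟩
        · show v ++ w ∈ cat (Gs J k) (GJ J k i)
          unfold cat
          rw [mem_image]
          exact ⟨(v, w), mem_product.2 ⟨hv, hw⟩, rfl⟩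
        · rw [en_append hr', he']
      · exact Or.inl ⟨hn.1, h1⟩
    have h1 : (((Ob σ α (α + ℓ)).filter
        (fun n => ¬ Hit (GJ J k (i + 1)) (fun _ => Set.univ) n)).card : ℝ) ≤
        ((Ob σ α (α + ℓ)).filter (fun n => ¬ Hit (GJ J k i) (fun _ => Set.univ) n)).card +
        ((Ob σ α (α + ℓ)).filter (fun n => Hit (GJ J k i)
          (fun _ => {b | ¬ Hit (Gs J k) (fun _ => Set.univ) b}) n)).card := by
      exact_mod_cast (card_le_card hsub).trans (card_union_le _ _)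
    have hgoal : (((i : ℝ) ^ 2 + i + 1) * (ℓ / (k : ℝ) ^ 2)) ≤
        ((i + 1 : ℕ) : ℝ) ^ 2 * ℓ / (k : ℝ) ^ 2 := by
      rw [mul_div_assoc]
      refine mul_le_mul_of_nonneg_right ?_ (by positivity)
      push_cast
      nlinarith [(Nat.cast_nonneg i : (0 : ℝ) ≤ i)]
    rcases Nat.eq_zero_or_pos i with h0 | h0
    · subst h0
      -- the integers that are not hit by one block
      have h2 := hNk σ hσ 0 (fun _ => 1) (fun _ _ => rfl) (fun _ => zero_le_one) α ℓ (by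
        rw [pow_zero, mul_one]
        refine le_trans ?_ hℓ64
        exact pow_le_pow_right₀ (by norm_num) (by omega))
      rw [sum_const, nsmul_eq_mul, mul_one, pow_zero, one_mul] at h2
      simp only [pow_zero, range_one, sum_const, card_singleton, one_smul, mul_one] at h2
      have h3 : (((Ob σ α (α + ℓ)).filter (fun n => Hit (GJ J k 0)
          (fun _ => {b | ¬ Hit (Gs J k) (fun _ => Set.univ) b}) n)).card : ℝ) ≤
          ((Ob σ α (α + ℓ)).filter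
            (fun n => ¬ Hit (Gs J k) (fun _ => Set.univ) n)).card := by
        have h4 : (Ob σ α (α + ℓ)).filter (fun n => Hit (GJ J k 0)
          (fun _ => {b | ¬ Hit (Gs J k) (fun _ => Set.univ) b}) n) ⊆
          (Ob σ α (α + ℓ)).filter (fun n => ¬ Hit (Gs J k) (fun _ => Set.univ) n) := by
          intro n hn
          rw [mem_filter] at hn ⊢
          refine ⟨hn.1, ?_⟩
          obtain ⟨w, hw, b, -, -, he, hB⟩ := hn.2
          have hw' : w = [] := by simpa [GJ] using hw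
          rw [hw', en_nil] at he
          rw [← he]
          exact hB
        exact_mod_cast card_le_card h4
      have h5 : ℓ / (k : ℝ) ^ 6 ≤ 2 * ℓ / (k : ℝ) ^ 6 :=
        div_le_div_of_nonneg_right (by linarith) (by positivity)
      have e0 : ((0 : ℕ) : ℝ) ^ 2 * ℓ / (k : ℝ) ^ 2 = 0 := by simp
      rw [e0] at ih
      have e1 : (((0 : ℕ) : ℝ) ^ 2 + (0 : ℕ) + 1) * (ℓ / (k : ℝ) ^ 2) = ℓ / (k : ℝ) ^ 2 := by
        simp
      rw [e1] at hgoal
      linarith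
    · have h2 := Cov_step hM hJ' hJ hk2 hkJ hσ (fun κ f hf hf0 => hNk σ hσ κ f hf hf0)
        (fun i hi1 hi => hEk σ hσ α ℓ hα hℓ i hi1 hi) hℓ h0 hi'
      have e1 : (((i : ℝ) ^ 2 + i + 1) * (ℓ / (k : ℝ) ^ 2)) =
          (i : ℝ) ^ 2 * ℓ / (k : ℝ) ^ 2 + i * ℓ / (k : ℝ) ^ 2 + ℓ / (k : ℝ) ^ 2 := by ring
      linarith

end Pool.Agent.CPR
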