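import Pool.Agent.CPR.St
import Pool.Agent.Helper86.CollatzRate

set_option autoImplicit false

/-!
# CPR [Cross]: after reaching level `0` the pair merges soon
-/

namespace Pool.Agent.CPR

open Pool.Agent.Helper86.CollatzChain (s0 s1 u V eps g H H_zero H_le H_nonneg g_nonneg
  drift_even_succ drift_odd_succ u_le_one u_antitone s0_even s1_even s0_odd s1_odd_succ
  three_pow_odd)
open Pool.Agent.Helper86.CollatzRate (rate)

theorem Cross_super (Φ : ℕ × ℤ → ℝ) (m : ℕ) (h0 : ∀ e, u m (0, e) ≤ Φ (0, e))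
    (hΦ : ∀ s, 0 ≤ Φ s) (hstep : ∀ s : ℕ × ℤ, s.1 ≠ 0 → (Φ (s0 s) + Φ (s1 s)) / 2 ≤ Φ s) :
    ∀ (n : ℕ) (s : ℕ × ℤ), cr n m s ≤ Φ s := by
  intro n
  induction n with
  | zero =>
    rintro ⟨j, e⟩
    by_cases hj : j = 0
    · subst hj
      simp only [cr, if_true]
      exact h0 e
    · simp only [cr, hj, if_false]
      exact hΦ _
  | succ n ih =>
    rintro ⟨j, e⟩
    by_cases hj : j = 0
    · subst hj
      simp only [cr, if_true]
      exact (u_antitone (0, e) (by omega : m ≤ n + 1 + m)).trans (h0 e)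
    · simp only [cr, hj, if_false]
      have h1 := ih (s0 (j, e))
      have h2 := ih (s1 (j, e))
      have h3 := hstep (j, e) hj
      linarith

/-- The level is a martingale outside level `0`. -/
theorem Cross_level (s : ℕ × ℤ) (hs : s.1 ≠ 0) :
    (((s0 s).1 : ℝ) + ((s1 s).1 : ℝ)) / 2 = s.1 := by
  obtain ⟨j, e⟩ := s
  obtain ⟨j, rfl⟩ : ∃ i, j = i + 1 := ⟨j - 1, by simp only at hs; omega⟩
  rcases Int.even_or_odd' e with ⟨f, rfl | rfl⟩
  · obtain ⟨w, hw⟩ := three_pow_odd (j + 1)
    rw [s0_even, s1_even (j + 1) f w hw]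
    ring
  · have he : (2 * f + 1) % 2 = 1 := by omega
    rw [s0_odd _ he, s1_odd_succ j he]
    push_cast
    ring

theorem Cross_drift (s : ℕ × ℤ) (hs : s.1 ≠ 0) :
    (V eps (s0 s) + V eps (s1 s)) / 2 ≤ V eps s := by
  obtain ⟨j, e⟩ := s
  obtain ⟨j, rfl⟩ : ∃ i, j = i + 1 := ⟨j - 1, by simp only at hs; omega⟩
  rcases Int.even_or_odd' e with ⟨f, rfl | rfl⟩
  · exact drift_even_succ j f
  · exact drift_odd_succ j (by omega)

theorem Cross_pow (j : ℕ) : ((19 : ℝ) / 20) ^ j * (2 * j + 1) ≤ 40 := by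
  have h1 : 1 + (j : ℝ) * (1 / 19) ≤ (1 + 1 / 19) ^ j :=
    one_add_mul_le_pow (by norm_num) j
  have h2 : ((19 : ℝ) / 20) ^ j * (1 + 1 / 19) ^ j = 1 := by
    rw [← mul_pow]
    norm_num
  have h3 : (0 : ℝ) < (19 / 20) ^ j := by positivity
  have h4 : (0 : ℝ) ≤ j := Nat.cast_nonneg j
  have h5 : 2 * (j : ℝ) + 1 ≤ 40 * (1 + 1 / 19) ^ j := by linarith
  calc ((19 : ℝ) / 20) ^ j * (2 * j + 1) ≤ (19 / 20) ^ j * (40 * (1 + 1 / 19) ^ j) :=
        mul_le_mul_of_nonneg_left h5 h3.le
    _ = 40 * ((19 / 20) ^ j * (1 + 1 / 19) ^ j) := by ring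
    _ = 40 := by rw [h2, mul_one]

theorem Cross_g (j : ℕ) (e : ℤ) : g j e ≤ Real.exp (Real.log (1 + |(e : ℝ)|) / 2) := by
  have ha : (0 : ℝ) ≤ |(e : ℝ)| := abs_nonneg _
  have h2 : Real.sqrt (1 + |(e : ℝ)|) = Real.exp (Real.log (1 + |(e : ℝ)|) / 2) := by
    rw [Real.sqrt_eq_rpow, Real.rpow_def_of_pos (by positivity), mul_one_div]
  rw [← h2]
  unfold g
  apply Real.sqrt_le_sqrt
  have h3 : (1 : ℝ) ≤ 3 ^ j := one_le_pow₀ (by norm_num)
  calc |(e : ℝ)| / 3 ^ j ≤ |(e : ℝ)| := div_le_self ha h3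
    _ ≤ 1 + |(e : ℝ)| := by linarith

theorem thm_Cross : St_Cross := by
  intro δ hδ
  obtain ⟨C, hC, hrate⟩ := rate
  obtain ⟨η, hη⟩ : ∃ η : ℝ, η = (δ / (2 * C)) ^ 2 / 3 := ⟨_, rfl⟩
  have hη0 : 0 < η := by rw [hη]; positivity
  have hCη : C * Real.sqrt (3 * η) = δ / 2 := by
    have h1 : 3 * η = (δ / (2 * C)) ^ 2 := by rw [hη]; ring
    rw [h1, Real.sqrt_sq (by positivity)]
    field_simp
  refine ⟨η / 2, by positivity, ⌈1 / η + 4 * 972964 / (δ * η)⌉₊, ?_⟩
  intro n m s hm hs
  have hm1 : 1 / η + 4 * 972964 / (δ * η) ≤ (m : ℝ) :=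
    (Nat.le_ceil _).trans (by exact_mod_cast hm)
  have hp1 : 0 < 1 / η := by positivity
  have hp2 : 0 < 4 * 972964 / (δ * η) := by positivity
  have hm2 : 1 ≤ η * m := by
    have h1 : 1 / η ≤ (m : ℝ) := by linarith
    rw [div_le_iff₀ hη0] at h1
    linarith
  have hm3 : 972964 ≤ δ * (η * m / 4) := by
    have h1 : 4 * 972964 / (δ * η) ≤ (m : ℝ) := by linarith
    rw [div_le_iff₀ (by positivity)] at h1
    linarith
  have hm0 : (0 : ℝ) < m := by
    have := hp1
    linarith
  have hm4 : 1 ≤ m := by exact_mod_cast hm0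
  -- the bound on level zero
  have hlev : ∀ e : ℤ, u m (0, e) ≤ δ / 2 + 2 * Real.exp (-(η * m / 2)) * g 0 e := by
    intro e
    by_cases hle : Real.log (1 + |(e : ℝ)|) ≤ 2 * η * m
    · have h1 := hrate 0 e m hm4
      have h2 : (1 + ((0 : ℕ) : ℝ) ^ 2 + Real.log (1 + |(e : ℝ)|)) / m ≤ 3 * η := by
        rw [div_le_iff₀ hm0]
        push_cast
        linarith
      have h3 := Real.sqrt_le_sqrt h2
      have h4 := mul_le_mul_of_nonneg_left h3 hC.le
      have h5 : 0 ≤ 2 * Real.exp (-(η * m / 2)) * g 0 e :=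
        mul_nonneg (by positivity) (g_nonneg 0 e)
      linarith
    · push Not at hle
      have ha : (0 : ℝ) ≤ |(e : ℝ)| := abs_nonneg _
      have h1 : Real.exp (2 * η * m) < 1 + |(e : ℝ)| := by
        have h2 := Real.exp_lt_exp.2 hle
        rwa [Real.exp_log (by linarith)] at h2
      have h3 : Real.exp (2 * η * m) = Real.exp (η * m) * Real.exp (η * m) := by
        rw [← Real.exp_add]
        congr 1
        ring
      have h4 : 2 ≤ Real.exp (η * m) := by
        have := Real.add_one_le_exp (η * (m : ℝ))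
        linarith
      have h5 : Real.exp (η * m) / 4 ≤ |(e : ℝ)| := by
        rw [h3] at h1
        nlinarith
      have h6 : Real.exp (η * m / 2) / 2 ≤ g 0 e := by
        unfold g
        apply Real.le_sqrt_of_sq_le
        rw [pow_zero, div_one]
        have h7 : (Real.exp (η * m / 2) / 2) ^ 2 = Real.exp (η * m) / 4 := by
          rw [div_pow, ← Real.exp_nat_mul]
          congr 2
          · push_cast
            ring
          · norm_num
        rw [h7]
        exact h5
      have h8 : Real.exp (-(η * m / 2)) * Real.exp (η * m / 2) = 1 := by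
        rw [← Real.exp_add, neg_add_cancel, Real.exp_zero]
      have h9 : 1 ≤ 2 * Real.exp (-(η * m / 2)) * g 0 e := by
        calc (1 : ℝ) = 2 * Real.exp (-(η * m / 2)) * (Real.exp (η * m / 2) / 2) := by
              linear_combination -h8
          _ ≤ 2 * Real.exp (-(η * m / 2)) * g 0 e :=
              mul_le_mul_of_nonneg_left h6 (by positivity)
      have h10 := u_le_one m (0, e)
      linarith
  -- the supermartingale
  have heps : (0 : ℝ) < eps := by
    have : eps = 1 / 243200 := rfl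
    rw [this]
    norm_num
  have hVl : ∀ t : ℕ × ℤ, V eps t - t.1 = 1 - (39 / 40) ^ t.1 + eps * H t := by
    intro t
    unfold V
    ring
  have hVl0 : ∀ t : ℕ × ℤ, 0 ≤ V eps t - t.1 := by
    intro t
    rw [hVl]
    have h1 : ((39 : ℝ) / 40) ^ t.1 ≤ 1 := pow_le_one₀ (by norm_num) (by norm_num)
    have h2 := mul_nonneg heps.le (H_nonneg t)
    linarith
  have hmain := Cross_super (fun t => δ / 2 + 2 * Real.exp (-(η * m / 2)) * ((V eps t - t.1) / eps))
    m
    (by
      intro e
      have h1 : (V eps (0, e) - ((0, e) : ℕ × ℤ).1) / eps = g 0 e := by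
        rw [hVl, H_zero]
        simp only [pow_zero]
        field_simp
        ring
      simp only [h1]
      exact hlev e)
    (by
      intro t
      have h1 := div_nonneg (hVl0 t) heps.le
      have h2 : 0 ≤ 2 * Real.exp (-(η * m / 2)) * ((V eps t - t.1) / eps) :=
        mul_nonneg (by positivity) h1
      linarith)
    (by
      intro t ht
      have h1 := Cross_level t ht
      have h2 := Cross_drift t ht
      have h3 : ((V eps (s0 t) - (s0 t).1) / eps + (V eps (s1 t) - (s1 t).1) / eps) / 2 ≤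
          (V eps t - t.1) / eps := by
        rw [← add_div, div_div, mul_comm eps 2, ← div_div]
        apply div_le_div_of_nonneg_right _ heps.le
        linarith
      have h4 := mul_le_mul_of_nonneg_left h3 (by positivity : 0 ≤ 2 * Real.exp (-(η * m / 2)))
      linarith)
    n s
  refine hmain.trans ?_
  obtain ⟨j, e⟩ := s
  simp only at hs
  -- the size of the supermartingale at the start
  have h1 : (V eps (j, e) - ((j : ℕ) : ℝ)) / eps ≤ 243240 + Real.exp (η * m / 4) := by
    have h2 : (V eps (j, e) - ((j : ℕ) : ℝ)) = 1 - (39 / 40) ^ j + eps * H (j, e) := hVl (j, e)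
    have h3 : (0 : ℝ) < (39 / 40) ^ j := by positivity
    have h4 : H (j, e) ≤ 40 + Real.exp (η * m / 4) := by
      refine (H_le j e).trans ?_
      have h5 := Cross_pow j
      have h6 : ((19 : ℝ) / 20) ^ j ≤ 1 := pow_le_one₀ (by norm_num) (by norm_num)
      have h7 := g_nonneg j e
      have h8 : ((19 : ℝ) / 20) ^ j * g j e ≤ 1 * g j e := mul_le_mul_of_nonneg_right h6 h7
      have h9 : g j e ≤ Real.exp (η * m / 4) := by
        refine (Cross_g j e).trans (Real.exp_le_exp.2 ?_)
        linarith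
      rw [mul_add]
      linarith
    rw [h2, div_le_iff₀ heps]
    have h5 : eps * 243200 = 1 := by
      have : eps = 1 / 243200 := rfl
      rw [this]
      norm_num
    have h6 := mul_le_mul_of_nonneg_left h4 heps.le
    nlinarith
  have h2 : Real.exp (-(η * m / 2)) = Real.exp (-(η * m / 4)) * Real.exp (-(η * m / 4)) := by
    rw [← Real.exp_add]
    congr 1
    ring
  have h3 : Real.exp (-(η * m / 4)) * Real.exp (η * m / 4) = 1 := by
    rw [← Real.exp_add, neg_add_cancel, Real.exp_zero]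
  have hx0 : 0 < Real.exp (-(η * m / 4)) := Real.exp_pos _
  have hx1 : Real.exp (-(η * m / 4)) ≤ 1 := by
    rw [Real.exp_le_one_iff]
    have : 0 ≤ η * m := by positivity
    linarith
  have hx2 : 972964 * Real.exp (-(η * m / 4)) ≤ δ := by
    have h4 := Real.add_one_le_exp (η * (m : ℝ) / 4)
    have h5 : 0 < Real.exp (η * m / 4) := Real.exp_pos _
    have h6 : 972964 ≤ δ * Real.exp (η * m / 4) := by
      refine hm3.trans (mul_le_mul_of_nonneg_left ?_ hδ.le)
      linarith
    have h7 := mul_le_mul_of_nonneg_left h6 hx0.le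
    have h8 : Real.exp (-(η * m / 4)) * (δ * Real.exp (η * m / 4)) = δ := by
      linear_combination δ * h3
    rw [h8] at h7
    linarith
  have h4 : 2 * Real.exp (-(η * m / 2)) * ((V eps (j, e) - ((j : ℕ) : ℝ)) / eps) ≤
      2 * Real.exp (-(η * m / 2)) * (243240 + Real.exp (η * m / 4)) :=
    mul_le_mul_of_nonneg_left h1 (by positivity)
  have h5 : 2 * Real.exp (-(η * m / 2)) * (243240 + Real.exp (η * m / 4)) =
      2 * Real.exp (-(η * m / 4)) * (243240 * Real.exp (-(η * m / 4)) + 1) := by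
    rw [h2]
    linear_combination 2 * Real.exp (-(η * m / 4)) * h3
  have h6 : 2 * Real.exp (-(η * m / 4)) * (243240 * Real.exp (-(η * m / 4)) + 1) ≤
      2 * Real.exp (-(η * m / 4)) * (243240 * 1 + 1) := by
    apply mul_le_mul_of_nonneg_left _ (by positivity)
    linarith
  linarith

end Pool.Agent.CPR
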