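import Mathlib
import Pool.Agent.CPR.St

set_option autoImplicit false

/-!
# CPR [D]: invariant sets are equidistributed modulo powers of two
-/

namespace Pool.Agent.CPR

open Finset Filter
open Pool.Agent.Collatz3.DN (EvInv)
open Pool.Agent.Helper14 (T)

theorem D_T_pow (i : ℕ) (v : ℤ) : T^[i] (2 ^ i * v) = v := by
  induction i with
  | zero => simp
  | succ i ih =>
    rw [Function.iterate_succ_apply]
    have e : (2 : ℤ) ^ (i + 1) * v = 2 * (2 ^ i * v) := by ring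
    rw [e, T_two_mul, ih]

open Classical in
theorem D_ncard (p : ℕ → Prop) {x : ℝ} (hx : 0 ≤ x) :
    Set.ncard {m : ℕ | (m : ℝ) ≤ x ∧ p m} = ((range (⌊x⌋₊ + 1)).filter p).card := by
  rw [← Set.ncard_coe_finset]
  congr 1
  ext m
  simp only [Set.mem_ofPred_eq, coe_filter, mem_range]
  rw [Nat.lt_succ_iff, Nat.le_floor_iff hx]

open Classical in
theorem D_dens {σ : ℤ} (hσ : σ = 1 ∨ σ = -1) {A : Set ℤ} {d : ℝ} (hd : Dens σ A d) (η : ℝ)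
    (hη : 0 < η) : ∃ Y₀ : ℝ, ∀ Y : ℝ, Y₀ ≤ Y →
      (d / 2 - η) * Y ≤ (((Ob σ Y (2 * Y)).filter fun v => v ∈ A).card : ℝ) := by
  have h := hd 2 1 (by norm_num)
  rw [Metric.tendsto_atTop] at h
  obtain ⟨x₀, hx₀⟩ := h (η / 2) (by positivity)
  refine ⟨2 * max x₀ 1 + 1, fun Y hY => ?_⟩
  set p : ℕ → Prop := fun m => σ * ((2 : ℕ) * (m : ℤ) + (1 : ℕ)) ∈ A with hp
  have hm1 : (1 : ℝ) ≤ max x₀ 1 := le_max_right _ _
  have hm0 : x₀ ≤ max x₀ 1 := le_max_left _ _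
  have hx1 : max x₀ 1 ≤ (Y - 1) / 2 := by linarith
  have hx2 : max x₀ 1 ≤ Y - 1 / 2 := by linarith
  have hx1' : 0 < (Y - 1) / 2 := by linarith
  have hx2' : 0 < Y - 1 / 2 := by linarith
  have key : ∀ x : ℝ, max x₀ 1 ≤ x → |(((range (⌊x⌋₊ + 1)).filter p).card : ℝ) - d * x| ≤
      η / 2 * x := by
    intro x hx
    have hx0 : 0 < x := by linarith
    have h1 := hx₀ x (hm0.trans hx)
    rw [Real.dist_eq] at h1
    have h2 : (Set.ncard {m : ℕ | (m : ℝ) ≤ x ∧ σ * ((2 : ℕ) * (m : ℤ) + (1 : ℕ)) ∈ A} : ℝ) =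
        (((range (⌊x⌋₊ + 1)).filter p).card : ℝ) := by
      rw [D_ncard p hx0.le]
    rw [h2] at h1
    have h3 : (((range (⌊x⌋₊ + 1)).filter p).card : ℝ) - d * x =
        ((((range (⌊x⌋₊ + 1)).filter p).card : ℝ) / x - d) * x := by
      field_simp
    rw [h3, abs_mul, abs_of_pos hx0]
    exact mul_le_mul_of_nonneg_right h1.le hx0.le
  have k1 := abs_le.1 (key _ hx1)
  have k2 := abs_le.1 (key _ hx2)
  have hsub : (range (⌊Y - 1 / 2⌋₊ + 1)).filter p ⊆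
      (range (⌊(Y - 1) / 2⌋₊ + 1)).filter p ∪
        (Ioc ⌊(Y - 1) / 2⌋₊ ⌊Y - 1 / 2⌋₊).filter p := by
    intro m hm
    rw [mem_filter, mem_range] at hm
    rw [mem_union, mem_filter, mem_filter, mem_range, mem_Ioc]
    rcases Nat.lt_or_ge m (⌊(Y - 1) / 2⌋₊ + 1) with h1 | h1
    · exact Or.inl ⟨h1, hm.2⟩
    · exact Or.inr ⟨⟨by omega, by omega⟩, hm.2⟩
  have hinj : ((Ioc ⌊(Y - 1) / 2⌋₊ ⌊Y - 1 / 2⌋₊).filter p).card ≤
      ((Ob σ Y (2 * Y)).filter fun v => v ∈ A).card := by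
    refine card_le_card_of_injOn (fun m : ℕ => σ * ((2 : ℕ) * (m : ℤ) + (1 : ℕ))) ?_ ?_
    · intro m hm
      rw [mem_coe, mem_filter, mem_Ioc, Nat.floor_lt hx1'.le, Nat.le_floor_iff hx2'.le] at hm
      rw [mem_coe, mem_filter, mem_Ob hσ]
      have e : σ * (σ * ((2 : ℕ) * (m : ℤ) + (1 : ℕ))) = 2 * m + 1 := by
        rw [← mul_assoc, sig_sq hσ, one_mul]
        push_cast
        ring
      refine ⟨⟨?_, ?_, ?_⟩, hm.2⟩
      · rcases hσ with h1 | h1 <;> rw [h1] <;> push_cast <;> omega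
      · rw [e]
        push_cast
        linarith [hm.1.1]
      · rw [e]
        push_cast
        linarith [hm.1.2]
    · intro m _ m' _ hmm
      have h1 : σ * ((2 : ℕ) * (m : ℤ) + (1 : ℕ)) = σ * ((2 : ℕ) * (m' : ℤ) + (1 : ℕ)) := hmm
      have h2 : σ ≠ 0 := by rcases hσ with h3 | h3 <;> rw [h3] <;> norm_num
      have h3 := mul_left_cancel₀ h2 h1
      push_cast at h3
      omega
  have hc := (card_le_card hsub).trans (card_union_le _ _)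
  have hc' : (((range (⌊Y - 1 / 2⌋₊ + 1)).filter p).card : ℝ) ≤
      (((range (⌊(Y - 1) / 2⌋₊ + 1)).filter p).card : ℝ) +
        (((Ob σ Y (2 * Y)).filter fun v => v ∈ A).card : ℝ) := by
    exact_mod_cast hc.trans (Nat.add_le_add_left hinj _)
  nlinarith [k1.2, k2.1]

theorem D_card_im {σ : ℤ} {α β : ℝ} (h : α ≤ β) :
    (((Ioc ⌊α⌋ ⌊β⌋).image fun m => σ * m).card : ℝ) ≤ β - α + 1 := by
  have h1 : ((Ioc ⌊α⌋ ⌊β⌋).image fun m => σ * m).card ≤ (Ioc ⌊α⌋ ⌊β⌋).card := card_image_le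
  rw [Int.card_Ioc] at h1
  have h2 : ((⌊β⌋ - ⌊α⌋).toNat : ℤ) = ⌊β⌋ - ⌊α⌋ :=
    Int.toNat_of_nonneg (sub_nonneg.2 (Int.floor_le_floor h))
  have h3 : (((⌊β⌋ - ⌊α⌋).toNat : ℕ) : ℝ) = (⌊β⌋ : ℝ) - ⌊α⌋ := by exact_mod_cast h2
  have h4 : (((Ioc ⌊α⌋ ⌊β⌋).image fun m => σ * m).card : ℝ) ≤ (((⌊β⌋ - ⌊α⌋).toNat : ℕ) : ℝ) := by
    exact_mod_cast h1
  have h5 := Int.floor_le β
  have h6 := Int.lt_floor_add_one α
  linarith

/-- an odd number is not a proper multiple of a power of two -/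
theorem D_odd_pow {i j : ℕ} {v v' : ℤ} (hv : v % 2 = 1) (hv' : v' % 2 = 1)
    (h : 2 ^ i * v = 2 ^ j * v') : i = j ∧ v = v' := by
  have key : ∀ {i j : ℕ} {v v' : ℤ}, v % 2 = 1 → 2 ^ i * v = 2 ^ j * v' → j ≤ i := by
    intro i j v v' hv h
    by_contra hcon
    push Not at hcon
    obtain ⟨c, rfl⟩ := Nat.exists_eq_add_of_lt hcon
    have h1 : (2 : ℤ) ^ i * v = 2 ^ i * (2 * (2 ^ c * v')) := by
      rw [h]
      ring
    have h2 := mul_left_cancel₀ (pow_ne_zero i (by norm_num : (2 : ℤ) ≠ 0)) h1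
    omega
  have h1 := key hv h
  have h2 := key hv' h.symm
  obtain rfl : i = j := le_antisymm h2 h1
  exact ⟨rfl, mul_left_cancel₀ (pow_ne_zero i (by norm_num : (2 : ℤ) ≠ 0)) h⟩

open Classical in
theorem D_count {C : ℕ} {A : Set ℤ} {σ : ℤ} (hσ : σ = 1 ∨ σ = -1) (hA : EvInv C A)
    (n Z r I a : ℕ) (e : ℤ) (ρ : ℕ → ℤ) (hr : r < 2 ^ n) (ha : a = pc n (σ * r))
    (he : e = T^[n] (σ * r)) (hρ : ∀ i, (3 : ℤ) ^ a ∣ 2 ^ i * ρ i - e)
    (hZ : (2 : ℤ) ^ n * C < Z) (hC : (C : ℝ) ≤ 3 ^ a * Z / 2 ^ n / 2 ^ I) :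
    (∑ i ∈ range I, (((Ob σ (3 ^ a * Z / 2 ^ n / 2 ^ i) (2 * (3 ^ a * Z / 2 ^ n / 2 ^ i))).filter
      fun v => v ∈ A ∧ (3 : ℤ) ^ a ∣ v - ρ i).card : ℝ)) - (2 * 4 ^ n + 3 ^ n + 2) ≤
      (((Ico Z (2 * Z)).filter fun z : ℕ => (2 : ℤ) ^ n ∣ (z : ℤ) - r ∧ σ * (z : ℤ) ∈ A).card : ℝ) := by
  set V : ℝ := 3 ^ a * Z / 2 ^ n with hV
  have hσσ := sig_sq hσ
  have hσ0 : σ ≠ 0 := by rcases hσ with h | h <;> rw [h] <;> norm_num
  have hσa : |σ| = 1 := by rcases hσ with h | h <;> rw [h] <;> norm_num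
  have han : a ≤ n := ha ▸ pc_le _ _
  have hV0 : 0 ≤ V := by positivity
  set B : Finset ℤ := ((Ioc ⌊V⌋ ⌊2 * V⌋).image fun m => σ * m).filter
    fun v => v ∈ A ∧ (3 : ℤ) ^ a ∣ v - e with hB
  set bd : Finset ℤ := ((Ioc ⌊V⌋ ⌊V + 4 ^ n⌋).image fun m => σ * m) ∪
    ((Ioc ⌊2 * V - 3 ^ n - 4 ^ n⌋ ⌊2 * V⌋).image fun m => σ * m) with hbd
  set Tg : Finset ℕ := (Ico Z (2 * Z)).filter
    fun z : ℕ => (2 : ℤ) ^ n ∣ (z : ℤ) - r ∧ σ * (z : ℤ) ∈ A with hTg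
  -- (1)
  have h1 : ∑ i ∈ range I, ((Ob σ (V / 2 ^ i) (2 * (V / 2 ^ i))).filter
      fun v => v ∈ A ∧ (3 : ℤ) ^ a ∣ v - ρ i).card ≤ B.card := by
    rw [← card_sigma]
    refine card_le_card_of_injOn (fun p => 2 ^ p.1 * p.2) ?_ ?_
    · rintro ⟨i, v⟩ hp
      rw [mem_coe, mem_sigma, mem_range] at hp
      obtain ⟨hi, hv⟩ := hp
      simp only [mem_filter] at hv
      obtain ⟨hv1, hv2, hv3⟩ := hv
      rw [mem_Ob hσ] at hv1
      simp only at hi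
      have hpi : (0 : ℝ) < 2 ^ i := by positivity
      have hle : V / 2 ^ I ≤ V / 2 ^ i := by
        gcongr
        · norm_num
      have hCv : (C : ℤ) < |v| := by
        have h2 : (C : ℝ) < ((σ * v : ℤ) : ℝ) := (hC.trans hle).trans_lt hv1.2.1
        have h3 : (C : ℤ) < σ * v := by exact_mod_cast h2
        have h4 : σ * v ≤ |v| := by
          rcases hσ with h | h
          · rw [h, one_mul]
            exact le_abs_self v
          · rw [h, neg_one_mul]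
            exact neg_le_abs v
        omega
      rw [mem_coe, hB, mem_filter, mem_image]
      refine ⟨⟨σ * (2 ^ i * v), ?_, ?_⟩, ?_, ?_⟩
      · rw [mem_Ioc, Int.floor_lt, Int.le_floor]
        have e1 : ((σ * (2 ^ i * v) : ℤ) : ℝ) = 2 ^ i * ((σ * v : ℤ) : ℝ) := by
          push_cast
          ring
        rw [e1]
        constructor
        · have := hv1.2.1
          rw [div_lt_iff₀ hpi] at this
          linarith
        · have := hv1.2.2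
          have e2 : 2 * V = 2 ^ i * (2 * (V / 2 ^ i)) := by field_simp
          rw [e2]
          gcongr
      · rw [← mul_assoc, hσσ, one_mul]
      · have h5 : (2 : ℤ) ^ i * C < |2 ^ i * v| := by
          rw [abs_mul, abs_of_pos (by positivity : (0 : ℤ) < 2 ^ i)]
          exact mul_lt_mul_of_pos_left hCv (by positivity)
        have h6 := inv_iter hA i (2 ^ i * v) h5
        rw [D_T_pow] at h6
        exact h6.1 hv2
      · have e3 : (2 : ℤ) ^ i * v - e = 2 ^ i * (v - ρ i) + (2 ^ i * ρ i - e) := by ring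
        show (3 : ℤ) ^ a ∣ 2 ^ i * v - e
        rw [e3]
        exact dvd_add (Dvd.dvd.mul_left hv3 _) (hρ i)
    · rintro ⟨i, v⟩ hp ⟨j, v'⟩ hp' hvv
      rw [mem_coe, mem_sigma] at hp hp'
      have h2 : v % 2 = 1 := ((mem_Ob hσ).1 (mem_filter.1 hp.2).1).1
      have h3 : v' % 2 = 1 := ((mem_Ob hσ).1 (mem_filter.1 hp'.2).1).1
      have h4 : (2 : ℤ) ^ i * v = 2 ^ j * v' := hvv
      obtain ⟨rfl, rfl⟩ := D_odd_pow h2 h3 h4
      rfl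
  -- (2)
  have h2 : (bd.card : ℝ) ≤ 2 * 4 ^ n + 3 ^ n + 2 := by
    have h3 : ((((Ioc ⌊V⌋ ⌊V + 4 ^ n⌋).image fun m => σ * m).card : ℕ) : ℝ) ≤
        V + 4 ^ n - V + 1 := D_card_im (by linarith [show (0 : ℝ) < 4 ^ n by positivity])
    have h4 : ((((Ioc ⌊2 * V - 3 ^ n - 4 ^ n⌋ ⌊2 * V⌋).image fun m => σ * m).card : ℕ) : ℝ) ≤
        2 * V - (2 * V - 3 ^ n - 4 ^ n) + 1 := D_card_im (by
          linarith [show (0 : ℝ) < 4 ^ n by positivity, show (0 : ℝ) < 3 ^ n by positivity])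
    have h5 : (bd.card : ℝ) ≤ ((((Ioc ⌊V⌋ ⌊V + 4 ^ n⌋).image fun m => σ * m).card : ℕ) : ℝ) +
        ((((Ioc ⌊2 * V - 3 ^ n - 4 ^ n⌋ ⌊2 * V⌋).image fun m => σ * m).card : ℕ) : ℝ) := by
      rw [← Nat.cast_add]
      exact Nat.cast_le.2 (card_union_le _ _)
    linarith
  -- (3)
  have h3 : B \ bd ⊆ Tg.image (fun z : ℕ => T^[n] (σ * (z : ℤ))) := by
    intro v hv
    rw [Finset.mem_sdiff, hB, mem_filter, mem_image] at hv
    obtain ⟨⟨⟨m, hm, rfl⟩, hmA, hmd⟩, hnb⟩ := hv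
    rw [mem_Ioc, Int.floor_lt, Int.le_floor] at hm
    rw [hbd, mem_union, not_or] at hnb
    have hm1 : V + 4 ^ n < (m : ℝ) := by
      by_contra hcon
      push Not at hcon
      apply hnb.1
      rw [mem_image]
      exact ⟨m, by rw [mem_Ioc, Int.floor_lt, Int.le_floor]; exact ⟨hm.1, hcon⟩, rfl⟩
    have hm2 : (m : ℝ) ≤ 2 * V - 3 ^ n - 4 ^ n := by
      by_contra hcon
      push Not at hcon
      apply hnb.2
      rw [mem_image]
      exact ⟨m, by rw [mem_Ioc, Int.floor_lt, Int.le_floor]; exact ⟨hcon, hm.2⟩, rfl⟩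
    obtain ⟨t, ht⟩ := hmd
    -- the offset
    have hea : |e| ≤ 4 ^ n := by
      have h4 := abs_iter_le n (σ * r)
      rw [← he, abs_mul, hσa, one_mul, Int.natCast_nonneg r |> abs_of_nonneg] at h4
      have h5 : ((r : ℤ) + 1) ≤ 2 ^ n := by exact_mod_cast hr
      calc |e| ≤ 2 ^ n * (r + 1) := h4
        _ ≤ 2 ^ n * 2 ^ n := by gcongr
        _ = 4 ^ n := by rw [← mul_pow]; norm_num
    have hse : |((σ * e : ℤ) : ℝ)| ≤ 4 ^ n := by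
      have h4 : |σ * e| ≤ 4 ^ n := by rw [abs_mul, hσa, one_mul]; exact hea
      exact_mod_cast h4
    have hse' := abs_le.1 hse
    have hy : (3 : ℤ) ^ a * (σ * t) = m - σ * e := by
      have : σ * (σ * m - e) = σ * (3 ^ a * t) := by rw [ht]
      have h4 : σ * (σ * m - e) = m - σ * e := by
        rw [mul_sub, ← mul_assoc, hσσ, one_mul]
      rw [← h4, this]
      ring
    have hyR : (3 : ℝ) ^ a * ((σ * t : ℤ) : ℝ) = (m : ℝ) - ((σ * e : ℤ) : ℝ) := by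
      exact_mod_cast hy
    have h3a : (0 : ℝ) < 3 ^ a := by positivity
    have h2n : (0 : ℝ) < 2 ^ n := by positivity
    have hVe : V * 2 ^ n = 3 ^ a * Z := by
      rw [hV]
      field_simp
    have hlow : (Z : ℤ) ≤ 2 ^ n * (σ * t) := by
      have h5 : V < 3 ^ a * ((σ * t : ℤ) : ℝ) := by
        rw [hyR]
        linarith
      have h6 : (3 : ℝ) ^ a * Z < 3 ^ a * (2 ^ n * ((σ * t : ℤ) : ℝ)) := by
        calc (3 : ℝ) ^ a * Z = V * 2 ^ n := hVe.symm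
          _ < 3 ^ a * ((σ * t : ℤ) : ℝ) * 2 ^ n := by gcongr
          _ = 3 ^ a * (2 ^ n * ((σ * t : ℤ) : ℝ)) := by ring
      have h7 := lt_of_mul_lt_mul_left h6 h3a.le
      have h8 : ((Z : ℤ) : ℝ) < ((2 ^ n * (σ * t) : ℤ) : ℝ) := by
        push_cast at h7 ⊢
        exact h7
      exact (Int.cast_lt.1 h8).le
    have hupp : 2 ^ n * (σ * t) + 2 ^ n ≤ 2 * (Z : ℤ) := by
      have h5 : 3 ^ a * ((σ * t : ℤ) : ℝ) + 3 ^ a ≤ 2 * V := by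
        have h6 : (3 : ℝ) ^ a ≤ 3 ^ n := pow_le_pow_right₀ (by norm_num) han
        rw [hyR]
        linarith
      have h6 : (3 : ℝ) ^ a * (2 ^ n * ((σ * t : ℤ) : ℝ) + 2 ^ n) ≤ 3 ^ a * (2 * Z) := by
        calc (3 : ℝ) ^ a * (2 ^ n * ((σ * t : ℤ) : ℝ) + 2 ^ n)
            = (3 ^ a * ((σ * t : ℤ) : ℝ) + 3 ^ a) * 2 ^ n := by ring
          _ ≤ 2 * V * 2 ^ n := by gcongr
          _ = 3 ^ a * (2 * Z) := by rw [mul_assoc, hVe]; ring
      have h7 := le_of_mul_le_mul_left h6 h3a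
      have h8 : ((2 ^ n * (σ * t) + 2 ^ n : ℤ) : ℝ) ≤ ((2 * (Z : ℤ) : ℤ) : ℝ) := by
        push_cast at h7 ⊢
        exact h7
      exact Int.cast_le.1 h8
    have hzpos : 0 ≤ 2 ^ n * (σ * t) + r := by
      have : (0 : ℤ) ≤ Z := Int.natCast_nonneg Z
      have h9 : (0 : ℤ) ≤ r := Int.natCast_nonneg r
      linarith
    have hzc : (((2 ^ n * (σ * t) + r).toNat : ℕ) : ℤ) = 2 ^ n * (σ * t) + r :=
      Int.toNat_of_nonneg hzpos
    have hr' : (r : ℤ) < 2 ^ n := by exact_mod_cast hr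
    have hr0 : (0 : ℤ) ≤ r := Int.natCast_nonneg r
    have hsz : σ * (((2 ^ n * (σ * t) + r).toNat : ℕ) : ℤ) = 2 ^ n * t + σ * r := by
      rw [hzc, mul_add]
      have : σ * (2 ^ n * (σ * t)) = σ * σ * (2 ^ n * t) := by ring
      rw [this, hσσ, one_mul]
    have hTz : T^[n] (σ * (((2 ^ n * (σ * t) + r).toNat : ℕ) : ℤ)) = σ * m := by
      rw [hsz, T_iter_affine, ← ha, ← he]
      linarith
    rw [mem_image]
    refine ⟨(2 ^ n * (σ * t) + r).toNat, ?_, hTz⟩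
    rw [hTg, mem_filter, mem_Ico]
    refine ⟨⟨?_, ?_⟩, ?_, ?_⟩
    · have : (Z : ℤ) ≤ (((2 ^ n * (σ * t) + r).toNat : ℕ) : ℤ) := by rw [hzc]; linarith
      exact_mod_cast this
    · have : (((2 ^ n * (σ * t) + r).toNat : ℕ) : ℤ) < 2 * (Z : ℤ) := by rw [hzc]; linarith
      exact_mod_cast this
    · rw [hzc, add_sub_cancel_right]
      exact dvd_mul_right _ _
    · have h10 : (2 : ℤ) ^ n * C < |σ * (((2 ^ n * (σ * t) + r).toNat : ℕ) : ℤ)| := by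
        rw [abs_mul, hσa, one_mul, hzc, abs_of_nonneg hzpos]
        linarith
      have h11 := inv_iter hA n _ h10
      rw [hTz] at h11
      exact h11.1 hmA
  have h4 : B.card ≤ (B \ bd).card + bd.card := card_le_card_sdiff_add_card
  have h5 : (B \ bd).card ≤ Tg.card := (card_le_card h3).trans card_image_le
  have h6 : (B.card : ℝ) ≤ Tg.card + bd.card := by exact_mod_cast h4.trans (by omega)
  have h7 : ((∑ i ∈ range I, ((Ob σ (V / 2 ^ i) (2 * (V / 2 ^ i))).filter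
      fun v => v ∈ A ∧ (3 : ℤ) ^ a ∣ v - ρ i).card : ℕ) : ℝ) ≤ B.card := by exact_mod_cast h1
  rw [Nat.cast_sum] at h7
  linarith

theorem D_large (ε : ℝ) (hε : 0 < ε) (C k₀ I : ℕ) (Y₀ : ℝ) : ∃ n₀ : ℕ, ∀ n Z : ℕ, n₀ ≤ n →
    2 ^ (6000 * n) ≤ Z → k₀ ≤ 1296 * n ∧ (2 : ℝ) ^ (5184 * n) ≤ Z / 2 ^ n / 2 ^ I ∧
      Y₀ ≤ Z / 2 ^ n / 2 ^ I ∧ (C : ℝ) ≤ Z / 2 ^ n / 2 ^ I ∧ (2 : ℤ) ^ n * C < Z ∧
      2 * (4 : ℝ) ^ n + 3 ^ n + 2 ≤ ε * (Z / 2 ^ n) := by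
  obtain ⟨n₁, hn₁⟩ := pow_unbounded_of_one_lt (max (max Y₀ (C + 1)) (5 / ε))
    (by norm_num : (1 : ℝ) < 2)
  refine ⟨max (max n₁ I) (max k₀ 1), fun n Z hn hZ => ?_⟩
  have hn1 : n₁ ≤ n := le_trans (le_trans (le_max_left _ _) (le_max_left _ _)) hn
  have hn2 : I ≤ n := le_trans (le_trans (le_max_right _ _) (le_max_left _ _)) hn
  have hn3 : k₀ ≤ n := le_trans (le_trans (le_max_left _ _) (le_max_right _ _)) hn
  have hn4 : 1 ≤ n := le_trans (le_trans (le_max_right _ _) (le_max_right _ _)) hn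
  have hW : max (max Y₀ (C + 1)) (5 / ε) < (2 : ℝ) ^ n :=
    hn₁.trans_le (pow_le_pow_right₀ (by norm_num) hn1)
  have hY : Y₀ ≤ 2 ^ n := ((le_max_left _ _).trans (le_max_left _ _)).trans hW.le
  have hC : (C : ℝ) + 1 ≤ 2 ^ n := ((le_max_right _ _).trans (le_max_left _ _)).trans hW.le
  have hE : 5 / ε ≤ 2 ^ n := (le_max_right _ _).trans hW.le
  have hZR : (2 : ℝ) ^ (6000 * n) ≤ Z := by exact_mod_cast hZ
  have h2n : (0 : ℝ) < 2 ^ n := by positivity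
  have hbig : (2 : ℝ) ^ (5998 * n) ≤ Z / 2 ^ n / 2 ^ I := by
    rw [le_div_iff₀ (by positivity), le_div_iff₀ (by positivity)]
    calc (2 : ℝ) ^ (5998 * n) * 2 ^ I * 2 ^ n = 2 ^ (5998 * n + I + n) := by
          rw [← pow_add, ← pow_add]
      _ ≤ 2 ^ (6000 * n) := pow_le_pow_right₀ (by norm_num) (by omega)
      _ ≤ Z := hZR
  have hn' : (2 : ℝ) ^ n ≤ Z / 2 ^ n / 2 ^ I :=
    (pow_le_pow_right₀ (by norm_num) (by omega)).trans hbig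
  refine ⟨by omega, (pow_le_pow_right₀ (by norm_num) (by omega)).trans hbig, hY.trans hn',
    (by linarith : (C : ℝ) ≤ 2 ^ n).trans hn', ?_, ?_⟩
  · have h1 : (2 : ℝ) ^ n * C < Z := by
      calc (2 : ℝ) ^ n * C < 2 ^ n * 2 ^ n := by
            apply mul_lt_mul_of_pos_left _ h2n
            linarith
        _ = 2 ^ (n + n) := by rw [← pow_add]
        _ ≤ 2 ^ (6000 * n) := pow_le_pow_right₀ (by norm_num) (by omega)
        _ ≤ Z := hZR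
    exact_mod_cast h1
  · have h4 : (4 : ℝ) ^ n = 2 ^ n * 2 ^ n := by rw [← mul_pow]; norm_num
    have h3 : (3 : ℝ) ^ n ≤ 4 ^ n := pow_le_pow_left₀ (by norm_num) (by norm_num) n
    have h1 : (1 : ℝ) ≤ 4 ^ n := one_le_pow₀ (by norm_num)
    have h5 : (2 : ℝ) ^ n * (2 ^ n * 2 ^ n) ≤ Z / 2 ^ n := by
      rw [le_div_iff₀ h2n]
      calc (2 : ℝ) ^ n * (2 ^ n * 2 ^ n) * 2 ^ n = 2 ^ (n + (n + n) + n) := by
            rw [← pow_add, ← pow_add, ← pow_add]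
        _ ≤ 2 ^ (6000 * n) := pow_le_pow_right₀ (by norm_num) (by omega)
        _ ≤ Z := hZR
    have h6 : 5 ≤ ε * 2 ^ n := by
      rw [div_le_iff₀ hε] at hE
      linarith
    calc 2 * (4 : ℝ) ^ n + 3 ^ n + 2 ≤ 5 * 4 ^ n := by linarith
      _ ≤ ε * 2 ^ n * 4 ^ n := by gcongr
      _ = ε * (2 ^ n * (2 ^ n * 2 ^ n)) := by rw [h4]; ring
      _ ≤ ε * (Z / 2 ^ n) := by gcongr

theorem D_rho (i a : ℕ) (e : ℤ) : ∃ ρ : ℤ, (3 : ℤ) ^ a ∣ 2 ^ i * ρ - e := by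
  have hc : IsCoprime ((2 : ℤ) ^ i) (3 ^ a) := by
    apply IsCoprime.pow
    exact ⟨-1, 1, by norm_num⟩
  obtain ⟨u, v, huv⟩ := hc
  refine ⟨u * e, -(v * e), ?_⟩
  linear_combination e * huv

theorem D_geom (I : ℕ) : ∑ i ∈ range I, (1 : ℝ) / 2 ^ i = 2 - 2 * (1 / 2) ^ I := by
  induction I with
  | zero => norm_num
  | succ I ih =>
    rw [sum_range_succ, ih, pow_succ, one_div_pow]
    ring

theorem thm_D (h : St_Dodd) : St_D := by
  classical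
  intro C A σ d hσ hA hd ε hε
  have hd0 : 0 < |d| + ε := by positivity
  obtain ⟨I, hI⟩ : ∃ I : ℕ, (1 / 2 : ℝ) ^ I < ε / 4 / (|d| + ε) :=
    exists_pow_lt_of_lt_one (by positivity) (by norm_num)
  have hI' : (1 / 2 : ℝ) ^ I * (|d| + ε) ≤ ε / 4 := by
    rw [lt_div_iff₀ hd0] at hI
    exact hI.le
  obtain ⟨Y₀, hY₀⟩ := D_dens hσ hd (ε / 16) (by positivity)
  obtain ⟨k₀, hk₀⟩ := h (ε / 8) (by positivity) C
  obtain ⟨n₀, hn₀⟩ := D_large (3 * ε / 8) (by positivity) C k₀ I Y₀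
  refine ⟨n₀, fun n Z hn hZ r => ?_⟩
  obtain ⟨c1, c2, c3, c4, c5, c6⟩ := hn₀ n Z hn hZ
  have hp2 : (0 : ℤ) < 2 ^ n := by positivity
  obtain ⟨r', hr'⟩ : ∃ r' : ℕ, (r' : ℤ) = r % 2 ^ n :=
    ⟨(r % 2 ^ n).toNat, Int.toNat_of_nonneg (Int.emod_nonneg _ hp2.ne')⟩
  have hr'lt : r' < 2 ^ n := by
    have h1 : (r' : ℤ) < 2 ^ n := by rw [hr']; exact Int.emod_lt_of_pos _ hp2
    exact_mod_cast h1
  have hrr : (2 : ℤ) ^ n ∣ r - r' := by
    rw [hr']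
    exact Int.dvd_self_sub_emod
  have hset : ((Ico Z (2 * Z)).filter fun z : ℕ =>
      (2 : ℤ) ^ n ∣ (z : ℤ) - r ∧ σ * (z : ℤ) ∈ A) = ((Ico Z (2 * Z)).filter fun z : ℕ =>
      (2 : ℤ) ^ n ∣ (z : ℤ) - r' ∧ σ * (z : ℤ) ∈ A) := by
    apply filter_congr
    intro z _
    have e1 : (z : ℤ) - r' = (z : ℤ) - r + (r - r') := by ring
    rw [e1, dvd_add_left hrr]
  rw [hset]
  set a := pc n (σ * r') with ha
  set e := T^[n] (σ * r') with he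
  choose ρ hρ using fun i => D_rho i a e
  have han : a ≤ n := pc_le _ _
  have h3a : (0 : ℝ) < 3 ^ a := by positivity
  have h3a1 : (1 : ℝ) ≤ 3 ^ a := one_le_pow₀ (by norm_num)
  have hZn : (0 : ℝ) ≤ Z / 2 ^ n := by positivity
  have hge : ∀ i, i ≤ I → (Z : ℝ) / 2 ^ n / 2 ^ I ≤ 3 ^ a * Z / 2 ^ n / 2 ^ i := by
    intro i hi
    have h1 : (3 : ℝ) ^ a * Z / 2 ^ n / 2 ^ i = 3 ^ a * (Z / 2 ^ n / 2 ^ i) := by ring
    rw [h1]
    have h2 : (Z : ℝ) / 2 ^ n / 2 ^ I ≤ Z / 2 ^ n / 2 ^ i := by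
      gcongr
      norm_num
    have h3 : (0 : ℝ) ≤ Z / 2 ^ n / 2 ^ i := by positivity
    calc (Z : ℝ) / 2 ^ n / 2 ^ I ≤ Z / 2 ^ n / 2 ^ i := h2
      _ = 1 * (Z / 2 ^ n / 2 ^ i) := (one_mul _).symm
      _ ≤ 3 ^ a * (Z / 2 ^ n / 2 ^ i) := by gcongr
  have hcount := D_count hσ hA n Z r' I a e ρ hr'lt ha he hρ c5 (c4.trans (hge I le_rfl))
  have hterm : ∀ i ∈ range I, (d / 2 - 3 * ε / 16) * (Z / 2 ^ n) * (1 / 2 ^ i) ≤
      (((Ob σ (3 ^ a * Z / 2 ^ n / 2 ^ i) (2 * (3 ^ a * Z / 2 ^ n / 2 ^ i))).filter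
        fun v => v ∈ A ∧ (3 : ℤ) ^ a ∣ v - ρ i).card : ℝ) := by
    intro i hi
    have hi' : i ≤ I := (mem_range.1 hi).le
    have hY1 := hY₀ (3 ^ a * Z / 2 ^ n / 2 ^ i) (c3.trans (hge i hi'))
    have h2 := hk₀ (1296 * n) a c1 (by omega) σ hσ A hA (3 ^ a * Z / 2 ^ n / 2 ^ i) (by
      have e1 : 4 * (1296 * n) = 5184 * n := by ring
      rw [e1]
      exact c2.trans (hge i hi')) (ρ i)
    refine le_trans ?_ h2
    rw [← sub_div, le_div_iff₀ h3a]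
    have e2 : (d / 2 - 3 * ε / 16) * (Z / 2 ^ n) * (1 / 2 ^ i) * 3 ^ a =
        (d / 2 - 3 * ε / 16) * (3 ^ a * Z / 2 ^ n / 2 ^ i) := by ring
    rw [e2]
    linarith
  have hsum := sum_le_sum hterm
  rw [← mul_sum, D_geom] at hsum
  have hfin : (d - 5 * ε / 8) * (Z / 2 ^ n) ≤
      (d / 2 - 3 * ε / 16) * (Z / 2 ^ n) * (2 - 2 * (1 / 2) ^ I) := by
    have h1 : (d - 3 * ε / 8) * (1 / 2) ^ I ≤ ε / 4 := by
      refine le_trans ?_ hI'
      rw [mul_comm]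
      apply mul_le_mul_of_nonneg_left _ (by positivity)
      linarith [le_abs_self d]
    have h2 : d - 5 * ε / 8 ≤ (d / 2 - 3 * ε / 16) * (2 - 2 * (1 / 2) ^ I) := by
      linarith
    calc (d - 5 * ε / 8) * (Z / 2 ^ n) ≤
        (d / 2 - 3 * ε / 16) * (2 - 2 * (1 / 2) ^ I) * (Z / 2 ^ n) := by gcongr
      _ = (d / 2 - 3 * ε / 16) * (Z / 2 ^ n) * (2 - 2 * (1 / 2) ^ I) := by ring
  have e3 : (d - ε) * (Z : ℝ) / 2 ^ n = (d - 5 * ε / 8) * (Z / 2 ^ n) - 3 * ε / 8 * (Z / 2 ^ n) := by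
    ring
  rw [e3]
  linarith

end Pool.Agent.CPR
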