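import Mathlib
import Pool.Agent.CPR.St
import Pool.Agent.Collatz3.PRCS

set_option autoImplicit false

/-!
# CPR [Dodd]: invariant sets are equidistributed modulo `3 ^ b`
-/

namespace Pool.Agent.CPR

open Finset Filter
open Pool.Agent.Collatz3 (cw)
open Pool.Agent.Collatz3.Mix (words mem_words)
open Pool.Agent.Collatz3.PD (rd en Fw II Per en_spec T_en words_length)
open Pool.Agent.Collatz3.FW (Hit pair_inj en_odd two_pow_Fw per_Fw1)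
open Pool.Agent.Collatz3.DN (EvInv)
open Pool.Agent.Helper14 (T)

/-- The inner window. -/
noncomputable def Dodd_W (σ : ℤ) (Y : ℝ) (k s : ℕ) : Finset ℤ :=
  Ob σ (3 ^ k * Y / 2 ^ s + (5 / 4) ^ k)
    (3 ^ k * Y / 2 ^ s + (5 / 4) ^ k + (3 ^ k * Y / 2 ^ s - 2 * (5 / 4) ^ k))

theorem Dodd_mem {σ : ℤ} (hσ : σ = 1 ∨ σ = -1) {Y : ℝ} {k s : ℕ} {b : ℤ} :
    b ∈ Dodd_W σ Y k s ↔ b % 2 = 1 ∧
      3 ^ k * Y + (5 / 4) ^ k * 2 ^ s < 2 ^ s * ((σ * b : ℤ) : ℝ) ∧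
      2 ^ s * ((σ * b : ℤ) : ℝ) ≤ 2 * (3 ^ k * Y) - (5 / 4) ^ k * 2 ^ s := by
  unfold Dodd_W
  rw [mem_Ob hσ]
  have hp : (0 : ℝ) < 2 ^ s := by positivity
  have e1 : 3 ^ k * Y / 2 ^ s + (5 / 4 : ℝ) ^ k < ((σ * b : ℤ) : ℝ) ↔
      3 ^ k * Y + (5 / 4) ^ k * 2 ^ s < 2 ^ s * ((σ * b : ℤ) : ℝ) := by
    rw [div_add' _ _ _ hp.ne', div_lt_iff₀ hp, mul_comm ((σ * b : ℤ) : ℝ)]
  have e2 : ((σ * b : ℤ) : ℝ) ≤ 3 ^ k * Y / 2 ^ s + (5 / 4 : ℝ) ^ k +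
      (3 ^ k * Y / 2 ^ s - 2 * (5 / 4) ^ k) ↔
      2 ^ s * ((σ * b : ℤ) : ℝ) ≤ 2 * (3 ^ k * Y) - (5 / 4) ^ k * 2 ^ s := by
    have e3 : 3 ^ k * Y / 2 ^ s + (5 / 4 : ℝ) ^ k + (3 ^ k * Y / 2 ^ s - 2 * (5 / 4) ^ k) =
        (2 * (3 ^ k * Y) - (5 / 4) ^ k * 2 ^ s) / 2 ^ s := by
      field_simp
      ring
    rw [e3, le_div_iff₀ hp, mul_comm ((σ * b : ℤ) : ℝ)]
  rw [e1, e2]

theorem Dodd_id {σ : ℤ} {w : List ℕ} {b : ℤ} (hr : rd w b) :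
    3 ^ w.length * ((σ * en w b : ℤ) : ℝ) = 2 ^ w.sum * ((σ * b : ℤ) : ℝ) - (σ : ℝ) * cw w := by
  have h1 := en_spec hr
  have h2 : (3 : ℤ) ^ w.length * (σ * en w b) = 2 ^ w.sum * (σ * b) - σ * cw w := by
    linear_combination σ * h1
  exact_mod_cast h2

theorem Dodd_sig {σ : ℤ} (hσ : σ = 1 ∨ σ = -1) {x y : ℝ} (hx : 0 ≤ x) (hxy : x ≤ y) :
    -y ≤ (σ : ℝ) * x ∧ (σ : ℝ) * x ≤ y := by
  rcases hσ with h | h <;> rw [h]
  · push_cast
    constructor <;> linarith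
  · push_cast
    constructor <;> linarith

theorem Dodd_Gs {k : ℕ} {w : List ℕ} (hw : w ∈ Gs 3 k) : w ∈ words (II k) k ∧ w.length = k ∧
    w.sum ≤ 3 * k ∧ (cw w : ℝ) ≤ (5 / 4) ^ k * 2 ^ w.sum ∧ ∀ i ∈ w, 1 ≤ i := by
  unfold Gs at hw
  rw [mem_filter] at hw
  refine ⟨hw.1, words_length hw.1, by omega, hw.2.2.2, ?_⟩
  intro i hi
  have := (mem_words.1 hw.1).2 i hi
  omega

theorem Dodd_in {σ : ℤ} (hσ : σ = 1 ∨ σ = -1) {k : ℕ} {Y : ℝ} {w : List ℕ} {b : ℤ}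
    (hw : w ∈ Gs 3 k) (hr : rd w b) (hb : b ∈ Dodd_W σ Y k w.sum) :
    en w b ∈ Ob σ Y (Y + Y) := by
  obtain ⟨-, hl, -, hcw, hpos⟩ := Dodd_Gs hw
  obtain ⟨h1, h2, h3⟩ := (Dodd_mem hσ).1 hb
  have hid := Dodd_id (σ := σ) hr
  rw [hl] at hid
  obtain ⟨h4, h5⟩ := Dodd_sig hσ (Nat.cast_nonneg _) hcw
  have h3k : (0 : ℝ) < 3 ^ k := by positivity
  rw [mem_Ob hσ]
  refine ⟨en_odd hr hpos h1, ?_, ?_⟩
  · apply lt_of_mul_lt_mul_left _ h3k.le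
    rw [hid]
    linarith
  · apply le_of_mul_le_mul_left _ h3k
    rw [hid]
    linarith

theorem Dodd_bad {σ : ℤ} (hσ : σ = 1 ∨ σ = -1) {k : ℕ} (hk : 1 ≤ k) {Y : ℝ}
    (hY : 2 ^ (4 * k) ≤ Y) {w : List ℕ} {b : ℤ}
    (hw : w ∈ words (II k) k) (hs : w.sum ≤ 3 * k) (hr : rd w b)
    (hb : b ∈ Dodd_W σ Y k w.sum) :
    en w b ∈ Ob σ (Y / 2) (Y / 2 + 5 / 2 * Y) := by
  have hl := words_length hw
  have hpos : ∀ i ∈ w, 1 ≤ i := by
    intro i hi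
    have := (mem_words.1 hw).2 i hi
    omega
  have hcw := Pool.Agent.Collatz3.PR.CS_cw' hpos
  rw [hl] at hcw
  obtain ⟨h1, h2, h3⟩ := (Dodd_mem hσ).1 hb
  have hid := Dodd_id (σ := σ) hr
  rw [hl] at hid
  have h8 : (2 : ℝ) ^ k * 2 ^ w.sum ≤ Y := by
    refine le_trans ?_ hY
    rw [← pow_add]
    exact pow_le_pow_right₀ (by norm_num) (by omega)
  obtain ⟨h4, h5⟩ := Dodd_sig hσ (Nat.cast_nonneg _) (hcw.trans h8)
  have h3k : (0 : ℝ) < 3 ^ k := by positivity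
  have h3k' : (3 : ℝ) ≤ 3 ^ k := by
    calc (3 : ℝ) = 3 ^ 1 := (pow_one _).symm
      _ ≤ 3 ^ k := pow_le_pow_right₀ (by norm_num) hk
  have hY0 : 0 < Y := lt_of_lt_of_le (by positivity) hY
  have hK : (0 : ℝ) < (5 / 4) ^ k * 2 ^ w.sum := by positivity
  have h9 : 3 * Y ≤ 3 ^ k * Y := mul_le_mul_of_nonneg_right h3k' hY0.le
  rw [mem_Ob hσ]
  refine ⟨en_odd hr hpos h1, ?_, ?_⟩
  · apply lt_of_mul_lt_mul_left _ h3k.le
    rw [hid]
    have e : (3 : ℝ) ^ k * (Y / 2) = 3 ^ k * Y / 2 := by ring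
    rw [e]
    linarith
  · apply le_of_mul_le_mul_left _ h3k
    rw [hid]
    have e : (3 : ℝ) ^ k * (Y / 2 + 5 / 2 * Y) = 3 * (3 ^ k * Y) := by ring
    rw [e]
    linarith

theorem Dodd_edge {σ : ℤ} (hσ : σ = 1 ∨ σ = -1) {k : ℕ} {Y : ℝ} {w : List ℕ} {b : ℤ}
    (hw : w ∈ Gs 3 k) (hr : rd w b) (hbo : b % 2 = 1) (hv : en w b ∈ Ob σ Y (Y + Y)) :
    b ∈ Dodd_W σ Y k w.sum ∨ en w b ∈ Ob σ Y (Y + 2 * 4 ^ k) ∨
      en w b ∈ Ob σ (2 * Y - 2 * 4 ^ k) (2 * Y) := by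
  obtain ⟨-, hl, hs, hcw, hpos⟩ := Dodd_Gs hw
  have hid := Dodd_id (σ := σ) hr
  rw [hl] at hid
  obtain ⟨h4, h5⟩ := Dodd_sig hσ (Nat.cast_nonneg _) hcw
  have h3k : (0 : ℝ) < 3 ^ k := by positivity
  obtain ⟨g1, g2, g3⟩ := (mem_Ob hσ).1 hv
  have hE : (5 / 4 : ℝ) ^ k * 2 ^ w.sum ≤ 3 ^ k * 4 ^ k := by
    calc (5 / 4 : ℝ) ^ k * 2 ^ w.sum ≤ (5 / 4) ^ k * 2 ^ (3 * k) :=
          mul_le_mul_of_nonneg_left (pow_le_pow_right₀ (by norm_num) hs) (by positivity)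
      _ = 10 ^ k := by
          rw [pow_mul, ← mul_pow]
          norm_num
      _ ≤ 12 ^ k := pow_le_pow_left₀ (by norm_num) (by norm_num) k
      _ = 3 ^ k * 4 ^ k := by
          rw [← mul_pow]
          norm_num
  by_cases hW : b ∈ Dodd_W σ Y k w.sum
  · exact Or.inl hW
  · right
    rw [Dodd_mem hσ] at hW
    by_cases h6 : 3 ^ k * Y + (5 / 4) ^ k * 2 ^ w.sum < 2 ^ w.sum * ((σ * b : ℤ) : ℝ)
    · right
      have h7 : 2 * (3 ^ k * Y) - (5 / 4) ^ k * 2 ^ w.sum < 2 ^ w.sum * ((σ * b : ℤ) : ℝ) := by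
        by_contra hcon
        exact hW ⟨hbo, h6, not_lt.1 hcon⟩
      rw [mem_Ob hσ]
      refine ⟨g1, ?_, by linarith⟩
      apply lt_of_mul_lt_mul_left _ h3k.le
      rw [hid]
      have e : (3 : ℝ) ^ k * (2 * Y - 2 * 4 ^ k) = 2 * (3 ^ k * Y) - 2 * (3 ^ k * 4 ^ k) := by ring
      rw [e]
      linarith
    · left
      rw [not_lt] at h6
      rw [mem_Ob hσ]
      refine ⟨g1, g2, ?_⟩
      apply le_of_mul_le_mul_left _ h3k
      rw [hid]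
      have e : (3 : ℝ) ^ k * (Y + 2 * 4 ^ k) = 3 ^ k * Y + 2 * (3 ^ k * 4 ^ k) := by ring
      rw [e]
      linarith

theorem Dodd_inv {σ : ℤ} (hσ : σ = 1 ∨ σ = -1) {C k : ℕ} (hC : C ≤ 2 ^ k) {A : Set ℤ}
    (hA : EvInv C A) {Y : ℝ} (hY : 2 ^ (4 * k) ≤ Y) {w : List ℕ} {b : ℤ}
    (hw : w ∈ Gs 3 k) (hr : rd w b) (hv : en w b ∈ Ob σ Y (Y + Y)) :
    b ∈ A ↔ en w b ∈ A := by
  obtain ⟨-, hl, hs, hcw, hpos⟩ := Dodd_Gs hw
  obtain ⟨g1, g2, g3⟩ := (mem_Ob hσ).1 hv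
  have h1 : (2 : ℤ) ^ w.sum * (C : ℤ) < |en w b| := by
    have h2 : σ * en w b ≤ |en w b| := by
      rcases hσ with h | h <;> rw [h]
      · rw [one_mul]
        exact le_abs_self _
      · rw [neg_one_mul]
        exact neg_le_abs _
    have h3 : ((2 : ℤ) ^ w.sum * (C : ℤ) : ℤ) ≤ 2 ^ (4 * k) := by
      calc (2 : ℤ) ^ w.sum * (C : ℤ) ≤ 2 ^ (3 * k) * 2 ^ k :=
            mul_le_mul (pow_le_pow_right₀ (by norm_num) hs) (by exact_mod_cast hC)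
              (Int.natCast_nonneg _) (by positivity)
        _ = 2 ^ (4 * k) := by
            rw [← pow_add]
            congr 1
            omega
    have h4 : (((2 : ℤ) ^ (4 * k) : ℤ) : ℝ) < ((σ * en w b : ℤ) : ℝ) := by
      push_cast
      push_cast at g2
      linarith
    have h5 : (2 : ℤ) ^ (4 * k) < σ * en w b := by exact_mod_cast h4
    linarith
  have h6 := inv_iter hA w.sum (en w b) h1
  rwa [T_en hr hpos] at h6

open Classical in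
theorem Dodd_one {σ : ℤ} (hσ : σ = 1 ∨ σ = -1) {C k : ℕ} (hC : C ≤ 2 ^ k) {A : Set ℤ}
    (hA : EvInv C A) {Y : ℝ} (hY : 2 ^ (4 * k) ≤ Y) :
    (((Ob σ Y (Y + Y)).filter fun v => v ∈ A).card : ℝ) ≤
      (((Ob σ Y (Y + Y)).filter fun n => ¬ Hit (Gs 3 k) (fun _ => Set.univ) n).card : ℝ) +
      (Ob σ Y (Y + 2 * 4 ^ k)).card + (Ob σ (2 * Y - 2 * 4 ^ k) (2 * Y)).card +
      ∑ s ∈ range (3 * k + 1), ∑ b ∈ (Dodd_W σ Y k s).filter (fun b => b ∈ A),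
        2 ^ s * Fw (II k) k s k b := by
  set P : Finset (Σ _ : ℕ, Σ _ : ℤ, List ℕ) := (range (3 * k + 1)).sigma fun s =>
    ((Dodd_W σ Y k s).filter (fun b => b ∈ A)).sigma fun b =>
      (words (II k) k).filter (fun w => w.sum = s ∧ (3 : ℤ) ^ k ∣ 2 ^ s * b - cw w) with hP
  have hsub : (Ob σ Y (Y + Y)).filter (fun v => v ∈ A) ⊆
      (((Ob σ Y (Y + Y)).filter fun n => ¬ Hit (Gs 3 k) (fun _ => Set.univ) n) ∪
        Ob σ Y (Y + 2 * 4 ^ k) ∪ Ob σ (2 * Y - 2 * 4 ^ k) (2 * Y)) ∪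
        P.image fun p => en p.2.2 p.2.1 := by
    intro v hv
    rw [mem_filter] at hv
    rw [mem_union, mem_union, mem_union]
    by_cases hH : Hit (Gs 3 k) (fun _ => Set.univ) v
    · obtain ⟨w, hw, b, hb, hr, rfl, -⟩ := hH
      rcases Dodd_edge hσ hw hr hb hv.1 with h1 | h1 | h1
      · right
        obtain ⟨h2, h3, h4, -, -⟩ := Dodd_Gs hw
        rw [mem_image]
        refine ⟨⟨w.sum, b, w⟩, ?_, rfl⟩
        rw [hP, mem_sigma, mem_sigma, mem_filter, mem_filter, mem_range]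
        refine ⟨by simp only; omega, ⟨h1, (Dodd_inv hσ hC hA hY hw hr hv.1).2 hv.2⟩, h2, rfl, ?_⟩
        have h5 := hr
        unfold rd at h5
        rwa [h3] at h5
      · exact Or.inl (Or.inl (Or.inr h1))
      · exact Or.inl (Or.inr h1)
    · exact Or.inl (Or.inl (Or.inl (mem_filter.2 ⟨hv.1, hH⟩)))
  have h1 := card_le_card hsub
  have h2 := (card_union_le (((Ob σ Y (Y + Y)).filter
    fun n => ¬ Hit (Gs 3 k) (fun _ => Set.univ) n) ∪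
        Ob σ Y (Y + 2 * 4 ^ k) ∪ Ob σ (2 * Y - 2 * 4 ^ k) (2 * Y))
        (P.image fun p => en p.2.2 p.2.1))
  have h3 := (card_union_le (((Ob σ Y (Y + Y)).filter
    fun n => ¬ Hit (Gs 3 k) (fun _ => Set.univ) n) ∪
        Ob σ Y (Y + 2 * 4 ^ k)) (Ob σ (2 * Y - 2 * 4 ^ k) (2 * Y)))
  have h4 := (card_union_le ((Ob σ Y (Y + Y)).filter
    fun n => ¬ Hit (Gs 3 k) (fun _ => Set.univ) n) (Ob σ Y (Y + 2 * 4 ^ k)))
  have h5 : (P.image fun p => en p.2.2 p.2.1).card ≤ P.card := card_image_le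
  have h6 : (P.card : ℝ) = ∑ s ∈ range (3 * k + 1),
      ∑ b ∈ (Dodd_W σ Y k s).filter (fun b => b ∈ A), 2 ^ s * Fw (II k) k s k b := by
    rw [hP, card_sigma]
    push_cast
    apply sum_congr rfl
    intro s _
    rw [card_sigma]
    push_cast
    apply sum_congr rfl
    intro b _
    rw [two_pow_Fw]
  rw [← h6]
  have h7 : ((Ob σ Y (Y + Y)).filter fun v => v ∈ A).card ≤
      ((Ob σ Y (Y + Y)).filter fun n => ¬ Hit (Gs 3 k) (fun _ => Set.univ) n).card +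
      (Ob σ Y (Y + 2 * 4 ^ k)).card + (Ob σ (2 * Y - 2 * 4 ^ k) (2 * Y)).card + P.card := by
    omega
  exact_mod_cast h7

theorem Dodd_cls {k b s : ℕ} {w : List ℕ} {x ρ : ℤ} (hl : w.length = k) (hs : w.sum = s)
    (h : (3 : ℤ) ^ (k + b) ∣ 2 ^ s * x - cw w - 3 ^ k * ρ) :
    rd w x ∧ (3 : ℤ) ^ b ∣ en w x - ρ := by
  have h1 : (3 : ℤ) ^ k ∣ 2 ^ s * x - cw w := by
    have h2 : (3 : ℤ) ^ k ∣ 2 ^ s * x - cw w - 3 ^ k * ρ :=
      dvd_trans (pow_dvd_pow 3 (Nat.le_add_right k b)) h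
    have h3 := dvd_add h2 (dvd_mul_right ((3 : ℤ) ^ k) ρ)
    rwa [sub_add_cancel] at h3
  have h2 : rd w x := by
    unfold rd
    rw [hl, hs]
    exact h1
  refine ⟨h2, ?_⟩
  have h3 := en_spec h2
  rw [hl, hs] at h3
  rw [← h3, ← mul_sub, pow_add] at h
  exact (mul_dvd_mul_iff_left (pow_ne_zero _ (by norm_num))).1 h

open Classical in
theorem Dodd_two {σ : ℤ} (hσ : σ = 1 ∨ σ = -1) {C k b : ℕ} (hk : 1 ≤ k) (hC : C ≤ 2 ^ k)
    {A : Set ℤ} (hA : EvInv C A) {Y : ℝ} (hY : 2 ^ (4 * k) ≤ Y) (ρ : ℤ) :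
    ∑ s ∈ range (3 * k + 1), ∑ x ∈ (Dodd_W σ Y k s).filter (fun x => x ∈ A),
      (((words (II k) k).filter (fun w => w.sum = s ∧
        (3 : ℤ) ^ (k + b) ∣ 2 ^ s * x - cw w - 3 ^ k * ρ)).card : ℝ) ≤
    (((Ob σ Y (Y + Y)).filter fun v => v ∈ A ∧ (3 : ℤ) ^ b ∣ v - ρ).card : ℝ) +
    (((Ob σ (Y / 2) (Y / 2 + 5 / 2 * Y)).filter fun n =>
      ¬ Hit (Gs 3 k) (fun _ => Set.univ) n ∧ (3 : ℤ) ^ b ∣ n - ρ).card : ℝ) := by
  set R : Finset (Σ _ : ℕ, Σ _ : ℤ, List ℕ) := (range (3 * k + 1)).sigma fun s =>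
    ((Dodd_W σ Y k s).filter (fun x => x ∈ A)).sigma fun x =>
      (words (II k) k).filter (fun w => w.sum = s ∧
        (3 : ℤ) ^ (k + b) ∣ 2 ^ s * x - cw w - 3 ^ k * ρ) with hR
  have hmem : ∀ s x w, (⟨s, x, w⟩ : Σ _ : ℕ, Σ _ : ℤ, List ℕ) ∈ R →
      s ≤ 3 * k ∧ x ∈ Dodd_W σ Y k s ∧ x ∈ A ∧ w ∈ words (II k) k ∧ w.sum = s ∧
      rd w x ∧ (3 : ℤ) ^ b ∣ en w x - ρ := by
    intro s x w h
    rw [hR, mem_sigma, mem_sigma, mem_filter, mem_filter, mem_range] at h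
    simp only at h
    obtain ⟨h1, ⟨h2, h3⟩, h4, h5, h6⟩ := h
    obtain ⟨h7, h8⟩ := Dodd_cls (words_length h4) h5 h6
    exact ⟨by omega, h2, h3, h4, h5, h7, h8⟩
  have hinj : ∀ p ∈ R, ∀ q ∈ R, en p.2.2 p.2.1 = en q.2.2 q.2.1 → p = q := by
    rintro ⟨s, x, w⟩ hp ⟨s', x', w'⟩ hq h
    simp only at h
    obtain ⟨-, a2, -, a4, a5, a6, -⟩ := hmem s x w hp
    obtain ⟨-, b2, -, b4, b5, b6, -⟩ := hmem s' x' w' hq
    obtain ⟨h1, h2⟩ := pair_inj k w w' x x' (words_length a4) (words_length b4)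
      (fun i hi => ((mem_words.1 a4).2 i hi).1) (fun i hi => ((mem_words.1 b4).2 i hi).1)
      ((Dodd_mem hσ).1 a2).1 ((Dodd_mem hσ).1 b2).1 a6 b6 h
    subst h1
    subst h2
    rw [a5] at b5
    subst b5
    rfl
  have hcard : (R.card : ℝ) = ∑ s ∈ range (3 * k + 1),
      ∑ x ∈ (Dodd_W σ Y k s).filter (fun x => x ∈ A),
      (((words (II k) k).filter (fun w => w.sum = s ∧
        (3 : ℤ) ^ (k + b) ∣ 2 ^ s * x - cw w - 3 ^ k * ρ)).card : ℝ) := by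
    rw [hR, card_sigma]
    push_cast
    apply sum_congr rfl
    intro s _
    rw [card_sigma]
    push_cast
    rfl
  rw [← hcard, ← card_filter_add_card_filter_not (s := R) (fun p => p.2.2 ∈ Gs 3 k)]
  push_cast
  apply add_le_add
  · have h1 : (R.filter fun p => p.2.2 ∈ Gs 3 k).card ≤
        ((Ob σ Y (Y + Y)).filter fun v => v ∈ A ∧ (3 : ℤ) ^ b ∣ v - ρ).card := by
      apply card_le_card_of_injOn (fun p => en p.2.2 p.2.1)
      · rintro ⟨s, x, w⟩ hp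
        rw [mem_coe, mem_filter] at hp
        obtain ⟨hp1, hp2⟩ := hp
        simp only at hp2
        obtain ⟨a1, a2, a3, a4, a5, a6, a7⟩ := hmem s x w hp1
        subst a5
        have h2 := Dodd_in hσ hp2 a6 a2
        rw [mem_coe, mem_filter]
        exact ⟨h2, (Dodd_inv hσ hC hA hY hp2 a6 h2).1 a3, a7⟩
      · intro p hp q hq h
        rw [mem_coe, mem_filter] at hp hq
        exact hinj p hp.1 q hq.1 h
    exact_mod_cast h1
  · have h1 : (R.filter fun p => ¬ p.2.2 ∈ Gs 3 k).card ≤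
        ((Ob σ (Y / 2) (Y / 2 + 5 / 2 * Y)).filter fun n =>
      ¬ Hit (Gs 3 k) (fun _ => Set.univ) n ∧ (3 : ℤ) ^ b ∣ n - ρ).card := by
      apply card_le_card_of_injOn (fun p => en p.2.2 p.2.1)
      · rintro ⟨s, x, w⟩ hp
        rw [mem_coe, mem_filter] at hp
        obtain ⟨hp1, hp2⟩ := hp
        simp only at hp2
        obtain ⟨a1, a2, a3, a4, a5, a6, a7⟩ := hmem s x w hp1
        subst a5
        rw [mem_coe, mem_filter]
        refine ⟨Dodd_bad hσ hk hY a4 a1 a6 a2, ?_, a7⟩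
        rintro ⟨w', hw', x', hx', hr', he, -⟩
        obtain ⟨c1, c2, -, -, c5⟩ := Dodd_Gs hw'
        obtain ⟨h1, -⟩ := pair_inj k w' w x' x c2 (words_length a4) c5
          (fun i hi => ((mem_words.1 a4).2 i hi).1) hx'
          ((Dodd_mem hσ).1 a2).1 hr' a6 he
        rw [h1] at hw'
        exact hp2 hw'
      · intro p hp q hq h
        rw [mem_coe, mem_filter] at hp hq
        exact hinj p hp.1 q hq.1 h
    exact_mod_cast h1

open Classical in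
theorem Dodd_three (hS : St_Sum1) {σ : ℤ} (hσ : σ = 1 ∨ σ = -1) {k b : ℕ} {A : Set ℤ} {Y : ℝ}
    (hL : ∀ s ≤ 3 * k, (3 : ℝ) ^ (k + b) ≤ 3 ^ k * Y / 2 ^ s - 2 * (5 / 4) ^ k) (ρ : ℤ) :
    (∑ s ∈ range (3 * k + 1), ∑ x ∈ (Dodd_W σ Y k s).filter (fun x => x ∈ A),
      2 ^ s * Fw (II k) k s k x) / 3 ^ b - 3 * Y / 3 ^ b *
      ∑ s ∈ range (3 * k + 1), ∑ x ∈ range (3 ^ (k + b)),
        |Fw (II k) k s (k + b) (x : ℤ) - Fw (II k) k s k (x : ℤ) / 3 ^ b| ≤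
    ∑ s ∈ range (3 * k + 1), ∑ x ∈ (Dodd_W σ Y k s).filter (fun x => x ∈ A),
      (((words (II k) k).filter (fun w => w.sum = s ∧
        (3 : ℤ) ^ (k + b) ∣ 2 ^ s * x - cw w - 3 ^ k * ρ)).card : ℝ) := by
  rw [sum_div, mul_sum, ← sum_sub_distrib]
  apply sum_le_sum
  intro s hs
  rw [mem_range] at hs
  have h2s : (0 : ℝ) < 2 ^ s := by positivity
  -- the shift
  obtain ⟨r, hr⟩ : ∃ r : ℤ, (3 : ℤ) ^ b ∣ 2 ^ s * r + ρ := by
    have hcop : IsCoprime ((3 : ℤ) ^ b) (2 ^ s) := IsCoprime.pow (by norm_num)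
    obtain ⟨p, q, hpq⟩ := hcop
    refine ⟨-(q * ρ), p * ρ, ?_⟩
    linear_combination ρ * hpq.symm
  have hcard : ∀ x : ℤ, (((words (II k) k).filter (fun w => w.sum = s ∧
        (3 : ℤ) ^ (k + b) ∣ 2 ^ s * x - cw w - 3 ^ k * ρ)).card : ℝ) =
      2 ^ s * Fw (II k) k s (k + b) (x + 3 ^ k * r) := by
    intro x
    rw [two_pow_Fw]
    congr 2
    apply filter_congr
    intro w _
    have h1 : (3 : ℤ) ^ (k + b) ∣ 3 ^ k * (2 ^ s * r + ρ) := by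
      rw [pow_add]
      exact mul_dvd_mul_left _ hr
    have h2 : (2 : ℤ) ^ s * (x + 3 ^ k * r) - cw w =
        (2 ^ s * x - cw w - 3 ^ k * ρ) + 3 ^ k * (2 ^ s * r + ρ) := by ring
    rw [h2, dvd_add_left h1]
  set g : ℤ → ℝ := fun y => |Fw (II k) k s (k + b) y - Fw (II k) k s k y / 3 ^ b| with hg
  have hgper : Per (k + b) g := by
    intro x t
    rw [hg]
    simp only
    rw [per_Fw1 (II k) k s (k + b) x t, (per_Fw1 (II k) k s k).mono (Nat.le_add_right k b) x t]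
  have hg0 : ∀ x, 0 ≤ g x := fun x => abs_nonneg _
  have hper' : Per (k + b) (fun x => g (x + 3 ^ k * r)) := by
    intro x t
    have e : x + 3 ^ (k + b) * t + 3 ^ k * r = (x + 3 ^ k * r) + 3 ^ (k + b) * t := by ring
    simp only
    rw [e, hgper]
  have hsum : ∑ x ∈ range (3 ^ (k + b)), (fun x => g (x + 3 ^ k * r)) (x : ℤ) =
      ∑ x ∈ range (3 ^ (k + b)), g (x : ℤ) := by
    have h1 := Pool.Agent.Collatz3.FW.S_affine hgper
      (c := 1) (isCoprime_one_right) (3 ^ k * r)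
    unfold Pool.Agent.Collatz3.PD.S at h1
    rw [← h1]
    apply sum_congr rfl
    intro x _
    simp only [one_mul]
  have hW := hS σ hσ (k + b) _ hper' (fun x => hg0 _) (3 ^ k * Y / 2 ^ s + (5 / 4) ^ k)
    (3 ^ k * Y / 2 ^ s - 2 * (5 / 4) ^ k) (hL s (by omega))
  rw [hsum] at hW
  have hW2 : ∑ x ∈ (Dodd_W σ Y k s).filter (fun x => x ∈ A), g (x + 3 ^ k * r) ≤
      3 * (3 ^ k * Y / 2 ^ s) / 3 ^ (k + b) * ∑ x ∈ range (3 ^ (k + b)), g (x : ℤ) := by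
    calc ∑ x ∈ (Dodd_W σ Y k s).filter (fun x => x ∈ A), g (x + 3 ^ k * r)
        ≤ ∑ x ∈ Dodd_W σ Y k s, g (x + 3 ^ k * r) :=
          sum_le_sum_of_subset_of_nonneg (filter_subset _ _) (fun _ _ _ => hg0 _)
      _ ≤ _ := hW
      _ ≤ _ := by
        apply mul_le_mul_of_nonneg_right _ (sum_nonneg fun x _ => hg0 _)
        apply div_le_div_of_nonneg_right _ (by positivity)
        have : (0 : ℝ) < (5 / 4) ^ k := by positivity
        linarith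
  have e1 : 3 * Y / 3 ^ b * ∑ x ∈ range (3 ^ (k + b)), g (x : ℤ) =
      2 ^ s * (3 * (3 ^ k * Y / 2 ^ s) / 3 ^ (k + b) * ∑ x ∈ range (3 ^ (k + b)), g (x : ℤ)) := by
    have h : ∀ t : ℝ, 3 * Y / 3 ^ b * t = 2 ^ s * (3 * (3 ^ k * Y / 2 ^ s) / 3 ^ (k + b) * t) := by
      intro t
      rw [pow_add]
      field_simp
    exact h _
  have e2 : ∑ x ∈ (Dodd_W σ Y k s).filter (fun x => x ∈ A),
      (2 ^ s * Fw (II k) k s k x) / 3 ^ b -
      2 ^ s * ∑ x ∈ (Dodd_W σ Y k s).filter (fun x => x ∈ A), g (x + 3 ^ k * r) ≤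
      ∑ x ∈ (Dodd_W σ Y k s).filter (fun x => x ∈ A),
      (((words (II k) k).filter (fun w => w.sum = s ∧
        (3 : ℤ) ^ (k + b) ∣ 2 ^ s * x - cw w - 3 ^ k * ρ)).card : ℝ) := by
    rw [mul_sum, ← sum_sub_distrib]
    apply sum_le_sum
    intro x _
    rw [hcard x]
    have h1 := neg_abs_le (Fw (II k) k s (k + b) (x + 3 ^ k * r) -
      Fw (II k) k s k (x + 3 ^ k * r) / 3 ^ b)
    rw [per_Fw1 (II k) k s k x r] at h1
    have h2 : g (x + 3 ^ k * r) = |Fw (II k) k s (k + b) (x + 3 ^ k * r) -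
        Fw (II k) k s k x / 3 ^ b| := by
      rw [hg]
      simp only
      rw [per_Fw1 (II k) k s k x r]
    rw [← h2] at h1
    have h3 : (2 : ℝ) ^ s * Fw (II k) k s k x / 3 ^ b - 2 ^ s * g (x + 3 ^ k * r) =
        2 ^ s * (Fw (II k) k s k x / 3 ^ b - g (x + 3 ^ k * r)) := by ring
    rw [h3]
    apply mul_le_mul_of_nonneg_left _ h2s.le
    linarith
  have e3 : (∑ x ∈ (Dodd_W σ Y k s).filter (fun x => x ∈ A), 2 ^ s * Fw (II k) k s k x) / 3 ^ b =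
      ∑ x ∈ (Dodd_W σ Y k s).filter (fun x => x ∈ A), (2 ^ s * Fw (II k) k s k x) / 3 ^ b := by
    rw [sum_div]
  have e4 := mul_le_mul_of_nonneg_left hW2 h2s.le
  rw [← e1] at e4
  refine le_trans ?_ e2
  linarith

theorem Dodd_len {k b : ℕ} (hk : 2 ≤ k) (hb : 1296 * b ≤ k) {Y : ℝ} (hY : 2 ^ (4 * k) ≤ Y)
    {s : ℕ} (hs : s ≤ 3 * k) :
    (3 : ℝ) ^ (k + b) ≤ 3 ^ k * Y / 2 ^ s - 2 * (5 / 4) ^ k := by
  have h1 : (3 : ℝ) ^ b ≤ (3 / 2) ^ k := by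
    calc (3 : ℝ) ^ b ≤ (27 / 8) ^ b := pow_le_pow_left₀ (by norm_num) (by norm_num) b
      _ = (3 / 2) ^ (3 * b) := by
          rw [pow_mul]
          norm_num
      _ ≤ (3 / 2) ^ k := pow_le_pow_right₀ (by norm_num) (by omega)
  have h2 : (3 : ℝ) ^ (k + b) ≤ 6 ^ k * (9 / 16) := by
    calc (3 : ℝ) ^ (k + b) = 3 ^ k * 3 ^ b := pow_add _ _ _
      _ ≤ 3 ^ k * (3 / 2) ^ k := mul_le_mul_of_nonneg_left h1 (by positivity)
      _ = 6 ^ k * (3 / 4) ^ k := by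
          rw [← mul_pow, ← mul_pow]
          norm_num
      _ ≤ 6 ^ k * (3 / 4) ^ 2 := by
          apply mul_le_mul_of_nonneg_left _ (by positivity)
          exact pow_le_pow_of_le_one (by norm_num) (by norm_num) hk
      _ = 6 ^ k * (9 / 16) := by norm_num
  have h3 : (5 / 4 : ℝ) ^ k ≤ 6 ^ k * (1 / 16) := by
    calc (5 / 4 : ℝ) ^ k = 6 ^ k * (5 / 24) ^ k := by
          rw [← mul_pow]
          norm_num
      _ ≤ 6 ^ k * (5 / 24) ^ 2 := by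
          apply mul_le_mul_of_nonneg_left _ (by positivity)
          exact pow_le_pow_of_le_one (by norm_num) (by norm_num) hk
      _ ≤ 6 ^ k * (1 / 16) := mul_le_mul_of_nonneg_left (by norm_num) (by positivity)
  have h4 : (6 : ℝ) ^ k ≤ 3 ^ k * Y / 2 ^ s := by
    rw [le_div_iff₀ (by positivity)]
    calc (6 : ℝ) ^ k * 2 ^ s ≤ 6 ^ k * 2 ^ (3 * k) :=
          mul_le_mul_of_nonneg_left (pow_le_pow_right₀ (by norm_num) hs) (by positivity)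
      _ = 3 ^ k * 2 ^ (4 * k) := by
          rw [pow_mul, pow_mul, ← mul_pow, ← mul_pow]
          norm_num
      _ ≤ 3 ^ k * Y := mul_le_mul_of_nonneg_left hY (by positivity)
  have h5 : (0 : ℝ) < 6 ^ k := by positivity
  linarith

theorem Dodd_unit (b : ℕ) (ρ : ℤ) :
    ∑ x ∈ range (3 ^ b), (if (3 : ℤ) ^ b ∣ (x : ℤ) - ρ then (1 : ℝ) else 0) ≤ 1 := by
  rw [← sum_filter, sum_const, nsmul_eq_mul, mul_one]
  have h : ((range (3 ^ b)).filter fun x : ℕ => (3 : ℤ) ^ b ∣ (x : ℤ) - ρ).card ≤ 1 := by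
    rw [card_le_one]
    intro x hx y hy
    rw [mem_filter, mem_range] at hx hy
    have h1 : (3 : ℤ) ^ b ∣ (x : ℤ) - y := by
      have := dvd_sub hx.2 hy.2
      rwa [sub_sub_sub_cancel_right] at this
    have h2 : ((3 ^ b : ℕ) : ℤ) = 3 ^ b := by push_cast; rfl
    have h3 : (x : ℤ) - y = 0 := by
      apply Int.eq_zero_of_abs_lt_dvd h1
      rw [abs_lt]
      constructor <;> omega
    omega
  exact_mod_cast h

open Classical in
theorem thm_Dodd (hL : St_L1x) (hN : St_NonHit) (hS : St_Sum1) (_hG : St_GJ) : St_Dodd := by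
  intro ε hε C
  have e1 := hL (ε / 6) (by positivity)
  have e2 := hN 3 le_rfl
  have e3 : ∀ᶠ k : ℕ in atTop, 20 / ε ≤ (k : ℝ) :=
    tendsto_natCast_atTop_atTop.eventually_ge_atTop _
  obtain ⟨k₀, hk₀⟩ := eventually_atTop.1 ((e1.and e2).and (e3.and (eventually_ge_atTop (C + 2))))
  refine ⟨k₀, ?_⟩
  intro k b hk hb σ hσ A hA Y hY ρ
  obtain ⟨⟨f1, f2⟩, f3, f4⟩ := hk₀ k hk
  have hk2 : 2 ≤ k := by omega
  have hC : C ≤ 2 ^ k := (show C ≤ k by omega).trans Nat.lt_two_pow_self.le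
  have hkr : (2 : ℝ) ≤ k := by exact_mod_cast hk2
  have hY0 : 0 < Y := lt_of_lt_of_le (by positivity) hY
  have h3b : (0 : ℝ) < 3 ^ b := by positivity
  rw [two_mul]
  -- the parts
  have g1 := Dodd_one hσ hC hA hY
  have g2 := Dodd_two (b := b) hσ (by omega) hC hA hY ρ
  have g3 := Dodd_three hS hσ (A := A) (fun s hs => Dodd_len hk2 hb hY hs) ρ
  -- not hit
  have g4 := f2 σ hσ 0 (fun _ => 1) (fun _ _ => rfl) (fun _ => zero_le_one) Y Y (by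
    rw [pow_zero, mul_one]
    exact (pow_le_pow_right₀ (by norm_num) (by omega)).trans hY)
  rw [sum_const, nsmul_eq_mul, mul_one, pow_zero, pow_zero, range_one, sum_singleton, mul_one,
    one_mul] at g4
  have g5 := f2 σ hσ b (fun n => if (3 : ℤ) ^ b ∣ n - ρ then 1 else 0) (by
    intro x t
    simp only
    have h : (3 : ℤ) ^ b ∣ x + 3 ^ b * t - ρ ↔ (3 : ℤ) ^ b ∣ x - ρ := by
      have e : x + 3 ^ b * t - ρ = (x - ρ) + 3 ^ b * t := by ring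
      rw [e]
      exact dvd_add_left (dvd_mul_right _ _)
    simp only [h]) (fun x => by
      split_ifs <;> norm_num) (Y / 2) (5 / 2 * Y) (by
    have h1 : (3 : ℝ) ^ b ≤ 2 ^ k := by
      calc (3 : ℝ) ^ b ≤ 4 ^ b := pow_le_pow_left₀ (by norm_num) (by norm_num) b
        _ = 2 ^ (2 * b) := by
            rw [pow_mul]
            norm_num
        _ ≤ 2 ^ k := pow_le_pow_right₀ (by norm_num) (by omega)
    calc (2 : ℝ) ^ (3 * k) * 3 ^ b ≤ 2 ^ (3 * k) * 2 ^ k :=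
          mul_le_mul_of_nonneg_left h1 (by positivity)
      _ = 2 ^ (4 * k) := by
          rw [← pow_add]
          congr 1
          omega
      _ ≤ Y := hY
      _ ≤ 5 / 2 * Y := by linarith)
  have g6 : (((Ob σ (Y / 2) (Y / 2 + 5 / 2 * Y)).filter fun n =>
      ¬ Hit (Gs 3 k) (fun _ => Set.univ) n ∧ (3 : ℤ) ^ b ∣ n - ρ).card : ℝ) ≤
      5 / 2 * Y / (3 ^ b * (k : ℝ) ^ 6) := by
    have h1 : (((Ob σ (Y / 2) (Y / 2 + 5 / 2 * Y)).filter fun n =>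
        ¬ Hit (Gs 3 k) (fun _ => Set.univ) n ∧ (3 : ℤ) ^ b ∣ n - ρ).card : ℝ) =
        ∑ n ∈ (Ob σ (Y / 2) (Y / 2 + 5 / 2 * Y)).filter
          (fun n => ¬ Hit (Gs 3 k) (fun _ => Set.univ) n),
          (if (3 : ℤ) ^ b ∣ n - ρ then (1 : ℝ) else 0) := by
      rw [← sum_filter, sum_const, nsmul_eq_mul, mul_one, filter_filter]
    rw [h1]
    refine g5.trans ?_
    have h2 := mul_le_mul_of_nonneg_left (Dodd_unit b ρ)
      (show 0 ≤ 5 / 2 * Y / (3 ^ b * (k : ℝ) ^ 6) by positivity)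
    rwa [mul_one] at h2
  -- edges
  have g7 := card_Ob_le (σ := σ) (α := Y) (β := Y + 2 * 4 ^ k) (by
    have : (0 : ℝ) < 4 ^ k := by positivity
    linarith)
  have g8 := card_Ob_le (σ := σ) (α := 2 * Y - 2 * 4 ^ k) (β := 2 * Y) (by
    have : (0 : ℝ) < 4 ^ k := by positivity
    linarith)
  have hk4 : (k : ℝ) ≤ 4 ^ k := by
    have h1 : k < 4 ^ k := Nat.lt_pow_self (by norm_num)
    exact_mod_cast h1.le
  have h4k : (1 : ℝ) ≤ 4 ^ k := one_le_pow₀ (by norm_num)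
  have g9 : 4 ^ k * (k : ℝ) ≤ Y := by
    calc (4 : ℝ) ^ k * (k : ℝ) ≤ 4 ^ k * 4 ^ k := mul_le_mul_of_nonneg_left hk4 (by positivity)
      _ = 2 ^ (4 * k) := by
          rw [← mul_pow, pow_mul]
          norm_num
      _ ≤ Y := hY
  have hk0 : (0 : ℝ) < k := by linarith
  have g10 : (4 : ℝ) ^ k ≤ Y / k := by
    rw [le_div_iff₀ hk0]
    exact g9
  -- mixing
  have g11 : ∑ s ∈ range (3 * k + 1), ∑ x ∈ range (3 ^ (k + b)),
      |Fw (II k) k s (k + b) (x : ℤ) - Fw (II k) k s k (x : ℤ) / 3 ^ b| ≤ ε / 6 := by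
    refine le_trans ?_ (f1 b hb)
    apply sum_le_sum_of_subset_of_nonneg
    · intro s hs
      rw [mem_range] at hs ⊢
      have h1 : 1 ≤ Nat.log 2 k := Nat.le_log_of_pow_le (by norm_num) (by simpa using hk2)
      have h2 : 3 ≤ II k := by
        unfold Pool.Agent.Collatz3.PD.II
        omega
      have h3 : 3 * k ≤ II k * k := Nat.mul_le_mul_right k h2
      omega
    · intro s _ _
      exact sum_nonneg fun x _ => abs_nonneg _
  -- the power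
  have g12 : 1 / (k : ℝ) ^ 6 ≤ 1 / k := by
    apply one_div_le_one_div_of_le hk0
    calc (k : ℝ) = k ^ 1 := (pow_one _).symm
      _ ≤ k ^ 6 := pow_le_pow_right₀ (by linarith) (by norm_num)
  have g13 : 10 / (k : ℝ) ≤ ε / 2 := by
    rw [div_le_iff₀ hk0]
    rw [div_le_iff₀ hε] at f3
    linarith
  -- assembly
  set N : ℝ := (((Ob σ Y (Y + Y)).filter fun v => v ∈ A).card : ℝ) with hNdef
  set N' : ℝ := (((Ob σ Y (Y + Y)).filter fun v => v ∈ A ∧ (3 : ℤ) ^ b ∣ v - ρ).card : ℝ)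
  set M : ℝ := ∑ s ∈ range (3 * k + 1), ∑ x ∈ (Dodd_W σ Y k s).filter (fun x => x ∈ A),
      2 ^ s * Fw (II k) k s k x
  set D : ℝ := ∑ s ∈ range (3 * k + 1), ∑ x ∈ range (3 ^ (k + b)),
      |Fw (II k) k s (k + b) (x : ℤ) - Fw (II k) k s k (x : ℤ) / 3 ^ b|
  have h1 : M / 3 ^ b - 3 * Y / 3 ^ b * D ≤ N' + 5 / 2 * Y / (3 ^ b * (k : ℝ) ^ 6) :=
    g3.trans (g2.trans (add_le_add le_rfl g6))
  have h2 : N ≤ Y / (k : ℝ) ^ 6 + 6 * (Y / k) + M := by linarith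
  have h3 : N / 3 ^ b ≤ (Y / (k : ℝ) ^ 6 + 6 * (Y / k) + M) / 3 ^ b :=
    div_le_div_of_nonneg_right h2 h3b.le
  have h4 : 3 * Y / 3 ^ b * D ≤ 3 * Y / 3 ^ b * (ε / 6) :=
    mul_le_mul_of_nonneg_left g11 (by positivity)
  have h5 : Y / (k : ℝ) ^ 6 ≤ Y / k := by
    rw [div_eq_mul_one_div, div_eq_mul_one_div Y (k : ℝ)]
    exact mul_le_mul_of_nonneg_left g12 hY0.le
  have h6 : 5 / 2 * Y / (3 ^ b * (k : ℝ) ^ 6) = 5 / 2 * (Y / (k : ℝ) ^ 6) / 3 ^ b := by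
    field_simp
  have h7 : (Y / (k : ℝ) ^ 6 + 6 * (Y / k) + M) / 3 ^ b + 5 / 2 * (Y / (k : ℝ) ^ 6) / 3 ^ b +
      3 * Y / 3 ^ b * (ε / 6) ≤ M / 3 ^ b + ε * Y / 3 ^ b := by
    rw [← add_div, show 3 * Y / 3 ^ b * (ε / 6) = (Y * (ε / 2)) / 3 ^ b by ring, ← add_div,
      ← add_div]
    apply div_le_div_of_nonneg_right _ h3b.le
    have h8 : 10 * (Y / k) ≤ Y * (ε / 2) := by
      calc 10 * (Y / k) = Y * (10 / k) := by ring
        _ ≤ Y * (ε / 2) := mul_le_mul_of_nonneg_left g13 hY0.le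
    have h9 : 0 ≤ Y / k := by positivity
    linarith
  rw [h6] at h1
  linarith

end Pool.Agent.CPR
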