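import Mathlib
import Pool.Agent.CPR.St
import Pool.Agent.Collatz3.FWCore

set_option autoImplicit false

/-!
# CPR [Est]: the central estimate
-/

namespace Pool.Agent.CPR

open Finset Filter
open Pool.Agent.Collatz3 (cw)
open Pool.Agent.Collatz3.Mix (words)
open Pool.Agent.Collatz3.PD (rd en Fw II P Per P_nonneg P_mono)
open Pool.Agent.Collatz3.FW (Hit)
open Pool.Agent.Collatz3.DN (EvInv)
open Pool.Agent.Helper14 (T)

/-! ### Elementary estimates -/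

theorem Est_pow {J k : ℕ} (hJ : J ≤ k) : (J : ℝ) * (5 / 4) ^ k ≤ 2 ^ (2 * k) := by
  have h1 : (J : ℝ) ≤ 2 ^ k := by
    have h2 : J ≤ 2 ^ k := hJ.trans (Nat.lt_two_pow_self).le
    exact_mod_cast h2
  have h2 : ((5 : ℝ) / 4) ^ k ≤ 2 ^ k := pow_le_pow_left₀ (by norm_num) (by norm_num) k
  calc (J : ℝ) * (5 / 4) ^ k ≤ 2 ^ k * 2 ^ k := by
        exact mul_le_mul h1 h2 (by positivity) (by positivity)
    _ = 2 ^ (2 * k) := by rw [← pow_add]; congr 1; omega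

theorem Est_size {σ : ℤ} (hσ : σ = 1 ∨ σ = -1) {α ℓ : ℝ} {J k s : ℕ} {b : ℤ}
    (hb : b ∈ Wi σ α ℓ k J s) (hJ : J ≤ k) (h : 2 * 2 ^ (4 * k) ≤ 3 ^ (J * k) * α / 2 ^ s) :
    2 ^ (4 * k) ≤ |b| := by
  unfold Wi at hb
  rw [mem_Ob hσ] at hb
  have h1 := hb.2.1
  have h2 := Est_pow hJ
  have h3 : (2 : ℝ) ^ (2 * k) ≤ 2 ^ (4 * k) := pow_le_pow_right₀ (by norm_num) (by omega)
  have h4 : (2 : ℝ) ^ (4 * k) ≤ ((σ * b : ℤ) : ℝ) := by linarith
  have h5 : (2 : ℤ) ^ (4 * k) ≤ σ * b := by exact_mod_cast h4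
  have h6 : |σ * b| = |b| := by
    rcases hσ with h' | h' <;> rw [h'] <;> simp
  rw [← h6]
  exact h5.trans (le_abs_self _)

open Classical in
theorem Est_blk {J k : ℕ} {σ : ℤ} (hσ : σ = 1 ∨ σ = -1) {α ℓ : ℝ} {A : Set ℤ} (hJ : J ≤ k)
    (hB : ∀ F : Set ℤ,
      (((Ob σ α (α + ℓ)).filter fun n => ¬ Hit (GJ J k J) (fun _ => Fᶜ) n).card : ℝ) ≤
      ∑ s ∈ Icc ((2 * J - 1) * k) ((2 * J + 1) * k),
        ∑ b ∈ (Wi σ α ℓ k J s).filter (fun b => b ∈ F), fJ k J s b + ℓ / k)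
    (hI : ∀ w ∈ GJ J k J, ∀ b : ℤ, 2 ^ (4 * k) ≤ |b| → rd w b → (en w b ∈ A ↔ b ∈ A))
    (hα : ∀ s, (2 * J - 1) * k ≤ s → s ≤ (2 * J + 1) * k →
      2 * 2 ^ (4 * k) ≤ 3 ^ (J * k) * α / 2 ^ s) :
    (((Ob σ α (α + ℓ)).filter fun n => n ∉ A).card : ℝ) ≤
      ∑ s ∈ Icc ((2 * J - 1) * k) ((2 * J + 1) * k),
        ∑ b ∈ (Wi σ α ℓ k J s).filter (fun b => b ∉ A), fJ k J s b + ℓ / k := by
  obtain ⟨F, hF⟩ : ∃ F : Set ℤ, ∀ b, b ∈ F ↔ (b ∉ A ∨ |b| < 2 ^ (4 * k)) :=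
    ⟨{b | b ∉ A ∨ |b| < 2 ^ (4 * k)}, fun b => Iff.rfl⟩
  have h1 := hB F
  have h2 : ((Ob σ α (α + ℓ)).filter fun n => n ∉ A) ⊆
      (Ob σ α (α + ℓ)).filter fun n => ¬ Hit (GJ J k J) (fun _ => Fᶜ) n := by
    intro n hn
    rw [mem_filter] at hn ⊢
    refine ⟨hn.1, ?_⟩
    rintro ⟨w, hw, b, hb1, hb2, rfl, hb3⟩
    have hb4 : ¬ b ∈ F := hb3
    rw [hF, not_or, not_not, not_lt] at hb4
    exact hn.2 ((hI w hw b hb4.2 hb2).2 hb4.1)
  have h3 : (((Ob σ α (α + ℓ)).filter fun n => n ∉ A).card : ℝ) ≤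
      (((Ob σ α (α + ℓ)).filter fun n =>
        ¬ Hit (GJ J k J) (fun _ => Fᶜ) n).card : ℝ) := by
    exact_mod_cast card_le_card h2
  refine h3.trans (h1.trans (le_of_eq ?_))
  congr 1
  refine sum_congr rfl fun s hs => ?_
  rw [mem_Icc] at hs
  congr 1
  refine filter_congr fun b hb => ?_
  have h4 := Est_size hσ hb hJ (hα s hs.1 hs.2)
  rw [hF]
  constructor
  · rintro (h | h)
    · exact h
    · exact absurd h4 (not_le.2 h)
  · exact fun h => Or.inl h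

theorem Est_one (hS : St_Sum1) (hM : St_Mass) {J k s : ℕ} {σ : ℤ} (hσ : σ = 1 ∨ σ = -1)
    {α ℓ : ℝ} (hJ : J ≤ k) (hL : (2 : ℝ) ^ (5 * k) ≤ 3 ^ (J * k) * ℓ / 2 ^ s)
    (h2k : 2 * (2 : ℝ) ^ (2 * k) ≤ 2 ^ (5 * k)) :
    ∑ b ∈ Wi σ α ℓ k J s, fJ k J s b ≤
      6 * ℓ * P ((words (II k) (J * k)).filter fun w => w.sum = s) := by
  have h0 := Est_pow hJ
  have h1 : Wi σ α ℓ k J s = Ob σ (3 ^ (J * k) * α / 2 ^ s - J * (5 / 4) ^ k)
      (3 ^ (J * k) * α / 2 ^ s - J * (5 / 4) ^ k +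
        (3 ^ (J * k) * ℓ / 2 ^ s + 2 * (J * (5 / 4) ^ k))) := by
    unfold Wi
    congr 1
    ring
  have h2 : (3 : ℝ) ^ k ≤ 3 ^ (J * k) * ℓ / 2 ^ s + 2 * (J * (5 / 4) ^ k) := by
    have e1 : (3 : ℝ) ^ k ≤ 2 ^ (5 * k) := by
      rw [pow_mul]
      exact pow_le_pow_left₀ (by norm_num) (by norm_num) k
    have e2 : (0 : ℝ) ≤ 2 * (J * (5 / 4) ^ k) := by positivity
    linarith
  have h3 := hS σ hσ k (fJ k J s) (fJ_per k J s) (fJ_nonneg k J s)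
    (3 ^ (J * k) * α / 2 ^ s - J * (5 / 4) ^ k) _ h2
  rw [h1]
  refine h3.trans ?_
  rw [hM k J s]
  have h4 : (3 : ℝ) ^ (J * k) * ℓ / 2 ^ s + 2 * (J * (5 / 4) ^ k) ≤
      2 * (3 ^ (J * k) * ℓ / 2 ^ s) := by linarith
  have hP := P_nonneg ((words (II k) (J * k)).filter fun w => w.sum = s)
  set p := P ((words (II k) (J * k)).filter fun w => w.sum = s) with hp
  have h5 : 3 * (3 ^ (J * k) * ℓ / 2 ^ s + 2 * (J * (5 / 4) ^ k)) / 3 ^ k *
      (2 ^ s * 3 ^ k / 3 ^ (J * k) * p) ≤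
      3 * (2 * (3 ^ (J * k) * ℓ / 2 ^ s)) / 3 ^ k * (2 ^ s * 3 ^ k / 3 ^ (J * k) * p) := by
    gcongr
  refine h5.trans (le_of_eq ?_)
  field_simp
  ring

theorem Est_Psum (W : Finset (List ℕ)) (S : Finset ℕ) :
    ∑ s ∈ S, P (W.filter fun w => w.sum = s) = P (W.filter fun w => w.sum ∈ S) := by
  unfold P
  simp only [sum_filter]
  rw [sum_comm]
  refine sum_congr rfl fun w _ => ?_
  rw [sum_ite_eq]

/-! ### Fibres -/

theorem Est_fib {p Q X : ℕ} (hp : 0 < p) (hQ : 0 < Q) (g : ℕ → ℝ) (hg : ∀ z, 0 ≤ g z) :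
    ∑ x ∈ Ico X (2 * X), g (p * x / Q) ≤ ((Q : ℝ) / p + 1) *
      ∑ i ∈ range (p * (2 * X) / Q - p * X / Q + 1), g (p * X / Q + i) := by
  have h1 : ∀ x ∈ Ico X (2 * X), p * x / Q ∈ Ico (p * X / Q) (p * (2 * X) / Q + 1) := by
    intro x hx
    rw [mem_Ico] at hx ⊢
    exact ⟨Nat.div_le_div_right (Nat.mul_le_mul_left p hx.1),
      Nat.lt_succ_of_le (Nat.div_le_div_right (Nat.mul_le_mul_left p hx.2.le))⟩
  rw [← sum_fiberwise_of_maps_to h1]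
  have h2 : ∀ z ∈ Ico (p * X / Q) (p * (2 * X) / Q + 1),
      ∑ x ∈ (Ico X (2 * X)).filter (fun x => p * x / Q = z), g (p * x / Q) ≤
        ((Q : ℝ) / p + 1) * g z := by
    intro z _
    have e1 : ∑ x ∈ (Ico X (2 * X)).filter (fun x => p * x / Q = z), g (p * x / Q) =
        (((Ico X (2 * X)).filter (fun x => p * x / Q = z)).card : ℝ) * g z := by
      rw [← nsmul_eq_mul]
      refine sum_eq_card_nsmul fun x hx => ?_
      rw [(mem_filter.1 hx).2]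
    rw [e1]
    refine mul_le_mul_of_nonneg_right ?_ (hg z)
    rcases ((Ico X (2 * X)).filter (fun x => p * x / Q = z)).eq_empty_or_nonempty with he | he
    · rw [he]
      simp only [card_empty, Nat.cast_zero]
      positivity
    · obtain ⟨x0, hx0, hmin⟩ := exists_min_image _ (fun x => x) he
      have e2 : (Ico X (2 * X)).filter (fun x => p * x / Q = z) ⊆ Icc x0 (x0 + Q / p) := by
        intro x hx
        have h3 : x0 ≤ x := hmin x hx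
        rw [mem_filter] at hx hx0
        rw [mem_Icc]
        refine ⟨h3, ?_⟩
        have h4 : z * Q ≤ p * x0 := by
          rw [← Nat.le_div_iff_mul_le hQ, hx0.2]
        have h5 : p * x < (z + 1) * Q := by
          rw [← Nat.div_lt_iff_lt_mul hQ, hx.2]
          exact Nat.lt_succ_self z
        have h6 : x - x0 ≤ Q / p := by
          rw [Nat.le_div_iff_mul_le hp, Nat.sub_mul]
          have h7 : (z + 1) * Q = z * Q + Q := by ring
          rw [h7] at h5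
          rw [mul_comm x p, mul_comm x0 p]
          omega
        omega
      have e3 := card_le_card e2
      rw [Nat.card_Icc] at e3
      have e5 : x0 + Q / p + 1 - x0 = Q / p + 1 := by
        rw [add_assoc, Nat.add_sub_cancel_left]
      rw [e5] at e3
      have e4 : ((Ico X (2 * X)).filter (fun x => p * x / Q = z)).card ≤ Q / p + 1 := e3
      calc (((Ico X (2 * X)).filter (fun x => p * x / Q = z)).card : ℝ) ≤
            ((Q / p + 1 : ℕ) : ℝ) := by exact_mod_cast e4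
        _ ≤ (Q : ℝ) / p + 1 := by
            push_cast
            have := @Nat.cast_div_le ℝ _ _ _ Q p
            linarith
  refine (sum_le_sum h2).trans (le_of_eq ?_)
  rw [← mul_sum, sum_Ico_eq_sum_range]
  have h3 : p * X / Q ≤ p * (2 * X) / Q :=
    Nat.div_le_div_right (Nat.mul_le_mul_left p (by omega))
  congr 2
  congr 1
  omega

theorem Est_off {σ : ℤ} (hσ : σ = 1 ∨ σ = -1) {B O : Finset ℤ} {f g : ℤ → ℝ} {c : ℤ}
    (hf : ∀ b, 0 ≤ f b) (hg : ∀ o, 0 ≤ g o) (h1 : ∀ b ∈ B, σ * b - c ∈ O)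
    (h2 : ∀ b ∈ B, 1 ≤ g (σ * b - c)) :
    ∑ b ∈ B, f b ≤ ∑ o ∈ O, f (σ * (c + o)) * g o := by
  have e0 : ∀ b : ℤ, σ * (c + (σ * b - c)) = b := by
    intro b
    have : c + (σ * b - c) = σ * b := by ring
    rw [this, ← mul_assoc, sig_sq hσ, one_mul]
  have hinj : Set.InjOn (fun b : ℤ => σ * b - c) (B : Set ℤ) := by
    intro b _ b' _ h
    have h' : σ * b - c = σ * b' - c := h
    rw [← e0 b, ← e0 b', h']
  calc ∑ b ∈ B, f b ≤ ∑ b ∈ B, f (σ * (c + (σ * b - c))) * g (σ * b - c) := by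
        refine sum_le_sum fun b hb => ?_
        rw [e0]
        exact le_mul_of_one_le_right (hf b) (h2 b hb)
    _ = ∑ o ∈ B.image (fun b => σ * b - c), f (σ * (c + o)) * g o := by
        rw [sum_image hinj]
    _ ≤ ∑ o ∈ O, f (σ * (c + o)) * g o := by
        refine sum_le_sum_of_subset_of_nonneg ?_ fun o _ _ => mul_nonneg (hf _) (hg _)
        intro o ho
        rw [mem_image] at ho
        obtain ⟨b, hb, rfl⟩ := ho
        exact h1 b hb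

theorem Est_bad_nonneg (hPer : St_Per) (n m D r : ℕ) (σ o z : ℤ) : 0 ≤ bad n m D r σ o z := by
  have h : ∀ (s : ℕ × ℤ) (x : ℤ), 0 ≤ wc n m s x := by
    intro s x
    rcases (hPer n m s).2.1 x with h | h <;> rw [h]
    exact zero_le_one
  unfold bad
  exact add_nonneg (add_nonneg (h _ _) (h _ _)) (h _ _)

theorem Est_bad_per (hPer : St_Per) (n m D r : ℕ) (σ o z t : ℤ) :
    bad n m D r σ o (z + 2 ^ (n + m) * t) = bad n m D r σ o z := by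
  have h : ∀ (s : ℕ × ℤ) (x t : ℤ), wc n m s (x + 2 ^ (n + m) * t) = wc n m s x := by
    intro s x t
    have h1 : Function.Periodic (wc n m s) (((2 ^ (n + m) : ℕ)) : ℤ) :=
      (hPer n m s).2.2.2.1
    have h2 := h1.int_mul t x
    have h3 : (t : ℤ) * (((2 ^ (n + m) : ℕ)) : ℤ) = 2 ^ (n + m) * t := by
      push_cast
      ring
    rw [Int.cast_id, h3] at h2
    exact h2
  unfold bad
  have e1 : σ * (z + 2 ^ (n + m) * t) = σ * z + 2 ^ (n + m) * (σ * t) := by ring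
  have e2 : 3 ^ pc r (σ * o) * (σ * z + 2 ^ (n + m) * (σ * t)) + T^[r] (σ * o) =
      3 ^ pc r (σ * o) * (σ * z) + T^[r] (σ * o) +
        2 ^ (n + m) * (3 ^ pc r (σ * o) * (σ * t)) := by ring
  rw [e1, e2, h, h, h]

theorem Est_mix (hX : St_Mix2) (hM : St_Mass) (hPer : St_Per) {J k s r n m D : ℕ} {σ o : ℤ}
    (hσ : σ = 1 ∨ σ = -1) {δ : ℝ}
    (hav : ∑ i ∈ range (2 ^ (n + m)), bad n m D r σ o (i : ℤ) ≤ δ * 2 ^ (n + m)) (a : ℤ) (L : ℕ)
    {L' : ℝ} (hL : (L : ℝ) ≤ 2 * L') (hL' : (2 : ℝ) ^ (n + m) * 3 ^ k ≤ L') :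
    ∑ i ∈ range L, fJ k J s (σ * (2 ^ r * (a + i) + o)) * bad n m D r σ o (a + i) ≤
      3 * L' * (2 ^ s / 3 ^ (J * k) * P ((words (II k) (J * k)).filter fun w => w.sum = s)) *
        δ := by
  have hf0 : ∀ x : ℤ, 0 ≤ fJ k J s (σ * (2 ^ r * x + o)) := fun x => fJ_nonneg _ _ _ _
  have hper : Per k (fun x : ℤ => fJ k J s (σ * (2 ^ r * x + o))) := by
    intro x t
    have e1 : σ * (2 ^ r * (x + 3 ^ k * t) + o) =
        σ * (2 ^ r * x + o) + 3 ^ k * (σ * 2 ^ r * t) := by ring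
    show fJ k J s (σ * (2 ^ r * (x + 3 ^ k * t) + o)) = fJ k J s (σ * (2 ^ r * x + o))
    rw [e1, fJ_per]
  have h1 := hX (n + m) k (fun x : ℤ => fJ k J s (σ * (2 ^ r * x + o)))
    (fun z : ℤ => bad n m D r σ o z) hper (Est_bad_per hPer n m D r σ o) hf0
    (Est_bad_nonneg hPer n m D r σ o) a L
  refine h1.trans ?_
  have h2 : ∑ x ∈ range (3 ^ k), fJ k J s (σ * (2 ^ r * (x : ℤ) + o)) =
      2 ^ s * 3 ^ k / 3 ^ (J * k) * P ((words (II k) (J * k)).filter fun w => w.sum = s) := by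
    rw [← hM k J s]
    have h3 : IsCoprime ((3 : ℤ) ^ k) (σ * 2 ^ r) := by
      refine IsCoprime.pow_left ?_
      refine IsCoprime.mul_right ?_ (IsCoprime.pow_right ?_)
      · rcases hσ with h | h <;> rw [h]
        · exact isCoprime_one_right
        · exact isCoprime_one_right.neg_right
      · exact ⟨1, -1, by norm_num⟩
    have h4 := Pool.Agent.Collatz3.FW.S_affine (fJ_per k J s) h3 (σ * o)
    unfold Pool.Agent.Collatz3.PD.S at h4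
    rw [← h4]
    refine sum_congr rfl fun x _ => ?_
    congr 1
    ring
  rw [h2]
  set p := P ((words (II k) (J * k)).filter fun w => w.sum = s) with hp
  have hp0 : 0 ≤ p := P_nonneg _
  have h5 : (0 : ℝ) < 2 ^ (n + m) * 3 ^ k := by positivity
  have h6 : (L : ℝ) / (2 ^ (n + m) * 3 ^ k) + 1 ≤ 3 * L' / (2 ^ (n + m) * 3 ^ k) := by
    rw [← sub_nonneg]
    have e1 : 3 * L' / (2 ^ (n + m) * 3 ^ k) - ((L : ℝ) / (2 ^ (n + m) * 3 ^ k) + 1) =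
        (3 * L' - L - 2 ^ (n + m) * 3 ^ k) / (2 ^ (n + m) * 3 ^ k) := by
      field_simp
      ring
    rw [e1]
    apply div_nonneg _ h5.le
    linarith
  have h7 : 0 ≤ L' := h5.le.trans hL'
  have h8 : 0 ≤ ∑ i ∈ range (2 ^ (n + m)), bad n m D r σ o (i : ℤ) :=
    sum_nonneg fun i _ => Est_bad_nonneg hPer n m D r σ o i
  calc ((L : ℝ) / (2 ^ (n + m) * 3 ^ k) + 1) * (2 ^ s * 3 ^ k / 3 ^ (J * k) * p *
        ∑ x ∈ range (2 ^ (n + m)), bad n m D r σ o (x : ℤ))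
      ≤ 3 * L' / (2 ^ (n + m) * 3 ^ k) * (2 ^ s * 3 ^ k / 3 ^ (J * k) * p *
        (δ * 2 ^ (n + m))) := by
        refine mul_le_mul h6 ?_ (by positivity) (by positivity)
        exact mul_le_mul_of_nonneg_left hav (by positivity)
    _ = 3 * L' * (2 ^ s / 3 ^ (J * k) * p) * δ := by
        field_simp

/-- The number of the offsets. -/
theorem Est_cardO {J k r : ℕ} {W : ℝ} (hk : 1 ≤ k) (hJ : J ≤ k) (hr : r ≤ k)
    (hW : (2 : ℝ) ^ (5 * k) ≤ W) :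
    (((Icc ⌈-((J : ℝ) * (5 / 4) ^ k)⌉ ⌊(2 : ℝ) ^ r + W + (J : ℝ) * (5 / 4) ^ k⌋).filter
      (fun o : ℤ => |o| ≤ 2 ^ (8 * k))).card : ℝ) ≤ 2 * W := by
  have hV := Est_pow hJ
  have hV0 : (0 : ℝ) ≤ (J : ℝ) * (5 / 4) ^ k := by positivity
  set V : ℝ := (J : ℝ) * (5 / 4) ^ k with hVd
  have h1 : (2 : ℝ) ^ r ≤ 2 ^ (2 * k) := pow_le_pow_right₀ (by norm_num) (by omega)
  have h2 : (1 : ℝ) ≤ 2 ^ (2 * k) := one_le_pow₀ (by norm_num)
  have h3 : (2 : ℝ) ^ (2 * k) * 4 ≤ 2 ^ (5 * k) := by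
    have e1 : (2 : ℝ) ^ (2 * k) * 4 = 2 ^ (2 * k + 2) := by
      rw [pow_add]
      norm_num
    rw [e1]
    exact pow_le_pow_right₀ (by norm_num) (by omega)
  have h0r : (0 : ℝ) < 2 ^ r := by positivity
  have h5k : (0 : ℝ) < 2 ^ (5 * k) := by positivity
  have h4 : ((((Icc ⌈-V⌉ ⌊(2 : ℝ) ^ r + W + V⌋).filter
      (fun o : ℤ => |o| ≤ 2 ^ (8 * k))).card : ℤ) : ℝ) ≤
      ((⌊(2 : ℝ) ^ r + W + V⌋ + 1 - ⌈-V⌉ : ℤ) : ℝ) := by
    have e1 : (((Icc ⌈-V⌉ ⌊(2 : ℝ) ^ r + W + V⌋).filter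
        (fun o : ℤ => |o| ≤ 2 ^ (8 * k))).card : ℤ) ≤ ((Icc ⌈-V⌉ ⌊(2 : ℝ) ^ r + W + V⌋).card : ℤ) := by
      exact Int.ofNat_le.2 (card_filter_le _ _)
    rw [Int.card_Icc, Int.toNat_of_nonneg] at e1
    · exact_mod_cast e1
    · have e2 : ⌈-V⌉ ≤ 0 := Int.ceil_le.2 (by push_cast; linarith)
      have e3 : 0 ≤ ⌊(2 : ℝ) ^ r + W + V⌋ := Int.le_floor.2 (by push_cast; linarith)
      omega
  have h5 := Int.floor_le ((2 : ℝ) ^ r + W + V)
  have h6 := Int.le_ceil (-V)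
  push_cast at h4
  linarith

open Classical in
theorem Est_main (hX : St_Mix2) (hM : St_Mass) (hPer : St_Per) {A : Set ℤ} {σ : ℤ}
    (hσ : σ = 1 ∨ σ = -1) {J K k k₁ s s' X n m D r : ℕ} {δ : ℝ} (hδ : 0 ≤ δ)
    (hk : 1 ≤ k) (hJ : J ≤ k) (hst : r + s + s' = tt K J k k₁) (hr : r ≤ k)
    (hL5 : (2 : ℝ) ^ (5 * k) ≤ 3 ^ (J * k) * (3 ^ k₁ * ll X / 2 ^ s') / 2 ^ s)
    (hz : (2 : ℝ) ^ (n + m) * 3 ^ k ≤ 3 ^ (J * k + k₁) / 2 ^ tt K J k k₁ * X)
    (hP : ∀ x, X ≤ x → x < 2 * X → Ev σ A n D (zz K J k k₁ x) →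
      ∀ b ∈ Wi σ (3 ^ k₁ * x / 2 ^ s') (3 ^ k₁ * ll X / 2 ^ s') k J s, b ∉ A →
      |σ * b - 2 ^ r * (zz K J k k₁ x : ℤ)| ≤ 2 ^ (8 * k) ∧
      1 ≤ bad n m D r σ (σ * b - 2 ^ r * (zz K J k k₁ x : ℤ)) (zz K J k k₁ x))
    (hA : ∀ o : ℤ, |o| ≤ 2 ^ (8 * k) →
      ∑ i ∈ range (2 ^ (n + m)), bad n m D r σ o (i : ℤ) ≤ δ * 2 ^ (n + m)) :
    ∑ x ∈ (Ico X (2 * X)).filter (fun x => Ev σ A n D (zz K J k k₁ x)),
      ∑ b ∈ (Wi σ (3 ^ k₁ * x / 2 ^ s') (3 ^ k₁ * ll X / 2 ^ s') k J s).filter (fun b => b ∉ A),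
        fJ k J s b ≤
    12 * (3 ^ k₁ * ll X / 2 ^ s') * X *
      P ((words (II k) (J * k)).filter fun w => w.sum = s) * δ := by
  set ℓ : ℝ := 3 ^ k₁ * ll X / 2 ^ s' with hℓ
  set p : ℕ := 3 ^ (J * k + k₁) with hp
  set Q : ℕ := 2 ^ tt K J k k₁ with hQ
  set V : ℝ := (J : ℝ) * (5 / 4) ^ k with hVd
  set W : ℝ := 3 ^ (J * k) * ℓ / 2 ^ s with hW
  set O : Finset ℤ := (Icc ⌈-V⌉ ⌊(2 : ℝ) ^ r + W + V⌋).filter (fun o : ℤ => |o| ≤ 2 ^ (8 * k))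
    with hO
  have hp0 : 0 < p := by positivity
  have hQ0 : 0 < Q := by positivity
  have hpR : (p : ℝ) = 3 ^ (J * k + k₁) := by rw [hp]; push_cast; rfl
  have hQR : (Q : ℝ) = 2 ^ tt K J k k₁ := by rw [hQ]; push_cast; rfl
  have hpR0 : (0 : ℝ) < p := by exact_mod_cast hp0
  have hQR0 : (0 : ℝ) < Q := by exact_mod_cast hQ0
  have hzz : ∀ x, zz K J k k₁ x = p * x / Q := fun x => rfl
  have hpQ : (p : ℝ) ≤ Q := by
    rw [hpR, hQR]
    have e1 : (3 : ℝ) ^ (J * k + k₁) ≤ 4 ^ (J * k + k₁) :=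
      pow_le_pow_left₀ (by norm_num) (by norm_num) _
    have e2 : (4 : ℝ) ^ (J * k + k₁) = 2 ^ (2 * (J * k + k₁)) := by
      rw [pow_mul]
      norm_num
    rw [e2] at e1
    refine e1.trans (pow_le_pow_right₀ (by norm_num) ?_)
    unfold tt
    omega
  have hO2 : (O.card : ℝ) ≤ 2 * W := Est_cardO hk hJ hr hL5
  have hW0 : 0 < W := lt_of_lt_of_le (by positivity) hL5
  have hbad := Est_bad_nonneg hPer
  -- the position of `b`
  have step1 : ∀ x ∈ (Ico X (2 * X)).filter (fun x => Ev σ A n D (zz K J k k₁ x)),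
      ∑ b ∈ (Wi σ (3 ^ k₁ * x / 2 ^ s') ℓ k J s).filter (fun b => b ∉ A), fJ k J s b ≤
      ∑ o ∈ O, fJ k J s (σ * (2 ^ r * ((p * x / Q : ℕ) : ℤ) + o)) *
        bad n m D r σ o ((p * x / Q : ℕ) : ℤ) := by
    intro x hx
    rw [mem_filter, mem_Ico] at hx
    have hPx := hP x hx.1.1 hx.1.2 hx.2
    rw [hzz] at hPx
    refine Est_off (c := 2 ^ r * ((p * x / Q : ℕ) : ℤ)) hσ (fJ_nonneg k J s)
      (fun o => hbad n m D r σ o _) ?_ ?_
    · intro b hb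
      rw [mem_filter] at hb
      have h1 := hPx b hb.1 hb.2
      have h2 := hb.1
      unfold Wi at h2
      rw [mem_Ob hσ] at h2
      have e0 : (3 : ℝ) ^ (J * k) * (3 ^ k₁ * x / 2 ^ s') / 2 ^ s = 2 ^ r * (p * x / Q) := by
        rw [hpR, hQR, ← hst, pow_add, pow_add, pow_add]
        field_simp
      have e1 : ((p * x / Q : ℕ) : ℝ) ≤ (p : ℝ) * x / Q := by
        have := @Nat.cast_div_le ℝ _ _ _ (p * x) Q
        push_cast at this
        exact this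
      have e2 : (p : ℝ) * x / Q < ((p * x / Q : ℕ) : ℝ) + 1 := by
        rw [div_lt_iff₀ hQR0]
        have : p * x < (p * x / Q + 1) * Q := by
          rw [← Nat.div_lt_iff_lt_mul hQ0]
          exact Nat.lt_succ_self _
        exact_mod_cast this
      have h0r : (0 : ℝ) < 2 ^ r := by positivity
      have e3 : (2 : ℝ) ^ r * ((p * x / Q : ℕ) : ℝ) ≤ 2 ^ r * (p * x / Q) :=
        mul_le_mul_of_nonneg_left e1 h0r.le
      have e4 : (2 : ℝ) ^ r * (p * x / Q) ≤ 2 ^ r * ((p * x / Q : ℕ) : ℝ) + 2 ^ r := by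
        have := mul_le_mul_of_nonneg_left e2.le h0r.le
        linarith
      have e5 : (3 : ℝ) ^ (J * k) * (3 ^ k₁ * x / 2 ^ s' + ℓ) / 2 ^ s =
          3 ^ (J * k) * (3 ^ k₁ * x / 2 ^ s') / 2 ^ s + W := by
        rw [hW]
        ring
      have h3 := h2.2.1
      have h4 := h2.2.2
      rw [e5, e0] at h4
      rw [e0] at h3
      rw [hO, mem_filter, mem_Icc]
      refine ⟨⟨Int.ceil_le.2 ?_, Int.le_floor.2 ?_⟩, h1.1⟩
      · rw [Int.cast_sub]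
        have e6 : (((2 : ℤ) ^ r * ((p * x / Q : ℕ) : ℤ) : ℤ) : ℝ) =
            2 ^ r * ((p * x / Q : ℕ) : ℝ) := by
          rw [Int.cast_mul, Int.cast_pow, Int.cast_natCast]
          norm_num
        rw [e6]
        linarith
      · rw [Int.cast_sub]
        have e6 : (((2 : ℤ) ^ r * ((p * x / Q : ℕ) : ℤ) : ℤ) : ℝ) =
            2 ^ r * ((p * x / Q : ℕ) : ℝ) := by
          rw [Int.cast_mul, Int.cast_pow, Int.cast_natCast]
          norm_num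
        rw [e6]
        linarith
    · intro b hb
      rw [mem_filter] at hb
      exact (hPx b hb.1 hb.2).2
  have step2 : ∑ x ∈ (Ico X (2 * X)).filter (fun x => Ev σ A n D (zz K J k k₁ x)),
      ∑ b ∈ (Wi σ (3 ^ k₁ * x / 2 ^ s') ℓ k J s).filter (fun b => b ∉ A), fJ k J s b ≤
      ∑ o ∈ O, ∑ x ∈ Ico X (2 * X), fJ k J s (σ * (2 ^ r * ((p * x / Q : ℕ) : ℤ) + o)) *
        bad n m D r σ o ((p * x / Q : ℕ) : ℤ) := by
    rw [sum_comm]
    refine (sum_le_sum step1).trans ?_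
    refine sum_le_sum_of_subset_of_nonneg (filter_subset _ _) fun x _ _ => ?_
    exact sum_nonneg fun o _ => mul_nonneg (fJ_nonneg _ _ _ _) (hbad _ _ _ _ _ _ _)
  set pr := P ((words (II k) (J * k)).filter fun w => w.sum = s) with hpr
  have hpr0 : 0 ≤ pr := P_nonneg _
  set L' : ℝ := (p : ℝ) / Q * X with hL'
  have hz' : (2 : ℝ) ^ (n + m) * 3 ^ k ≤ L' := by
    rw [hL', hpR, hQR]
    exact hz
  have h2L : 2 ≤ L' := by
    have e1 : (1 : ℝ) ≤ 2 ^ (n + m) := one_le_pow₀ (by norm_num)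
    have e2 : (3 : ℝ) ≤ 3 ^ k := by
      calc (3 : ℝ) = 3 ^ 1 := by norm_num
        _ ≤ 3 ^ k := pow_le_pow_right₀ (by norm_num) hk
    nlinarith
  have hLL : ((p * (2 * X) / Q - p * X / Q + 1 : ℕ) : ℝ) ≤ 2 * L' := by
    have e0 : p * X / Q ≤ p * (2 * X) / Q :=
      Nat.div_le_div_right (Nat.mul_le_mul_left p (by omega))
    have e1 : ((p * (2 * X) / Q : ℕ) : ℝ) ≤ 2 * L' := by
      have := @Nat.cast_div_le ℝ _ _ _ (p * (2 * X)) Q
      push_cast at this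
      have e3 : (p : ℝ) * (2 * X) / Q = 2 * L' := by
        rw [hL']
        ring
      rw [e3] at this
      exact this
    have e2 : L' < ((p * X / Q : ℕ) : ℝ) + 1 := by
      have e3 : L' = (p : ℝ) * X / Q := by
        rw [hL']
        ring
      rw [e3, div_lt_iff₀ hQR0]
      have : p * X < (p * X / Q + 1) * Q := by
        rw [← Nat.div_lt_iff_lt_mul hQ0]
        exact Nat.lt_succ_self _
      exact_mod_cast this
    rw [Nat.cast_add, Nat.cast_sub e0, Nat.cast_one]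
    linarith
  have step3 : ∀ o ∈ O, ∑ x ∈ Ico X (2 * X),
      fJ k J s (σ * (2 ^ r * ((p * x / Q : ℕ) : ℤ) + o)) *
        bad n m D r σ o ((p * x / Q : ℕ) : ℤ) ≤
      ((Q : ℝ) / p + 1) * (3 * L' * (2 ^ s / 3 ^ (J * k) * pr) * δ) := by
    intro o ho
    rw [hO, mem_filter] at ho
    have h1 := Est_fib (X := X) hp0 hQ0
      (fun z : ℕ => fJ k J s (σ * (2 ^ r * (z : ℤ) + o)) * bad n m D r σ o (z : ℤ))
      (fun z => mul_nonneg (fJ_nonneg _ _ _ _) (hbad _ _ _ _ _ _ _))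
    refine h1.trans (mul_le_mul_of_nonneg_left ?_ (by positivity))
    have h2 := Est_mix hX hM hPer hσ (J := J) (s := s) (hA o ho.2) ((p * X / Q : ℕ) : ℤ)
      (p * (2 * X) / Q - p * X / Q + 1) hLL hz'
    refine le_trans (le_of_eq ?_) h2
    refine sum_congr rfl fun i _ => ?_
    simp only [Nat.cast_add]
  refine step2.trans ((sum_le_sum step3).trans ?_)
  rw [sum_const, nsmul_eq_mul]
  have hL'0 : 0 ≤ L' := by linarith
  have h3 : (O.card : ℝ) * (((Q : ℝ) / p + 1) * (3 * L' * (2 ^ s / 3 ^ (J * k) * pr) * δ)) ≤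
      2 * W * (((Q : ℝ) / p + 1) * (3 * L' * (2 ^ s / 3 ^ (J * k) * pr) * δ)) := by
    refine mul_le_mul_of_nonneg_right hO2 ?_
    positivity
  refine h3.trans ?_
  have h4 : 2 * W * (((Q : ℝ) / p + 1) * (3 * L' * (2 ^ s / 3 ^ (J * k) * pr) * δ)) =
      6 * ℓ * X * pr * δ * (1 + (p : ℝ) / Q) := by
    rw [hW, hL']
    field_simp
    ring
  rw [h4]
  have h5 : (p : ℝ) / Q ≤ 1 := (div_le_one hQR0).2 hpQ
  have hℓ0 : 0 ≤ ℓ := by
    rw [hℓ]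
    unfold ll
    positivity
  have h6 : 0 ≤ 6 * ℓ * X * pr * δ := by positivity
  nlinarith

/-- The sizes needed for the mixing. -/
theorem Est_hz {K J k k₁ X : ℕ} (hX1 : 1 ≤ X) (_hk : 4 ≤ k)
    (h64 : 64 * k ≤ 3 * (Nat.log 2 X + 1))
    (h : (X : ℝ) ^ (7 / 10 : ℝ) ≤ (zz K J k k₁ X : ℝ)) :
    (2 : ℝ) ^ (Nat.log 2 X / 10000 + Nat.log 2 X / 2) * 3 ^ k ≤
      3 ^ (J * k + k₁) / 2 ^ tt K J k k₁ * X := by
  set N := Nat.log 2 X with hN
  have e1 : 10 * (N / 10000 + N / 2 + 2 * k) ≤ 7 * N := by omega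
  have e2 : (3 : ℝ) ^ k ≤ 2 ^ (2 * k) := by
    rw [pow_mul]
    exact pow_le_pow_left₀ (by norm_num) (by norm_num) k
  have e3 : (2 : ℝ) ^ (N / 10000 + N / 2) * 3 ^ k ≤ 2 ^ (N / 10000 + N / 2 + 2 * k) := by
    rw [pow_add _ (N / 10000 + N / 2)]
    exact mul_le_mul_of_nonneg_left e2 (by positivity)
  have e4 : (2 : ℝ) ^ (N / 10000 + N / 2 + 2 * k) ≤ (X : ℝ) ^ (7 / 10 : ℝ) := by
    have h1 : ((2 : ℝ) ^ N) ≤ X := by
      have := Nat.pow_log_le_self 2 (x := X) (by omega)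
      exact_mod_cast this
    have h2 : (((N / 10000 + N / 2 + 2 * k : ℕ)) : ℝ) ≤ (N : ℝ) * (7 / 10) := by
      have h3 : ((10 * (N / 10000 + N / 2 + 2 * k) : ℕ) : ℝ) ≤ ((7 * N : ℕ) : ℝ) := by
        exact_mod_cast e1
      rw [Nat.cast_mul, Nat.cast_mul] at h3
      norm_num at h3
      norm_num
      linarith
    calc (2 : ℝ) ^ (N / 10000 + N / 2 + 2 * k)
        = (2 : ℝ) ^ (((N / 10000 + N / 2 + 2 * k : ℕ)) : ℝ) := (Real.rpow_natCast _ _).symm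
      _ ≤ (2 : ℝ) ^ ((N : ℝ) * (7 / 10)) :=
          Real.rpow_le_rpow_of_exponent_le (by norm_num) h2
      _ = ((2 : ℝ) ^ N) ^ (7 / 10 : ℝ) := by
          rw [Real.rpow_mul (by norm_num), Real.rpow_natCast]
      _ ≤ (X : ℝ) ^ (7 / 10 : ℝ) :=
          Real.rpow_le_rpow (by positivity) h1 (by norm_num)
  have e5 : (zz K J k k₁ X : ℝ) ≤ 3 ^ (J * k + k₁) / 2 ^ tt K J k k₁ * X := by
    unfold zz
    have h1 := @Nat.cast_div_le ℝ _ _ _ (3 ^ (J * k + k₁) * X) (2 ^ tt K J k k₁)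
    rw [Nat.cast_mul, Nat.cast_pow, Nat.cast_pow] at h1
    refine h1.trans (le_of_eq ?_)
    norm_num
    ring
  exact e3.trans (e4.trans (h.trans e5))

theorem Est_sqle {a b : ℝ} (h : (2 * a) ^ 2 ≤ b ^ 2) (hb : 0 ≤ b) :
    2 * a ≤ b := by
  nlinarith [sq_nonneg (2 * a - b)]

/-- The deviation of the sums which are far from the centre. -/
theorem Est_dev {K J k k₁ s s' : ℕ} (hJ : 1 ≤ J) (hk₁ : 4 * k₁ ^ 2 ≤ k) (hK : 1 ≤ K)
    (h1 : k₁ ≤ s') (h2 : s' ≤ 3 * k₁)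
    (h : ¬ (2 * (J * k + k₁) ≤ s + s' + Dp K J k ∧ s + s' ≤ 2 * (J * k + k₁) + Dp K J k)) :
    (K : ℝ) / 2 * √((J * k : ℕ) : ℝ) < |(s : ℝ) - 2 * ((J * k : ℕ) : ℝ)| := by
  have hr0 := Real.sqrt_nonneg ((J * k : ℕ) : ℝ)
  have hrs := Real.sq_sqrt (Nat.cast_nonneg (α := ℝ) (J * k))
  set R := √((J * k : ℕ) : ℝ) with hR
  have e1 : R < (Nat.sqrt (J * k) : ℝ) + 1 := by
    rw [hR, Real.sqrt_lt' (by positivity)]
    have := Nat.lt_succ_sqrt' (J * k)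
    exact_mod_cast this
  have e2 : (K : ℝ) * R ≤ (Dp K J k : ℝ) := by
    unfold Dp
    push_cast
    exact mul_le_mul_of_nonneg_left e1.le (Nat.cast_nonneg K)
  have e3 : (k₁ : ℝ) ≤ R / 2 := by
    have h3 : (4 * (k₁ : ℝ) ^ 2) ≤ ((J * k : ℕ) : ℝ) := by
      have h4 : 4 * k₁ ^ 2 ≤ J * k := hk₁.trans (Nat.le_mul_of_pos_left k hJ)
      exact_mod_cast h4
    rw [← hrs] at h3
    have h5 : (2 * (k₁ : ℝ)) ^ 2 ≤ R ^ 2 := by linarith
    have h6 := Est_sqle h5 hr0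
    linarith
  have hK' : (1 : ℝ) ≤ K := by exact_mod_cast hK
  have e4 : R / 2 ≤ (K : ℝ) * R / 2 := by nlinarith
  have h1' : (k₁ : ℝ) ≤ s' := by exact_mod_cast h1
  have h2' : (s' : ℝ) ≤ 3 * k₁ := by exact_mod_cast h2
  rw [not_and_or, not_le, not_le] at h
  rw [lt_abs]
  rcases h with h | h
  · right
    have h' : ((s : ℝ) + s' + (Dp K J k : ℝ)) < 2 * (((J * k : ℕ) : ℝ) + k₁) := by
      exact_mod_cast h
    linarith
  · left
    have h' : 2 * (((J * k : ℕ) : ℝ) + k₁) + (Dp K J k : ℝ) < (s : ℝ) + s' := by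
      exact_mod_cast h
    linarith

theorem thm_Est (hB : St_Blk) (hI : St_Inv) (hS : St_Sum1) (hM : St_Mass)
    (hT : Pool.Agent.Collatz3.PR.St_Tail3) (hP : St_Ptw) (hA : St_AvB) (hX : St_Mix2)
    (hPer : St_Per) (hR : St_Par) : St_Est := by
  classical
  obtain ⟨CT, hCT, hT⟩ := hT
  refine ⟨6 * CT, by positivity, fun K hK δ hδ => ?_⟩
  obtain ⟨J₁, hJ₁⟩ := hA (δ / 24) (by positivity)
  refine ⟨max J₁ 16, fun J hJ C A σ hσ hinv => ?_⟩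
  have hJJ₁ : J₁ ≤ J := (le_max_left _ _).trans hJ
  have hJ16 : 16 ≤ J := (le_max_right _ _).trans hJ
  have hJ3 : 3 ≤ J := by omega
  obtain ⟨kB, hkB⟩ := eventually_atTop.1 (hB J hJ3)
  obtain ⟨kI, hkI⟩ := eventually_atTop.1 (hI J hJ3 C)
  obtain ⟨kd, hkd⟩ := exists_nat_ge (2 / δ)
  obtain ⟨M, hMd⟩ : ∃ M, M = kB + kI + kd + J + 4 := ⟨_, rfl⟩
  filter_upwards [hR K J M hK hJ3, hP K J hK hJ3 C A σ hσ hinv, hJ₁ J hJJ₁ K hK,
    eventually_ge_atTop 1] with X hR hP hA hX1 k₁ k s' hk₁ hrel hs1 hs2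
  obtain ⟨r1, r2, r3, r4, r5, r6⟩ := hR k₁ k hk₁ hrel
  obtain ⟨r7, r8⟩ := r6 s' hs1 hs2
  have hk4 : 4 ≤ k := by omega
  have hJk : J ≤ k := by omega
  have hDk : 2 * Dp K J k ≤ k := by
    have : 2 * Dp K J k ≤ M * Dp K J k := Nat.mul_le_mul_right _ (by omega)
    omega
  have hk₁' : 4 * k₁ ^ 2 ≤ k := by
    have : 4 * k₁ ^ 2 ≤ M * k₁ ^ 2 := Nat.mul_le_mul_right _ (by omega)
    omega
  have h64 : 64 * k ≤ 3 * (Nat.log 2 X + 1) := by
    have : 16 * k ≤ J * k := Nat.mul_le_mul_right _ hJ16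
    omega
  have hkR : (0 : ℝ) < k := by exact_mod_cast (by omega : 0 < k)
  have hkδ : 1 / (k : ℝ) ≤ δ / 2 := by
    rw [div_le_iff₀ hkR]
    have h1 : 2 / δ ≤ (k : ℝ) := hkd.trans (by exact_mod_cast (by omega : kd ≤ k))
    rw [div_le_iff₀ hδ] at h1
    linarith
  obtain ⟨ℓ, hℓ⟩ : ∃ ℓ : ℝ, ℓ = 3 ^ k₁ * ll X / 2 ^ s' := ⟨_, rfl⟩
  obtain ⟨Gd, hGd⟩ : ∃ Gd : Finset ℕ, Gd = (Ico X (2 * X)).filter (fun x =>
      Ev σ A (Nat.log 2 X / 10000) (2 * Dp K J k) (zz K J k k₁ x)) := ⟨_, rfl⟩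
  rw [← hℓ]
  rw [← hℓ] at r7 r8
  have hℓ0 : 0 ≤ ℓ := by
    rw [hℓ]
    unfold ll
    positivity
  -- the bound for one window
  obtain ⟨Sx, hSx⟩ : ∃ Sx : ℕ → ℕ → ℝ, ∀ x s, Sx x s =
      ∑ b ∈ (Wi σ (3 ^ k₁ * x / 2 ^ s') ℓ k J s).filter (fun b => b ∉ A), fJ k J s b :=
    ⟨_, fun _ _ => rfl⟩
  have b1 : ∀ x ∈ Gd, (((Ob σ (3 ^ k₁ * x / 2 ^ s') (3 ^ k₁ * x / 2 ^ s' + ℓ)).filter
      fun n => n ∉ A).card : ℝ) ≤
      ∑ s ∈ Icc ((2 * J - 1) * k) ((2 * J + 1) * k), Sx x s + ℓ / k := by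
    intro x hx
    rw [hGd, mem_filter, mem_Ico] at hx
    have h1 := Est_blk (α := 3 ^ k₁ * (x : ℝ) / 2 ^ s') (ℓ := ℓ) (A := A) hσ hJk
      (fun F => hkB k (by omega) σ hσ (3 ^ k₁ * (x : ℝ) / 2 ^ s') ℓ F (by positivity) r7)
      (fun w hw b hb hrd => (hkI k (by omega) A hinv J w hw b hb hrd).1)
      (fun s h1 h2 => by
        have h3 := (r8 s h1 h2).2.2 x hx.1.1
        refine le_trans ?_ h3
        have h4 : (2 : ℝ) ≤ M := by exact_mod_cast (by omega : 2 ≤ M)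
        exact mul_le_mul_of_nonneg_right h4 (by positivity))
    refine h1.trans (le_of_eq ?_)
    congr 1
    exact sum_congr rfl fun s _ => (hSx x s).symm
  -- splitting of the sums
  obtain ⟨Q, hQ⟩ : ∃ Q : ℕ → Prop, ∀ s, Q s ↔
      (2 * (J * k + k₁) ≤ s + s' + Dp K J k ∧ s + s' ≤ 2 * (J * k + k₁) + Dp K J k) :=
    ⟨_, fun _ => Iff.rfl⟩
  obtain ⟨I, hId⟩ : ∃ I, I = Icc ((2 * J - 1) * k) ((2 * J + 1) * k) := ⟨_, rfl⟩
  have hmemI : ∀ s ∈ I, (2 * J - 1) * k ≤ s ∧ s ≤ (2 * J + 1) * k := fun s hs => by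
    rw [hId, mem_Icc] at hs
    exact hs
  obtain ⟨pr, hpr⟩ : ∃ pr : ℕ → ℝ, ∀ s, pr s =
      P ((words (II k) (J * k)).filter fun w => w.sum = s) := ⟨_, fun _ => rfl⟩
  have hW1 : P (words (II k) (J * k)) ≤ 1 := by
    rw [Pool.Agent.Collatz3.PD.P_words]
    exact pow_le_one₀ (Pool.Agent.Collatz3.PD.Z_nonneg _) (Pool.Agent.Collatz3.PD.Z_le_one _)
  -- the tail
  have c1 : ∀ x ∈ Gd, ∑ s ∈ I.filter (fun s => ¬ Q s), Sx x s ≤
      6 * ℓ * (CT * Real.exp (-(K / 4))) := by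
    intro x _
    have h1 : ∀ s ∈ I.filter (fun s => ¬ Q s), Sx x s ≤ 6 * ℓ * pr s := by
      intro s hs
      rw [mem_filter] at hs
      obtain ⟨m1, m2⟩ := hmemI s hs.1
      rw [hSx, hpr]
      have h2 : ∑ b ∈ (Wi σ (3 ^ k₁ * x / 2 ^ s') ℓ k J s).filter (fun b => b ∉ A), fJ k J s b ≤
          ∑ b ∈ Wi σ (3 ^ k₁ * x / 2 ^ s') ℓ k J s, fJ k J s b :=
        sum_le_sum_of_subset_of_nonneg (filter_subset _ _) fun b _ _ => fJ_nonneg _ _ _ _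
      refine h2.trans (Est_one hS hM hσ hJk (r8 s m1 m2).1 ?_)
      have e1 : 2 * (2 : ℝ) ^ (2 * k) = 2 ^ (2 * k + 1) := by
        rw [pow_succ]
        ring
      rw [e1]
      exact pow_le_pow_right₀ (by norm_num) (by omega)
    refine (sum_le_sum h1).trans ?_
    rw [← mul_sum]
    refine mul_le_mul_of_nonneg_left ?_ (by positivity)
    have h3 : ∑ s ∈ I.filter (fun s => ¬ Q s), pr s =
        P ((words (II k) (J * k)).filter fun w => w.sum ∈ I.filter (fun s => ¬ Q s)) := by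
      rw [← Est_Psum]
      exact sum_congr rfl fun s _ => hpr s
    rw [h3]
    have h4 := hT (II k) (J * k) (by nlinarith) ((K : ℝ) / 2) (by positivity)
    have h5 : (K : ℝ) / 2 / 2 = K / 4 := by ring
    rw [h5] at h4
    refine (P_mono ?_).trans h4
    intro w hw
    rw [mem_filter] at hw ⊢
    refine ⟨hw.1, ?_⟩
    have h6 := (mem_filter.1 hw.2).2
    rw [hQ] at h6
    exact Est_dev (by omega) hk₁' hK hs1 hs2 h6
  -- the main part
  have c2 : ∀ s ∈ I.filter Q, ∑ x ∈ Gd, Sx x s ≤ 12 * ℓ * X * pr s * (δ / 24) := by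
    intro s hs
    rw [mem_filter] at hs
    obtain ⟨m1, m2⟩ := hmemI s hs.1
    obtain ⟨q1, q2⟩ := (hQ s).1 hs.2
    have htt : tt K J k k₁ = 2 * (J * k + k₁) + Dp K J k := rfl
    have hrr : tt K J k k₁ - s - s' ≤ 2 * Dp K J k := by omega
    have h1 := Est_main (A := A) (K := K) (k₁ := k₁) (s := s) (s' := s') (X := X)
      (n := Nat.log 2 X / 10000) (m := Nat.log 2 X / 2) (D := 2 * Dp K J k)
      (r := tt K J k k₁ - s - s') (δ := δ / 24) hX hM hPer hσ (by positivity) (by omega) hJk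
      (by omega) (by omega) (by rw [← hℓ]; exact (r8 s m1 m2).1)
      (Est_hz hX1 hk4 h64 (r5 X le_rfl).2.2)
      (fun x hx1 hx2 hev b hb hbA => hP k₁ k s s' x hk₁ hrel hs1 hs2 m1 m2 q1 q2 hx1 hx2 hev b
        hb hbA)
      (fun o ho => hA k₁ k hk₁ hrel _ σ o hσ hrr ho)
    rw [← hℓ, ← hGd, ← hpr] at h1
    refine le_trans (le_of_eq ?_) h1
    exact sum_congr rfl fun x _ => hSx x s
  have hGX : (Gd.card : ℝ) ≤ X := by
    have h1 : Gd.card ≤ (Ico X (2 * X)).card := by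
      rw [hGd]
      exact card_filter_le _ _
    rw [Nat.card_Ico] at h1
    exact_mod_cast (by omega : Gd.card ≤ X)
  have hprs : ∑ s ∈ I.filter Q, pr s ≤ 1 := by
    have h3 : ∑ s ∈ I.filter Q, pr s =
        P ((words (II k) (J * k)).filter fun w => w.sum ∈ I.filter Q) := by
      rw [← Est_Psum]
      exact sum_congr rfl fun s _ => hpr s
    rw [h3]
    exact (P_mono (filter_subset _ _)).trans hW1
  -- assembly
  have d1 : ∑ x ∈ Gd, (((Ob σ (3 ^ k₁ * x / 2 ^ s') (3 ^ k₁ * x / 2 ^ s' + ℓ)).filter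
      fun n => n ∉ A).card : ℝ) ≤
      ∑ x ∈ Gd, ∑ s ∈ I.filter (fun s => ¬ Q s), Sx x s + ∑ s ∈ I.filter Q, ∑ x ∈ Gd, Sx x s +
        Gd.card * (ℓ / k) := by
    refine (sum_le_sum b1).trans (le_of_eq ?_)
    rw [sum_add_distrib, sum_const, nsmul_eq_mul, ← hId]
    congr 1
    rw [sum_comm (s := I.filter Q), ← sum_add_distrib]
    refine sum_congr rfl fun x _ => ?_
    rw [add_comm]
    exact (sum_filter_add_sum_filter_not I Q (fun s => Sx x s)).symm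
  have d2 : ∑ x ∈ Gd, ∑ s ∈ I.filter (fun s => ¬ Q s), Sx x s ≤
      Gd.card * (6 * ℓ * (CT * Real.exp (-(K / 4)))) := by
    refine (sum_le_sum c1).trans (le_of_eq ?_)
    rw [sum_const, nsmul_eq_mul]
  have d3 : ∑ s ∈ I.filter Q, ∑ x ∈ Gd, Sx x s ≤ ℓ * X * (δ / 2) := by
    refine (sum_le_sum c2).trans ?_
    have e1 : ∑ s ∈ I.filter Q, 12 * ℓ * X * pr s * (δ / 24) =
        ℓ * X * (δ / 2) * ∑ s ∈ I.filter Q, pr s := by
      rw [mul_sum]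
      refine sum_congr rfl fun s _ => ?_
      ring
    rw [e1]
    exact mul_le_of_le_one_right (by positivity) hprs
  have d4 : (Gd.card : ℝ) * (ℓ / k) ≤ ℓ * X * (δ / 2) := by
    have e1 : (Gd.card : ℝ) * (ℓ / k) = ℓ * (Gd.card : ℝ) * (1 / k) := by ring
    rw [e1]
    gcongr
  rw [← hGd]
  refine d1.trans ?_
  calc ∑ x ∈ Gd, ∑ s ∈ I.filter (fun s => ¬ Q s), Sx x s + ∑ s ∈ I.filter Q, ∑ x ∈ Gd, Sx x s +
        Gd.card * (ℓ / k)
      ≤ Gd.card * (6 * ℓ * (CT * Real.exp (-(K / 4)))) + ℓ * X * (δ / 2) + ℓ * X * (δ / 2) := by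
        linarith
    _ = ℓ * (6 * CT * Real.exp (-(K / 4)) * Gd.card + δ * X) := by ring

end Pool.Agent.CPR
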