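import Mathlib
import Pool.Agent.CPR.St

set_option autoImplicit false

/-!
# CPR, module Evt: many starting points satisfy the event
-/

namespace Pool.Agent.CPR

open Finset Filter
open Pool.Agent.Collatz3.DN (EvInv)
open Pool.Agent.Helper86.CollatzChain (periodic_eq sum_affine)

/-- The number of `x` above a value `z`. -/
theorem Evt_fib {p q X z : ℕ} (hp : 1 ≤ p) (hq : 1 ≤ q) (hz1 : p * X / q + 1 ≤ z)
    (hz2 : z + 1 ≤ 2 * (p * X / q)) :
    q / p ≤ ((Ico X (2 * X)).filter fun x => p * x / q = z).card := by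
  set x₀ := (q * z + p - 1) / p with hx₀
  have h1 : p * x₀ ≤ q * z + p - 1 := Nat.mul_div_le _ _
  have h2 : q * z + p - 1 < p * x₀ + p := by
    have := Nat.lt_mul_div_succ (q * z + p - 1) (show 0 < p by omega)
    rw [← hx₀] at this
    linarith [mul_add p x₀ 1]
  have h3 : q * z ≤ p * x₀ := by omega
  have h4 : p * (q / p) ≤ q := Nat.mul_div_le _ _
  have h5 : p * X < q * z := by
    have := (Nat.div_lt_iff_lt_mul (show 0 < q by omega)).1 (show p * X / q < z by omega)
    rwa [mul_comm z q] at this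
  have h6 : q * (z + 1) ≤ p * (2 * X) := by
    calc q * (z + 1) ≤ q * (2 * (p * X / q)) := Nat.mul_le_mul_left _ hz2
      _ = 2 * (q * (p * X / q)) := by ring
      _ ≤ 2 * (p * X) := Nat.mul_le_mul_left _ (Nat.mul_div_le _ _)
      _ = p * (2 * X) := by ring
  have hsub : (range (q / p)).image (fun i => x₀ + i) ⊆
      (Ico X (2 * X)).filter fun x => p * x / q = z := by
    intro x hx
    rw [mem_image] at hx
    obtain ⟨i, hi, rfl⟩ := hx
    rw [mem_range] at hi
    have h7 : p * (x₀ + i) + p ≤ p * x₀ + q := by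
      calc p * (x₀ + i) + p = p * x₀ + p * (i + 1) := by ring
        _ ≤ p * x₀ + p * (q / p) := by
          have := Nat.mul_le_mul_left p (show i + 1 ≤ q / p by omega)
          omega
        _ ≤ p * x₀ + q := by omega
    have h8 : p * (x₀ + i) < q * (z + 1) := by
      have : q * (z + 1) = q * z + q := by ring
      omega
    have h9 : q * z ≤ p * (x₀ + i) := by
      have := Nat.mul_le_mul_left p (show x₀ ≤ x₀ + i by omega)
      omega
    rw [mem_filter, mem_Ico]
    refine ⟨⟨?_, ?_⟩, ?_⟩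
    · have : p * X < p * (x₀ + i) := by omega
      exact (lt_of_mul_lt_mul_left this (Nat.zero_le p)).le
    · have : p * (x₀ + i) < p * (2 * X) := by omega
      exact lt_of_mul_lt_mul_left this (Nat.zero_le p)
    · apply Nat.div_eq_of_lt_le
      · rw [mul_comm z q]
        exact h9
      · rw [mul_comm (z + 1) q]
        exact h8
  calc q / p = ((range (q / p)).image (fun i => x₀ + i)).card := by
        rw [card_image_of_injective _ (fun a b h => by simpa using h), card_range]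
    _ ≤ _ := card_le_card hsub

open Classical in
/-- From the values to the starting points. -/
theorem Evt_cnt {p q X : ℕ} (hp : 1 ≤ p) (hpq : 2 * p ≤ q) (E : ℕ → Prop) :
    ((((Ico (p * X / q + 1) (2 * (p * X / q + 1))).filter fun z => E z).card : ℝ) - 2) *
      ((q : ℝ) / (2 * p)) ≤ (((Ico X (2 * X)).filter fun x => E (p * x / q)).card : ℝ) := by
  set Y := p * X / q with hY
  set B := (Ico (Y + 1) (2 * Y)).filter fun z => E z with hB
  have h1 : ((Ico (Y + 1) (2 * (Y + 1))).filter fun z => E z).card ≤ B.card + 2 := by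
    have hs : ((Ico (Y + 1) (2 * (Y + 1))).filter fun z => E z) ⊆ B ∪ {2 * Y, 2 * Y + 1} := by
      intro z hz
      rw [mem_filter, mem_Ico] at hz
      rw [mem_union, hB, mem_filter, mem_Ico, mem_insert, mem_singleton]
      by_cases hz' : z < 2 * Y
      · exact Or.inl ⟨⟨hz.1.1, hz'⟩, hz.2⟩
      · right
        omega
    calc _ ≤ (B ∪ {2 * Y, 2 * Y + 1}).card := card_le_card hs
      _ ≤ B.card + ({2 * Y, 2 * Y + 1} : Finset ℕ).card := card_union_le _ _
      _ ≤ B.card + 2 := by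
        have := Finset.card_le_two (a := 2 * Y) (b := 2 * Y + 1)
        omega
  have h2 : B.card * (q / p) ≤ ((Ico X (2 * X)).filter fun x => E (p * x / q)).card := by
    have hm : ((Ico X (2 * X)).filter fun x => p * x / q ∈ B).card =
        ∑ z ∈ B, (((Ico X (2 * X)).filter fun x => p * x / q ∈ B).filter
          fun x => p * x / q = z).card := by
      apply card_eq_sum_card_fiberwise
      intro x hx
      have := (mem_filter.1 (mem_coe.1 hx)).2
      exact mem_coe.2 this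
    have h3 : ∑ z ∈ B, q / p ≤ ∑ z ∈ B, (((Ico X (2 * X)).filter fun x => p * x / q ∈ B).filter
          fun x => p * x / q = z).card := by
      apply sum_le_sum
      intro z hz
      have hz' := hz
      rw [hB, mem_filter, mem_Ico] at hz'
      have h4 := Evt_fib (X := X) (z := z) hp (show 1 ≤ q by omega) hz'.1.1
        (show z + 1 ≤ 2 * (p * X / q) by omega)
      refine h4.trans (card_le_card ?_)
      intro x hx
      rw [mem_filter] at hx
      rw [mem_filter, mem_filter]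
      exact ⟨⟨hx.1, by rw [hx.2]; exact hz⟩, hx.2⟩
    rw [sum_const, smul_eq_mul] at h3
    calc B.card * (q / p) ≤ ((Ico X (2 * X)).filter fun x => p * x / q ∈ B).card := by
          rw [hm]
          exact h3
      _ ≤ _ := by
        apply card_le_card
        intro x hx
        rw [mem_filter] at hx ⊢
        refine ⟨hx.1, ?_⟩
        have := hx.2
        rw [hB, mem_filter] at this
        exact this.2
  have hp0 : (0 : ℝ) < p := by exact_mod_cast (show 0 < p by omega)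
  have h5 : (q : ℝ) / (2 * p) ≤ ((q / p : ℕ) : ℝ) := by
    have h6 : q < p * (q / p) + p := by
      have := Nat.lt_mul_div_succ q (show 0 < p by omega)
      linarith [mul_add p (q / p) 1]
    have h7 : (q : ℝ) < p * ((q / p : ℕ) : ℝ) + p := by exact_mod_cast h6
    have h8 : 2 * (p : ℝ) ≤ q := by exact_mod_cast hpq
    rw [div_le_iff₀ (by positivity)]
    linarith
  have h9 : (0 : ℝ) ≤ (q : ℝ) / (2 * p) := by positivity
  have h1' : ((((Ico (Y + 1) (2 * (Y + 1))).filter fun z => E z).card : ℝ) - 2) ≤ (B.card : ℝ) := by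
    have : (((((Ico (Y + 1) (2 * (Y + 1))).filter fun z => E z).card : ℕ)) : ℝ) ≤
      ((B.card + 2 : ℕ) : ℝ) := by exact_mod_cast h1
    push_cast at this
    linarith
  calc ((((Ico (Y + 1) (2 * (Y + 1))).filter fun z => E z).card : ℝ) - 2) * ((q : ℝ) / (2 * p))
      ≤ (B.card : ℝ) * ((q : ℝ) / (2 * p)) := mul_le_mul_of_nonneg_right h1' h9
    _ ≤ (B.card : ℝ) * ((q / p : ℕ) : ℝ) := mul_le_mul_of_nonneg_left h5 (Nat.cast_nonneg _)
    _ ≤ _ := by exact_mod_cast h2

open Classical in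
/-- The number of values with the event. -/
theorem Evt_res (hP : St_Per) {σ : ℤ} (hσ : σ = 1 ∨ σ = -1) (A : Set ℤ) (n D Z : ℕ)
    (t c' : ℝ) (ht : 0 ≤ t) (hc : c' ≤ hh 0 n (D, 0))
    (hD : ∀ r : ℤ, t * Z / 2 ^ n ≤ (((Ico Z (2 * Z)).filter fun z : ℕ =>
      (2 : ℤ) ^ n ∣ (z : ℤ) - r ∧ σ * (z : ℤ) ∈ A).card : ℝ)) :
    t * Z * c' ≤ (((Ico Z (2 * Z)).filter fun z => Ev σ A n D z).card : ℝ) := by
  obtain ⟨hp1, -, hp3, -, hp5, -⟩ := hP n 0 (D, 0)
  have : NeZero (2 ^ n) := ⟨by positivity⟩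
  have hper : ∀ x y : ℤ, (2 : ℤ) ^ n ∣ x - y → wh n (D, 0) x = wh n (D, 0) y := by
    intro x y hxy
    rw [periodic_eq hp3 x, periodic_eq hp3 y]
    have : ((x : ℤ) : ZMod (2 ^ n)) = ((y : ℤ) : ZMod (2 ^ n)) := by
      rw [← sub_eq_zero, ← Int.cast_sub, ZMod.intCast_zmod_eq_zero_iff_dvd]
      push_cast
      exact hxy
    rw [this]
  have hsum : ∑ r ∈ range (2 ^ n), wh n (D, 0) (σ * (r : ℤ)) = 2 ^ n * hh 0 n (D, 0) := by
    have hu : IsUnit ((σ : ℤ) : ZMod (2 ^ n)) := by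
      rcases hσ with h | h
      · rw [h, Int.cast_one]
        exact isUnit_one
      · rw [h, Int.cast_neg, Int.cast_one]
        exact isUnit_one.neg
    have := sum_affine hp3 σ 0 hu
    simp only [add_zero] at this
    rw [this, hp5]
  have hfib : ((Ico Z (2 * Z)).filter fun z => Ev σ A n D z).card =
      ∑ r ∈ range (2 ^ n), (((Ico Z (2 * Z)).filter fun z => Ev σ A n D z).filter
        fun z => z % 2 ^ n = r).card := by
    apply card_eq_sum_card_fiberwise
    intro z _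
    exact mem_coe.2 (mem_range.2 (Nat.mod_lt _ (by positivity)))
  have hterm : ∀ r ∈ range (2 ^ n), wh n (D, 0) (σ * (r : ℤ)) * (t * Z / 2 ^ n) ≤
      ((((Ico Z (2 * Z)).filter fun z => Ev σ A n D z).filter
        fun z => z % 2 ^ n = r).card : ℝ) := by
    intro r hr
    rcases hp1 (σ * (r : ℤ)) with h0 | h1
    · rw [h0, zero_mul]
      exact Nat.cast_nonneg _
    · rw [h1, one_mul]
      refine (hD r).trans ?_
      have hsub : ((Ico Z (2 * Z)).filter fun z : ℕ =>
          (2 : ℤ) ^ n ∣ (z : ℤ) - r ∧ σ * (z : ℤ) ∈ A) ⊆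
          ((Ico Z (2 * Z)).filter fun z => Ev σ A n D z).filter fun z => z % 2 ^ n = r := by
        intro z hz
        rw [mem_filter] at hz
        rw [mem_filter, mem_filter]
        refine ⟨⟨hz.1, ?_, hz.2.2⟩, ?_⟩
        · rw [hper (σ * (z : ℤ)) (σ * (r : ℤ)) (by
            rw [← mul_sub]
            exact Dvd.dvd.mul_left hz.2.1 _)]
          exact h1
        · have h2 : ((2 ^ n : ℕ) : ℤ) ∣ (z : ℤ) - r := by
            push_cast
            exact hz.2.1
          have h3 : r ≡ z [MOD 2 ^ n] := (Nat.modEq_iff_dvd).2 h2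
          have h4 : r % 2 ^ n = z % 2 ^ n := h3
          rw [← h4]
          exact Nat.mod_eq_of_lt (mem_range.1 hr)
      exact_mod_cast card_le_card hsub
  have h2n : (0 : ℝ) < 2 ^ n := by positivity
  calc t * Z * c' ≤ t * Z * hh 0 n (D, 0) :=
        mul_le_mul_of_nonneg_left hc (mul_nonneg ht (Nat.cast_nonneg _))
    _ = (∑ r ∈ range (2 ^ n), wh n (D, 0) (σ * (r : ℤ))) * (t * Z / 2 ^ n) := by
        rw [hsum]
        field_simp
    _ = ∑ r ∈ range (2 ^ n), wh n (D, 0) (σ * (r : ℤ)) * (t * Z / 2 ^ n) := by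
        rw [sum_mul]
    _ ≤ ∑ r ∈ range (2 ^ n), ((((Ico Z (2 * Z)).filter fun z => Ev σ A n D z).filter
        fun z => z % 2 ^ n = r).card : ℝ) := sum_le_sum hterm
    _ = (((Ico Z (2 * Z)).filter fun z => Ev σ A n D z).card : ℝ) := by
        rw [hfib]
        push_cast
        rfl

open Classical in
/-- Many starting points satisfy the event. -/
theorem thm_Evt (hD : St_D) (hH : St_Hit) (hP : St_Per) (hR : St_Par) : St_Evt := by
  intro K hK
  obtain ⟨c', hc', n₁, hn₁⟩ := hH (10 ^ 6 * K ^ 2)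
  refine ⟨c' / 4, by positivity, ?_⟩
  intro J hJ C A σ d hσ hA hdens ε hε
  by_cases hde : d ≤ ε
  · refine Filter.Eventually.of_forall ?_
    intro X k₁ k _ _
    have h1 : c' / 4 * (d - ε) * X ≤ 0 := by
      have h2 : (0 : ℝ) ≤ X := Nat.cast_nonneg _
      have h3 : c' / 4 * (d - ε) ≤ 0 := by
        have : 0 < c' / 4 := by positivity
        nlinarith
      exact mul_nonpos_of_nonpos_of_nonneg h3 h2
    exact h1.trans (Nat.cast_nonneg _)
  push Not at hde
  have ht : 0 < d - ε := by linarith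
  obtain ⟨n₂, hn₂⟩ := hD C A σ d hσ hA hdens ε hε
  obtain ⟨M, hM⟩ := exists_nat_ge (4 / ((d - ε) * c'))
  filter_upwards [hR K J (M + 1) hK hJ, eventually_ge_atTop (2 ^ (10000 * (n₁ + n₂ + 1)))]
    with X hX hXl k₁ k hk₁ hrel
  obtain ⟨g1, -, -, g4, g5, -⟩ := hX k₁ k hk₁ hrel
  obtain ⟨g6, -, g7⟩ := g5 X le_rfl
  have hX0 : X ≠ 0 := by
    have : 0 < 2 ^ (10000 * (n₁ + n₂ + 1)) := by positivity
    omega
  have hN : 10000 * (n₁ + n₂ + 1) ≤ Nat.log 2 X := Nat.le_log_of_pow_le (by norm_num) hXl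
  have hNX : 2 ^ Nat.log 2 X ≤ X := Nat.pow_log_le_self 2 hX0
  set N := Nat.log 2 X with hNdef
  set n := N / 10000 with hn
  have hn1 : n₁ + n₂ + 1 ≤ n := by omega
  -- the hitting probability
  have hDD : (2 * Dp K J k) ^ 2 ≤ 10 ^ 6 * K ^ 2 * n := by
    have hJk : 1 ≤ J * k := Nat.one_le_iff_ne_zero.2 (Nat.mul_ne_zero (by omega) (by omega))
    have hs1 : 1 ≤ Nat.sqrt (J * k) := Nat.le_sqrt'.2 (by omega)
    have hs2 : Nat.sqrt (J * k) ^ 2 ≤ J * k := Nat.sqrt_le' _
    unfold Dp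
    calc (2 * (K * (Nat.sqrt (J * k) + 1))) ^ 2
        = 4 * K ^ 2 * (Nat.sqrt (J * k) + 1) ^ 2 := by ring
      _ ≤ 4 * K ^ 2 * (4 * Nat.sqrt (J * k) ^ 2) := by
          apply Nat.mul_le_mul_left
          nlinarith
      _ ≤ 4 * K ^ 2 * (4 * (J * k)) := by
          apply Nat.mul_le_mul_left
          omega
      _ ≤ 4 * K ^ 2 * (250000 * n) := by
          apply Nat.mul_le_mul_left
          omega
      _ = 10 ^ 6 * K ^ 2 * n := by ring
  have hhit := hn₁ n (2 * Dp K J k) (by omega) hDD 0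
  -- the values
  have hZ : 2 ^ (6000 * n) ≤ zz K J k k₁ X + 1 := by
    have h1 : (2 : ℝ) ^ (6000 * n) ≤ (X : ℝ) ^ (7 / 10 : ℝ) := by
      have h2 : ((2 : ℝ) ^ (6000 * n : ℕ)) ≤ (2 : ℝ) ^ ((7 / 10 : ℝ) * (N : ℝ)) := by
        rw [← Real.rpow_natCast]
        apply Real.rpow_le_rpow_of_exponent_le (by norm_num)
        have h3 : 10000 * n ≤ N := by omega
        have h4 : (10000 : ℝ) * n ≤ N := by exact_mod_cast h3
        have h5 : (0 : ℝ) ≤ N := Nat.cast_nonneg _
        push_cast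
        linarith
      have h6 : (2 : ℝ) ^ ((7 / 10 : ℝ) * (N : ℝ)) = ((2 : ℝ) ^ N) ^ (7 / 10 : ℝ) := by
        rw [mul_comm, Real.rpow_mul (by norm_num), Real.rpow_natCast]
      have h7 : ((2 : ℝ) ^ N) ^ (7 / 10 : ℝ) ≤ (X : ℝ) ^ (7 / 10 : ℝ) := by
        apply Real.rpow_le_rpow (by positivity) _ (by norm_num)
        exact_mod_cast hNX
      rw [h6] at h2
      exact h2.trans h7
    have h8 : (2 : ℝ) ^ (6000 * n) ≤ ((zz K J k k₁ X : ℕ) : ℝ) := h1.trans g7
    have h9 : 2 ^ (6000 * n) ≤ zz K J k k₁ X := by exact_mod_cast h8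
    omega
  have hres := Evt_res hP hσ A n (2 * Dp K J k) (zz K J k k₁ X + 1) (d - ε) c' ht.le hhit
    (fun r => hn₂ n (zz K J k k₁ X + 1) (by omega) hZ r)
  have hp : 1 ≤ 3 ^ (J * k + k₁) := Nat.one_le_pow _ _ (by norm_num)
  have hpq : 2 * 3 ^ (J * k + k₁) ≤ 2 ^ tt K J k k₁ := by
    have hDp : 1 ≤ Dp K J k := by
      unfold Dp
      exact Nat.one_le_iff_ne_zero.2 (Nat.mul_ne_zero (by omega) (by omega))
    have he : 2 ^ tt K J k k₁ = (2 ^ 2) ^ (J * k + k₁) * 2 ^ Dp K J k := by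
      unfold tt
      rw [pow_add, pow_mul]
    rw [he]
    calc 2 * 3 ^ (J * k + k₁) ≤ 2 * (2 ^ 2) ^ (J * k + k₁) :=
          Nat.mul_le_mul_left _ (Nat.pow_le_pow_left (by norm_num) _)
      _ = (2 ^ 2) ^ (J * k + k₁) * 2 ^ 1 := by ring
      _ ≤ (2 ^ 2) ^ (J * k + k₁) * 2 ^ Dp K J k :=
          Nat.mul_le_mul_left _ (Nat.pow_le_pow_right (by norm_num) hDp)
  have hcnt := Evt_cnt (X := X) hp hpq (Ev σ A n (2 * Dp K J k))
  set p := 3 ^ (J * k + k₁) with hpdef
  set q := 2 ^ tt K J k k₁ with hqdef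
  have hzzX : zz K J k k₁ X = p * X / q := rfl
  rw [hzzX] at hres g6
  have hp0 : (0 : ℝ) < (p : ℝ) := by exact_mod_cast (show 0 < p by omega)
  have hq0 : (0 : ℝ) < (q : ℝ) := by exact_mod_cast (show 0 < q by omega)
  have hZr : (p : ℝ) * X / q ≤ ((p * X / q + 1 : ℕ) : ℝ) := by
    rw [div_le_iff₀ hq0]
    have h1 : p * X < q * (p * X / q + 1) := Nat.lt_mul_div_succ _ (by omega)
    have h2 : ((p * X : ℕ) : ℝ) < ((q * (p * X / q + 1) : ℕ) : ℝ) := by exact_mod_cast h1
    rw [Nat.cast_mul, Nat.cast_mul q] at h2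
    linarith
  have hZM : (4 : ℝ) ≤ (d - ε) * c' * ((p * X / q + 1 : ℕ) : ℝ) := by
    have h1 : M ≤ p * X / q + 1 := by
      have h2 : (M + 1) * 1 ≤ (M + 1) * 2 ^ (n + N / 2) :=
        Nat.mul_le_mul_left _ (Nat.one_le_pow _ _ (by norm_num))
      omega
    have h3 : (M : ℝ) ≤ ((p * X / q + 1 : ℕ) : ℝ) := by exact_mod_cast h1
    have h4 : 0 < (d - ε) * c' := mul_pos ht hc'
    rw [div_le_iff₀ h4] at hM
    nlinarith
  set Zr : ℝ := ((p * X / q + 1 : ℕ) : ℝ) with hZrdef
  have h10 : (d - ε) * c' * Zr / 2 ≤ ((((Ico (p * X / q + 1) (2 * (p * X / q + 1))).filter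
      fun z => Ev σ A n (2 * Dp K J k) z).card : ℝ) - 2) := by
    have : (d - ε) * Zr * c' = (d - ε) * c' * Zr := by ring
    rw [this] at hres
    linarith
  have h11 : c' / 4 * (d - ε) * X ≤ (d - ε) * c' * Zr / 2 * ((q : ℝ) / (2 * p)) := by
    have h12 : (d - ε) * c' * ((p : ℝ) * X / q) / 2 * ((q : ℝ) / (2 * p)) =
        c' / 4 * (d - ε) * X := by
      field_simp
      ring
    rw [← h12]
    apply mul_le_mul_of_nonneg_right _ (by positivity)
    have h13 : 0 < (d - ε) * c' := mul_pos ht hc'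
    have := mul_le_mul_of_nonneg_left hZr h13.le
    linarith
  calc c' / 4 * (d - ε) * X ≤ (d - ε) * c' * Zr / 2 * ((q : ℝ) / (2 * p)) := h11
    _ ≤ ((((Ico (p * X / q + 1) (2 * (p * X / q + 1))).filter
      fun z => Ev σ A n (2 * Dp K J k) z).card : ℝ) - 2) * ((q : ℝ) / (2 * p)) :=
        mul_le_mul_of_nonneg_right h10 (by positivity)
    _ ≤ _ := hcnt

end Pool.Agent.CPR
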