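import Mathlib
import Pool.Agent.CPR.St
import Pool.Agent.Collatz3.PDMixC

set_option autoImplicit false

/-!
# CPR: the masses `fJ` over a period
-/

namespace Pool.Agent.CPR

open Finset Filter
open Pool.Agent.Collatz3 (cw)
open Pool.Agent.Collatz3.Mix (words mem_words sum_two_pow_mul sum_range_zmod)
open Pool.Agent.Collatz3.PD (rd en Fw II P Per)

/-- Exactly one solution of `2 ^ s t = c` modulo `3 ^ d`. -/
theorem mass_one (d s : ℕ) (c : ℤ) :
    ∑ t ∈ range (3 ^ d), (if (3 : ℤ) ^ d ∣ 2 ^ s * (t : ℤ) - c then (1 : ℝ) else 0) = 1 := by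
  have h1 : ∀ t ∈ range (3 ^ d), (if (3 : ℤ) ^ d ∣ 2 ^ s * (t : ℤ) - c then (1 : ℝ) else 0) =
      (fun y : ZMod (3 ^ d) => (fun y : ZMod (3 ^ d) =>
        if y = ((c : ℤ) : ZMod (3 ^ d)) then (1 : ℝ) else 0) (2 ^ s * y)) (t : ZMod (3 ^ d)) := by
    intro t _
    have h2 := ZMod.intCast_zmod_eq_zero_iff_dvd (2 ^ s * (t : ℤ) - c) (3 ^ d)
    push_cast at h2
    simp only
    congr 1
    rw [← h2, sub_eq_zero]
  rw [sum_congr rfl h1, sum_range_zmod d (fun y : ZMod (3 ^ d) => (fun y : ZMod (3 ^ d) =>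
        if y = ((c : ℤ) : ZMod (3 ^ d)) then (1 : ℝ) else 0) (2 ^ s * y)),
    sum_two_pow_mul d s (fun y : ZMod (3 ^ d) =>
        if y = ((c : ℤ) : ZMod (3 ^ d)) then (1 : ℝ) else 0)]
  simp

/-- `Fw` as a sum over all words with sum `s`. -/
theorem mass_Fw (I N s n : ℕ) (x : ℤ) : Fw I N s n x =
    ∑ w ∈ (words I N).filter (fun w => w.sum = s),
      (1 / 2 : ℝ) ^ s * (if (3 : ℤ) ^ n ∣ 2 ^ s * x - cw w then (1 : ℝ) else 0) := by
  unfold Pool.Agent.Collatz3.PD.Fw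
  rw [sum_filter, sum_filter]
  apply sum_congr rfl
  intro w _
  by_cases h1 : w.sum = s
  · by_cases h2 : (3 : ℤ) ^ n ∣ 2 ^ s * x - cw w
    · rw [if_pos ⟨h1, h2⟩, if_pos h1, if_pos h2, mul_one]
    · rw [if_neg (fun h => h2 h.2), if_pos h1, if_neg h2, mul_zero]
  · rw [if_neg (fun h => h1 h.1), if_neg h1]

theorem mass_sum (I N s n : ℕ) : ∑ x ∈ range (3 ^ n), Fw I N s n (x : ℤ) =
    P ((words I N).filter fun w => w.sum = s) := by
  rw [sum_congr rfl fun (x : ℕ) (_ : x ∈ range (3 ^ n)) => mass_Fw I N s n (x : ℤ), sum_comm]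
  unfold Pool.Agent.Collatz3.PD.P
  apply sum_congr rfl
  intro w hw
  rw [← mul_sum, mass_one, mul_one, (mem_filter.1 hw).2]

theorem thm_Mass : St_Mass := by
  intro k i s
  unfold fJ
  rw [← mul_sum, mass_sum]

/-- Summation over a fibre. -/
theorem mass_fibre (I N s m d : ℕ) (x : ℤ) :
    ∑ t ∈ range (3 ^ d), Fw I N s (m + d) (x + 3 ^ m * (t : ℤ)) = Fw I N s m x := by
  rw [sum_congr rfl fun (t : ℕ) (_ : t ∈ range (3 ^ d)) =>
    mass_Fw I N s (m + d) (x + 3 ^ m * (t : ℤ)), sum_comm, mass_Fw]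
  apply sum_congr rfl
  intro w _
  rw [← mul_sum]
  congr 1
  by_cases h : (3 : ℤ) ^ m ∣ 2 ^ s * x - cw w
  · rw [if_pos h]
    obtain ⟨u, hu⟩ := h
    refine Eq.trans (sum_congr rfl fun t _ => ?_) (mass_one d s (-u))
    congr 1
    have e : (2 : ℤ) ^ s * (x + 3 ^ m * t) - cw w = 3 ^ m * (2 ^ s * t - -u) := by
      linear_combination hu
    rw [e, pow_add]
    exact propext (mul_dvd_mul_iff_left (pow_ne_zero _ (by norm_num)))
  · rw [if_neg h]
    apply sum_eq_zero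
    intro t _
    rw [if_neg]
    intro h2
    apply h
    have h3 : (3 : ℤ) ^ m ∣ 2 ^ s * (x + 3 ^ m * t) - cw w :=
      dvd_trans (by rw [pow_add]; exact dvd_mul_right _ _) h2
    have e : (2 : ℤ) ^ s * x - cw w = (2 ^ s * (x + 3 ^ m * t) - cw w) - 3 ^ m * (2 ^ s * t) := by
      ring
    rw [e]
    exact dvd_sub h3 (dvd_mul_right _ _)

end Pool.Agent.CPR
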