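import Mathlib
import Pool.Agent.CPR.Mass

set_option autoImplicit false

/-!
# CPR: the excess over the expected number of words
-/

namespace Pool.Agent.CPR

open Finset Filter
open Pool.Agent.Collatz3 (cw)
open Pool.Agent.Collatz3.Mix (words mem_words)
open Pool.Agent.Collatz3.PD (rd en Fw II P cat Per en_spec rd_append en_append words_length
  words_add append_key sum_cat Fw_nonneg Fw_eq_zero mixRate_strong)
open Pool.Agent.Collatz3.FW (two_pow_Fw per_Fw1 pair_inj en_odd)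

/-- Splitting a sum over residues. -/
theorem exc_split (n d : ℕ) (F : ℤ → ℝ) : ∑ y ∈ range (3 ^ (n + d)), F (y : ℤ) =
    ∑ x ∈ range (3 ^ n), ∑ t ∈ range (3 ^ d), F ((x : ℤ) + 3 ^ n * (t : ℤ)) := by
  rw [← sum_product']
  symm
  have hp : 0 < 3 ^ n := by positivity
  apply Finset.sum_nbij' (fun p : ℕ × ℕ => p.1 + 3 ^ n * p.2)
    (fun y => (y % 3 ^ n, y / 3 ^ n))
  · rintro ⟨x, t⟩ h
    rw [mem_product, mem_range, mem_range] at h
    rw [mem_range, pow_add]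
    have h2 : 3 ^ n * t + 3 ^ n ≤ 3 ^ n * 3 ^ d := by
      have := Nat.mul_le_mul_left (3 ^ n) h.2
      simpa [Nat.mul_succ] using this
    have h1 := h.1
    simp only at h1 h2 ⊢
    omega
  · intro y h
    rw [mem_range, pow_add] at h
    rw [mem_product, mem_range, mem_range]
    exact ⟨Nat.mod_lt _ hp, Nat.div_lt_of_lt_mul h⟩
  · rintro ⟨x, t⟩ h
    rw [mem_product, mem_range, mem_range] at h
    have h1 : x < 3 ^ n := h.1
    simp only [Prod.mk.injEq]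
    refine ⟨?_, ?_⟩
    · rw [Nat.add_mul_mod_self_left, Nat.mod_eq_of_lt h1]
    · rw [Nat.add_mul_div_left _ _ hp, Nat.div_eq_of_lt h1, zero_add]
  · intro y _
    exact Nat.mod_add_div y (3 ^ n)
  · rintro ⟨x, t⟩ _
    simp only
    congr 1

theorem exc_delta (I N s m n : ℕ) (hmn : m ≤ n) (hn : n ≤ N) :
    ∑ x ∈ range (3 ^ n), |Fw I N s n (x : ℤ) - Fw I N s m (x : ℤ) / 3 ^ (n - m)| ≤
      ∑ y ∈ range (3 ^ N), |Fw I N s N (y : ℤ) - Fw I N s m (y : ℤ) / 3 ^ (N - m)| := by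
  obtain ⟨d, rfl⟩ := Nat.exists_eq_add_of_le hn
  rw [exc_split n d (fun y => |Fw I (n + d) s (n + d) y - Fw I (n + d) s m y / 3 ^ (n + d - m)|)]
  apply sum_le_sum
  intro x _
  have h1 : ∀ t ∈ range (3 ^ d), Fw I (n + d) s m ((x : ℤ) + 3 ^ n * (t : ℤ)) =
      Fw I (n + d) s m (x : ℤ) := by
    intro t _
    exact (per_Fw1 I (n + d) s m).mono hmn _ _
  have h2 : Fw I (n + d) s n (x : ℤ) - Fw I (n + d) s m (x : ℤ) / 3 ^ (n - m) =
      ∑ t ∈ range (3 ^ d), (Fw I (n + d) s (n + d) ((x : ℤ) + 3 ^ n * (t : ℤ)) -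
        Fw I (n + d) s m ((x : ℤ) + 3 ^ n * (t : ℤ)) / 3 ^ (n + d - m)) := by
    rw [sum_sub_distrib, mass_fibre, ← sum_div, sum_congr rfl h1, sum_const, card_range,
      nsmul_eq_mul]
    congr 1
    have e : n + d - m = (n - m) + d := by omega
    rw [e, pow_add]
    push_cast
    field_simp
  rw [h2]
  exact abs_sum_le_sum_abs _ _

theorem exc_mem_Gs {J k : ℕ} {v : List ℕ} (h : v ∈ Gs J k) :
    v.length = k ∧ ∀ i ∈ v, 1 ≤ i := by
  have h1 := mem_words.1 (Gs_subset J k h)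
  exact ⟨h1.1, fun i hi => (h1.2 i hi).1⟩

/-- The words to split off. -/
noncomputable def excF (J k s : ℕ) (b : ℤ) : Finset (List ℕ) :=
  (Gs J k).filter fun v => rd v b ∧ v.sum ≤ s

theorem exc_rec (σ : ℤ) (α ℓ : ℝ) (J k i s : ℕ) (b : ℤ) :
    (NJ σ α ℓ J k (i + 1) s b : ℝ) ≤
      ∑ v ∈ excF J k s b, (NJ σ α ℓ J k i (s - v.sum) (en v b) : ℝ) := by
  classical
  have e1 : (NJ σ α ℓ J k (i + 1) s b : ℝ) = ∑ w ∈ cat (Gs J k) (GJ J k i),
      (if w.sum = s ∧ rd w b ∧ en w b ∈ Ob σ α (α + ℓ) then (1 : ℝ) else 0) := by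
    unfold NJ
    rw [card_filter]
    push_cast
    rfl
  have e2 : ∀ (s' : ℕ) (b' : ℤ), (NJ σ α ℓ J k i s' b' : ℝ) = ∑ w ∈ GJ J k i,
      (if w.sum = s' ∧ rd w b' ∧ en w b' ∈ Ob σ α (α + ℓ) then (1 : ℝ) else 0) := by
    intro s' b'
    unfold NJ
    rw [card_filter]
    push_cast
    rfl
  rw [e1, sum_cat (N := k) fun w hw => (exc_mem_Gs hw).1]
  unfold excF
  rw [sum_filter]
  apply sum_le_sum
  intro v _
  by_cases h : rd v b ∧ v.sum ≤ s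
  · rw [if_pos h, e2]
    apply sum_le_sum
    intro w _
    by_cases h2 : (v ++ w).sum = s ∧ rd (v ++ w) b ∧ en (v ++ w) b ∈ Ob σ α (α + ℓ)
    · obtain ⟨h3, h4, h5⟩ := h2
      rw [if_pos ⟨h3, h4, h5⟩, if_pos]
      rw [List.sum_append] at h3
      refine ⟨by omega, (rd_append.1 h4).2, ?_⟩
      rwa [en_append h.1] at h5
    · rw [if_neg h2]
      split_ifs <;> norm_num
  · rw [if_neg h]
    apply le_of_eq
    apply sum_eq_zero
    intro w _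
    rw [if_neg]
    rintro ⟨h3, h4, -⟩
    rw [List.sum_append] at h3
    exact h ⟨(rd_append.1 h4).1, by omega⟩

theorem exc_fJ (k i s : ℕ) (b : ℤ) : fJ k i s b =
    3 ^ k / 3 ^ (i * k) * (2 ^ s * Fw (II k) (i * k) s k b) := by
  unfold fJ
  ring

theorem exc_fsum (J k i s : ℕ) (b : ℤ) :
    ∑ v ∈ excF J k s b, fJ k i (s - v.sum) (en v b) ≤
      3 ^ k / 3 ^ (i * k) * (2 ^ s * Fw (II k) ((i + 1) * k) s (2 * k) b) := by
  classical
  rw [sum_congr rfl fun v _ => exc_fJ k i (s - v.sum) (en v b), ← mul_sum]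
  apply mul_le_mul_of_nonneg_left _ (by positivity)
  have e0 : (i + 1) * k = k + i * k := by ring
  rw [two_pow_Fw, e0, words_add, card_filter]
  push_cast
  rw [sum_cat (N := k) fun w hw => words_length hw]
  have hsub : excF J k s b ⊆ words (II k) k := (filter_subset _ _).trans (Gs_subset J k)
  refine le_trans ?_ (sum_le_sum_of_subset_of_nonneg hsub fun _ _ _ =>
    sum_nonneg fun _ _ => by split_ifs <;> norm_num)
  apply sum_le_sum
  intro v hv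
  unfold excF at hv
  rw [mem_filter] at hv
  obtain ⟨hv1, hv2, hv3⟩ := hv
  have hlen := (exc_mem_Gs hv1).1
  rw [two_pow_Fw, card_filter]
  push_cast
  apply sum_le_sum
  intro w _
  by_cases h : w.sum = s - v.sum ∧ (3 : ℤ) ^ k ∣ 2 ^ (s - v.sum) * en v b - cw w
  · obtain ⟨h1, h2⟩ := h
    rw [if_pos ⟨h1, h2⟩, if_pos]
    have h3 : (v ++ w).sum = s := by rw [List.sum_append]; omega
    refine ⟨h3, ?_⟩
    have h4 := append_key v w b
    rw [h3] at h4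
    rw [h4, ← en_spec hv2, hlen, h1, two_mul, pow_add]
    have e : (2 : ℤ) ^ (s - v.sum) * (3 ^ k * en v b) - 3 ^ k * cw w =
        3 ^ k * (2 ^ (s - v.sum) * en v b - cw w) := by ring
    rw [e]
    exact mul_dvd_mul_left _ h2
  · rw [if_neg h]
    split_ifs <;> norm_num

/-- If there is a word then the lower end point is in the window. -/
theorem exc_window {σ : ℤ} (hσ : σ = 1 ∨ σ = -1) {α ℓ : ℝ} {J k i s : ℕ} (hJ : 3 ≤ J)
    (hG : St_GJ) {b : ℤ} (hb : b % 2 = 1) (h : NJ σ α ℓ J k i s b ≠ 0) :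
    b ∈ Wi σ α ℓ k i s ∧ J * s ≤ 2 * J * (i * k) + i * k := by
  classical
  unfold NJ at h
  rw [Ne, card_eq_zero, ← Ne, ← nonempty_iff_ne_empty] at h
  obtain ⟨w, hw⟩ := h
  rw [mem_filter, mem_Ob hσ] at hw
  obtain ⟨hw1, hw2, hw3, -, hw4, hw5⟩ := hw
  obtain ⟨g1, -, g3, g4⟩ := hG J k i hJ w hw1
  rw [hw2] at g3 g4
  refine ⟨?_, g3⟩
  unfold Wi
  rw [mem_Ob hσ]
  have hlen := words_length g1
  have h1 := en_spec hw3
  rw [hlen, hw2] at h1
  have h2 : (2 : ℤ) ^ s * (σ * b) = 3 ^ (i * k) * (σ * en w b) + σ * cw w := by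
    linear_combination -σ * h1
  have h3 : (2 : ℝ) ^ s * ((σ * b : ℤ) : ℝ) =
      3 ^ (i * k) * ((σ * en w b : ℤ) : ℝ) + (σ : ℝ) * cw w := by exact_mod_cast h2
  have hp : (0 : ℝ) < 2 ^ s := by positivity
  have hq : (0 : ℝ) < 3 ^ (i * k) := by positivity
  have hc : (0 : ℝ) ≤ cw w := Nat.cast_nonneg _
  have h4 : (σ : ℝ) * cw w ≤ i * (5 / 4) ^ k * 2 ^ s := by
    rcases hσ with h' | h' <;> rw [h'] <;> push_cast <;> linarith
  have h5 : -(i * (5 / 4) ^ k * 2 ^ s) ≤ (σ : ℝ) * cw w := by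
    rcases hσ with h' | h' <;> rw [h'] <;> push_cast <;> linarith
  have h6 : 3 ^ (i * k) * α < 3 ^ (i * k) * ((σ * en w b : ℤ) : ℝ) :=
    mul_lt_mul_of_pos_left hw4 hq
  have h7 : 3 ^ (i * k) * ((σ * en w b : ℤ) : ℝ) ≤ 3 ^ (i * k) * (α + ℓ) :=
    mul_le_mul_of_nonneg_left hw5 hq.le
  refine ⟨hb, ?_, ?_⟩
  · rw [sub_lt_iff_lt_add, div_lt_iff₀ hp]
    nlinarith
  · rw [div_add' _ _ _ hp.ne', le_div_iff₀ hp]
    nlinarith

/-- The excess for the sum `s'` at `b'`, extended by `0`. -/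
noncomputable def excX (σ : ℤ) (α ℓ : ℝ) (J k i : ℕ) (p : Σ _ : ℕ, ℤ) : ℝ :=
  if p.2 ∈ Wi σ α ℓ k i p.1 then max 0 ((NJ σ α ℓ J k i p.1 p.2 : ℝ) - fJ k i p.1 p.2) else 0

theorem excX_nonneg (σ : ℤ) (α ℓ : ℝ) (J k i : ℕ) (p : Σ _ : ℕ, ℤ) : 0 ≤ excX σ α ℓ J k i p := by
  unfold excX
  split_ifs
  · exact le_max_left _ _
  · exact le_rfl

theorem NJ_le_fJ_add {σ : ℤ} (hσ : σ = 1 ∨ σ = -1) {α ℓ : ℝ} {J k i s : ℕ} (hJ : 3 ≤ J)
    (hG : St_GJ) {b : ℤ} (hb : b % 2 = 1) :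
    (NJ σ α ℓ J k i s b : ℝ) ≤ fJ k i s b + excX σ α ℓ J k i ⟨s, b⟩ := by
  by_cases h : NJ σ α ℓ J k i s b = 0
  · rw [h]
    push_cast
    exact add_nonneg (fJ_nonneg _ _ _ _) (excX_nonneg _ _ _ _ _ _ _)
  · have h1 := (exc_window hσ hJ hG hb h).1
    unfold excX
    simp only
    rw [if_pos h1]
    have := le_max_right 0 ((NJ σ α ℓ J k i s b : ℝ) - fJ k i s b)
    linarith

/-- The distance of `Fw` at the levels `2 k` and `k`. -/
noncomputable def excD (k i s : ℕ) (b : ℤ) : ℝ :=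
  |Fw (II k) ((i + 1) * k) s (2 * k) b - Fw (II k) ((i + 1) * k) s k b / 3 ^ (2 * k - k)|

theorem excD_nonneg (k i s : ℕ) (b : ℤ) : 0 ≤ excD k i s b := abs_nonneg _

theorem excD_per (k i s : ℕ) : Per (2 * k) (excD k i s) := by
  intro x t
  unfold excD
  rw [per_Fw1, ((per_Fw1 (II k) ((i + 1) * k) s k).mono (by omega : k ≤ 2 * k)) x t]

theorem exc_step {σ : ℤ} (hσ : σ = 1 ∨ σ = -1) {α ℓ : ℝ} {J k i s : ℕ} (hJ : 3 ≤ J)
    (hG : St_GJ) {b : ℤ} (hb : b % 2 = 1) :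
    max 0 ((NJ σ α ℓ J k (i + 1) s b : ℝ) - fJ k (i + 1) s b) ≤
      ∑ v ∈ excF J k s b, excX σ α ℓ J k i ⟨s - v.sum, en v b⟩ +
        3 ^ k / 3 ^ (i * k) * (2 ^ s * excD k i s b) := by
  have hX : 0 ≤ ∑ v ∈ excF J k s b, excX σ α ℓ J k i ⟨s - v.sum, en v b⟩ :=
    sum_nonneg fun _ _ => excX_nonneg _ _ _ _ _ _ _
  have hD : 0 ≤ 3 ^ k / 3 ^ (i * k) * (2 ^ s * excD k i s b) :=
    mul_nonneg (by positivity) (mul_nonneg (by positivity) (excD_nonneg _ _ _ _))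
  apply max_le (add_nonneg hX hD)
  have h1 := exc_rec σ α ℓ J k i s b
  have h2 : ∑ v ∈ excF J k s b, (NJ σ α ℓ J k i (s - v.sum) (en v b) : ℝ) ≤
      ∑ v ∈ excF J k s b, (fJ k i (s - v.sum) (en v b) +
        excX σ α ℓ J k i ⟨s - v.sum, en v b⟩) := by
    apply sum_le_sum
    intro v hv
    unfold excF at hv
    rw [mem_filter] at hv
    exact NJ_le_fJ_add hσ hJ hG (en_odd hv.2.1 (exc_mem_Gs hv.1).2 hb)
  rw [sum_add_distrib] at h2
  have h3 := exc_fsum J k i s b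
  have h4 : fJ k (i + 1) s b = 3 ^ k / 3 ^ (i * k) *
      (2 ^ s * (Fw (II k) ((i + 1) * k) s k b / 3 ^ (2 * k - k))) := by
    rw [exc_fJ]
    have e1 : (i + 1) * k = i * k + k := by ring
    have e2 : 2 * k - k = k := by omega
    rw [e2]
    have e3 : (3 : ℝ) ^ ((i + 1) * k) = 3 ^ (i * k) * 3 ^ k := by rw [e1, pow_add]
    rw [e3]
    field_simp
  have h5 : Fw (II k) ((i + 1) * k) s (2 * k) b -
      Fw (II k) ((i + 1) * k) s k b / 3 ^ (2 * k - k) ≤ excD k i s b := le_abs_self _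
  have h6 : 3 ^ k / 3 ^ (i * k) * (2 ^ s * Fw (II k) ((i + 1) * k) s (2 * k) b) -
      3 ^ k / 3 ^ (i * k) * (2 ^ s * (Fw (II k) ((i + 1) * k) s k b / 3 ^ (2 * k - k))) ≤
      3 ^ k / 3 ^ (i * k) * (2 ^ s * excD k i s b) := by
    rw [← mul_sub, ← mul_sub]
    exact mul_le_mul_of_nonneg_left (mul_le_mul_of_nonneg_left h5 (by positivity)) (by positivity)
  rw [h4]
  linarith

/-- The total excess. -/
noncomputable def excT (σ : ℤ) (α ℓ : ℝ) (J k i : ℕ) : ℝ :=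
  ∑ s ∈ range (3 * J * k + 1), ∑ b ∈ Wi σ α ℓ k i s,
    max 0 ((NJ σ α ℓ J k i s b : ℝ) - fJ k i s b)

theorem exc_inj {σ : ℤ} (hσ : σ = 1 ∨ σ = -1) (α ℓ : ℝ) (J k i : ℕ) :
    ∑ s ∈ range (3 * J * k + 1), ∑ b ∈ Wi σ α ℓ k (i + 1) s, ∑ v ∈ excF J k s b,
      excX σ α ℓ J k i ⟨s - v.sum, en v b⟩ ≤ excT σ α ℓ J k i := by
  classical
  set A : Finset (Σ _ : ℕ, Σ _ : ℤ, List ℕ) := (range (3 * J * k + 1)).sigma fun s =>
    (Wi σ α ℓ k (i + 1) s).sigma fun b => excF J k s b with hA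
  set B : Finset (Σ _ : ℕ, ℤ) := (range (3 * J * k + 1)).sigma fun s => Wi σ α ℓ k i s with hB
  have e1 : ∑ s ∈ range (3 * J * k + 1), ∑ b ∈ Wi σ α ℓ k (i + 1) s, ∑ v ∈ excF J k s b,
      excX σ α ℓ J k i ⟨s - v.sum, en v b⟩ =
      ∑ x ∈ A, excX σ α ℓ J k i ((fun x : Σ _ : ℕ, Σ _ : ℤ, List ℕ =>
        (⟨x.1 - x.2.2.sum, en x.2.2 x.2.1⟩ : Σ _ : ℕ, ℤ)) x) := by
    rw [hA, sum_sigma]
    apply sum_congr rfl
    intro s _
    rw [sum_sigma]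
  have e2 : excT σ α ℓ J k i = ∑ y ∈ B, excX σ α ℓ J k i y := by
    unfold excT
    rw [hB, sum_sigma]
    apply sum_congr rfl
    intro s _
    apply sum_congr rfl
    intro b hb
    unfold excX
    simp only
    rw [if_pos hb]
  rw [e1, e2, ← sum_image (f := excX σ α ℓ J k i) (g := fun x : Σ _ : ℕ, Σ _ : ℤ, List ℕ =>
        (⟨x.1 - x.2.2.sum, en x.2.2 x.2.1⟩ : Σ _ : ℕ, ℤ))]
  · rw [← sum_filter_of_ne (p := fun y => y ∈ B)]
    · exact sum_le_sum_of_subset_of_nonneg (fun y hy => (mem_filter.1 hy).2)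
        fun _ _ _ => excX_nonneg _ _ _ _ _ _ _
    · intro y hy hne
      rw [mem_image] at hy
      obtain ⟨⟨s, b, v⟩, hx, rfl⟩ := hy
      rw [hA, mem_sigma, mem_range] at hx
      rw [hB, mem_sigma, mem_range]
      refine ⟨?_, ?_⟩
      · have := hx.1
        simp only at this ⊢
        omega
      · by_contra hcon
        apply hne
        unfold excX
        rw [if_neg hcon]
  · rintro ⟨s, b, v⟩ hx ⟨t, c, w⟩ hy hxy
    rw [mem_coe, hA, mem_sigma, mem_sigma] at hx hy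
    obtain ⟨-, hx1, hx2⟩ := hx
    obtain ⟨-, hy1, hy2⟩ := hy
    simp only at hx1 hx2 hy1 hy2 hxy
    unfold excF at hx2 hy2
    rw [mem_filter] at hx2 hy2
    unfold Wi at hx1 hy1
    rw [mem_Ob hσ] at hx1 hy1
    obtain ⟨l1, p1⟩ := exc_mem_Gs hx2.1
    obtain ⟨l2, p2⟩ := exc_mem_Gs hy2.1
    rw [Sigma.mk.injEq] at hxy
    obtain ⟨q1, q2⟩ := hxy
    obtain ⟨r1, r2⟩ := pair_inj k v w b c l1 l2 p1 p2 hx1.1 hy1.1 hx2.2.1 hy2.2.1 (eq_of_heq q2)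
    subst r1 r2
    have h1 := hx2.2.2
    have h2 := hy2.2.2
    have h3 : s = t := by omega
    subst h3
    rfl

/-- The mixing error at the level `2 k`. -/
noncomputable def excE (k i s : ℕ) : ℝ := ∑ x ∈ range (3 ^ (2 * k)), excD k i s (x : ℤ)

theorem excE_nonneg (k i s : ℕ) : 0 ≤ excE k i s := sum_nonneg fun _ _ => excD_nonneg _ _ _ _

/-- The size of the windows. -/
theorem exc_size {ℓ : ℝ} {J k i s : ℕ} (hJ : 3 ≤ J) (hi : i + 1 ≤ J)
    (hℓ : 2 ^ ((2 * J + 6) * k) ≤ 3 ^ (J * k) * ℓ)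
    (hs : J * s ≤ 2 * J * ((i + 1) * k) + (i + 1) * k) :
    (32 : ℝ) ^ k ≤ 3 ^ ((i + 1) * k) * ℓ / 2 ^ s := by
  obtain ⟨d, rfl⟩ := Nat.exists_eq_add_of_le hi
  have h1 : s ≤ (2 * i + 3) * k := by
    have h2 : (i + 1 + d) * s ≤ (i + 1 + d) * ((2 * i + 3) * k) := by
      calc (i + 1 + d) * s ≤ 2 * (i + 1 + d) * ((i + 1) * k) + (i + 1) * k := hs
        _ ≤ 2 * (i + 1 + d) * ((i + 1) * k) + (i + 1 + d) * k :=
            Nat.add_le_add_left (Nat.mul_le_mul_right k (by omega)) _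
        _ = (i + 1 + d) * ((2 * i + 3) * k) := by ring
    exact Nat.le_of_mul_le_mul_left h2 (by omega)
  have hp : (0 : ℝ) < 2 ^ s := by positivity
  rw [le_div_iff₀ hp]
  have h3 : (2 : ℝ) ^ s ≤ 2 ^ ((2 * i + 3) * k) := pow_le_pow_right₀ (by norm_num) h1
  have h4 : (32 : ℝ) ^ k * 2 ^ ((2 * i + 3) * k) = 2 ^ ((2 * i + 8) * k) := by
    have e : (32 : ℝ) = 2 ^ 5 := by norm_num
    rw [e, ← pow_mul, ← pow_add]
    congr 1
    ring
  have h5 : (2 : ℝ) ^ ((2 * (i + 1 + d) + 6) * k) = 2 ^ ((2 * i + 8) * k) * 4 ^ (d * k) := by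
    have e : (4 : ℝ) = 2 ^ 2 := by norm_num
    rw [e, ← pow_mul, ← pow_add]
    congr 1
    ring
  have h6 : (3 : ℝ) ^ ((i + 1 + d) * k) = 3 ^ ((i + 1) * k) * 3 ^ (d * k) := by
    rw [← pow_add]
    congr 1
    ring
  have h7 : (3 : ℝ) ^ (d * k) ≤ 4 ^ (d * k) := pow_le_pow_left₀ (by norm_num) (by norm_num) _
  have h8 : (0 : ℝ) < 3 ^ (d * k) := by positivity
  have h9 : (2 : ℝ) ^ ((2 * i + 8) * k) * 3 ^ (d * k) ≤ 3 ^ ((i + 1) * k) * ℓ * 3 ^ (d * k) := by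
    calc (2 : ℝ) ^ ((2 * i + 8) * k) * 3 ^ (d * k) ≤ 2 ^ ((2 * i + 8) * k) * 4 ^ (d * k) :=
          mul_le_mul_of_nonneg_left h7 (by positivity)
      _ = 2 ^ ((2 * (i + 1 + d) + 6) * k) := h5.symm
      _ ≤ 3 ^ ((i + 1 + d) * k) * ℓ := hℓ
      _ = 3 ^ ((i + 1) * k) * ℓ * 3 ^ (d * k) := by rw [h6]; ring
  have h10 := le_of_mul_le_mul_right h9 h8
  calc (32 : ℝ) ^ k * 2 ^ s ≤ 32 ^ k * 2 ^ ((2 * i + 3) * k) :=
        mul_le_mul_of_nonneg_left h3 (by positivity)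
    _ = 2 ^ ((2 * i + 8) * k) := h4
    _ ≤ 3 ^ ((i + 1) * k) * ℓ := h10

theorem exc_s {σ : ℤ} (hσ : σ = 1 ∨ σ = -1) {α ℓ : ℝ} {J k i s : ℕ} (hJ : 3 ≤ J)
    (hG : St_GJ) (hS : St_Sum1) (hi : i + 1 ≤ J) (hk : J ≤ k) (hℓ0 : 0 ≤ ℓ)
    (hℓ : 2 ^ ((2 * J + 6) * k) ≤ 3 ^ (J * k) * ℓ) :
    ∑ b ∈ Wi σ α ℓ k (i + 1) s, max 0 ((NJ σ α ℓ J k (i + 1) s b : ℝ) - fJ k (i + 1) s b) ≤
      ∑ b ∈ Wi σ α ℓ k (i + 1) s, ∑ v ∈ excF J k s b, excX σ α ℓ J k i ⟨s - v.sum, en v b⟩ +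
        6 * ℓ * excE k i s := by
  have hE := excE_nonneg k i s
  have hodd : ∀ b ∈ Wi σ α ℓ k (i + 1) s, b % 2 = 1 := by
    intro b hb
    unfold Wi at hb
    rw [mem_Ob hσ] at hb
    exact hb.1
  by_cases hs : J * s ≤ 2 * J * ((i + 1) * k) + (i + 1) * k
  · have h1 : ∑ b ∈ Wi σ α ℓ k (i + 1) s,
        max 0 ((NJ σ α ℓ J k (i + 1) s b : ℝ) - fJ k (i + 1) s b) ≤
        ∑ b ∈ Wi σ α ℓ k (i + 1) s, (∑ v ∈ excF J k s b, excX σ α ℓ J k i ⟨s - v.sum, en v b⟩ +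
          3 ^ k / 3 ^ (i * k) * (2 ^ s * excD k i s b)) :=
      sum_le_sum fun b hb => exc_step hσ hJ hG (hodd b hb)
    rw [sum_add_distrib, ← mul_sum, ← mul_sum] at h1
    have hQ := exc_size hJ hi hℓ hs
    set Q : ℝ := 3 ^ ((i + 1) * k) * ℓ / 2 ^ s with hQdef
    set a : ℝ := 3 ^ ((i + 1) * k) * α / 2 ^ s - ((i + 1 : ℕ) : ℝ) * (5 / 4) ^ k with ha
    set L : ℝ := Q + 2 * (((i + 1 : ℕ) : ℝ) * (5 / 4) ^ k) with hL
    have hW : Wi σ α ℓ k (i + 1) s = Ob σ a (a + L) := by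
      unfold Wi
      rw [ha, hL, hQdef]
      congr 1
      ring
    have hc : 0 ≤ ((i + 1 : ℕ) : ℝ) * (5 / 4) ^ k := by positivity
    have h2 : 2 * (((i + 1 : ℕ) : ℝ) * (5 / 4) ^ k) ≤ Q := by
      have g1 : ((i + 1 : ℕ) : ℝ) ≤ (2 : ℝ) ^ k := by
        have : i + 1 ≤ 2 ^ k := (hi.trans hk).trans (Nat.lt_two_pow_self).le
        exact_mod_cast this
      have hk1 : 1 ≤ k := by omega
      have g2 : (2 : ℝ) ≤ 2 ^ k := by
        calc (2 : ℝ) = 2 ^ 1 := (pow_one _).symm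
          _ ≤ 2 ^ k := pow_le_pow_right₀ (by norm_num) hk1
      have g3 : (2 : ℝ) ^ k * (2 ^ k * (5 / 4) ^ k) ≤ 32 ^ k := by
        rw [← mul_pow, ← mul_pow]
        exact pow_le_pow_left₀ (by norm_num) (by norm_num) _
      have g4 : ((i + 1 : ℕ) : ℝ) * (5 / 4) ^ k ≤ 2 ^ k * (5 / 4) ^ k :=
        mul_le_mul_of_nonneg_right g1 (by positivity)
      calc 2 * (((i + 1 : ℕ) : ℝ) * (5 / 4) ^ k) ≤ 2 ^ k * (2 ^ k * (5 / 4) ^ k) :=
            mul_le_mul g2 g4 hc (by positivity)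
        _ ≤ 32 ^ k := g3
        _ ≤ Q := hQ
    have h3 : (3 : ℝ) ^ (2 * k) ≤ L := by
      have g1 : (3 : ℝ) ^ (2 * k) ≤ 32 ^ k := by
        rw [pow_mul]
        exact pow_le_pow_left₀ (by norm_num) (by norm_num) _
      linarith
    have h4 := hS σ hσ (2 * k) (excD k i s) (excD_per k i s) (excD_nonneg k i s) a L h3
    rw [← hW] at h4
    have h5 : ∑ b ∈ Wi σ α ℓ k (i + 1) s, excD k i s b ≤ 3 * (2 * Q) / 3 ^ (2 * k) * excE k i s := by
      refine h4.trans ?_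
      unfold excE
      apply mul_le_mul_of_nonneg_right _ (sum_nonneg fun _ _ => excD_nonneg _ _ _ _)
      apply div_le_div_of_nonneg_right _ (by positivity)
      linarith
    have h6 : 3 ^ k / 3 ^ (i * k) * (2 ^ s * ∑ b ∈ Wi σ α ℓ k (i + 1) s, excD k i s b) ≤
        6 * ℓ * excE k i s := by
      calc (3 : ℝ) ^ k / 3 ^ (i * k) * (2 ^ s * ∑ b ∈ Wi σ α ℓ k (i + 1) s, excD k i s b) ≤
          3 ^ k / 3 ^ (i * k) * (2 ^ s * (3 * (2 * Q) / 3 ^ (2 * k) * excE k i s)) :=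
            mul_le_mul_of_nonneg_left (mul_le_mul_of_nonneg_left h5 (by positivity))
              (by positivity)
        _ = 6 * ℓ * excE k i s := by
            rw [hQdef]
            have e1 : (i + 1) * k = i * k + k := by ring
            have e2 : (3 : ℝ) ^ (2 * k) = 3 ^ k * 3 ^ k := by rw [two_mul, pow_add]
            rw [e1, e2, pow_add]
            field_simp
            ring
    linarith
  · have h1 : ∀ b ∈ Wi σ α ℓ k (i + 1) s,
        max 0 ((NJ σ α ℓ J k (i + 1) s b : ℝ) - fJ k (i + 1) s b) = 0 := by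
      intro b hb
      have h2 : NJ σ α ℓ J k (i + 1) s b = 0 := by
        by_contra h
        exact hs (exc_window hσ hJ hG (hodd b hb) h).2
      rw [h2]
      apply max_eq_left
      have := fJ_nonneg k (i + 1) s b
      push_cast
      linarith
    rw [sum_congr rfl h1, sum_const_zero]
    exact add_nonneg (sum_nonneg fun _ _ => sum_nonneg fun _ _ => excX_nonneg _ _ _ _ _ _ _)
      (mul_nonneg (by linarith) hE)

theorem exc_sumE {C : ℝ} {I₀ : ℕ} (hM : ∀ I m k : ℕ, I₀ ≤ I → 1 ≤ m → m ≤ k →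
    ∑ s ∈ range (I * k + 1), ∑ x ∈ range (3 ^ k),
      |Fw I k s k (x : ℤ) - Fw I k s m (x : ℤ) / 3 ^ (k - m)| ≤
        C * (I : ℝ) ^ (3 + 1) / (m : ℝ) ^ 3) {J k i : ℕ} (hi : 1 ≤ i) (hk : 1 ≤ k)
    (hI : I₀ ≤ II k) (hIJ : 3 * J ≤ II k) :
    ∑ s ∈ range (3 * J * k + 1), excE k i s ≤ C * (II k : ℝ) ^ (3 + 1) / (k : ℝ) ^ 3 := by
  have hkN : k ≤ (i + 1) * k := Nat.le_mul_of_pos_left k (by omega)
  have h2k : 2 * k ≤ (i + 1) * k := Nat.mul_le_mul_right k (by omega)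
  refine le_trans ?_ (hM (II k) k ((i + 1) * k) hI hk hkN)
  have h1 : range (3 * J * k + 1) ⊆ range (II k * ((i + 1) * k) + 1) := by
    apply range_subset_range.2
    apply Nat.succ_le_succ
    exact Nat.mul_le_mul hIJ hkN
  refine le_trans ?_ (sum_le_sum_of_subset_of_nonneg h1 fun _ _ _ =>
    sum_nonneg fun _ _ => abs_nonneg _)
  apply sum_le_sum
  intro s _
  exact exc_delta (II k) ((i + 1) * k) s k (2 * k) (by omega) h2k

theorem exc_one {σ : ℤ} {α ℓ : ℝ} {J k : ℕ} (hJ : 3 ≤ J) (hG : St_GJ) :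
    excT σ α ℓ J k 1 = 0 := by
  classical
  unfold excT
  apply sum_eq_zero
  intro s _
  apply sum_eq_zero
  intro b _
  apply max_eq_left
  rw [sub_nonpos, exc_fJ, one_mul, div_self (by positivity), one_mul, two_pow_Fw]
  unfold NJ
  apply Nat.cast_le.2
  apply card_le_card
  intro w hw
  rw [mem_filter] at hw ⊢
  obtain ⟨h1, h2, h3, -⟩ := hw
  have h4 := (hG J k 1 hJ w h1).1
  rw [one_mul] at h4
  refine ⟨h4, h2, ?_⟩
  rw [rd, words_length h4, h2] at h3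
  exact h3

theorem exc_num (C : ℝ) : ∀ᶠ k : ℕ in atTop, 6 * C * (II k : ℝ) ^ 4 ≤ k := by
  have h0 : (0 : ℝ) < Real.log 2 := Real.log_pos (by norm_num)
  set D : ℝ := 6 * |C| * (12 / Real.log 2) ^ 4 + 1 with hD
  have hDpos : 0 < D := by positivity
  have h1 := (Real.isLittleO_pow_log_id_atTop (n := 4)).bound (inv_pos.2 hDpos)
  have h2 := tendsto_natCast_atTop_atTop (R := ℝ) |>.eventually h1
  filter_upwards [h2, eventually_ge_atTop 1] with k hk hk1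
  have hk1' : (1 : ℝ) ≤ k := by exact_mod_cast hk1
  have hlog : 0 ≤ Real.log k := Real.log_nonneg hk1'
  rw [Real.norm_of_nonneg (by positivity), id_eq, Real.norm_of_nonneg (by positivity)] at hk
  have h3 : (II k : ℝ) ≤ 12 / Real.log 2 * Real.log k := by
    unfold Pool.Agent.Collatz3.PD.II
    push_cast
    have := Real.natLog_le_logb k 2
    rw [Real.logb] at this
    push_cast at this
    calc 12 * (Nat.log 2 k : ℝ) ≤ 12 * (Real.log k / Real.log 2) := by linarith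
      _ = 12 / Real.log 2 * Real.log k := by ring
  have h4 : (II k : ℝ) ^ 4 ≤ (12 / Real.log 2) ^ 4 * Real.log k ^ 4 := by
    rw [← mul_pow]
    exact pow_le_pow_left₀ (Nat.cast_nonneg _) h3 4
  have h5 : D * Real.log k ^ 4 ≤ k := by
    calc D * Real.log k ^ 4 ≤ D * (D⁻¹ * k) := mul_le_mul_of_nonneg_left hk hDpos.le
      _ = k := by field_simp
  have h6 : 6 * C * (II k : ℝ) ^ 4 ≤ 6 * |C| * (II k : ℝ) ^ 4 :=
    mul_le_mul_of_nonneg_right (by linarith [le_abs_self C]) (by positivity)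
  calc 6 * C * (II k : ℝ) ^ 4 ≤ 6 * |C| * (II k : ℝ) ^ 4 := h6
    _ ≤ 6 * |C| * ((12 / Real.log 2) ^ 4 * Real.log k ^ 4) :=
        mul_le_mul_of_nonneg_left h4 (by positivity)
    _ = (D - 1) * Real.log k ^ 4 := by rw [hD]; ring
    _ ≤ D * Real.log k ^ 4 := mul_le_mul_of_nonneg_right (by linarith) (by positivity)
    _ ≤ k := h5

theorem exc_II (M : ℕ) : ∀ᶠ k : ℕ in atTop, M ≤ II k := by
  filter_upwards [Pool.Agent.Collatz3.PD.tendsto_log_two.eventually_ge_atTop M] with k hk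
  unfold Pool.Agent.Collatz3.PD.II
  omega

theorem thm_Exc (hJ' : St_GJ) (hS : St_Sum1) : St_Exc := by
  intro J hJ
  obtain ⟨C, I₀, hC, -, hM⟩ := mixRate_strong 3
  filter_upwards [exc_num C, exc_II I₀, exc_II (3 * J), eventually_ge_atTop J]
    with k hk1 hk2 hk3 hk4 σ hσ α ℓ _ hℓ
  have hkpos : 0 < k := by omega
  have hkr : (0 : ℝ) < k := by exact_mod_cast hkpos
  have hℓ0 : 0 ≤ ℓ := by
    have h1 : (0 : ℝ) < 3 ^ (J * k) := by positivity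
    have h2 : (0 : ℝ) < 2 ^ ((2 * J + 6) * k) := by positivity
    have h3 : 0 < 3 ^ (J * k) * ℓ := lt_of_lt_of_le h2 hℓ
    exact (pos_of_mul_pos_right h3 h1.le).le
  suffices h : ∀ i : ℕ, 1 ≤ i → i ≤ J → excT σ α ℓ J k i ≤ i * ℓ / (k : ℝ) ^ 2 by
    intro i hi1 hi2
    exact h i hi1 hi2
  intro i hi1
  induction i, hi1 using Nat.le_induction with
  | base =>
    intro _
    rw [exc_one hJ hJ']
    positivity
  | succ i hi ih =>
    intro hi2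
    have h1 := ih (by omega)
    have h2 : excT σ α ℓ J k (i + 1) ≤ ∑ s ∈ range (3 * J * k + 1),
        (∑ b ∈ Wi σ α ℓ k (i + 1) s, ∑ v ∈ excF J k s b, excX σ α ℓ J k i ⟨s - v.sum, en v b⟩ +
          6 * ℓ * excE k i s) :=
      sum_le_sum fun s _ => exc_s hσ hJ hJ' hS hi2 hk4 hℓ0 hℓ
    rw [sum_add_distrib, ← mul_sum] at h2
    have h3 := exc_inj hσ α ℓ J k i
    have h4 := exc_sumE hM (J := J) hi (by omega : 1 ≤ k) hk2 hk3
    have h5 : 6 * ℓ * ∑ s ∈ range (3 * J * k + 1), excE k i s ≤ ℓ / (k : ℝ) ^ 2 := by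
      calc 6 * ℓ * ∑ s ∈ range (3 * J * k + 1), excE k i s ≤
          6 * ℓ * (C * (II k : ℝ) ^ (3 + 1) / (k : ℝ) ^ 3) :=
            mul_le_mul_of_nonneg_left h4 (by linarith)
        _ = ℓ * (6 * C * (II k : ℝ) ^ 4) / (k : ℝ) ^ 3 := by ring
        _ ≤ ℓ * k / (k : ℝ) ^ 3 :=
            div_le_div_of_nonneg_right (mul_le_mul_of_nonneg_left hk1 hℓ0) (by positivity)
        _ = ℓ / (k : ℝ) ^ 2 := by field_simp
    have h6 : (((i + 1 : ℕ) : ℝ)) * ℓ / (k : ℝ) ^ 2 = i * ℓ / (k : ℝ) ^ 2 + ℓ / (k : ℝ) ^ 2 := by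
      push_cast
      ring
    rw [h6]
    linarith

end Pool.Agent.CPR
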