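import Mathlib
import Pool.Agent.CPR.St
import Pool.Agent.Helper86.CollatzInt

set_option autoImplicit false

/-!
# CPR [Extr]: the extremal pair
-/

namespace Pool.Agent.CPR

open Finset
open Pool.Agent.Helper86.CollatzChain (s0 s1 u w vv s0_even s0_odd s1_even s1_odd_succ three_pow_odd)
open Pool.Agent.Helper86.CollatzInt (T_even T_odd coalesce)
open Pool.Agent.Helper14 (T)

/-- One step of a pair at a positive level. -/
theorem extr_step (j : ℕ) (e x : ℤ) (hj : j ≠ 0) : ∃ s' : ℕ × ℤ,
    T (3 ^ j * x + e) = 3 ^ s'.1 * T x + s'.2 ∧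
    s'.1 + (if x % 2 = 1 then 1 else 0) = j + (if (3 ^ j * x + e) % 2 = 1 then 1 else 0) ∧
    (∀ n : ℕ, wh (n + 1) (j, e) x = wh n s' (T x)) ∧
    ∀ n m : ℕ, wc (n + 1) m (j, e) x = wc n m s' (T x) := by
  obtain ⟨v, hv⟩ := three_pow_odd j
  have hv' : (3 : ℤ) ^ j = 2 * v + 1 := by linarith
  rcases Int.even_or_odd' x with ⟨t, rfl | rfl⟩
  · have hx : (2 * t) % 2 = 0 := by omega
    have hx2 : 2 * t / 2 = t := by omega
    have h1 : ∀ n : ℕ, wh (n + 1) (j, e) (2 * t) = wh n (s0 (j, e)) (T (2 * t)) := by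
      intro n
      rw [T_even]
      simp [wh, hj, hx2]
    have h2 : ∀ n m : ℕ, wc (n + 1) m (j, e) (2 * t) = wc n m (s0 (j, e)) (T (2 * t)) := by
      intro n m
      rw [T_even]
      simp [wc, hj, hx2]
    refine ⟨s0 (j, e), ?_, ?_, h1, h2⟩
    · rcases Int.even_or_odd' e with ⟨f, rfl | rfl⟩
      · rw [s0_even, T_even]
        have hy2 : (3 : ℤ) ^ j * (2 * t) + 2 * f = 2 * (3 ^ j * t + f) := by ring
        rw [hy2, T_even]
      · rw [s0_odd j (by omega), T_even]
        have hy2 : (3 : ℤ) ^ j * (2 * t) + (2 * f + 1) = 2 * (3 ^ j * t + f) + 1 := by ring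
        rw [hy2, T_odd]
        have h3 : (3 * (2 * f + 1) + 1) / 2 = 3 * f + 2 := by omega
        rw [h3, pow_succ]
        ring
    · rw [if_neg (by omega : ¬ (2 * t) % 2 = 1)]
      rcases Int.even_or_odd' e with ⟨f, rfl | rfl⟩
      · have hy2 : (3 : ℤ) ^ j * (2 * t) + 2 * f = 2 * (3 ^ j * t + f) := by ring
        rw [s0_even, hy2, if_neg (by omega)]
      · have hy2 : (3 : ℤ) ^ j * (2 * t) + (2 * f + 1) = 2 * (3 ^ j * t + f) + 1 := by ring
        rw [s0_odd j (by omega), hy2, if_pos (by omega)]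
  · have hx : ¬ (2 * t + 1) % 2 = 0 := by omega
    have hx2 : (3 * (2 * t + 1) + 1) / 2 = 3 * t + 2 := by omega
    have h1 : ∀ n : ℕ, wh (n + 1) (j, e) (2 * t + 1) = wh n (s1 (j, e)) (T (2 * t + 1)) := by
      intro n
      rw [T_odd, wh, if_neg hj, if_neg hx, hx2]
    have h2 : ∀ n m : ℕ, wc (n + 1) m (j, e) (2 * t + 1) = wc n m (s1 (j, e)) (T (2 * t + 1)) := by
      intro n m
      rw [T_odd, wc, if_neg hj, if_neg hx, hx2]
    refine ⟨s1 (j, e), ?_, ?_, h1, h2⟩
    · rcases Int.even_or_odd' e with ⟨f, rfl | rfl⟩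
      · rw [s1_even j f v hv]
        have hy2 : (3 : ℤ) ^ j * (2 * t + 1) + 2 * f = 2 * (3 ^ j * t + v + f) + 1 := by
          linear_combination hv'
        rw [hy2, T_odd, T_odd]
        linear_combination (-2) * hv'
      · obtain ⟨i, rfl⟩ := Nat.exists_eq_succ_of_ne_zero hj
        rw [Nat.succ_eq_add_one, s1_odd_succ i (by omega)]
        obtain ⟨v', hv2⟩ := three_pow_odd i
        have h5 : (3 : ℤ) ^ i = 2 * v' + 1 := by linarith
        have h6 : (2 * f + 1 - (3 : ℤ) ^ i) / 2 = f - v' := by omega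
        rw [h6]
        have hy2 : (3 : ℤ) ^ (i + 1) * (2 * t + 1) + (2 * f + 1) =
            2 * (3 ^ i * (3 * t + 2) + (f - v')) := by
          rw [pow_succ]; linear_combination (-1) * h5
        rw [hy2, T_even, T_odd]
    · rw [if_pos (by omega : (2 * t + 1) % 2 = 1)]
      rcases Int.even_or_odd' e with ⟨f, rfl | rfl⟩
      · have hy2 : (3 : ℤ) ^ j * (2 * t + 1) + 2 * f = 2 * (3 ^ j * t + v + f) + 1 := by
          linear_combination hv'
        rw [s1_even j f v hv, hy2, if_pos (by omega)]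
      · obtain ⟨i, rfl⟩ := Nat.exists_eq_succ_of_ne_zero hj
        rw [Nat.succ_eq_add_one, s1_odd_succ i (by omega)]
        obtain ⟨v', hv2⟩ := three_pow_odd i
        have h5 : (3 : ℤ) ^ i = 2 * v' + 1 := by linarith
        have hy2 : (3 : ℤ) ^ (i + 1) * (2 * t + 1) + (2 * f + 1) =
            2 * (3 ^ i * (3 * t + 2) + (f - v')) := by
          rw [pow_succ]; linear_combination (-1) * h5
        rw [hy2, if_neg (by omega)]

/-- Level `0` is reached within `n` steps iff the numbers of odd terms allow it. -/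
theorem extr_wh_iff (n : ℕ) : ∀ (j : ℕ) (e x : ℤ),
    wh n (j, e) x = 1 ↔ ∃ i ≤ n, j + pc i (3 ^ j * x + e) ≤ pc i x := by
  induction n with
  | zero =>
    intro j e x
    constructor
    · intro h
      refine ⟨0, le_rfl, ?_⟩
      by_contra hc
      rw [pc_zero, pc_zero] at hc
      have hj : j ≠ 0 := by omega
      simp [wh, hj] at h
    · rintro ⟨i, hi, h⟩
      obtain rfl : i = 0 := by omega
      rw [pc_zero, pc_zero] at h
      have hj : j = 0 := by omega
      simp [wh, hj]
  | succ n ih =>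
    intro j e x
    by_cases hj : j = 0
    · subst hj
      constructor
      · intro _
        exact ⟨0, Nat.zero_le _, by rw [pc_zero, pc_zero]⟩
      · intro _
        simp [wh]
    · obtain ⟨s', h1, h2, h3, _⟩ := extr_step j e x hj
      rw [h3 n, show wh n s' (T x) = wh n (s'.1, s'.2) (T x) from rfl, ih s'.1 s'.2 (T x), ← h1]
      constructor
      · rintro ⟨i, hi, h⟩
        refine ⟨i + 1, by omega, ?_⟩
        rw [pc_succ, pc_succ]
        omega
      · rintro ⟨i, hi, h⟩
        cases i with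
        | zero =>
          rw [pc_zero, pc_zero] at h
          omega
        | succ i =>
          rw [pc_succ, pc_succ] at h
          exact ⟨i, by omega, by omega⟩

/-- If level `0` is reached within `n` steps and the pair is absorbed within `n + m` steps, the orbits
have merged at time `n + m`. -/
theorem extr_merge (n m : ℕ) : ∀ (j : ℕ) (e x : ℤ),
    wh n (j, e) x = 1 → wc n m (j, e) x = 0 → T^[n + m] x = T^[n + m] (3 ^ j * x + e) := by
  induction n with
  | zero =>
    intro j e x h1 h2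
    by_cases hj : j = 0
    · subst hj
      have h3 : w m (0, e) x = 0 := by simpa [wc] using h2
      rw [Nat.zero_add]
      exact coalesce m 0 e x _ rfl h3
    · simp [wh, hj] at h1
  | succ n ih =>
    intro j e x h1 h2
    by_cases hj : j = 0
    · subst hj
      have h3 : w (n + 1 + m) (0, e) x = 0 := by simpa [wc] using h2
      exact coalesce (n + 1 + m) 0 e x _ rfl h3
    · obtain ⟨s', h4, _, h5, h6⟩ := extr_step j e x hj
      rw [h5] at h1
      rw [h6] at h2
      have h7 := ih s'.1 s'.2 (T x) h1 h2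
      rw [← h4] at h7
      rw [show n + 1 + m = (n + m) + 1 from by omega, Function.iterate_succ_apply,
        Function.iterate_succ_apply]
      exact h7

theorem thm_Extr : St_Extr := by
  intro n m D j e x hjD hD hw1 hw2 hw3
  obtain ⟨i, hi, hle⟩ := (extr_wh_iff n D 0 x).1 hD
  by_cases hc : j + pc i (3 ^ j * x + e) ≤ pc i x
  · exact extr_merge n m j e x ((extr_wh_iff n j e x).2 ⟨i, hi, hc⟩) hw1
  · have hY : (3 : ℤ) ^ (D - j) * (3 ^ j * x + e) + -3 ^ (D - j) * e = 3 ^ D * x + 0 := by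
      have h3 : (3 : ℤ) ^ D = 3 ^ (D - j) * 3 ^ j := by
        rw [← pow_add, Nat.sub_add_cancel hjD]
      rw [h3]
      ring
    have h1 : T^[n + m] x = T^[n + m] (3 ^ D * x + 0) := extr_merge n m D 0 x hD hw3
    have h2 : wh n (D - j, -3 ^ (D - j) * e) (3 ^ j * x + e) = 1 := by
      rw [extr_wh_iff]
      refine ⟨i, hi, ?_⟩
      rw [hY]
      omega
    have h3 := extr_merge n m _ _ _ h2 hw2
    rw [hY] at h3
    rw [h1, h3]

end Pool.Agent.CPR
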