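import Mathlib
import Pool.Agent.CPR.St
import Pool.Agent.SI.Asm
import Pool.Agent.Collatz3.PDEnd

set_option autoImplicit false

/-!
# CPR [Fin]: a positive proportion of the primes
-/

namespace Pool.Agent.CPR

open Finset Filter
open Pool.Agent.Collatz3 (cw)
open Pool.Agent.Collatz3.Mix (words mem_words)
open Pool.Agent.Collatz3.PD (rd en)
open Pool.Agent.Collatz3.DN (EvInv)
open Pool.Agent.Helper14 (T)

/-- Double counting. -/
theorem Fin_double {L : ℝ} (hL : 0 ≤ L) (Q G : Finset ℕ) (a : ℝ)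
    (h : ∀ x ∈ G, a ≤ ((Q.filter fun p : ℕ => x < p ∧ (p : ℝ) ≤ x + L).card : ℝ)) :
    a * G.card ≤ Q.card * L := by
  classical
  have h1 : a * G.card ≤ ∑ x ∈ G, ((Q.filter fun p : ℕ => x < p ∧ (p : ℝ) ≤ x + L).card : ℝ) := by
    have h2 := Finset.card_nsmul_le_sum G
      (fun x => ((Q.filter fun p : ℕ => x < p ∧ (p : ℝ) ≤ x + L).card : ℝ)) a h
    rw [nsmul_eq_mul] at h2
    linarith
  have h3 : ∑ x ∈ G, ((Q.filter fun p : ℕ => x < p ∧ (p : ℝ) ≤ x + L).card : ℝ) =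
      ∑ p ∈ Q, ((G.filter fun x : ℕ => x < p ∧ (p : ℝ) ≤ x + L).card : ℝ) := by
    have h4 := Finset.sum_card_bipartiteAbove_eq_sum_card_bipartiteBelow
      (s := G) (t := Q) (fun (x p : ℕ) => x < p ∧ (p : ℝ) ≤ x + L)
    simp only [Finset.bipartiteAbove, Finset.bipartiteBelow] at h4
    exact_mod_cast h4
  rw [h3] at h1
  refine h1.trans ?_
  have h5 : ∀ p ∈ Q, ((G.filter fun x : ℕ => x < p ∧ (p : ℝ) ≤ x + L).card : ℝ) ≤ L := by
    intro p _
    have h6 : (G.filter fun x : ℕ => x < p ∧ (p : ℝ) ≤ x + L) ⊆ Finset.Ico (p - ⌊L⌋₊) p := by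
      intro x hx
      rw [mem_filter] at hx
      obtain ⟨_, h7, h8⟩ := hx
      rw [Finset.mem_Ico]
      refine ⟨?_, h7⟩
      have h9 : ((p - x : ℕ) : ℝ) ≤ L := by
        rw [Nat.cast_sub h7.le]
        linarith
      have h10 : p - x ≤ ⌊L⌋₊ := Nat.le_floor h9
      omega
    have h11 := Finset.card_le_card h6
    rw [Nat.card_Ico] at h11
    have h12 : (G.filter fun x : ℕ => x < p ∧ (p : ℝ) ≤ x + L).card ≤ ⌊L⌋₊ := by omega
    exact (Nat.cast_le.mpr h12).trans (Nat.floor_le hL)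
  have h13 := Finset.sum_le_card_nsmul Q
    (fun p => ((G.filter fun x : ℕ => x < p ∧ (p : ℝ) ≤ x + L).card : ℝ)) L h5
  rw [nsmul_eq_mul] at h13
  exact h13

/-- Markov inequality. -/
theorem Fin_half (G : Finset ℕ) (S : ℕ → ℝ) (τ : ℝ) (hτ : 0 < τ) (hS : ∀ x ∈ G, 0 ≤ S x)
    (h : ∑ x ∈ G, S x ≤ τ / 2 * G.card) :
    (G.card : ℝ) / 2 ≤ ((G.filter fun x => S x ≤ τ).card : ℝ) := by
  classical
  have h1 : (G.filter fun x => S x ≤ τ).card + (G.filter fun x => ¬ S x ≤ τ).card = G.card :=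
    Finset.card_filter_add_card_filter_not _
  have h2 : ((G.filter fun x => ¬ S x ≤ τ).card : ℝ) * τ ≤ ∑ x ∈ G, S x := by
    calc ((G.filter fun x => ¬ S x ≤ τ).card : ℝ) * τ
        ≤ ∑ x ∈ G.filter (fun x => ¬ S x ≤ τ), S x := by
          have h3 := Finset.card_nsmul_le_sum (G.filter fun x => ¬ S x ≤ τ) S τ
            (fun x hx => (not_le.mp (mem_filter.mp hx).2).le)
          rw [nsmul_eq_mul] at h3
          exact h3
      _ ≤ ∑ x ∈ G, S x :=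
          Finset.sum_le_sum_of_subset_of_nonneg (filter_subset _ _) fun x hx _ => hS x hx
  have h4 : ((G.filter fun x => ¬ S x ≤ τ).card : ℝ) * τ ≤ τ / 2 * G.card := h2.trans h
  have h5 : ((G.filter fun x => ¬ S x ≤ τ).card : ℝ) ≤ (G.card : ℝ) / 2 := by
    refine le_of_mul_le_mul_right ?_ hτ
    linarith
  have h6 : ((G.filter fun x => S x ≤ τ).card : ℝ) + (G.filter fun x => ¬ S x ≤ τ).card =
      G.card := by exact_mod_cast h1
  linarith

/-- The set of the sums. -/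
theorem Fin_set (l k : ℕ) (hl : 1 ≤ l) (hk : l ^ 2 ≤ k) :
    (∀ s ∈ (range (3 * k + 1)).filter (fun s : ℕ => |(s : ℝ) - 2 * k| ≤ l * √k),
      k ≤ s ∧ s ≤ 3 * k) ∧
    (((range (3 * k + 1)).filter (fun s : ℕ => |(s : ℝ) - 2 * k| ≤ l * √k)).card : ℝ) ≤
      3 * l * √k := by
  have hk1 : 1 ≤ k := le_trans (Nat.one_le_pow _ _ hl) hk
  have hkR : (1 : ℝ) ≤ k := by exact_mod_cast hk1
  have hlR : (1 : ℝ) ≤ l := by exact_mod_cast hl
  have hs1 : (1 : ℝ) ≤ √k := Real.one_le_sqrt.mpr hkR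
  have hs2 : √(k : ℝ) * √k = k := Real.mul_self_sqrt (by positivity)
  have hlk : (l : ℝ) ≤ √k := by
    refine Real.le_sqrt_of_sq_le ?_
    exact_mod_cast hk
  have hle : (l : ℝ) * √k ≤ k := by nlinarith
  have h0 : (1 : ℝ) ≤ l * √k := by nlinarith
  constructor
  · intro s hs
    rw [mem_filter, mem_range] at hs
    obtain ⟨h1, h2⟩ := hs
    refine ⟨?_, by omega⟩
    have h3 := (abs_le.mp h2).1
    have h4 : (k : ℝ) ≤ s := by linarith
    exact_mod_cast h4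
  · have h5 : (range (3 * k + 1)).filter (fun s : ℕ => |(s : ℝ) - 2 * k| ≤ l * √k) ⊆
        Finset.Icc ⌈2 * (k : ℝ) - l * √k⌉₊ ⌊2 * (k : ℝ) + l * √k⌋₊ := by
      intro s hs
      rw [mem_filter] at hs
      obtain ⟨_, h2⟩ := hs
      rw [abs_le] at h2
      rw [Finset.mem_Icc]
      exact ⟨Nat.ceil_le.mpr (by linarith), Nat.le_floor (by linarith)⟩
    have h6 := Finset.card_le_card h5
    rw [Nat.card_Icc] at h6
    have h7 : (⌊2 * (k : ℝ) + l * √k⌋₊ : ℝ) ≤ 2 * k + l * √k := Nat.floor_le (by positivity)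
    have h8 : 2 * (k : ℝ) - l * √k ≤ (⌈2 * (k : ℝ) - l * √k⌉₊ : ℝ) := Nat.le_ceil _
    have h9 : ⌈2 * (k : ℝ) - l * √k⌉₊ ≤ ⌊2 * (k : ℝ) + l * √k⌋₊ + 1 := by
      have h10 : ((2 * k : ℕ) : ℝ) = 2 * (k : ℝ) := by push_cast; ring
      have h11 : ⌈2 * (k : ℝ) - l * √k⌉₊ ≤ 2 * k := Nat.ceil_le.mpr (by rw [h10]; linarith)
      have h12 : 2 * k ≤ ⌊2 * (k : ℝ) + l * √k⌋₊ := Nat.le_floor (by rw [h10]; linarith)
      omega
    have h13 : (((range (3 * k + 1)).filter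
        (fun s : ℕ => |(s : ℝ) - 2 * k| ≤ l * √k)).card : ℝ) ≤
        ((⌊2 * (k : ℝ) + l * √k⌋₊ + 1 - ⌈2 * (k : ℝ) - l * √k⌉₊ : ℕ) : ℝ) :=
      Nat.cast_le.mpr h6
    rw [Nat.cast_sub h9] at h13
    push_cast at h13
    linarith

/-- The complement of an invariant set satisfies the hypothesis of [SvB]. -/
theorem Fin_inv {C : ℕ} {A : Set ℤ} (hA : EvInv C A) {X k : ℕ} (hk : k ^ 4 ≤ Nat.log 2 X)
    (hX : 2 * C + 2 ≤ Nat.log 2 X) :
    ∀ w ∈ words k k, ∀ b : ℤ, b % 2 = 1 → rd w b → (X : ℤ) ≤ |en w b| →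
      en w b ∈ Aᶜ → b ∈ Aᶜ := by
  intro w hw b _ hr hXe he
  obtain ⟨hlen, hlet⟩ := mem_words.mp hw
  have h1 : T^[w.sum] (en w b) = b :=
    Pool.Agent.Collatz3.PD.T_en hr (fun i hi => (hlet i hi).1)
  have hX0 : X ≠ 0 := by
    rintro rfl
    simp at hX
  have h2 : w.sum ≤ k * k := by
    have h3 := List.sum_le_card_nsmul w k (fun i hi => (hlet i hi).2)
    rw [hlen, smul_eq_mul] at h3
    exact h3
  have h4 : k * k ≤ Nat.log 2 X / 2 := by
    rcases Nat.lt_or_ge k 2 with h5 | h5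
    · have : k * k ≤ 1 := by
        have : k ≤ 1 := by omega
        nlinarith
      omega
    · rw [Nat.le_div_iff_mul_le (by norm_num)]
      calc k * k * 2 ≤ k * k * (k * k) := Nat.mul_le_mul_left _ (by nlinarith)
        _ = k ^ 4 := by ring
        _ ≤ _ := hk
  have h6 : 2 ^ w.sum * C < X := by
    calc 2 ^ w.sum * C ≤ 2 ^ (Nat.log 2 X / 2) * C :=
          Nat.mul_le_mul_right _ (Nat.pow_le_pow_right (by norm_num) (h2.trans h4))
      _ < 2 ^ (Nat.log 2 X / 2) * 2 ^ (Nat.log 2 X / 2) := by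
          refine Nat.mul_lt_mul_of_pos_left ?_ (by positivity)
          calc C < 2 ^ C := Nat.lt_two_pow_self
            _ ≤ 2 ^ (Nat.log 2 X / 2) := Nat.pow_le_pow_right (by norm_num) (by omega)
      _ = 2 ^ (Nat.log 2 X / 2 + Nat.log 2 X / 2) := by rw [pow_add]
      _ ≤ 2 ^ Nat.log 2 X := Nat.pow_le_pow_right (by norm_num) (by omega)
      _ ≤ X := Nat.pow_log_le_self 2 hX0
  have h7 : 2 ^ w.sum * (C : ℤ) < |en w b| := by
    have h8 : ((2 ^ w.sum * C : ℕ) : ℤ) < X := by exact_mod_cast h6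
    push_cast at h8
    linarith
  have h9 := inv_iter hA w.sum (en w b) h7
  rw [h1] at h9
  intro hb
  exact he (h9.mp hb)

open Classical in
/-- The count for one dyadic interval. -/
theorem Fin_dyadic (hS : St_SvB) (hP : St_Pers) : ∃ c : ℝ, 0 < c ∧ ∀ (C : ℕ) (A : Set ℤ) (σ : ℤ)
    (d : ℝ), (σ = 1 ∨ σ = -1) → EvInv C A → Dens σ A d → 0 < d → ∀ᶠ X : ℕ in atTop,
    c * d * X / Real.log X ≤
      (((Icc X (3 * X)).filter fun p : ℕ => p.Prime ∧ σ * (p : ℤ) ∈ A).card : ℝ) := by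
  obtain ⟨c₁, hc₁, hgap⟩ := Pool.Agent.SI.gap
  obtain ⟨l, δ, hl, hδ, hSv⟩ := hS (c₁ / 4) (by positivity)
  have hlR : (1 : ℝ) ≤ l := by exact_mod_cast hl
  obtain ⟨c₂, hc₂, hPe⟩ := hP (δ / (6 * l)) (by positivity)
  obtain ⟨X₀, hX₀⟩ := hgap (1 / 20) 2 (by norm_num) (by norm_num)
  refine ⟨c₁ * c₂ / 8, by positivity, ?_⟩
  intro C A σ d hσ hA hD hd
  have hlog : Tendsto (fun X : ℕ => Real.log (X : ℝ)) atTop atTop :=
    Real.tendsto_log_atTop.comp tendsto_natCast_atTop_atTop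
  have hlog2 : Tendsto (fun X : ℕ => Nat.log 2 X) atTop atTop :=
    tendsto_atTop_atTop_of_monotone Nat.log_monotone fun b =>
      ⟨2 ^ b, by rw [Nat.log_pow (by norm_num)]⟩
  filter_upwards [hSv, hPe C A σ d hσ hA hD hd, eventually_ge_atTop X₀, eventually_ge_atTop 3,
    hlog2.eventually_ge_atTop (2 * C + 2),
    hlog.eventually_ge_atTop (max 1 (4 / (c₂ * d)))] with X h1 h2 h3 h4 h5 h6
  obtain ⟨k, hk4, hlk, h1⟩ := h1
  obtain ⟨G, hG, hGc, h2⟩ := h2 k hk4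
  have hlX : (1 : ℝ) ≤ Real.log X := (le_max_left _ _).trans h6
  have hlX2 : 4 / (c₂ * d) ≤ Real.log X := (le_max_right _ _).trans h6
  have hXR : (3 : ℝ) ≤ X := by exact_mod_cast h4
  have hX0 : (0 : ℝ) < X := by linarith
  have hll : 0 < ll X := Real.rpow_pos_of_pos hX0 _
  have hk1 : 1 ≤ k := le_trans (Nat.one_le_pow _ _ hl) hlk
  have hkR : (1 : ℝ) ≤ k := by exact_mod_cast hk1
  have hs1 : (1 : ℝ) ≤ √k := Real.one_le_sqrt.mpr hkR
  obtain ⟨hset, hsetc⟩ := Fin_set l k hl hlk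
  -- the sums
  obtain ⟨SS, hSS⟩ : ∃ SS, SS = (range (3 * k + 1)).filter
    (fun s : ℕ => |(s : ℝ) - 2 * k| ≤ l * √k) := ⟨_, rfl⟩
  rw [← hSS] at hset hsetc
  obtain ⟨F, hF⟩ : ∃ F : Set ℤ, F = Aᶜ := ⟨_, rfl⟩
  obtain ⟨Sg, hSg⟩ : ∃ Sg : ℕ → ℝ, Sg = fun (x : ℕ) => ∑ s ∈ SS,
    (((Ob σ (3 ^ k * x / 2 ^ s) (3 ^ k * x / 2 ^ s + 3 ^ k * ll X / 2 ^ s)).filter
      fun b => b ∈ F).card : ℝ) / (3 ^ k * ll X / 2 ^ s) := ⟨_, rfl⟩
  have hSg0 : ∀ x ∈ G, 0 ≤ Sg x := by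
    intro x _
    rw [hSg]
    exact Finset.sum_nonneg fun s _ => by positivity
  have hsum : ∑ x ∈ G, Sg x ≤ δ * √k / 2 * G.card := by
    rw [hSg, Finset.sum_comm]
    have e1 : ∀ s ∈ SS, ∑ x ∈ G, (((Ob σ (3 ^ k * x / 2 ^ s)
        (3 ^ k * x / 2 ^ s + 3 ^ k * ll X / 2 ^ s)).filter
        fun b => b ∈ F).card : ℝ) / (3 ^ k * ll X / 2 ^ s) ≤ δ / (6 * l) * G.card := by
      intro s hs
      rw [← Finset.sum_div, div_le_iff₀ (by positivity)]
      have e2 := h2 s (hset s hs).1 (hset s hs).2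
      refine le_trans (le_of_eq ?_) e2
      refine Finset.sum_congr rfl fun x _ => ?_
      refine congrArg (fun t : Finset ℤ => (t.card : ℝ)) (Finset.ext fun b => ?_)
      rw [mem_filter, mem_filter]
      have e15 : b ∈ F ↔ b ∉ A := by rw [hF, Set.mem_compl_iff]
      rw [e15]
    calc ∑ s ∈ SS, ∑ x ∈ G, (((Ob σ (3 ^ k * x / 2 ^ s)
        (3 ^ k * x / 2 ^ s + 3 ^ k * ll X / 2 ^ s)).filter
        fun b => b ∈ F).card : ℝ) / (3 ^ k * ll X / 2 ^ s)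
        ≤ ∑ s ∈ SS, δ / (6 * l) * G.card := Finset.sum_le_sum e1
      _ = SS.card * (δ / (6 * l) * G.card) := by rw [Finset.sum_const, nsmul_eq_mul]
      _ ≤ (3 * l * √k) * (δ / (6 * l) * G.card) :=
          mul_le_mul_of_nonneg_right hsetc (by positivity)
      _ = δ * √k / 2 * G.card := by
          have hl0 : (l : ℝ) ≠ 0 := by positivity
          field_simp
          ring
  have hG1 := Fin_half G Sg (δ * √k) (by positivity) hSg0 hsum
  obtain ⟨G₁, hG₁⟩ : ∃ G₁, G₁ = G.filter fun x => Sg x ≤ δ * √k := ⟨_, rfl⟩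
  rw [← hG₁] at hG1
  -- the exceptional set of the gap theorem
  obtain ⟨B, hB⟩ : ∃ B : Finset ℕ, B = G₁.filter (fun x : ℕ =>
    (((Icc X (3 * X)).filter (fun p : ℕ => p.Prime ∧ x < p ∧ (p : ℝ) ≤ x + ll X)).card : ℝ) ≤
      c₁ * ll X / Real.log X) := ⟨_, rfl⟩
  have hexp : (X : ℝ) ^ (1 / 4 + 1 / 20 : ℝ) = ll X := by
    unfold ll
    norm_num
  have hBc : (B.card : ℝ) ≤ X / Real.log X ^ 2 := by
    refine hX₀ X h3 B fun x hx => ?_
    rw [hB, mem_filter, hG₁, mem_filter] at hx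
    have hxG := Finset.mem_Ico.mp (hG hx.1.1)
    refine ⟨hxG.1, hxG.2.le, ?_⟩
    rw [hexp]
    exact hx.2
  have hBc2 : (B.card : ℝ) ≤ G.card / 4 := by
    have e3 : (X : ℝ) / Real.log X ^ 2 ≤ c₂ * d * X / 4 := by
      rw [div_le_iff₀ (by positivity)]
      have e4 : 4 ≤ c₂ * d * Real.log X := by
        rw [div_le_iff₀ (by positivity)] at hlX2
        linarith
      have e5 : 4 ≤ c₂ * d * Real.log X ^ 2 := by
        have : 0 ≤ c₂ * d * Real.log X := by positivity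
        nlinarith
      nlinarith
    linarith
  obtain ⟨G₂, hG₂⟩ : ∃ G₂, G₂ = G₁ \ B := ⟨_, rfl⟩
  have hG2c : (G.card : ℝ) / 4 ≤ G₂.card := by
    have e6 : G₁.card ≤ B.card + G₂.card := by
      rw [hG₂]
      have := Finset.card_sdiff_add_card G₁ B
      have e7 := Finset.card_le_card (Finset.subset_union_left : G₁ ⊆ G₁ ∪ B)
      omega
    have e8 : (G₁.card : ℝ) ≤ B.card + G₂.card := by exact_mod_cast e6
    linarith
  -- the primes
  obtain ⟨Q, hQ⟩ : ∃ Q, Q = (Icc X (3 * X)).filter fun p : ℕ => p.Prime ∧ σ * (p : ℤ) ∈ A :=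
    ⟨_, rfl⟩
  have hx : ∀ x ∈ G₂, c₁ / 2 * ll X / Real.log X ≤
      ((Q.filter fun p : ℕ => x < p ∧ (p : ℝ) ≤ x + ll X).card : ℝ) := by
    intro x hx
    rw [hG₂, Finset.mem_sdiff] at hx
    obtain ⟨hx1, hx2⟩ := hx
    have hx3 : ¬ ((((Icc X (3 * X)).filter
        (fun p : ℕ => p.Prime ∧ x < p ∧ (p : ℝ) ≤ x + ll X)).card : ℝ) ≤
        c₁ * ll X / Real.log X) := by
      intro hc
      exact hx2 (by rw [hB, mem_filter]; exact ⟨hx1, hc⟩)
    push Not at hx3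
    rw [hG₁, mem_filter] at hx1
    have hxG := Finset.mem_Ico.mp (hG hx1.1)
    have hx4 := h1 x hxG.1 hxG.2.le σ hσ F (by rw [hF]; exact Fin_inv hA hk4 h5) (by
      have := hx1.2
      rw [hSg, hSS] at this
      exact this)
    have e9 : ((Icc X (3 * X)).filter
        (fun p : ℕ => p.Prime ∧ x < p ∧ (p : ℝ) ≤ x + ll X)).card ≤
        (Q.filter fun p : ℕ => x < p ∧ (p : ℝ) ≤ x + ll X).card +
        ((Icc X (3 * X)).filter (fun p : ℕ => p.Prime ∧ x < p ∧ (p : ℝ) ≤ x + ll X ∧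
          σ * (p : ℤ) ∈ F)).card := by
      refine le_trans (Finset.card_le_card ?_) (Finset.card_union_le _ _)
      intro p hp
      rw [mem_filter] at hp
      obtain ⟨hp1, hp2, hp3, hp4⟩ := hp
      rw [mem_union]
      by_cases hpA : σ * (p : ℤ) ∈ A
      · left
        rw [hQ, mem_filter, mem_filter]
        exact ⟨⟨hp1, hp2, hpA⟩, hp3, hp4⟩
      · right
        rw [mem_filter]
        exact ⟨hp1, hp2, hp3, hp4, by rw [hF]; exact hpA⟩
    have e10 : (((Icc X (3 * X)).filter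
        (fun p : ℕ => p.Prime ∧ x < p ∧ (p : ℝ) ≤ x + ll X)).card : ℝ) ≤
        (Q.filter fun p : ℕ => x < p ∧ (p : ℝ) ≤ x + ll X).card +
        ((Icc X (3 * X)).filter (fun p : ℕ => p.Prime ∧ x < p ∧ (p : ℝ) ≤ x + ll X ∧
          σ * (p : ℤ) ∈ F)).card := by exact_mod_cast e9
    have e11 : c₁ / 2 * ll X / Real.log X ≤ c₁ * ll X / Real.log X - c₁ / 4 * ll X / Real.log X := by
      rw [← sub_div, div_le_div_iff_of_pos_right (by linarith)]
      nlinarith [mul_pos hc₁ hll]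
    linarith
  have hfin := Fin_double hll.le Q G₂ _ hx
  have e12 : c₁ / 2 * ll X / Real.log X * G₂.card = (c₁ / 2 * G₂.card / Real.log X) * ll X := by
    ring
  rw [e12] at hfin
  have e13 : c₁ / 2 * G₂.card / Real.log X ≤ Q.card := le_of_mul_le_mul_right hfin hll
  rw [← hQ]
  refine le_trans ?_ e13
  rw [div_le_div_iff_of_pos_right (by linarith)]
  have e14 : c₂ * d * X / 4 ≤ G₂.card := by linarith
  calc c₁ * c₂ / 8 * d * X = c₁ / 2 * (c₂ * d * X / 4) := by ring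
    _ ≤ c₁ / 2 * G₂.card := mul_le_mul_of_nonneg_left e14 (by positivity)

theorem thm_Fin (hS : St_SvB) (hP : St_Pers) : St_Fin := by
  classical
  obtain ⟨c, hc, h⟩ := Fin_dyadic hS hP
  refine ⟨c / 6, by positivity, ?_⟩
  intro C A σ d hσ hA hD hd
  have h1 := h C A σ d hσ hA hD hd
  have hfl : Tendsto (fun x : ℝ => ⌊x / 3⌋₊) atTop atTop :=
    tendsto_nat_floor_atTop.comp (tendsto_id.atTop_div_const (by norm_num))
  filter_upwards [hfl.eventually h1, hfl.eventually_ge_atTop 2, eventually_ge_atTop 6]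
    with x hx1 hx2 hx3
  have hXle : ((⌊x / 3⌋₊ : ℕ) : ℝ) ≤ x / 3 := Nat.floor_le (by positivity)
  have hXge : x / 3 - 1 < ((⌊x / 3⌋₊ : ℕ) : ℝ) := Nat.sub_one_lt_floor _
  obtain ⟨X, hX⟩ : ∃ X : ℕ, X = ⌊x / 3⌋₊ := ⟨_, rfl⟩
  rw [← hX] at hx1 hx2 hXle hXge
  have hX2 : (2 : ℝ) ≤ X := by exact_mod_cast hx2
  have hlX : 0 < Real.log X := Real.log_pos (by linarith)
  have hlx : Real.log X ≤ Real.log x := Real.log_le_log (by linarith) (by linarith)
  have h2 : c / 6 * d * x / Real.log x ≤ c * d * X / Real.log X := by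
    calc c / 6 * d * x / Real.log x = c * d * (x / 6) / Real.log x := by ring
      _ ≤ c * d * X / Real.log x := by
          refine div_le_div_of_nonneg_right ?_ (hlX.le.trans hlx)
          exact mul_le_mul_of_nonneg_left (by linarith) (by positivity)
      _ ≤ c * d * X / Real.log X := div_le_div_of_nonneg_left (by positivity) hlX hlx
  refine h2.trans (hx1.trans ?_)
  have hfin : {p : ℕ | p.Prime ∧ (p : ℝ) ≤ x ∧ σ * (p : ℤ) ∈ A}.Finite := by
    refine (Set.finite_Iic ⌊x⌋₊).subset ?_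
    rintro p ⟨_, hp, _⟩
    exact Nat.le_floor hp
  have h3 : (((Icc X (3 * X)).filter fun p : ℕ => p.Prime ∧ σ * (p : ℤ) ∈ A) : Set ℕ) ⊆
      {p : ℕ | p.Prime ∧ (p : ℝ) ≤ x ∧ σ * (p : ℤ) ∈ A} := by
    intro p hp
    rw [mem_coe, mem_filter, mem_Icc] at hp
    refine ⟨hp.2.1, ?_, hp.2.2⟩
    have h4 : (p : ℝ) ≤ ((3 * X : ℕ) : ℝ) := by exact_mod_cast hp.1.2
    push_cast at h4
    linarith
  have h5 := Set.ncard_le_ncard h3 hfin
  rw [Set.ncard_coe_finset] at h5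
  exact_mod_cast h5

end Pool.Agent.CPR
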