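import Mathlib
import Pool.Agent.CPR.St

set_option autoImplicit false

/-!
# CPR [GJ], [Inv]: words of good blocks, invariance along good blocks
-/

namespace Pool.Agent.CPR

open Finset Filter
open Pool.Agent.Collatz3 (cw)
open Pool.Agent.Collatz3.Mix (words mem_words cw_append')
open Pool.Agent.Collatz3.PD (rd en II cat words_add words_length rd_append en_append en_spec en_nil)
open Pool.Agent.Collatz3.DN (EvInv)
open Pool.Agent.Helper14 (T)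

theorem GJ_mem_Gs {J k : ℕ} {v : List ℕ} : v ∈ Gs J k ↔ v ∈ words (II k) k ∧
    2 * J * k ≤ J * v.sum + k ∧ J * v.sum ≤ 2 * J * k + k ∧
    (cw v : ℝ) ≤ (5 / 4) ^ k * 2 ^ v.sum := by
  unfold Gs
  rw [mem_filter]

theorem GJ_sum_ge {J k s : ℕ} (hJ : 3 ≤ J) (h : 2 * J * k ≤ J * s + k) : 5 * k ≤ 3 * s := by
  by_contra hc
  have h1 : 3 * s + 1 ≤ 5 * k := by omega
  have h2 : J * (3 * s + 1) ≤ J * (5 * k) := Nat.mul_le_mul_left _ h1
  have h3 : 3 * k ≤ J * k := Nat.mul_le_mul_right _ hJ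
  nlinarith

theorem GJ_sum_le {J k s : ℕ} (hJ : 3 ≤ J) (h : J * s ≤ 2 * J * k + k) : 3 * s ≤ 7 * k := by
  by_contra hc
  have h1 : 7 * k + 1 ≤ 3 * s := by omega
  have h2 : J * (7 * k + 1) ≤ J * (3 * s) := Nat.mul_le_mul_left _ h1
  have h3 : 3 * k ≤ J * k := Nat.mul_le_mul_right _ hJ
  nlinarith

theorem GJ_pow {k s : ℕ} (h : 5 * k ≤ 3 * s) : (31 / 10 : ℝ) ^ k ≤ 2 ^ s := by
  have h1 : ((31 / 10 : ℝ) ^ k) ^ 3 ≤ ((2 : ℝ) ^ s) ^ 3 := by
    rw [← pow_mul, ← pow_mul, mul_comm k 3, pow_mul]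
    calc ((31 / 10 : ℝ) ^ 3) ^ k ≤ (2 ^ 5) ^ k := pow_le_pow_left₀ (by norm_num) (by norm_num) _
      _ = 2 ^ (5 * k) := by rw [← pow_mul]
      _ ≤ 2 ^ (s * 3) := pow_le_pow_right₀ (by norm_num) (by omega)
  exact le_of_pow_le_pow_left₀ (by norm_num) (by positivity) h1

theorem GJ_pow' {k s : ℕ} (h : 5 * k ≤ 3 * s) : (3 : ℝ) ^ k ≤ 2 ^ s :=
  (pow_le_pow_left₀ (by norm_num) (by norm_num) _).trans (GJ_pow h)

theorem thm_GJ : St_GJ := by
  intro J k i hJ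
  induction i with
  | zero =>
    intro w hw
    rw [GJ, mem_singleton] at hw
    subst hw
    simp [words, cw]
  | succ i ih =>
    intro w hw
    rw [GJ, cat, mem_image] at hw
    obtain ⟨⟨v, w'⟩, hp, rfl⟩ := hw
    rw [mem_product] at hp
    obtain ⟨hv, hw'⟩ := hp
    simp only at hv hw'
    rw [GJ_mem_Gs] at hv
    obtain ⟨v1, v2, v3, v4⟩ := hv
    obtain ⟨w1, w2, w3, w4⟩ := ih w' hw'
    have hvl : v.length = k := words_length v1
    simp only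
    refine ⟨?_, ?_, ?_, ?_⟩
    · have e : (i + 1) * k = k + i * k := by ring
      rw [e, words_add, cat, mem_image]
      exact ⟨(v, w'), mem_product.2 ⟨v1, w1⟩, rfl⟩
    · rw [List.sum_append]
      nlinarith
    · rw [List.sum_append]
      nlinarith
    · rw [cw_append', List.sum_append, hvl, pow_add]
      push_cast
      have h3 : (3 : ℝ) ^ k ≤ 2 ^ v.sum := GJ_pow' (GJ_sum_ge hJ v2)
      have a1 : (2 : ℝ) ^ w'.sum * (cw v : ℝ) ≤ 2 ^ w'.sum * ((5 / 4) ^ k * 2 ^ v.sum) :=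
        mul_le_mul_of_nonneg_left v4 (by positivity)
      have a2 : (3 : ℝ) ^ k * (cw w' : ℝ) ≤ 2 ^ v.sum * (i * (5 / 4) ^ k * 2 ^ w'.sum) :=
        mul_le_mul h3 w4 (Nat.cast_nonneg _) (by positivity)
      calc (2 : ℝ) ^ w'.sum * (cw v : ℝ) + 3 ^ k * (cw w' : ℝ)
          ≤ 2 ^ w'.sum * ((5 / 4) ^ k * 2 ^ v.sum) + 2 ^ v.sum * (i * (5 / 4) ^ k * 2 ^ w'.sum) :=
            add_le_add a1 a2
        _ = ((i : ℝ) + 1) * (5 / 4) ^ k * (2 ^ v.sum * 2 ^ w'.sum) := by ring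

/-- One good block. -/
theorem GJ_step {J C k : ℕ} (hJ : 3 ≤ J) (hk : 2 ≤ k) (hC : C < 2 ^ k) {A : Set ℤ}
    (hA : EvInv C A) {v : List ℕ} (hv : v ∈ Gs J k) {b : ℤ} (hb : 2 ^ (4 * k) ≤ |b|)
    (hr : rd v b) : (en v b ∈ A ↔ b ∈ A) ∧ |b| ≤ |en v b| := by
  rw [GJ_mem_Gs] at hv
  obtain ⟨v1, v2, v3, v4⟩ := hv
  have hlen : v.length = k := words_length v1
  have hs := en_spec hr
  rw [hlen] at hs
  have hsR : (3 : ℝ) ^ k * (en v b : ℝ) = 2 ^ v.sum * (b : ℝ) - cw v := by exact_mod_cast hs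
  have hbR : (16 : ℝ) ^ k ≤ |(b : ℝ)| := by
    have h1 : ((2 ^ (4 * k) : ℤ) : ℝ) ≤ ((|b| : ℤ) : ℝ) := by exact_mod_cast hb
    rw [Int.cast_abs] at h1
    push_cast at h1
    rw [pow_mul] at h1
    norm_num at h1
    exact h1
  have h54 : (5 / 4 : ℝ) ^ k ≤ |(b : ℝ)| / 160 := by
    have e1 : (5 / 4 : ℝ) ^ k = (5 / 64) ^ k * 16 ^ k := by
      rw [← mul_pow]
      norm_num
    have e2 : (5 / 64 : ℝ) ^ k ≤ (5 / 64) ^ 2 :=
      pow_le_pow_of_le_one (by norm_num) (by norm_num) hk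
    have e3 : (0 : ℝ) ≤ |(b : ℝ)| := abs_nonneg _
    calc (5 / 4 : ℝ) ^ k = (5 / 64) ^ k * 16 ^ k := e1
      _ ≤ (5 / 64) ^ 2 * |(b : ℝ)| := mul_le_mul e2 hbR (by positivity) (by positivity)
      _ ≤ |(b : ℝ)| / 160 := by
        have : (5 / 64 : ℝ) ^ 2 ≤ 1 / 160 := by norm_num
        nlinarith
  have h2S : (3 : ℝ) ^ k * (16 / 15) ≤ 2 ^ v.sum := by
    have e1 := GJ_pow (GJ_sum_ge hJ v2)
    have e2 : (31 / 10 : ℝ) ^ k = 3 ^ k * (31 / 30) ^ k := by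
      rw [← mul_pow]
      norm_num
    have e3 : (31 / 30 : ℝ) ^ 2 ≤ (31 / 30) ^ k := pow_le_pow_right₀ (by norm_num) hk
    have e4 : (16 / 15 : ℝ) ≤ (31 / 30) ^ k := le_trans (by norm_num) e3
    calc (3 : ℝ) ^ k * (16 / 15) ≤ 3 ^ k * (31 / 30) ^ k :=
          mul_le_mul_of_nonneg_left e4 (by positivity)
      _ = (31 / 10) ^ k := e2.symm
      _ ≤ _ := e1
  have hge : |(b : ℝ)| ≤ |(en v b : ℝ)| := by
    have e1 : |(3 : ℝ) ^ k * (en v b : ℝ)| = 3 ^ k * |(en v b : ℝ)| := by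
      rw [abs_mul, abs_of_pos (by positivity : (0 : ℝ) < 3 ^ k)]
    have e2 : 2 ^ v.sum * |(b : ℝ)| - cw v ≤ |(2 : ℝ) ^ v.sum * (b : ℝ) - cw v| := by
      have e3 : |(2 : ℝ) ^ v.sum * (b : ℝ)| = 2 ^ v.sum * |(b : ℝ)| := by
        rw [abs_mul, abs_of_pos (by positivity : (0 : ℝ) < 2 ^ v.sum)]
      have e4 : |(cw v : ℝ)| = cw v := abs_of_nonneg (Nat.cast_nonneg _)
      calc 2 ^ v.sum * |(b : ℝ)| - cw v = |(2 : ℝ) ^ v.sum * (b : ℝ)| - |(cw v : ℝ)| := by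
            rw [e3, e4]
        _ ≤ _ := abs_sub_abs_le_abs_sub _ _
    rw [← hsR, e1] at e2
    have e5 : (0 : ℝ) ≤ |(b : ℝ)| := abs_nonneg _
    have e6 : 2 ^ v.sum * (|(b : ℝ)| * (159 / 160)) ≤ 2 ^ v.sum * |(b : ℝ)| - cw v := by
      have e7 : (cw v : ℝ) ≤ 2 ^ v.sum * (|(b : ℝ)| / 160) :=
        v4.trans (by rw [mul_comm]; exact mul_le_mul_of_nonneg_left h54 (by positivity))
      linarith
    have e8 : (3 : ℝ) ^ k * (16 / 15) * (|(b : ℝ)| * (159 / 160)) ≤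
        2 ^ v.sum * (|(b : ℝ)| * (159 / 160)) := mul_le_mul_of_nonneg_right h2S (by positivity)
    have e9 : (3 : ℝ) ^ k * |(b : ℝ)| ≤ 3 ^ k * |(en v b : ℝ)| := by
      have e10 : (3 : ℝ) ^ k * |(b : ℝ)| ≤ (3 : ℝ) ^ k * (16 / 15) * (|(b : ℝ)| * (159 / 160)) := by
        have : (0 : ℝ) ≤ (3 : ℝ) ^ k * |(b : ℝ)| := by positivity
        nlinarith
      exact e10.trans (e8.trans (e6.trans e2))
    exact le_of_mul_le_mul_left e9 (by positivity)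
  have hgeZ : |b| ≤ |en v b| := by
    have : ((|b| : ℤ) : ℝ) ≤ ((|en v b| : ℤ) : ℝ) := by
      rw [Int.cast_abs, Int.cast_abs]
      exact hge
    exact_mod_cast this
  refine ⟨?_, hgeZ⟩
  have hT : T^[v.sum] (en v b) = b :=
    Pool.Agent.Collatz3.PD.T_en hr fun i hi => ((mem_words.1 v1).2 i hi).1
  have hlt : 2 ^ v.sum * (C : ℤ) < |en v b| := by
    refine lt_of_lt_of_le ?_ (hb.trans hgeZ)
    have g1 : v.sum ≤ 3 * k := by
      have := GJ_sum_le hJ v3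
      omega
    have g2 : (2 : ℤ) ^ v.sum ≤ 2 ^ (3 * k) := pow_le_pow_right₀ (by norm_num) g1
    have g3 : (C : ℤ) < 2 ^ k := by exact_mod_cast hC
    have g4 : (2 : ℤ) ^ (4 * k) = 2 ^ (3 * k) * 2 ^ k := by
      rw [← pow_add]
      congr 1
      ring
    rw [g4]
    calc 2 ^ v.sum * (C : ℤ) ≤ 2 ^ (3 * k) * (C : ℤ) :=
          mul_le_mul_of_nonneg_right g2 (Int.natCast_nonneg C)
      _ < 2 ^ (3 * k) * 2 ^ k := by
          have : (0 : ℤ) < 2 ^ (3 * k) := by positivity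
          exact (mul_lt_mul_iff_right₀ this).2 g3
  have h := inv_iter hA v.sum (en v b) hlt
  rw [hT] at h
  exact h.symm

theorem thm_Inv : St_Inv := by
  intro J hJ C
  have h0 : ∀ᶠ k : ℕ in atTop, C < 2 ^ k := by
    filter_upwards [eventually_ge_atTop C] with k hk
    exact lt_of_le_of_lt hk Nat.lt_two_pow_self
  filter_upwards [h0, eventually_ge_atTop 2] with k hC hk
  intro A hA i
  induction i with
  | zero =>
    intro w hw b _ _
    rw [GJ, mem_singleton] at hw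
    subst hw
    rw [en_nil]
    exact ⟨Iff.rfl, le_rfl⟩
  | succ i ih =>
    intro w hw b hb hr
    rw [GJ, cat, mem_image] at hw
    obtain ⟨⟨v, w'⟩, hp, rfl⟩ := hw
    rw [mem_product] at hp
    obtain ⟨hv, hw'⟩ := hp
    simp only at hv hw' hr ⊢
    obtain ⟨hr1, hr2⟩ := rd_append.1 hr
    rw [en_append hr1]
    obtain ⟨g1, g2⟩ := GJ_step hJ hk hC hA hv hb hr1
    obtain ⟨g3, g4⟩ := ih w' hw' (en v b) (hb.trans g2) hr2
    exact ⟨g3.trans g1, g2.trans g4⟩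

end Pool.Agent.CPR
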