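import Mathlib
import Pool.Agent.CPR.St
import Pool.Agent.Collatz3.PDErr

set_option autoImplicit false

/-!
# CPR, module Gs: good blocks have probability at least `1 - 1 / k ^ 7`
-/

namespace Pool.Agent.CPR

open Finset Filter
open Pool.Agent.Collatz3.Mix (words mem_words)
open Pool.Agent.Collatz3.PD (rd en Fw II P Per goodV P_mono P_union_le)
open Pool.Agent.Collatz3.FW (lower_dev upper_dev P_good_ge num_all)

theorem Gs_ev (c : ℝ) (hc : 0 < c) : ∀ᶠ k : ℕ in atTop,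
    Real.exp (-c * k) ≤ 1 / 4 / (k : ℝ) ^ 7 := by
  have h1 := tendsto_rpow_mul_exp_neg_mul_atTop_nhds_zero 7 c hc
  have h2 : Tendsto (fun k : ℕ => (k : ℝ)) atTop atTop := tendsto_natCast_atTop_atTop
  have h3 := (h1.comp h2).eventually_le_const (by norm_num : (0 : ℝ) < 1 / 4)
  filter_upwards [h3, eventually_ge_atTop 1] with k hk hk1
  have hk0 : (0 : ℝ) < k := by exact_mod_cast hk1
  simp only [Function.comp] at hk
  have h4 : (k : ℝ) ^ (7 : ℝ) = (k : ℝ) ^ (7 : ℕ) := by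
    rw [← Real.rpow_natCast]
    norm_num
  rw [h4] at hk
  rw [le_div_iff₀ (by positivity), mul_comm]
  exact hk

theorem Gs_cover (J k : ℕ) (hJ : 3 ≤ J) : goodV (II k) k k ⊆ Gs J k ∪
    (((words (II k) k).filter fun w => (w.sum : ℝ) ≤ (2 - 1 / (J : ℝ)) * k) ∪
      ((words (II k) k).filter fun w => (2 + 1 / (J : ℝ)) * k ≤ (w.sum : ℝ))) := by
  intro v hv
  rw [goodV, mem_filter] at hv
  obtain ⟨hv1, -, -, hv4⟩ := hv
  have hJ0 : (0 : ℝ) < J := by exact_mod_cast (by omega : 0 < J)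
  rw [mem_union, mem_union, Gs, mem_filter, mem_filter, mem_filter]
  rcases lt_or_ge (J * v.sum + k) (2 * J * k) with h1 | h1
  · right; left
    refine ⟨hv1, ?_⟩
    have h2 : (J : ℝ) * v.sum + k < 2 * J * k := by exact_mod_cast h1
    have h3 : (2 - 1 / (J : ℝ)) * k = (2 * J * k - k) / J := by
      field_simp
    rw [h3, le_div_iff₀ hJ0]
    linarith
  · rcases lt_or_ge (2 * J * k + k) (J * v.sum) with h2 | h2
    · right; right
      refine ⟨hv1, ?_⟩
      have h3 : (2 : ℝ) * J * k + k < J * v.sum := by exact_mod_cast h2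
      have h4 : (2 + 1 / (J : ℝ)) * k = (2 * J * k + k) / J := by
        field_simp
      rw [h4, div_le_iff₀ hJ0]
      linarith
    · left
      exact ⟨hv1, h1, h2, hv4⟩

theorem thm_Gs : St_Gs := by
  intro J hJ
  have hJ0 : (0 : ℝ) < J := by exact_mod_cast (by omega : 0 < J)
  have hJ1 : (1 : ℝ) / J ≤ 1 := by
    rw [div_le_one hJ0]
    exact_mod_cast (by omega : 1 ≤ J)
  have hc : (0 : ℝ) < (1 / (J : ℝ)) ^ 2 / 16 := by positivity
  filter_upwards [num_all, Gs_ev _ hc] with k hN hk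
  have hbig := hN.big
  have hk0 : (0 : ℝ) < k := by exact_mod_cast (by omega : 0 < k)
  have hk4 : (4 : ℝ) ≤ k := by exact_mod_cast (by omega : 4 ≤ k)
  have h1 := P_good_ge hN (by omega : k / 20 ≤ k) le_rfl
  have h2 := lower_dev (by positivity : (0 : ℝ) < 1 / J) hJ1 (II k) k
  have h3 := upper_dev (by positivity : (0 : ℝ) < 1 / J) hJ1 (II k) k
  have h4 := (P_mono (Gs_cover J k hJ)).trans (P_union_le _ _)
  have h5 := P_union_le ((words (II k) k).filter fun w => (w.sum : ℝ) ≤ (2 - 1 / (J : ℝ)) * k)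
      ((words (II k) k).filter fun w => (2 + 1 / (J : ℝ)) * k ≤ (w.sum : ℝ))
  have h6 : 2 / (k : ℝ) ^ 8 ≤ 1 / 2 / (k : ℝ) ^ 7 := by
    rw [div_le_div_iff₀ (by positivity) (by positivity)]
    have h7 : (0 : ℝ) < (k : ℝ) ^ 7 := by positivity
    have h8 : (k : ℝ) ^ 8 = k * (k : ℝ) ^ 7 := by ring
    rw [h8]
    nlinarith
  have h7 : (1 : ℝ) / (k : ℝ) ^ 7 = 1 / 2 / (k : ℝ) ^ 7 + (1 / 4 / (k : ℝ) ^ 7 +
      1 / 4 / (k : ℝ) ^ 7) := by ring
  rw [h7]
  linarith

end Pool.Agent.CPR
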