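import Mathlib
import Pool.Agent.CPR.St

set_option autoImplicit false

/-!
# CPR [Hit]: the pair chain reaches level `0` with positive probability
-/

namespace Pool.Agent.CPR

open Finset
open Pool.Agent.Helper86.CollatzChain (s0 s1 vv tau tau_step tau_odd tau_le tau_nonneg vv_spec
  s0_even s0_odd s1_even s1_odd_succ)

/-! ### Elementary facts about `hh` -/

theorem Hit_hh_nonneg (l n : ℕ) : ∀ s : ℕ × ℤ, 0 ≤ hh l n s := by
  induction n with
  | zero => intro s; simp only [hh]; split_ifs <;> norm_num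
  | succ n ih =>
    intro s
    simp only [hh]
    split_ifs
    · norm_num
    · have h1 := ih (s0 s)
      have h2 := ih (s1 s)
      linarith

theorem Hit_hh_one {l : ℕ} (n : ℕ) {s : ℕ × ℤ} (h : s.1 ≤ l) : hh l n s = 1 := by
  cases n <;> simp [hh, h]

theorem Hit_hh_succ {l : ℕ} (n : ℕ) {s : ℕ × ℤ} (h : ¬ s.1 ≤ l) :
    hh l (n + 1) s = (hh l n (s0 s) + hh l n (s1 s)) / 2 := by
  simp [hh, h]

theorem Hit_hh_mono_succ (l n : ℕ) : ∀ s : ℕ × ℤ, hh l n s ≤ hh l (n + 1) s := by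
  induction n with
  | zero =>
    intro s
    by_cases h : s.1 ≤ l
    · rw [Hit_hh_one _ h, Hit_hh_one _ h]
    · have h0 : hh l 0 s = 0 := by simp [hh, h]
      rw [h0]
      exact Hit_hh_nonneg _ _ _
  | succ n ih =>
    intro s
    by_cases h : s.1 ≤ l
    · rw [Hit_hh_one _ h, Hit_hh_one _ h]
    · rw [Hit_hh_succ _ h, Hit_hh_succ _ h]
      have h1 := ih (s0 s)
      have h2 := ih (s1 s)
      linarith

theorem Hit_hh_mono (l : ℕ) (s : ℕ × ℤ) : Monotone fun n => hh l n s :=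
  monotone_nat_of_le_succ fun n => Hit_hh_mono_succ l n s

theorem Hit_markov {l l' : ℕ} (hl : l' ≤ l) (n₂ : ℕ) {b : ℝ}
    (hb : ∀ t : ℕ × ℤ, t.1 ≤ l → b ≤ hh l' n₂ t) (n₁ : ℕ) :
    ∀ s : ℕ × ℤ, hh l n₁ s * b ≤ hh l' (n₁ + n₂) s := by
  induction n₁ with
  | zero =>
    intro s
    by_cases h : s.1 ≤ l
    · rw [Hit_hh_one _ h, one_mul, zero_add]
      exact hb s h
    · have h0 : hh l 0 s = 0 := by simp [hh, h]
      rw [h0, zero_mul]
      exact Hit_hh_nonneg _ _ _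
  | succ n₁ ih =>
    intro s
    by_cases h : s.1 ≤ l
    · rw [Hit_hh_one _ h, one_mul]
      exact (hb s h).trans (Hit_hh_mono l' s (by omega : n₂ ≤ n₁ + 1 + n₂))
    · have h' : ¬ s.1 ≤ l' := fun hc => h (hc.trans hl)
      have e : n₁ + 1 + n₂ = (n₁ + n₂) + 1 := by omega
      rw [e, Hit_hh_succ _ h, Hit_hh_succ _ h']
      have h1 := ih (s0 s)
      have h2 := ih (s1 s)
      linarith

/-! ### One step -/

theorem Hit_even {j : ℕ} (hj : 1 ≤ j) {e : ℤ} (he : e % 2 = 0) :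
    (s0 (j, e)).1 = j ∧ (s1 (j, e)).1 = j ∧
      tau (vv j) (s0 (j, e)).2 + tau (vv j) (s1 (j, e)).2 ≤ 2 * tau (vv j) e - 2 := by
  obtain ⟨j, rfl⟩ : ∃ j', j = j' + 1 := ⟨j - 1, by omega⟩
  obtain ⟨f, rfl⟩ : ∃ f, e = 2 * f := ⟨e / 2, by omega⟩
  obtain ⟨v, w, hv, hw, hvw⟩ := vv_spec j
  have hw2 : 2 * ((2 : ℤ) ^ v * w) = 3 ^ (j + 1) - 1 := by rw [hvw, pow_succ]; ring
  rw [s0_even, s1_even (j + 1) f (2 ^ v * w) hw2, hv]
  exact ⟨rfl, rfl, tau_step v f w hw⟩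

theorem Hit_odd (j : ℕ) {e : ℤ} (he : e % 2 = 1) :
    (s0 (j + 1, e)).1 = j + 2 ∧ (s1 (j + 1, e)).1 = j ∧ tau (vv (j + 1)) e = 0 := by
  obtain ⟨v, w, hv, hw, hvw⟩ := vv_spec j
  rw [s0_odd _ he, s1_odd_succ j he, hv]
  exact ⟨rfl, rfl, tau_odd v (by omega)⟩

/-! ### The potential -/

noncomputable def Hitb (i : ℕ) : ℝ := 2 + ((vv (i + 1) : ℝ) + vv (i - 1)) / 2

noncomputable def HitS (l m : ℕ) : ℝ := ∑ i ∈ range m, Hitb (l + 1 + i)

noncomputable def HitB (l m : ℕ) : ℝ := ∑ i ∈ range m, 2 * HitS l i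

noncomputable def HitPsi (l ρ : ℕ) (s : ℕ × ℤ) : ℝ :=
  HitB l (2 * ρ) - HitB l (s.1 - l) + tau (vv s.1) s.2

theorem Hitb_nonneg (i : ℕ) : 0 ≤ Hitb i := by
  unfold Hitb
  positivity

theorem HitS_nonneg (l m : ℕ) : 0 ≤ HitS l m := sum_nonneg fun _ _ => Hitb_nonneg _

theorem HitS_mono (l : ℕ) {m m' : ℕ} (h : m ≤ m') : HitS l m ≤ HitS l m' :=
  sum_le_sum_of_subset_of_nonneg (range_subset_range.2 h) fun _ _ _ => Hitb_nonneg _

theorem HitB_mono (l : ℕ) {m m' : ℕ} (h : m ≤ m') : HitB l m ≤ HitB l m' :=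
  sum_le_sum_of_subset_of_nonneg (range_subset_range.2 h) fun i _ _ => by
    linarith [HitS_nonneg l i]

theorem HitPsi_nonneg {l ρ : ℕ} {s : ℕ × ℤ} (h : s.1 ≤ l + 2 * ρ) : 0 ≤ HitPsi l ρ s := by
  unfold HitPsi
  have h1 := HitB_mono l (show s.1 - l ≤ 2 * ρ by omega)
  have h2 := tau_nonneg (vv s.1) s.2
  linarith

theorem HitPsi_step (l ρ : ℕ) {s : ℕ × ℤ} (h : l < s.1) :
    (HitPsi l ρ (s0 s) + HitPsi l ρ (s1 s)) / 2 ≤ HitPsi l ρ s - 1 := by
  obtain ⟨j, e⟩ := s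
  have h' : l < j := h
  obtain ⟨m, rfl⟩ : ∃ m, j = l + m + 1 := ⟨j - l - 1, by omega⟩
  rcases Int.emod_two_eq_zero_or_one e with he | he
  · obtain ⟨h1, h2, h3⟩ := Hit_even (by omega : 1 ≤ l + m + 1) he
    unfold HitPsi
    rw [h1, h2]
    dsimp only
    linarith
  · obtain ⟨h1, h2, h3⟩ := Hit_odd (l + m) he
    unfold HitPsi
    rw [h1, h2]
    dsimp only
    rw [h3]
    have e1 : l + m + 2 - l = m + 1 + 1 := by omega
    have e2 : l + m - l = m := by omega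
    have e3 : l + m + 1 - l = m + 1 := by omega
    rw [e1, e2, e3]
    have h4 : HitB l (m + 1 + 1) = HitB l (m + 1) + 2 * HitS l (m + 1) := by
      unfold HitB; rw [sum_range_succ]
    have h5 : HitB l (m + 1) = HitB l m + 2 * HitS l m := by
      unfold HitB; rw [sum_range_succ]
    have h6 : HitS l (m + 1) = HitS l m + Hitb (l + 1 + m) := by
      unfold HitS; rw [sum_range_succ]
    have h7 : Hitb (l + 1 + m) = 2 + ((vv (l + m + 2) : ℝ) + vv (l + m)) / 2 := by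
      unfold Hitb
      have e4 : l + 1 + m + 1 = l + m + 2 := by omega
      have e5 : l + 1 + m - 1 = l + m := by omega
      rw [e4, e5]
    have h8 := tau_le (vv (l + m + 2)) (s0 (l + m + 1, e)).2
    have h9 := tau_le (vv (l + m)) (s1 (l + m + 1, e)).2
    linarith

/-! ### Staying inside and going up -/

/-- Probability that the level is in `(l, R)` at all times `0, …, k`. -/
noncomputable def HitIn (l R : ℕ) : ℕ → ℕ × ℤ → ℝ
  | 0, s => if l < s.1 ∧ s.1 < R then 1 else 0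
  | k + 1, s => if l < s.1 ∧ s.1 < R then (HitIn l R k (s0 s) + HitIn l R k (s1 s)) / 2 else 0

/-- Probability that the level reaches `R` before `l` within `k` steps. -/
noncomputable def HitUp (l R : ℕ) : ℕ → ℕ × ℤ → ℝ
  | 0, s => if R ≤ s.1 then 1 else 0
  | k + 1, s => if s.1 ≤ l then 0 else if R ≤ s.1 then 1
    else (HitUp l R k (s0 s) + HitUp l R k (s1 s)) / 2

theorem HitIn_nonneg (l R k : ℕ) : ∀ s : ℕ × ℤ, 0 ≤ HitIn l R k s := by
  induction k with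
  | zero => intro s; simp only [HitIn]; split_ifs <;> norm_num
  | succ k ih =>
    intro s
    simp only [HitIn]
    split_ifs
    · have h1 := ih (s0 s)
      have h2 := ih (s1 s)
      linarith
    · exact le_rfl

theorem HitIn_out {l R : ℕ} (k : ℕ) {s : ℕ × ℤ} (h : ¬ (l < s.1 ∧ s.1 < R)) : HitIn l R k s = 0 := by
  cases k <;> simp only [HitIn, if_neg h]

theorem HitIn_le_one (l R k : ℕ) : ∀ s : ℕ × ℤ, HitIn l R k s ≤ 1 := by
  induction k with
  | zero => intro s; simp only [HitIn]; split_ifs <;> norm_num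
  | succ k ih =>
    intro s
    simp only [HitIn]
    split_ifs
    · have h1 := ih (s0 s)
      have h2 := ih (s1 s)
      linarith
    · norm_num

theorem HitIn_anti (l R k : ℕ) : ∀ s : ℕ × ℤ, HitIn l R (k + 1) s ≤ HitIn l R k s := by
  induction k with
  | zero =>
    intro s
    by_cases h : l < s.1 ∧ s.1 < R
    · have h1 : HitIn l R 0 s = 1 := by simp only [HitIn, if_pos h]
      rw [h1]
      exact HitIn_le_one _ _ _ _
    · rw [HitIn_out _ h, HitIn_out _ h]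
  | succ k ih =>
    intro s
    by_cases h : l < s.1 ∧ s.1 < R
    · have h1 : HitIn l R (k + 1 + 1) s = (HitIn l R (k + 1) (s0 s) + HitIn l R (k + 1) (s1 s)) / 2 := by
        rw [HitIn, if_pos h]
      have h2 : HitIn l R (k + 1) s = (HitIn l R k (s0 s) + HitIn l R k (s1 s)) / 2 := by
        rw [HitIn, if_pos h]
      rw [h1, h2]
      have h3 := ih (s0 s)
      have h4 := ih (s1 s)
      linarith
    · rw [HitIn_out _ h, HitIn_out _ h]

/-- The levels after one step. -/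
theorem Hit_levels {s : ℕ × ℤ} (h : 1 ≤ s.1) :
    ((s0 s).1 = s.1 ∧ (s1 s).1 = s.1) ∨ ((s0 s).1 = s.1 + 1 ∧ (s1 s).1 + 1 = s.1) := by
  obtain ⟨j, e⟩ := s
  have h' : 1 ≤ j := h
  rcases Int.emod_two_eq_zero_or_one e with he | he
  · obtain ⟨h1, h2, -⟩ := Hit_even h' he
    exact Or.inl ⟨h1, h2⟩
  · obtain ⟨j, rfl⟩ : ∃ j', j = j' + 1 := ⟨j - 1, by omega⟩
    obtain ⟨h1, h2, -⟩ := Hit_odd j he
    refine Or.inr ⟨?_, ?_⟩
    · rw [h1]
    · rw [h2]

theorem HitIn_sum (l ρ k : ℕ) : ∀ s : ℕ × ℤ, s.1 ≤ l + 2 * ρ →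
    ∑ i ∈ range (k + 1), HitIn l (l + 2 * ρ) i s ≤ HitPsi l ρ s := by
  induction k with
  | zero =>
    intro s hs
    rw [zero_add, sum_range_one]
    by_cases h : l < s.1 ∧ s.1 < l + 2 * ρ
    · have h1 := HitPsi_step l ρ h.1
      have h2 := Hit_levels (show 1 ≤ s.1 by omega)
      have h3 : 0 ≤ HitPsi l ρ (s0 s) := HitPsi_nonneg (by omega)
      have h4 : 0 ≤ HitPsi l ρ (s1 s) := HitPsi_nonneg (by omega)
      have h5 := HitIn_le_one l (l + 2 * ρ) 0 s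
      linarith
    · rw [HitIn_out _ h]
      exact HitPsi_nonneg hs
  | succ k ih =>
    intro s hs
    by_cases h : l < s.1 ∧ s.1 < l + 2 * ρ
    · have h1 := HitPsi_step l ρ h.1
      have h2 := Hit_levels (show 1 ≤ s.1 by omega)
      have h3 := ih (s0 s) (by omega)
      have h4 := ih (s1 s) (by omega)
      rw [sum_range_succ']
      have h5 : ∀ i, HitIn l (l + 2 * ρ) (i + 1) s =
          (HitIn l (l + 2 * ρ) i (s0 s) + HitIn l (l + 2 * ρ) i (s1 s)) / 2 := by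
        intro i
        rw [HitIn, if_pos h]
      simp only [h5]
      rw [← sum_div, sum_add_distrib]
      have h6 := HitIn_le_one l (l + 2 * ρ) 0 s
      linarith
    · rw [sum_eq_zero fun i _ => HitIn_out i h]
      exact HitPsi_nonneg hs

theorem HitIn_le (l ρ k : ℕ) {s : ℕ × ℤ} (hs : s.1 ≤ l + 2 * ρ) :
    ((k : ℝ) + 1) * HitIn l (l + 2 * ρ) k s ≤ HitPsi l ρ s := by
  refine le_trans ?_ (HitIn_sum l ρ k s hs)
  have h1 : Antitone fun i => HitIn l (l + 2 * ρ) i s :=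
    antitone_nat_of_succ_le fun i => HitIn_anti _ _ i s
  calc ((k : ℝ) + 1) * HitIn l (l + 2 * ρ) k s
      = ∑ i ∈ range (k + 1), HitIn l (l + 2 * ρ) k s := by
        rw [sum_const, card_range, nsmul_eq_mul]
        push_cast
        ring
    _ ≤ _ := sum_le_sum fun i hi => h1 (Nat.lt_succ_iff.1 (mem_range.1 hi))

theorem HitUp_le (l ρ : ℕ) (hρ : 1 ≤ ρ) (k : ℕ) : ∀ s : ℕ × ℤ, l ≤ s.1 → s.1 ≤ l + 2 * ρ →
    HitUp l (l + 2 * ρ) k s * (2 * ρ) ≤ (s.1 : ℝ) - l := by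
  have hρ' : (1 : ℝ) ≤ ρ := by exact_mod_cast hρ
  induction k with
  | zero =>
    intro s h1 h2
    have h1' : (l : ℝ) ≤ s.1 := by exact_mod_cast h1
    simp only [HitUp]
    split_ifs with h
    · have h3 : s.1 = l + 2 * ρ := le_antisymm h2 h
      rw [h3]
      push_cast
      linarith
    · linarith
  | succ k ih =>
    intro s h1 h2
    have h1' : (l : ℝ) ≤ s.1 := by exact_mod_cast h1
    simp only [HitUp]
    split_ifs with h h'
    · linarith
    · have h3 : s.1 = l + 2 * ρ := le_antisymm h2 h'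
      rw [h3]
      push_cast
      linarith
    · rcases Hit_levels (show 1 ≤ s.1 by omega) with ⟨h3, h4⟩ | ⟨h3, h4⟩
      · have h5 := ih (s0 s) (by omega) (by omega)
        have h6 := ih (s1 s) (by omega) (by omega)
        rw [h3] at h5
        rw [h4] at h6
        linarith
      · have h5 := ih (s0 s) (by omega) (by omega)
        have h6 := ih (s1 s) (by omega) (by omega)
        have h7 : (((s0 s).1 : ℕ) : ℝ) = (s.1 : ℝ) + 1 := by rw [h3]; push_cast; ring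
        have h8 : (((s1 s).1 : ℕ) : ℝ) + 1 = (s.1 : ℝ) := by exact_mod_cast h4
        rw [h7] at h5
        linarith

theorem Hit_total (l R : ℕ) (hlR : l < R) (k : ℕ) : ∀ s : ℕ × ℤ,
    1 ≤ hh l k s + HitIn l R k s + HitUp l R k s := by
  induction k with
  | zero =>
    intro s
    simp only [hh, HitIn, HitUp]
    split_ifs <;> first | omega | norm_num
  | succ k ih =>
    intro s
    have h1 := ih (s0 s)
    have h2 := ih (s1 s)
    have h3 := Hit_hh_nonneg l k (s0 s)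
    have h4 := Hit_hh_nonneg l k (s1 s)
    simp only [hh, HitIn, HitUp]
    split_ifs <;> first | omega | linarith

/-! ### The stage lemma -/

theorem Hit_sum_vv (hW : St_Win) (a n : ℕ) :
    ∑ i ∈ range n, (vv (a + i) : ℝ) ≤ 3 * n + (Nat.log 2 (a + n) : ℝ) := by
  have h := hW a n
  exact_mod_cast h

theorem Hit_S_le (hW : St_Win) {l ρ : ℕ} (hρ : 1 ≤ ρ) (hlog : Nat.log 2 (l + 2 * ρ + 1) ≤ ρ) :
    HitS l (2 * ρ - 1) ≤ 11 * ρ := by
  obtain ⟨r, hr⟩ : ∃ r, 2 * ρ - 1 = r := ⟨_, rfl⟩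
  have h1 := Hit_sum_vv hW (l + 2) r
  have h2 := Hit_sum_vv hW l r
  have h3 : HitS l r = 2 * r + (∑ i ∈ range r, (vv (l + 2 + i) : ℝ) + ∑ i ∈ range r, (vv (l + i) : ℝ)) / 2 := by
    unfold HitS Hitb
    rw [sum_add_distrib, ← sum_div, sum_add_distrib, sum_const, card_range, nsmul_eq_mul]
    have e1 : ∑ i ∈ range r, (vv (l + 1 + i + 1) : ℝ) = ∑ i ∈ range r, (vv (l + 2 + i) : ℝ) :=
      sum_congr rfl fun i _ => by rw [show l + 1 + i + 1 = l + 2 + i by omega]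
    have e2 : ∑ i ∈ range r, (vv (l + 1 + i - 1) : ℝ) = ∑ i ∈ range r, (vv (l + i) : ℝ) :=
      sum_congr rfl fun i _ => by rw [show l + 1 + i - 1 = l + i by omega]
    rw [e1, e2]
    ring
  have h4 : (Nat.log 2 (l + 2 + r) : ℝ) ≤ ρ := by
    have : Nat.log 2 (l + 2 + r) ≤ ρ := (Nat.log_mono_right (by omega)).trans hlog
    exact_mod_cast this
  have h5 : (Nat.log 2 (l + r) : ℝ) ≤ ρ := by
    have : Nat.log 2 (l + r) ≤ ρ := (Nat.log_mono_right (by omega)).trans hlog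
    exact_mod_cast this
  have h6 : (r : ℝ) ≤ 2 * ρ := by
    have : r ≤ 2 * ρ := by omega
    exact_mod_cast this
  rw [hr, h3]
  linarith

theorem HitB_le (hW : St_Win) {l ρ : ℕ} (hρ : 1 ≤ ρ) (hlog : Nat.log 2 (l + 2 * ρ + 1) ≤ ρ) :
    HitB l (2 * ρ) ≤ 44 * ρ ^ 2 := by
  have h1 := Hit_S_le hW hρ hlog
  have h2 : HitB l (2 * ρ) ≤ ∑ i ∈ range (2 * ρ), 2 * (11 * (ρ : ℝ)) := by
    unfold HitB
    apply sum_le_sum
    intro i hi
    have h3 := HitS_mono l (show i ≤ 2 * ρ - 1 by have := mem_range.1 hi; omega)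
    linarith
  rw [sum_const, card_range, nsmul_eq_mul] at h2
  push_cast at h2
  linarith [h2, sq (ρ : ℝ)]

theorem Hit_stage (hW : St_Win) {l ρ : ℕ} (hρ : 1 ≤ ρ) (hlog : Nat.log 2 (l + 2 * ρ + 1) ≤ ρ)
    {s : ℕ × ℤ} (hs : s.1 ≤ l + ρ) : 1 / 4 ≤ hh l (256 * ρ ^ 2) s := by
  by_cases hl : s.1 ≤ l
  · rw [Hit_hh_one _ hl]
    norm_num
  push Not at hl
  have hρ' : (1 : ℝ) ≤ ρ := by exact_mod_cast hρ
  have hsq : (ρ : ℝ) ≤ ρ ^ 2 := by nlinarith
  have h1 := Hit_total l (l + 2 * ρ) (by omega) (256 * ρ ^ 2) s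
  have h2 := HitUp_le l ρ hρ (256 * ρ ^ 2) s hl.le (by omega)
  have h3 := HitIn_le l ρ (256 * ρ ^ 2) (s := s) (by omega)
  have h4 := HitB_le hW hρ hlog
  have h5 : (vv s.1 : ℝ) ≤ 3 + ρ := by
    have h6 := Hit_sum_vv hW s.1 1
    rw [sum_range_one, add_zero] at h6
    have h7 : (Nat.log 2 (s.1 + 1) : ℝ) ≤ ρ := by
      have : Nat.log 2 (s.1 + 1) ≤ ρ := (Nat.log_mono_right (by omega)).trans hlog
      exact_mod_cast this
    push_cast at h6
    linarith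
  have h6 : HitPsi l ρ s ≤ 64 * ρ ^ 2 := by
    unfold HitPsi
    have h7 := tau_le (vv s.1) s.2
    have h8 : 0 ≤ HitB l (s.1 - l) := by
      unfold HitB
      exact sum_nonneg fun i _ => by linarith [HitS_nonneg l i]
    linarith
  have h7 : HitIn l (l + 2 * ρ) (256 * ρ ^ 2) s ≤ 1 / 4 := by
    have h8 := HitIn_nonneg l (l + 2 * ρ) (256 * ρ ^ 2) s
    push_cast at h3
    have h9 : 256 * (ρ : ℝ) ^ 2 * HitIn l (l + 2 * ρ) (256 * ρ ^ 2) s ≤ 64 * ρ ^ 2 := by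
      linarith
    have h10 : 0 < (ρ : ℝ) ^ 2 := by positivity
    nlinarith
  have h8 : HitUp l (l + 2 * ρ) (256 * ρ ^ 2) s ≤ 1 / 2 := by
    have h9 : (s.1 : ℝ) - l ≤ ρ := by
      have : (s.1 : ℝ) ≤ l + ρ := by exact_mod_cast hs
      linarith
    nlinarith
  linarith

/-! ### The end -/

theorem Hit_iter (hW : St_Win) {ρ M : ℕ} (hρ : 1 ≤ ρ) (hlog : Nat.log 2 ((M + 2) * ρ + 1) ≤ ρ) :
    ∀ i : ℕ, i ≤ M → ∀ s : ℕ × ℤ, s.1 ≤ i * ρ → (1 / 4 : ℝ) ^ i ≤ hh 0 (i * (256 * ρ ^ 2)) s := by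
  intro i
  induction i with
  | zero =>
    intro _ s hs
    rw [Hit_hh_one _ (by omega)]
    norm_num
  | succ i ih =>
    intro hi s hs
    have h1 : Nat.log 2 (i * ρ + 2 * ρ + 1) ≤ ρ := by
      refine (Nat.log_mono_right ?_).trans hlog
      have : i * ρ + 2 * ρ = (i + 2) * ρ := by ring
      rw [this]
      have h2 : (i + 2) * ρ ≤ (M + 2) * ρ := Nat.mul_le_mul_right _ (by omega)
      omega
    have h2 := Hit_stage hW hρ h1 (s := s) (by
      have : (i + 1) * ρ = i * ρ + ρ := by ring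
      omega)
    have h3 := Hit_markov (Nat.zero_le (i * ρ)) (i * (256 * ρ ^ 2)) (b := (1 / 4 : ℝ) ^ i)
      (fun t ht => ih (by omega) t ht) (256 * ρ ^ 2) s
    have e : (i + 1) * (256 * ρ ^ 2) = 256 * ρ ^ 2 + i * (256 * ρ ^ 2) := by ring
    rw [e]
    refine le_trans ?_ h3
    rw [pow_succ, mul_comm]
    exact mul_le_mul_of_nonneg_right h2 (by positivity)

theorem Hit_sq_lt : ∀ n : ℕ, n * n < 2 ^ (n + 1) := by
  intro n
  induction n with
  | zero => norm_num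
  | succ n ih =>
    rcases Nat.lt_or_ge n 3 with h | h
    · interval_cases n <;> norm_num
    · rw [pow_succ]
      nlinarith

theorem thm_Hit (hW : St_Win) : St_Hit := by
  intro K
  obtain ⟨M, hM⟩ : ∃ M, M = 1024 * K + 1 := ⟨_, rfl⟩
  refine ⟨(1 / 4 : ℝ) ^ M, by positivity, 256 * M * (M + 3) ^ 2, ?_⟩
  intro n j hn hj e
  obtain ⟨ρ, hρdef⟩ : ∃ ρ, ρ = Nat.sqrt (n / (256 * M)) := ⟨_, rfl⟩
  have hM0 : 0 < 256 * M := by omega
  have h1 : M + 3 ≤ ρ := by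
    rw [hρdef, Nat.le_sqrt', Nat.le_div_iff_mul_le hM0]
    calc (M + 3) ^ 2 * (256 * M) = 256 * M * (M + 3) ^ 2 := by ring
      _ ≤ n := hn
  have h2 : ρ ^ 2 * (256 * M) ≤ n := by
    rw [← Nat.le_div_iff_mul_le hM0, hρdef]
    exact Nat.sqrt_le' _
  have h3 : n < (ρ + 1) ^ 2 * (256 * M) := by
    rw [← Nat.div_lt_iff_lt_mul hM0, hρdef]
    exact Nat.lt_succ_sqrt' _
  have hlog : Nat.log 2 ((M + 2) * ρ + 1) ≤ ρ := by
    have h4 : (M + 2) * ρ + 1 < 2 ^ (ρ + 1) := by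
      have h5 := Hit_sq_lt ρ
      nlinarith
    have h5 := Nat.log_lt_of_lt_pow (by omega) h4
    omega
  have hjρ : j ≤ M * ρ := by
    by_contra hc
    push Not at hc
    have h4 : (M * ρ) ^ 2 < j ^ 2 := Nat.pow_lt_pow_left hc (by norm_num)
    have h5 : (ρ + 1) ^ 2 ≤ 4 * ρ ^ 2 := by nlinarith
    have h6 : K * n ≤ K * ((ρ + 1) ^ 2 * (256 * M)) := Nat.mul_le_mul_left _ h3.le
    have h7 : K * ((ρ + 1) ^ 2 * (256 * M)) ≤ K * (4 * ρ ^ 2 * (256 * M)) :=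
      Nat.mul_le_mul_left _ (Nat.mul_le_mul_right _ h5)
    have h8 : K * (4 * ρ ^ 2 * (256 * M)) = (1024 * K) * (M * ρ ^ 2) := by ring
    have h9 : (M * ρ) ^ 2 = M * (M * ρ ^ 2) := by ring
    have h10 : (1024 * K) * (M * ρ ^ 2) ≤ M * (M * ρ ^ 2) := Nat.mul_le_mul_right _ (by omega)
    omega
  have h4 := Hit_iter hW (by omega : 1 ≤ ρ) hlog M le_rfl (j, e) hjρ
  refine h4.trans (Hit_hh_mono 0 (j, e) ?_)
  calc M * (256 * ρ ^ 2) = ρ ^ 2 * (256 * M) := by ring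
    _ ≤ n := h2

end Pool.Agent.CPR
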