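import Mathlib
import Pool.Agent.CPR.St
import Pool.Agent.Collatz3.PRRes

set_option autoImplicit false

/-!
# CPR, module NonHit: few integers are not hit by good blocks
-/

namespace Pool.Agent.CPR

open Finset Filter
open Pool.Agent.Collatz3 (cw)
open Pool.Agent.Collatz3.Mix (words)
open Pool.Agent.Collatz3.PD (rd en Fw II P Per)
open Pool.Agent.Collatz3.FW (Hit)

theorem NonHit_num : ∀ᶠ k : ℕ in atTop,
    3 * (2 ^ (3 * k) / (2 * (k : ℝ) ^ 7) + 1 / 2 + 2 ^ (7 * k / 3)) ≤ 2 ^ (3 * k) / (k : ℝ) ^ 6 := by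
  have h1 := tendsto_pow_const_div_const_pow_of_one_lt 6 (r := (40 / 27 : ℝ)) (by norm_num)
  have h2 : ∀ᶠ k : ℕ in atTop, (k : ℝ) ^ 6 / (40 / 27 : ℝ) ^ k < 1 / 12 :=
    h1.eventually_lt_const (by norm_num)
  filter_upwards [h2, eventually_ge_atTop 3] with k hk hk3
  have hk3' : (3 : ℝ) ≤ k := by exact_mod_cast hk3
  have hk0 : (0 : ℝ) < k := by linarith
  have hr : (0 : ℝ) < (40 / 27 : ℝ) ^ k := by positivity
  rw [div_lt_iff₀ hr] at hk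
  have h3 : (2 : ℝ) ^ (7 * k / 3) ≤ (27 / 5) ^ k := by
    have h4 : ((2 : ℝ) ^ (7 * k / 3)) ^ 3 ≤ ((27 / 5 : ℝ) ^ k) ^ 3 := by
      rw [← pow_mul, ← pow_mul, mul_comm k 3, pow_mul (27 / 5 : ℝ) 3 k]
      have h5 : 7 * k / 3 * 3 ≤ 7 * k := Nat.div_mul_le_self _ _
      calc (2 : ℝ) ^ (7 * k / 3 * 3) ≤ 2 ^ (7 * k) := pow_le_pow_right₀ (by norm_num) h5
        _ = (2 ^ 7) ^ k := by rw [pow_mul]
        _ ≤ ((27 / 5) ^ 3) ^ k := pow_le_pow_left₀ (by norm_num) (by norm_num) k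
    exact (pow_le_pow_iff_left₀ (by positivity) (by positivity) (by norm_num)).mp h4
  have h6 : (2 : ℝ) ^ (3 * k) = (27 / 5) ^ k * (40 / 27) ^ k := by
    rw [← mul_pow, pow_mul]
    norm_num
  have h7 : 12 * (k : ℝ) ^ 6 * 2 ^ (7 * k / 3) ≤ 2 ^ (3 * k) := by
    rw [h6]
    have h8 : 12 * (k : ℝ) ^ 6 ≤ (40 / 27) ^ k := by linarith
    calc 12 * (k : ℝ) ^ 6 * 2 ^ (7 * k / 3) ≤ (40 / 27) ^ k * (27 / 5) ^ k :=
          mul_le_mul h8 h3 (by positivity) (by positivity)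
      _ = (27 / 5) ^ k * (40 / 27) ^ k := by ring
  have h9 : (1 : ℝ) ≤ 2 ^ (7 * k / 3) := one_le_pow₀ (by norm_num)
  have hk6 : (0 : ℝ) < (k : ℝ) ^ 6 := by positivity
  have h10 : 3 * ((2 : ℝ) ^ (3 * k) / (2 * (k : ℝ) ^ 7)) ≤ 2 ^ (3 * k) / (2 * (k : ℝ) ^ 6) := by
    rw [← mul_div_assoc, div_le_div_iff₀ (by positivity) (by positivity)]
    have h11 : (3 : ℝ) * (k : ℝ) ^ 6 ≤ (k : ℝ) ^ 7 := by
      rw [pow_succ (k : ℝ) 6]
      nlinarith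
    have h12 : (0 : ℝ) < 2 ^ (3 * k) := by positivity
    nlinarith
  have h13 : 3 * (1 / 2 + (2 : ℝ) ^ (7 * k / 3)) ≤ 2 ^ (3 * k) / (2 * (k : ℝ) ^ 6) := by
    rw [le_div_iff₀ (by positivity)]
    have h14 : 3 * (1 / 2 + (2 : ℝ) ^ (7 * k / 3)) ≤ 6 * 2 ^ (7 * k / 3) := by linarith
    calc 3 * (1 / 2 + (2 : ℝ) ^ (7 * k / 3)) * (2 * (k : ℝ) ^ 6) ≤
        6 * 2 ^ (7 * k / 3) * (2 * (k : ℝ) ^ 6) := mul_le_mul_of_nonneg_right h14 (by positivity)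
      _ = 12 * (k : ℝ) ^ 6 * 2 ^ (7 * k / 3) := by ring
      _ ≤ 2 ^ (3 * k) := h7
  have h15 : (2 : ℝ) ^ (3 * k) / (k : ℝ) ^ 6 =
      2 ^ (3 * k) / (2 * (k : ℝ) ^ 6) + 2 ^ (3 * k) / (2 * (k : ℝ) ^ 6) := by
    field_simp
    ring
  rw [h15]
  linarith

open Classical in
/-- The number of the odd classes modulo `2 ^ (3 k)` which are not hit. -/
theorem NonHit_count {J k : ℕ} (hJ : 3 ≤ J) (hk : 1 ≤ k) (hP : 1 - 1 / (k : ℝ) ^ 7 ≤ P (Gs J k)) :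
    ∑ x ∈ range (2 ^ (3 * k)), (if ((x : ℕ) : ℤ) % 2 = 1 ∧
      ¬ Hit (Gs J k) (fun _ => Set.univ) ((x : ℕ) : ℤ) then (1 : ℝ) else 0) ≤
      2 ^ (3 * k) / (2 * (k : ℝ) ^ 7) + 1 / 2 + 2 ^ (7 * k / 3) := by
  have hk0 : (0 : ℝ) < k := by exact_mod_cast hk
  have h1 := Collatz3.FW.hit_count (Or.inl rfl : (1 : ℤ) = 1 ∨ (1 : ℤ) = -1) hk (Gs_subset J k)
    ((2 : ℝ) ^ (3 * k))
  have h2 : (((Collatz3.FW.Od 1 ((2 : ℝ) ^ (3 * k))).filter fun n =>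
      Hit (Gs J k) (fun _ => Set.univ) n).card : ℝ) +
      (((Collatz3.FW.Od 1 ((2 : ℝ) ^ (3 * k))).filter fun n =>
      ¬ Hit (Gs J k) (fun _ => Set.univ) n).card : ℝ) = Collatz3.FW.oc ((2 : ℝ) ^ (3 * k)) := by
    rw [← Collatz3.FW.card_Od (Or.inl rfl : (1 : ℤ) = 1 ∨ (1 : ℤ) = -1) ((2 : ℝ) ^ (3 * k)),
      ← card_filter_add_card_filter_not (s := Collatz3.FW.Od 1 ((2 : ℝ) ^ (3 * k)))
      (fun n => Hit (Gs J k) (fun _ => Set.univ) n), Nat.cast_add]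
  have h3 : (Collatz3.FW.oc ((2 : ℝ) ^ (3 * k)) : ℝ) ≤ ((2 : ℝ) ^ (3 * k) + 1) / 2 :=
    Collatz3.FW.oc_le (by positivity)
  have h4 : ((Gs J k).card : ℝ) ≤ 2 ^ (7 * k / 3) := by
    apply Collatz3.FW.card_words_le (Gs_subset J k)
    intro w hw
    unfold Gs at hw
    rw [mem_filter] at hw
    obtain ⟨-, -, h5, -⟩ := hw
    rw [Nat.le_div_iff_mul_le (by norm_num)]
    have h6 : J * (w.sum * 3) ≤ J * (7 * k) := by
      calc J * (w.sum * 3) = 3 * (J * w.sum) := by ring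
        _ ≤ 3 * (2 * J * k + k) := Nat.mul_le_mul_left 3 h5
        _ = 6 * (J * k) + 3 * k := by ring
        _ ≤ 6 * (J * k) + J * k := by
            have := Nat.mul_le_mul_right k hJ
            omega
        _ = J * (7 * k) := by ring
    exact Nat.le_of_mul_le_mul_left h6 (by omega)
  have h5 : ∑ x ∈ range (2 ^ (3 * k)), (if ((x : ℕ) : ℤ) % 2 = 1 ∧
      ¬ Hit (Gs J k) (fun _ => Set.univ) ((x : ℕ) : ℤ) then (1 : ℝ) else 0) ≤
      (((Collatz3.FW.Od 1 ((2 : ℝ) ^ (3 * k))).filter fun n =>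
      ¬ Hit (Gs J k) (fun _ => Set.univ) n).card : ℝ) := by
    rw [← sum_filter, sum_const, nsmul_eq_mul, mul_one]
    have h6 : ((range (2 ^ (3 * k))).filter fun x : ℕ => ((x : ℕ) : ℤ) % 2 = 1 ∧
        ¬ Hit (Gs J k) (fun _ => Set.univ) ((x : ℕ) : ℤ)).card ≤
        ((Collatz3.FW.Od 1 ((2 : ℝ) ^ (3 * k))).filter fun n =>
      ¬ Hit (Gs J k) (fun _ => Set.univ) n).card := by
      apply card_le_card_of_injOn (fun x : ℕ => (x : ℤ))
      · intro x hx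
        rw [mem_coe, mem_filter, mem_range] at hx
        rw [mem_coe, mem_filter, Collatz3.FW.mem_Od (Or.inl rfl)]
        obtain ⟨hx1, hx2, hx3⟩ := hx
        refine ⟨⟨hx2, ?_, ?_⟩, hx3⟩
        · have : (0 : ℤ) ≤ (x : ℤ) := Int.natCast_nonneg x
          have h7 : (x : ℤ) ≠ 0 := by
            intro h8
            rw [h8] at hx2
            norm_num at hx2
          show 0 < 1 * (x : ℤ)
          omega
        · have h7 : (x : ℝ) ≤ (2 : ℝ) ^ (3 * k) := by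
            have : (x : ℝ) ≤ ((2 ^ (3 * k) : ℕ) : ℝ) := by exact_mod_cast hx1.le
            push_cast at this
            exact this
          show ((1 * (x : ℤ) : ℤ) : ℝ) ≤ 2 ^ (3 * k)
          push_cast
          rw [one_mul]
          exact h7
      · intro x _ y _ hxy
        have h7 : (x : ℤ) = (y : ℤ) := hxy
        exact_mod_cast h7
    exact_mod_cast h6
  have h6 : (2 : ℝ) ^ (3 * k) / 2 * (1 - P (Gs J k)) ≤ 2 ^ (3 * k) / (2 * (k : ℝ) ^ 7) := by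
    have h7 : 1 - P (Gs J k) ≤ 1 / (k : ℝ) ^ 7 := by linarith
    calc (2 : ℝ) ^ (3 * k) / 2 * (1 - P (Gs J k)) ≤ 2 ^ (3 * k) / 2 * (1 / (k : ℝ) ^ 7) :=
          mul_le_mul_of_nonneg_left h7 (by positivity)
      _ = 2 ^ (3 * k) / (2 * (k : ℝ) ^ 7) := by
          rw [div_mul_div_comm, mul_one]
  have h7 : (2 : ℝ) ^ (3 * k) / 2 * (1 - P (Gs J k)) =
      2 ^ (3 * k) / 2 - 2 ^ (3 * k) / 2 * P (Gs J k) := by ring
  rw [h7] at h6
  linarith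

open Classical in
theorem thm_NonHit (hM : St_Mix2) (hG : St_Gs) : St_NonHit := by
  intro J hJ
  filter_upwards [hG J hJ, NonHit_num, eventually_ge_atTop 3] with k hP hnum hk3
  intro σ hσ κ f hf hf0 α L hL
  have hk0 : (0 : ℝ) < k := by
    have : (3 : ℝ) ≤ k := by exact_mod_cast hk3
    linarith
  have hcnt := NonHit_count hJ (by omega) hP
  have h2M : (0 : ℝ) < 2 ^ (3 * k) := by positivity
  have h3κ : (0 : ℝ) < 3 ^ κ := by positivity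
  have hL1 : (1 : ℝ) ≤ L := by
    have h1 : (1 : ℝ) ≤ 2 ^ (3 * k) := one_le_pow₀ (by norm_num)
    have h2 : (1 : ℝ) ≤ 3 ^ κ := one_le_pow₀ (by norm_num)
    nlinarith
  have hsum : ∀ w ∈ Gs J k, w.sum + 1 ≤ 3 * k := by
    intro w hw
    unfold Gs at hw
    rw [mem_filter] at hw
    obtain ⟨-, -, h5, -⟩ := hw
    have h6 : J * (w.sum * 3) ≤ J * (7 * k) := by
      calc J * (w.sum * 3) = 3 * (J * w.sum) := by ring
        _ ≤ 3 * (2 * J * k + k) := Nat.mul_le_mul_left 3 h5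
        _ = 6 * (J * k) + 3 * k := by ring
        _ ≤ 6 * (J * k) + J * k := by
            have := Nat.mul_le_mul_right k hJ
            omega
        _ = J * (7 * k) := by ring
    have h7 := Nat.le_of_mul_le_mul_left h6 (by omega)
    omega
  set g : ℤ → ℝ := fun n => if n % 2 = 1 ∧ ¬ Hit (Gs J k) (fun _ => Set.univ) n then (1 : ℝ) else 0
    with hg
  have hg0 : ∀ x, 0 ≤ g x := by
    intro x
    rw [hg]
    show 0 ≤ (if x % 2 = 1 ∧ ¬ Hit (Gs J k) (fun _ => Set.univ) x then (1 : ℝ) else 0)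
    split_ifs <;> norm_num
  have hper : ∀ x t : ℤ, g (x + 2 ^ (3 * k) * t) = g x := by
    intro x t
    have hm1 : (2 : ℤ) ∣ 2 ^ (3 * k) := dvd_pow_self 2 (by omega)
    have h1 : (x + 2 ^ (3 * k) * t) % 2 = x % 2 := by
      obtain ⟨c, hc⟩ := hm1
      rw [hc]
      have : x + 2 * c * t = x + 2 * (c * t) := by ring
      rw [this]
      omega
    have h2 : Hit (Gs J k) (fun _ => Set.univ) (x + 2 ^ (3 * k) * t) ↔
        Hit (Gs J k) (fun _ => Set.univ) x := by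
      constructor
      · intro h
        refine Collatz3.PR.Res_per hsum ?_ h
        exact ⟨-t, by ring⟩
      · intro h
        refine Collatz3.PR.Res_per hsum ?_ h
        exact ⟨t, by ring⟩
    rw [hg]
    show (if (x + 2 ^ (3 * k) * t) % 2 = 1 ∧ ¬ Hit (Gs J k) (fun _ => Set.univ)
      (x + 2 ^ (3 * k) * t) then (1 : ℝ) else 0) = if x % 2 = 1 ∧
      ¬ Hit (Gs J k) (fun _ => Set.univ) x then (1 : ℝ) else 0
    simp only [h1, h2]
  obtain ⟨a, L', hL', hcov⟩ : ∃ (a : ℤ) (L' : ℕ), (L' : ℝ) ≤ L + 1 ∧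
      ∀ n ∈ Ob σ α (α + L), ∃ i ∈ range L', n = a + (i : ℤ) := by
    have hfl : ((⌊α + L⌋ - ⌊α⌋ : ℤ) : ℝ) ≤ L + 1 := by
      push_cast
      have h5 := Int.floor_le (α + L)
      have h6 := Int.lt_floor_add_one α
      linarith
    have hnn : 0 ≤ ⌊α + L⌋ - ⌊α⌋ := sub_nonneg.2 (Int.floor_le_floor (by linarith))
    have hcast : (((⌊α + L⌋ - ⌊α⌋).toNat : ℕ) : ℤ) = ⌊α + L⌋ - ⌊α⌋ := Int.toNat_of_nonneg hnn
    have hcast' : (((⌊α + L⌋ - ⌊α⌋).toNat : ℕ) : ℝ) = ((⌊α + L⌋ - ⌊α⌋ : ℤ) : ℝ) := by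
      exact_mod_cast hcast
    rcases hσ with h | h
    · refine ⟨⌊α⌋ + 1, (⌊α + L⌋ - ⌊α⌋).toNat, by rw [hcast']; exact hfl, ?_⟩
      intro n hn
      rw [mem_Ob (Or.inl h), h, one_mul] at hn
      obtain ⟨-, h2, h3⟩ := hn
      have h2' : ⌊α⌋ < n := Int.floor_lt.2 h2
      have h3' : n ≤ ⌊α + L⌋ := Int.le_floor.2 h3
      refine ⟨(n - (⌊α⌋ + 1)).toNat, ?_, ?_⟩
      · rw [mem_range]
        omega
      · omega
    · refine ⟨-⌊α + L⌋, (⌊α + L⌋ - ⌊α⌋).toNat, by rw [hcast']; exact hfl, ?_⟩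
      intro n hn
      rw [mem_Ob (Or.inr h), h] at hn
      obtain ⟨-, h2, h3⟩ := hn
      have h2' : ⌊α⌋ < -1 * n := Int.floor_lt.2 h2
      have h3' : -1 * n ≤ ⌊α + L⌋ := Int.le_floor.2 h3
      refine ⟨(n + ⌊α + L⌋).toNat, ?_, ?_⟩
      · rw [mem_range]
        omega
      · omega
  have hS := hM (3 * k) κ f g hf hper hf0 hg0 a L'
  have hfg0 : ∀ x, 0 ≤ f x * g x := fun x => mul_nonneg (hf0 x) (hg0 x)
  have h1 : ∑ n ∈ (Ob σ α (α + L)).filter (fun n => ¬ Hit (Gs J k) (fun _ => Set.univ) n), f n ≤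
      ∑ i ∈ range L', f (a + i) * g (a + i) := by
    have h2 : ∑ n ∈ (Ob σ α (α + L)).filter (fun n => ¬ Hit (Gs J k) (fun _ => Set.univ) n),
        f n = ∑ n ∈ (Ob σ α (α + L)).filter (fun n => ¬ Hit (Gs J k) (fun _ => Set.univ) n),
        f n * g n := by
      apply sum_congr rfl
      intro n hn
      rw [mem_filter, mem_Ob hσ] at hn
      have h3 : g n = 1 := by
        rw [hg]
        show (if n % 2 = 1 ∧ ¬ Hit (Gs J k) (fun _ => Set.univ) n then (1 : ℝ) else 0) = 1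
        rw [if_pos ⟨hn.1.1, hn.2⟩]
      rw [h3, mul_one]
    rw [h2]
    have h3 : ∑ i ∈ range L', f (a + i) * g (a + i) =
        ∑ n ∈ (range L').image (fun i : ℕ => a + (i : ℤ)), f n * g n := by
      rw [sum_image]
      intro x _ y _ hxy
      have : a + (x : ℤ) = a + (y : ℤ) := hxy
      omega
    rw [h3]
    apply sum_le_sum_of_subset_of_nonneg
    · intro n hn
      rw [mem_filter] at hn
      obtain ⟨i, hi, hi2⟩ := hcov n hn.1
      rw [mem_image]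
      exact ⟨i, hi, hi2.symm⟩
    · intro n _ _
      exact hfg0 n
  refine h1.trans (hS.trans ?_)
  have hF0 : 0 ≤ ∑ x ∈ range (3 ^ κ), f (x : ℤ) := sum_nonneg fun x _ => hf0 _
  have hG0 : 0 ≤ ∑ x ∈ range (2 ^ (3 * k)), g (x : ℤ) := sum_nonneg fun x _ => hg0 _
  have h4 : (L' : ℝ) / (2 ^ (3 * k) * 3 ^ κ) + 1 ≤ 3 * L / (2 ^ (3 * k) * 3 ^ κ) := by
    rw [div_add_one (by positivity), div_le_div_iff_of_pos_right (by positivity)]
    linarith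
  have h5 : ∑ x ∈ range (2 ^ (3 * k)), g (x : ℤ) ≤ 2 ^ (3 * k) / (3 * (k : ℝ) ^ 6) := by
    refine hcnt.trans ?_
    have h6 : (2 : ℝ) ^ (3 * k) / (3 * (k : ℝ) ^ 6) = 2 ^ (3 * k) / (k : ℝ) ^ 6 / 3 := by
      rw [div_div, mul_comm (3 : ℝ)]
    rw [h6]
    linarith
  calc ((L' : ℝ) / (2 ^ (3 * k) * 3 ^ κ) + 1) *
        ((∑ x ∈ range (3 ^ κ), f (x : ℤ)) * ∑ x ∈ range (2 ^ (3 * k)), g (x : ℤ))
      ≤ (3 * L / (2 ^ (3 * k) * 3 ^ κ)) *
        ((∑ x ∈ range (3 ^ κ), f (x : ℤ)) * (2 ^ (3 * k) / (3 * (k : ℝ) ^ 6))) := by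
        apply mul_le_mul h4 _ (mul_nonneg hF0 hG0) (by positivity)
        exact mul_le_mul_of_nonneg_left h5 hF0
    _ = L / (3 ^ κ * (k : ℝ) ^ 6) * ∑ x ∈ range (3 ^ κ), f (x : ℤ) := by
        field_simp

end Pool.Agent.CPR
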