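import Pool.Agent.CPR.St

set_option autoImplicit false

/-!
# CPR, module Per (helper29): values, periods and sums of the indicators `wh`, `wc`
-/

namespace Pool.Agent.CPR

open Finset
open Pool.Agent.Helper86.CollatzChain (s0 s1 u w vv)

theorem Per_split (F : ℤ → ℝ) (N : ℕ) :
    ∑ i ∈ range (2 ^ (N + 1)), F i =
      ∑ i ∈ range (2 ^ N), F ((2 * i : ℕ) : ℤ) + ∑ i ∈ range (2 ^ N), F ((2 * i + 1 : ℕ) : ℤ) := by
  rw [pow_succ]
  induction (2 ^ N) with
  | zero => simp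
  | succ m ihm =>
    have h1 : (m + 1) * 2 = m * 2 + 1 + 1 := by ring
    rw [h1, Finset.sum_range_succ, Finset.sum_range_succ, ihm, Finset.sum_range_succ,
      Finset.sum_range_succ, mul_comm m 2]
    ring

theorem Per_even (t : ℤ) : (2 * t) % 2 = 0 ∧ 2 * t / 2 = t := by omega

theorem Per_odd (t : ℤ) : ¬ ((2 * t + 1) % 2 = 0) ∧ (3 * (2 * t + 1) + 1) / 2 = 3 * t + 2 := by
  omega

/-- the step of the period -/
theorem Per_step {n : ℕ} {F G0 G1 : ℤ → ℝ} (hG0 : ∀ x, G0 (x + (2 ^ n : ℕ)) = G0 x)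
    (hG1 : ∀ x, G1 (x + (2 ^ n : ℕ)) = G1 x) (h0 : ∀ t, F (2 * t) = G0 t)
    (h1 : ∀ t, F (2 * t + 1) = G1 (3 * t + 2)) (x : ℤ) :
    F (x + (2 ^ (n + 1) : ℕ)) = F x := by
  have hpow : ((2 ^ (n + 1) : ℕ) : ℤ) = 2 * ((2 ^ n : ℕ) : ℤ) := by push_cast; ring
  rw [hpow]
  rcases Int.even_or_odd' x with ⟨t, rfl | rfl⟩
  · have e1 : 2 * t + 2 * ((2 ^ n : ℕ) : ℤ) = 2 * (t + (2 ^ n : ℕ)) := by ring
    rw [e1, h0, h0, hG0]
  · have e1 : 2 * t + 1 + 2 * ((2 ^ n : ℕ) : ℤ) = 2 * (t + (2 ^ n : ℕ)) + 1 := by ring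
    have e2 : 3 * (t + ((2 ^ n : ℕ) : ℤ)) + 2 =
        3 * t + 2 + (2 ^ n : ℕ) + (2 ^ n : ℕ) + (2 ^ n : ℕ) := by ring
    rw [e1, h1, h1, e2, hG1, hG1, hG1]

/-- the step of the sum -/
theorem Per_sum {n : ℕ} {F G0 G1 : ℤ → ℝ} {a b : ℝ}
    (hG1 : ∀ x, G1 (x + (2 ^ n : ℕ)) = G1 x) (h0 : ∀ t, F (2 * t) = G0 t)
    (h1 : ∀ t, F (2 * t + 1) = G1 (3 * t + 2)) (ha : ∑ i ∈ range (2 ^ n), G0 i = 2 ^ n * a)
    (hb : ∑ i ∈ range (2 ^ n), G1 i = 2 ^ n * b) :
    ∑ i ∈ range (2 ^ (n + 1)), F i = 2 ^ (n + 1) * ((a + b) / 2) := by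
  have : NeZero (2 ^ n) := ⟨by positivity⟩
  have hunit : IsUnit (((3 : ℤ)) : ZMod (2 ^ n)) := by
    have h3 : IsUnit ((3 : ℕ) : ZMod (2 ^ n)) := by
      rw [ZMod.isUnit_iff_coprime]
      exact Nat.Coprime.pow_right n (by norm_num)
    exact_mod_cast h3
  have e0 : ∑ i ∈ range (2 ^ n), F ((2 * i : ℕ) : ℤ) = 2 ^ n * a := by
    rw [← ha]
    apply sum_congr rfl
    intro i _
    push_cast
    rw [h0]
  have e1 : ∑ i ∈ range (2 ^ n), F ((2 * i + 1 : ℕ) : ℤ) = 2 ^ n * b := by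
    rw [← hb, ← Pool.Agent.Helper86.CollatzChain.sum_affine hG1 3 2 hunit]
    apply sum_congr rfl
    intro i _
    push_cast
    rw [h1]
  rw [Per_split, e0, e1, pow_succ]
  ring

theorem Per_const (n : ℕ) (F : ℤ → ℝ) (c : ℝ) (h : ∀ x, F x = c) :
    ∑ i ∈ range (2 ^ n), F i = 2 ^ n * c := by
  rw [sum_congr rfl (fun i _ => h _), sum_const, card_range, nsmul_eq_mul]
  push_cast
  ring

theorem Per_wh_zero {s : ℕ × ℤ} (hs : s.1 = 0) (n : ℕ) (x : ℤ) : wh n s x = 1 := by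
  cases n <;> simp [wh, hs]

theorem Per_hh_zero {s : ℕ × ℤ} (hs : s.1 = 0) (n : ℕ) : hh 0 n s = 1 := by
  cases n <;> simp [hh, hs]

theorem Per_wh_even {s : ℕ × ℤ} (hs : s.1 ≠ 0) (n : ℕ) (t : ℤ) :
    wh (n + 1) s (2 * t) = wh n (s0 s) t := by
  have := Per_even t
  simp only [wh, hs, if_false, this.1, this.2, if_true]

theorem Per_wh_odd {s : ℕ × ℤ} (hs : s.1 ≠ 0) (n : ℕ) (t : ℤ) :
    wh (n + 1) s (2 * t + 1) = wh n (s1 s) (3 * t + 2) := by
  have := Per_odd t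
  simp only [wh, hs, if_false, this.1, this.2]

theorem Per_wh (n : ℕ) : ∀ s : ℕ × ℤ, (∀ x, wh n s x = 0 ∨ wh n s x = 1) ∧
    (∀ x, wh n s (x + (2 ^ n : ℕ)) = wh n s x) ∧
    ∑ i ∈ range (2 ^ n), wh n s i = 2 ^ n * hh 0 n s := by
  induction n with
  | zero =>
    intro s
    refine ⟨?_, ?_, ?_⟩
    · intro x
      simp only [wh]
      split_ifs
      · exact Or.inr rfl
      · exact Or.inl rfl
    · intro x
      simp only [wh]
    · by_cases hs : s.1 = 0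
      · simp [wh, hh, hs]
      · simp [wh, hh, hs]
  | succ n ih =>
    intro s
    by_cases hs : s.1 = 0
    · refine ⟨fun x => Or.inr (Per_wh_zero hs _ _), ?_, ?_⟩
      · intro x
        rw [Per_wh_zero hs, Per_wh_zero hs]
      · rw [Per_hh_zero hs]
        exact Per_const _ _ _ (Per_wh_zero hs _)
    · refine ⟨?_, ?_, ?_⟩
      · intro x
        rcases Int.even_or_odd' x with ⟨t, rfl | rfl⟩
        · rw [Per_wh_even hs]
          exact (ih _).1 _
        · rw [Per_wh_odd hs]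
          exact (ih _).1 _
      · exact Per_step (ih (s0 s)).2.1 (ih (s1 s)).2.1 (Per_wh_even hs n) (Per_wh_odd hs n)
      · have h : hh 0 (n + 1) s = (hh 0 n (s0 s) + hh 0 n (s1 s)) / 2 := by
          simp only [hh, Nat.le_zero, hs, if_false]
        rw [h]
        exact Per_sum (ih (s1 s)).2.1 (Per_wh_even hs n) (Per_wh_odd hs n) (ih (s0 s)).2.2
          (ih (s1 s)).2.2

theorem Per_wc_zero {s : ℕ × ℤ} (hs : s.1 = 0) (n m : ℕ) (x : ℤ) :
    wc n m s x = w (n + m) s x := by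
  cases n <;> simp [wc, hs]

theorem Per_cr_zero {s : ℕ × ℤ} (hs : s.1 = 0) (n m : ℕ) : cr n m s = u (n + m) s := by
  cases n <;> simp [cr, hs]

theorem Per_wc_even {s : ℕ × ℤ} (hs : s.1 ≠ 0) (n m : ℕ) (t : ℤ) :
    wc (n + 1) m s (2 * t) = wc n m (s0 s) t := by
  have := Per_even t
  simp only [wc, hs, if_false, this.1, this.2, if_true]

theorem Per_wc_odd {s : ℕ × ℤ} (hs : s.1 ≠ 0) (n m : ℕ) (t : ℤ) :
    wc (n + 1) m s (2 * t + 1) = wc n m (s1 s) (3 * t + 2) := by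
  have := Per_odd t
  simp only [wc, hs, if_false, this.1, this.2]

theorem Per_wc (m n : ℕ) : ∀ s : ℕ × ℤ, (∀ x, wc n m s x = 0 ∨ wc n m s x = 1) ∧
    (∀ x, wc n m s (x + (2 ^ (n + m) : ℕ)) = wc n m s x) ∧
    ∑ i ∈ range (2 ^ (n + m)), wc n m s i = 2 ^ (n + m) * cr n m s := by
  induction n with
  | zero =>
    intro s
    by_cases hs : s.1 = 0
    · refine ⟨?_, ?_, ?_⟩
      · intro x
        rw [Per_wc_zero hs]
        exact Pool.Agent.Helper86.CollatzChain.w_zero_or_one _ _ _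
      · intro x
        rw [Per_wc_zero hs, Per_wc_zero hs]
        exact Pool.Agent.Helper86.CollatzChain.w_periodic _ _ _
      · rw [Per_cr_zero hs, ← Pool.Agent.Helper86.CollatzChain.sum_w]
        apply sum_congr rfl
        intro i _
        rw [Per_wc_zero hs]
    · refine ⟨?_, ?_, ?_⟩
      · intro x
        exact Or.inl (by simp [wc, hs])
      · intro x
        simp [wc, hs]
      · simp [wc, cr, hs]
  | succ n ih =>
    intro s
    have hnm : n + 1 + m = n + m + 1 := by omega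
    by_cases hs : s.1 = 0
    · refine ⟨?_, ?_, ?_⟩
      · intro x
        rw [Per_wc_zero hs]
        exact Pool.Agent.Helper86.CollatzChain.w_zero_or_one _ _ _
      · intro x
        rw [Per_wc_zero hs, Per_wc_zero hs]
        exact Pool.Agent.Helper86.CollatzChain.w_periodic _ _ _
      · rw [Per_cr_zero hs, ← Pool.Agent.Helper86.CollatzChain.sum_w]
        apply sum_congr rfl
        intro i _
        rw [Per_wc_zero hs]
    · rw [hnm]
      refine ⟨?_, ?_, ?_⟩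
      · intro x
        rcases Int.even_or_odd' x with ⟨t, rfl | rfl⟩
        · rw [Per_wc_even hs]
          exact (ih _).1 _
        · rw [Per_wc_odd hs]
          exact (ih _).1 _
      · exact Per_step (ih (s0 s)).2.1 (ih (s1 s)).2.1 (Per_wc_even hs n m) (Per_wc_odd hs n m)
      · have h : cr (n + 1) m s = (cr n m (s0 s) + cr n m (s1 s)) / 2 := by
          simp only [cr, hs, if_false]
        rw [h]
        exact Per_sum (ih (s1 s)).2.1 (Per_wc_even hs n m) (Per_wc_odd hs n m) (ih (s0 s)).2.2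
          (ih (s1 s)).2.2

theorem thm_Per : St_Per := by
  intro n m s
  obtain ⟨a1, a2, a3⟩ := Per_wh n s
  obtain ⟨b1, b2, b3⟩ := Per_wc m n s
  exact ⟨a1, b1, a2, b2, a3, b3⟩

end Pool.Agent.CPR
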