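import Pool.Agent.CPR.St

set_option autoImplicit false

/-!
# CPR: a positive proportion of good short intervals
-/

namespace Pool.Agent.CPR

open Finset Filter
open Pool.Agent.Collatz3.DN (EvInv)

private theorem Pers_K (C₀ δ : ℝ) (hδ : 0 < δ) :
    ∃ K : ℕ, 1 ≤ K ∧ C₀ * Real.exp (-(K / 4)) ≤ δ / 2 := by
  obtain ⟨n, hn⟩ := exists_nat_ge (8 * C₀ / δ)
  refine ⟨n + 1, Nat.le_add_left 1 n, ?_⟩
  have h1 : 8 * C₀ / δ ≤ ((n + 1 : ℕ) : ℝ) := by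
    push_cast
    linarith
  have h2 : (((n + 1 : ℕ) : ℝ) / 4) + 1 ≤ Real.exp (((n + 1 : ℕ) : ℝ) / 4) :=
    Real.add_one_le_exp _
  have h3 : 2 * C₀ / δ ≤ Real.exp (((n + 1 : ℕ) : ℝ) / 4) := by
    have e : 8 * C₀ / δ = 4 * (2 * C₀ / δ) := by ring
    rw [e] at h1
    linarith
  rw [Real.exp_neg, ← div_eq_mul_inv, div_le_iff₀ (Real.exp_pos _)]
  rw [div_le_iff₀ hδ] at h3
  linarith

private theorem Pers_k (J k₁ X : ℕ) (hX : 7 ≤ Nat.log 2 X) (h : k₁ ^ 4 ≤ Nat.log 2 X) :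
    ∃ k, Rel J k k₁ X := by
  have hX0 : X ≠ 0 := by
    rintro rfl
    simp at hX
  have h1 : 4 ^ k₁ ≤ ll X := by
    have h2 : (2 * k₁ : ℝ) ≤ (Nat.log 2 X : ℝ) * (3 / 10) := by
      rcases le_or_gt k₁ 1 with h3 | h3
      · have h4 : (k₁ : ℝ) ≤ 1 := by exact_mod_cast h3
        have h5 : (7 : ℝ) ≤ (Nat.log 2 X : ℝ) := by exact_mod_cast hX
        linarith
      · have h4 : 8 * k₁ ≤ k₁ ^ 4 := by
          have : 2 ^ 3 ≤ k₁ ^ 3 := Nat.pow_le_pow_left h3 3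
          calc 8 * k₁ = 2 ^ 3 * k₁ := by norm_num
            _ ≤ k₁ ^ 3 * k₁ := Nat.mul_le_mul_right _ this
            _ = k₁ ^ 4 := by ring
        have h5 : (8 * k₁ : ℝ) ≤ (Nat.log 2 X : ℝ) := by exact_mod_cast h4.trans h
        have h6 : (0 : ℝ) ≤ (k₁ : ℝ) := Nat.cast_nonneg _
        linarith
    have h7 : (2 : ℝ) ^ (Nat.log 2 X : ℝ) ≤ (X : ℝ) := by
      rw [Real.rpow_natCast]
      exact_mod_cast Nat.pow_log_le_self 2 hX0
    calc (4 : ℝ) ^ k₁ = (2 : ℝ) ^ (2 * k₁ : ℝ) := by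
          rw [Real.rpow_mul (by norm_num), Real.rpow_natCast]
          norm_num
      _ ≤ (2 : ℝ) ^ ((Nat.log 2 X : ℝ) * (3 / 10)) :=
          Real.rpow_le_rpow_of_exponent_le (by norm_num) h2
      _ = ((2 : ℝ) ^ (Nat.log 2 X : ℝ)) ^ (3 / 10 : ℝ) := by rw [Real.rpow_mul (by norm_num)]
      _ ≤ (X : ℝ) ^ (3 / 10 : ℝ) := Real.rpow_le_rpow (by positivity) h7 (by norm_num)
  have hp : (0 : ℝ) < 4 ^ k₁ := by positivity
  obtain ⟨k, hk1, hk2⟩ := exists_nat_pow_near (x := ll X / 4 ^ k₁) (y := (4 / 3 : ℝ) ^ J * 64)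
    ((one_le_div hp).2 h1) (by
      have : (1 : ℝ) ≤ (4 / 3) ^ J := one_le_pow₀ (by norm_num)
      linarith)
  exact ⟨k, (le_div_iff₀ hp).1 hk1, (div_lt_iff₀ hp).1 hk2⟩

open Classical in
/-- PERS -/
theorem thm_Pers (hE : St_Est) (hV : St_Evt) : St_Pers := by
  intro δ hδ
  obtain ⟨C₀, _, hE⟩ := hE
  obtain ⟨K, hK1, hK⟩ := Pers_K C₀ δ hδ
  obtain ⟨c, hc, hV⟩ := hV K hK1
  refine ⟨c / 2, by positivity, ?_⟩
  intro C A σ d hσ hA hD hd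
  obtain ⟨J₀, hJ₀⟩ := hE K hK1 (δ / 2 * (c * d / 2)) (by positivity)
  have e1 := hJ₀ (max 3 J₀) (le_max_right _ _) C A σ hσ hA
  have e2 := hV (max 3 J₀) (le_max_left _ _) C A σ d hσ hA hD (d / 2) (by positivity)
  have e3 : ∀ᶠ X : ℕ in atTop, 7 ≤ Nat.log 2 X := by
    filter_upwards [eventually_ge_atTop (2 ^ 7)] with X hX
    exact Nat.le_log_of_pow_le (by norm_num) hX
  filter_upwards [e1, e2, e3] with X h1 h2 h3 k₁ hk₁
  obtain ⟨k, hk⟩ := Pers_k (max 3 J₀) k₁ X h3 hk₁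
  have h2' := h2 k₁ k hk₁ hk
  refine ⟨(Ico X (2 * X)).filter (fun x =>
    Ev σ A (Nat.log 2 X / 10000) (2 * Dp K (max 3 J₀) k) (zz K (max 3 J₀) k k₁ x)),
    filter_subset _ _, ?_, ?_⟩
  · refine le_trans (le_of_eq ?_) h2'
    ring
  · intro s' hs1 hs2
    refine (h1 k₁ k s' hk₁ hk hs1 hs2).trans ?_
    have hW : (0 : ℝ) ≤ 3 ^ k₁ * ll X / 2 ^ s' := by
      have : (0 : ℝ) ≤ ll X := by
        unfold ll
        positivity
      positivity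
    set G : ℝ := (((Ico X (2 * X)).filter (fun x =>
      Ev σ A (Nat.log 2 X / 10000) (2 * Dp K (max 3 J₀) k) (zz K (max 3 J₀) k k₁ x))).card : ℝ)
      with hG
    have hG0 : 0 ≤ G := Nat.cast_nonneg _
    have h4 : C₀ * Real.exp (-(K / 4)) * G ≤ δ / 2 * G := mul_le_mul_of_nonneg_right hK hG0
    have h5 : δ / 2 * (c * d / 2) * X ≤ δ / 2 * G := by
      have : c * (d - d / 2) * X ≤ G := h2'
      have h6 : δ / 2 * (c * (d - d / 2) * X) ≤ δ / 2 * G :=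
        mul_le_mul_of_nonneg_left this (by positivity)
      refine le_trans (le_of_eq ?_) h6
      ring
    calc 3 ^ k₁ * ll X / 2 ^ s' * (C₀ * Real.exp (-(K / 4)) * G + δ / 2 * (c * d / 2) * X)
        ≤ 3 ^ k₁ * ll X / 2 ^ s' * (δ / 2 * G + δ / 2 * G) :=
          mul_le_mul_of_nonneg_left (add_le_add h4 h5) hW
      _ = δ * G * (3 ^ k₁ * ll X / 2 ^ s') := by ring

end Pool.Agent.CPR
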