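import Pool.Agent.CPR.St

set_option autoImplicit false

/-!
# CPR, module Ptw: the pointwise statement
-/

namespace Pool.Agent.CPR

open Finset Filter
open Pool.Agent.Collatz3.DN (EvInv)
open Pool.Agent.Helper14 (T)

theorem Ptw_abs {σ : ℤ} (hσ : σ = 1 ∨ σ = -1) (x : ℤ) : |σ * x| = |x| := by
  rcases hσ with rfl | rfl
  · rw [one_mul]
  · rw [neg_one_mul, abs_neg]

theorem Ptw_a1 {e o pr pk p8 p10 : ℤ} (h1 : pr ≤ pk) (h2 : o ≤ p8) (h3 : 1 ≤ p8)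
    (h4 : pk * p8 ≤ p10) (h5 : 0 ≤ pk) (h7 : 0 ≤ o) (h : e ≤ pr * (o + 1)) :
    e ≤ 2 * p10 := by
  have h8 : pr * (o + 1) ≤ pk * (p8 + p8) := mul_le_mul h1 (by linarith) (by linarith) h5
  linarith

theorem Ptw_a2 {z e y p3 p10 : ℤ} (h1 : 1 ≤ p3) (h2 : 0 ≤ z) (h3 : p3 * z ≤ y + e)
    (h4 : e ≤ 2 * p10) (h5 : 4 * p10 ≤ z) : z ≤ 2 * y := by
  have h6 : 1 * z ≤ p3 * z := mul_le_mul_of_nonneg_right h1 h2
  linarith

theorem Ptw_a3 {C p z : ℤ} (h1 : 0 ≤ C) (h2 : 1 ≤ p) (h3 : (2 * C + 2) * p ≤ z) :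
    p * C < z := by
  have h4 : 0 ≤ C * p := mul_nonneg h1 (by linarith)
  linarith

theorem Ptw_a4 {C p z y : ℤ} (h2 : 1 ≤ p) (h3 : (2 * C + 2) * p ≤ z) (h4 : z ≤ 2 * y) :
    p * C < y := by
  linarith

theorem Ptw_a5 {C p pr z p8 p10 b : ℤ} (h1 : 0 ≤ C) (h2 : 1 ≤ p) (h3 : 1 ≤ pr) (h0 : 0 ≤ z)
    (h4 : (2 * C + 2) * p ≤ z) (h5 : 4 * p10 ≤ z) (h6 : p8 ≤ p10) (h7 : pr * z - p8 ≤ b) :
    pr * C < b := by
  have h8 : (2 * C + 2) * 1 ≤ (2 * C + 2) * p := mul_le_mul_of_nonneg_left h2 (by linarith)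
  have h9 : pr * (2 * C + 2) ≤ pr * z := mul_le_mul_of_nonneg_left (by linarith) (by linarith)
  have h10 : 1 * z ≤ pr * z := mul_le_mul_of_nonneg_right h3 h0
  linarith

/-- If the position at the lower end point is close to `2 ^ r z`, one of the bad events happens. -/
theorem Ptw_core (hE : St_Extr) (hP : St_Per) {C : ℕ} {A : Set ℤ} {σ : ℤ}
    (hσ : σ = 1 ∨ σ = -1) (hA : EvInv C A) {n m D r k z : ℕ} {b : ℤ} (hr : r ≤ D) (hD : D ≤ k)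
    (hz1 : (2 * C + 2) * 2 ^ (n + m) ≤ z) (hz2 : 4 * 2 ^ (10 * k) ≤ z) (hEv : Ev σ A n D z)
    (hb : b ∉ A) (ho : |σ * b - 2 ^ r * (z : ℤ)| ≤ 2 ^ (8 * k)) :
    1 ≤ bad n m D r σ (σ * b - 2 ^ r * (z : ℤ)) z := by
  by_contra hlt
  obtain ⟨o, hoe⟩ : ∃ o : ℤ, o = σ * b - 2 ^ r * (z : ℤ) := ⟨_, rfl⟩
  rw [← hoe] at hlt ho
  have hs := sig_sq hσ
  have hbe : b = 2 ^ r * (σ * (z : ℤ)) + σ * o := by
    rw [hoe]
    linear_combination (-b) * hs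
  have hT : T^[r] b = 3 ^ pc r (σ * o) * (σ * (z : ℤ)) + T^[r] (σ * o) := by
    conv_lhs => rw [hbe]
    exact T_iter_affine r _ _
  obtain ⟨j, hj⟩ : ∃ j, j = pc r (σ * o) := ⟨_, rfl⟩
  obtain ⟨e, he⟩ : ∃ e, e = T^[r] (σ * o) := ⟨_, rfl⟩
  unfold bad at hlt
  rw [← hj, ← he] at hlt hT
  have hjD : j ≤ D := by
    rw [hj]
    exact (pc_le r _).trans hr
  -- the three terms vanish
  have h1 := (hP n m (j, e)).2.1 (σ * (z : ℤ))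
  have h2 := (hP n m (D - j, -3 ^ (D - j) * e)).2.1 (3 ^ j * (σ * (z : ℤ)) + e)
  have h3 := (hP n m (D, 0)).2.1 (σ * (z : ℤ))
  have h4 : wc n m (j, e) (σ * (z : ℤ)) = 0 ∧
      wc n m (D - j, -3 ^ (D - j) * e) (3 ^ j * (σ * (z : ℤ)) + e) = 0 ∧
      wc n m (D, 0) (σ * (z : ℤ)) = 0 := by
    rcases h1 with h1 | h1 <;> rcases h2 with h2 | h2 <;> rcases h3 with h3 | h3 <;>
      rw [h1, h2, h3] at hlt <;> first
      | exact ⟨h1, h2, h3⟩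
      | (exfalso; apply hlt; norm_num)
  have h5 := hE n m D j e (σ * (z : ℤ)) hjD hEv.1 h4.1 h4.2.1 h4.2.2
  rw [← hT] at h5
  -- sizes
  have hz0 : (0 : ℤ) ≤ z := Int.natCast_nonneg z
  have hzz : |σ * (z : ℤ)| = z := by rw [Ptw_abs hσ, abs_of_nonneg hz0]
  have hz1' : (2 * (C : ℤ) + 2) * 2 ^ (n + m) ≤ z := by exact_mod_cast hz1
  have hz2' : 4 * 2 ^ (10 * k) ≤ (z : ℤ) := by exact_mod_cast hz2
  have hC : (0 : ℤ) ≤ C := Int.natCast_nonneg C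
  have hp : (1 : ℤ) ≤ 2 ^ (n + m) := one_le_pow₀ (by norm_num)
  have hpr : (1 : ℤ) ≤ 2 ^ r := one_le_pow₀ (by norm_num)
  have hprk : (2 : ℤ) ^ r ≤ 2 ^ k := pow_le_pow_right₀ (by norm_num) (hr.trans hD)
  have hp8 : (1 : ℤ) ≤ 2 ^ (8 * k) := one_le_pow₀ (by norm_num)
  have hp9 : (2 : ℤ) ^ k * 2 ^ (8 * k) ≤ 2 ^ (10 * k) := by
    rw [← pow_add]
    exact pow_le_pow_right₀ (by norm_num) (by omega)
  have hp8' : (2 : ℤ) ^ (8 * k) ≤ 2 ^ (10 * k) := pow_le_pow_right₀ (by norm_num) (by omega)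
  have hea : |e| ≤ 2 * 2 ^ (10 * k) := by
    have h6 := abs_iter_le r (σ * o)
    rw [← he, Ptw_abs hσ] at h6
    exact Ptw_a1 hprk ho hp8 hp9 (by positivity) (abs_nonneg o) h6
  have hy : (z : ℤ) ≤ 2 * |T^[r] b| := by
    rw [hT]
    have h7 := abs_sub (3 ^ j * (σ * (z : ℤ)) + e) e
    rw [add_sub_cancel_right, abs_mul, hzz, abs_of_nonneg (by positivity)] at h7
    exact Ptw_a2 (one_le_pow₀ (by norm_num)) hz0 h7 hea hz2'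
  have hb1 : 2 ^ r * (z : ℤ) - 2 ^ (8 * k) ≤ |b| := by
    have h6 : |σ * b| = |b| := Ptw_abs hσ b
    have h7 : σ * b = o + 2 ^ r * (z : ℤ) := by rw [hoe]; ring
    rw [← h6, h7]
    have h8 := le_abs_self (o + 2 ^ r * (z : ℤ))
    have h9 := neg_abs_le o
    linarith
  -- membership
  have m1 : T^[n + m] (σ * (z : ℤ)) ∈ A :=
    (inv_iter hA (n + m) (σ * (z : ℤ)) (by rw [hzz]; exact Ptw_a3 hC hp hz1')).2 hEv.2
  rw [h5] at m1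
  have m2 : T^[r] b ∈ A := (inv_iter hA (n + m) (T^[r] b) (Ptw_a4 hp hz1' hy)).1 m1
  have m3 : b ∈ A := (inv_iter hA r b (Ptw_a5 hC hp hpr hz0 hz1' hz2' hp8' hb1)).1 m2
  exact hb m3

/-- The offset is small. -/
theorem Ptw_off {σ : ℤ} (hσ : σ = 1 ∨ σ = -1) {K J k k₁ s s' x : ℕ} {l : ℝ} (hl : 0 ≤ l)
    (hs2 : s + s' ≤ tt K J k k₁) (hr : tt K J k k₁ - s - s' ≤ k) (hJ : J ≤ k) (hk : 1 ≤ k)
    (h4 : 4 * (3 ^ (J * k) * (3 ^ k₁ * l / 2 ^ s') / 2 ^ s) ≤ (2 : ℝ) ^ (8 * k)) {b : ℤ}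
    (hb : b ∈ Wi σ (3 ^ k₁ * x / 2 ^ s') (3 ^ k₁ * l / 2 ^ s') k J s) :
    |σ * b - 2 ^ (tt K J k k₁ - s - s') * (zz K J k k₁ x : ℤ)| ≤ 2 ^ (8 * k) := by
  obtain ⟨r, hre⟩ : ∃ r, r = tt K J k k₁ - s - s' := ⟨_, rfl⟩
  rw [← hre] at hr ⊢
  have htt : tt K J k k₁ = r + (s + s') := by omega
  unfold Wi at hb
  rw [mem_Ob hσ] at hb
  obtain ⟨-, hb1, hb2⟩ := hb
  obtain ⟨R, hR⟩ : ∃ R : ℝ, R = 3 ^ (J * k) * (3 ^ k₁ * (x : ℝ) / 2 ^ s') / 2 ^ s := ⟨_, rfl⟩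
  have hR2 : R * 2 ^ (s + s') = 3 ^ (J * k + k₁) * (x : ℝ) := by
    rw [hR, pow_add, pow_add]
    field_simp
  have hz1 : (zz K J k k₁ x : ℝ) * 2 ^ r ≤ R := by
    have h1 : zz K J k k₁ x * 2 ^ tt K J k k₁ ≤ 3 ^ (J * k + k₁) * x := Nat.div_mul_le_self _ _
    have h2 : (zz K J k k₁ x : ℝ) * 2 ^ tt K J k k₁ ≤ 3 ^ (J * k + k₁) * (x : ℝ) := by
      exact_mod_cast h1
    rw [htt, pow_add, ← hR2, ← mul_assoc] at h2
    exact le_of_mul_le_mul_right h2 (by positivity)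
  have hz2 : R < ((zz K J k k₁ x : ℝ) + 1) * 2 ^ r := by
    have h1 : 3 ^ (J * k + k₁) * x < (zz K J k k₁ x + 1) * 2 ^ tt K J k k₁ := by
      exact (Nat.div_lt_iff_lt_mul (by positivity)).1 (Nat.lt_succ_self _)
    have h2 : 3 ^ (J * k + k₁) * (x : ℝ) < ((zz K J k k₁ x : ℝ) + 1) * 2 ^ tt K J k k₁ := by
      exact_mod_cast h1
    rw [htt, pow_add 2 r, ← hR2, ← mul_assoc] at h2
    exact lt_of_mul_lt_mul_right h2 (by positivity)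
  have e1 : 3 ^ (J * k) * (3 ^ k₁ * (x : ℝ) / 2 ^ s' + 3 ^ k₁ * l / 2 ^ s') / 2 ^ s =
      R + 3 ^ (J * k) * (3 ^ k₁ * l / 2 ^ s') / 2 ^ s := by
    rw [hR]
    ring
  rw [e1] at hb2
  rw [← hR] at hb1
  have h54 : (J : ℝ) * (5 / 4) ^ k ≤ (2 : ℝ) ^ (8 * k) / 4 := by
    have h1 : (J : ℝ) ≤ 2 ^ k := by
      have h2 : (J : ℝ) ≤ k := by exact_mod_cast hJ
      have h3 : (k : ℝ) ≤ 2 ^ k := by exact_mod_cast Nat.lt_two_pow_self.le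
      linarith
    have h2 : (5 / 4 : ℝ) ^ k ≤ 2 ^ k := pow_le_pow_left₀ (by norm_num) (by norm_num) k
    have h3 : (J : ℝ) * (5 / 4) ^ k ≤ 2 ^ k * 2 ^ k :=
      mul_le_mul h1 h2 (by positivity) (by positivity)
    have h4 : (2 : ℝ) ^ k * 2 ^ k * 4 ≤ 2 ^ (8 * k) := by
      have h5 : (2 : ℝ) ^ k * 2 ^ k * 4 = 2 ^ (2 * k + 2) := by ring
      rw [h5]
      exact pow_le_pow_right₀ (by norm_num) (by omega)
    linarith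
  have h2r : (2 : ℝ) ^ r ≤ (2 : ℝ) ^ (8 * k) / 4 := by
    have h1 : (2 : ℝ) ^ r ≤ 2 ^ k := pow_le_pow_right₀ (by norm_num) hr
    have h4 : (2 : ℝ) ^ k * 4 ≤ 2 ^ (8 * k) := by
      have h5 : (2 : ℝ) ^ k * 4 = 2 ^ (k + 2) := by ring
      rw [h5]
      exact pow_le_pow_right₀ (by norm_num) (by omega)
    linarith
  have hpos : (0 : ℝ) ≤ 3 ^ (J * k) * (3 ^ k₁ * l / 2 ^ s') / 2 ^ s := by positivity
  have hp8 : (0 : ℝ) < (2 : ℝ) ^ (8 * k) := by positivity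
  have hup : ((σ * b - 2 ^ r * (zz K J k k₁ x : ℤ) : ℤ) : ℝ) ≤ ((2 ^ (8 * k) : ℤ) : ℝ) := by
    push_cast
    push_cast at hb2
    linarith
  have hlo : ((-2 ^ (8 * k) : ℤ) : ℝ) ≤ ((σ * b - 2 ^ r * (zz K J k k₁ x : ℤ) : ℤ) : ℝ) := by
    push_cast
    push_cast at hb1
    linarith
  rw [abs_le]
  exact ⟨by exact_mod_cast hlo, by exact_mod_cast hup⟩

theorem thm_Ptw (hE : St_Extr) (hP : St_Per) (hA : St_Par) : St_Ptw := by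
  intro K J hK hJ C A σ hσ hinv
  filter_upwards [hA K J (2 * C + J + 4) hK hJ] with X hX k₁ k s s' x hk₁ hRel hs1 hs2 hs3 hs4
    hs5 hs6 hx1 hx2 hEv b hb hbA
  obtain ⟨h1, -, h3, -, h5, h6⟩ := hX k₁ k hk₁ hRel
  obtain ⟨h7, h8, -⟩ := h5 x hx1
  obtain ⟨-, h9⟩ := h6 s' hs1 hs2
  obtain ⟨-, h10, -⟩ := h9 s hs3 hs4
  have hD : 2 * Dp K J k ≤ k := by
    have h11 : 2 * Dp K J k ≤ (2 * C + J + 4) * Dp K J k := Nat.mul_le_mul_right _ (by omega)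
    omega
  have htt : tt K J k k₁ = 2 * (J * k + k₁) + Dp K J k := rfl
  have hr : tt K J k k₁ - s - s' ≤ 2 * Dp K J k := by omega
  have hl : 0 ≤ ll X := by
    unfold ll
    positivity
  have ho := Ptw_off hσ hl (by omega : s + s' ≤ tt K J k k₁) (hr.trans hD) (by omega : J ≤ k)
    (by omega) h10 hb
  refine ⟨ho, Ptw_core hE hP hσ hinv hr hD (le_trans ?_ h7) (le_trans ?_ h8) hEv hbA ho⟩
  · exact Nat.mul_le_mul_right _ (by omega)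
  · exact Nat.mul_le_mul_right _ (by omega)

end Pool.Agent.CPR
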