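import Mathlib
import Pool.Agent.CPR.St
import Pool.Agent.Collatz3.PRRes

set_option autoImplicit false

/-!
CPR [ResB]: sifted integers of a window whose first letters are not good.
-/

namespace Pool.Agent.CPR

open Finset
open Pool.Agent.Collatz3.Mix (words)
open Pool.Agent.Collatz3.PD (P P_mono P_words)
open Pool.Agent.Collatz3.FW (Hit Od mem_Od oc oc_le hit_count card_Od card_words_le mul_self_sign)
open Pool.Agent.Collatz3.PR (Sf VV VV_nonneg Res_per)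
open Pool.Agent.Helper90.Straus (Sys)

open Classical in
theorem thm_ResB (hS1 : Pool.Agent.Collatz3.PR.St_S1) : St_ResB := by
  intro κ hκ
  obtain ⟨C, hC, hBT⟩ := hS1 κ hκ
  refine ⟨2 * C, by positivity, ?_⟩
  intro z α ℓ I k G e Ω hG hs hk hz hzX hX hΩ he
  obtain ⟨m, hm⟩ : ∃ m : ℕ, m = 3 * k := ⟨_, rfl⟩
  have hs' : ∀ w ∈ G, w.sum + 1 ≤ m := by
    intro w hw
    have := hs w hw
    omega
  have hV := VV_nonneg hΩ z
  have hz2 : (2 : ℝ) ≤ z := by exact_mod_cast hz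
  have hX0 : (0 : ℝ) < ℓ := by linarith
  have h4m : (4 : ℝ) ^ m ≤ ℓ := by
    have : (4 : ℝ) ^ m = 2 ^ (6 * k) := by
      rw [hm, show (4 : ℝ) = 2 ^ 2 by norm_num, ← pow_mul]
      congr 1
      ring
    rw [this]
    exact hX
  set Bad := (Od e (2 ^ m)).filter fun r => ¬ Hit G (fun _ => Set.univ) r with hBad
  -- the number of bad classes
  have hP1 : P G ≤ 1 := by
    refine (P_mono hG).trans ?_
    rw [P_words]
    exact pow_le_one₀ (Pool.Agent.Collatz3.PD.Z_nonneg I) (Pool.Agent.Collatz3.PD.Z_le_one I)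
  have hcard : (Bad.card : ℝ) ≤ 2 ^ m * ((1 - P G) + (1 / 2) ^ (k / 2)) := by
    have h1 := hit_count he (by omega : 1 ≤ k) hG ((2 : ℝ) ^ m)
    have h2 : (((Od e ((2 : ℝ) ^ m)).filter fun n => Hit G (fun _ => Set.univ) n).card : ℝ) +
        (Bad.card : ℝ) = oc ((2 : ℝ) ^ m) := by
      rw [← card_Od he ((2 : ℝ) ^ m), ← card_filter_add_card_filter_not (s := Od e ((2 : ℝ) ^ m))
        (fun n => Hit G (fun _ => Set.univ) n), Nat.cast_add]
    have h3 : (oc ((2 : ℝ) ^ m) : ℝ) ≤ ((2 : ℝ) ^ m + 1) / 2 := oc_le (by positivity)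
    have h4 : (G.card : ℝ) ≤ 2 ^ (201 * k / 100) := by
      apply card_words_le hG
      intro w hw
      have := hs w hw
      omega
    have h6 : (2 : ℝ) ^ (201 * k / 100) * 2 ≤ 2 ^ m * (1 / 2) ^ (k / 2) := by
      have h7 : 201 * k / 100 + 1 + k / 2 ≤ m := by omega
      have h8 : (2 : ℝ) ^ (201 * k / 100 + 1 + k / 2) ≤ 2 ^ m :=
        pow_le_pow_right₀ (by norm_num) h7
      have h9 : (2 : ℝ) ^ (k / 2) * (1 / 2) ^ (k / 2) = 1 := by
        rw [← mul_pow]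
        norm_num
      calc (2 : ℝ) ^ (201 * k / 100) * 2 =
          2 ^ (201 * k / 100 + 1 + k / 2) * (1 / 2) ^ (k / 2) := by
            rw [pow_add (2 : ℝ) (201 * k / 100 + 1), mul_assoc, h9, mul_one, pow_succ]
        _ ≤ 2 ^ m * (1 / 2) ^ (k / 2) := mul_le_mul_of_nonneg_right h8 (by positivity)
    have h7 : (0 : ℝ) ≤ 2 ^ m * (1 - P G) := mul_nonneg (by positivity) (by linarith)
    have h8 : (1 : ℝ) ≤ 2 ^ (201 * k / 100) := one_le_pow₀ (by norm_num)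
    nlinarith
  -- the classes
  have hsub : (Ob e α (α + ℓ)).filter (fun n => Sf Ω z n ∧ ¬ Hit G (fun _ => Set.univ) n) ⊆
      Bad.biUnion fun r => (Ob e α (α + ℓ)).filter fun n => Sf Ω z n ∧ (2 : ℤ) ^ m ∣ n - r := by
    intro n hn
    rw [mem_filter] at hn
    obtain ⟨hn1, hn2, hn3⟩ := hn
    obtain ⟨ho, -, -⟩ := (mem_Ob he).1 hn1
    have hmpos : (0 : ℤ) < 2 ^ m := by positivity
    have hm1 : (2 : ℤ) ∣ 2 ^ m := dvd_pow_self 2 (by omega)
    set r : ℤ := e * ((e * n) % 2 ^ m) with hr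
    have hee := mul_self_sign he
    have hdiv : (2 : ℤ) ^ m ∣ n - r := by
      refine ⟨e * ((e * n) / 2 ^ m), ?_⟩
      rw [hr, Int.emod_def]
      linear_combination (-n) * hee
    have hodd : ((e * n) % 2 ^ m) % 2 = 1 := by
      rw [Int.emod_emod_of_dvd _ hm1]
      rcases he with h' | h' <;> rw [h'] <;> omega
    have hr1 := Int.emod_nonneg (e * n) hmpos.ne'
    have hr2 := Int.emod_lt_of_pos (e * n) hmpos
    have her : e * r = (e * n) % 2 ^ m := by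
      rw [hr, ← mul_assoc, hee, one_mul]
    rw [mem_biUnion]
    refine ⟨r, ?_, ?_⟩
    · rw [hBad, mem_filter, mem_Od he]
      refine ⟨⟨?_, ?_, ?_⟩, ?_⟩
      · rw [hr]
        rcases he with h' | h' <;> rw [h'] at hodd ⊢ <;> omega
      · rw [her]
        omega
      · rw [her]
        have : (((e * n) % 2 ^ m : ℤ) : ℝ) ≤ (((2 : ℤ) ^ m : ℤ) : ℝ) := by exact_mod_cast hr2.le
        push_cast at this ⊢
        exact this
      · intro hh
        exact hn3 (Res_per hs' hdiv hh)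
    · rw [mem_filter]
      exact ⟨hn1, hn2, hdiv⟩
  -- the odd integers lie in an interval
  have hfl : ⌊α + ℓ⌋ ≤ ⌊α⌋ + ⌊ℓ + 1⌋ := by
    have h1 : α + ℓ ≤ (⌊α⌋ : ℝ) + (ℓ + 1) := by
      have := Int.lt_floor_add_one α
      linarith
    have h2 := Int.floor_le_floor h1
    rw [Int.floor_intCast_add] at h2
    exact h2
  obtain ⟨A, hA⟩ : ∃ A : ℤ, ∀ n ∈ Ob e α (α + ℓ), n ∈ Ioc A (A + ⌊ℓ + 1⌋) := by
    rcases he with h' | h'
    · refine ⟨⌊α⌋, fun n hn => ?_⟩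
      obtain ⟨-, h1, h2⟩ := (mem_Ob (Or.inl h')).1 hn
      rw [h', one_mul] at h1 h2
      rw [mem_Ioc]
      have h3 : n ≤ ⌊α + ℓ⌋ := Int.le_floor.2 h2
      have h4 : ⌊α⌋ < n := Int.floor_lt.2 h1
      omega
    · refine ⟨-⌊α⌋ - ⌊ℓ + 1⌋ - 1, fun n hn => ?_⟩
      obtain ⟨-, h1, h2⟩ := (mem_Ob (Or.inr h')).1 hn
      rw [h'] at h1 h2
      rw [mem_Ioc]
      have h3 : -1 * n ≤ ⌊α + ℓ⌋ := Int.le_floor.2 h2
      have h4 : ⌊α⌋ < -1 * n := Int.floor_lt.2 h1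
      omega
  have hcls : ∀ r ∈ Bad, (((Ob e α (α + ℓ)).filter fun n => Sf Ω z n ∧
      (2 : ℤ) ^ m ∣ n - r).card : ℝ) ≤ C * ((ℓ + 1) / 2 ^ m) * VV Ω z := by
    intro r _
    have h1 := hBT z (ℓ + 1) m A r Ω hz (by linarith) (by linarith) hΩ
    refine le_trans ?_ h1
    have h2 : ((Ob e α (α + ℓ)).filter fun n => Sf Ω z n ∧ (2 : ℤ) ^ m ∣ n - r).card ≤
        ((Ioc A (A + ⌊ℓ + 1⌋)).filter fun n => Sf Ω z n ∧ (2 : ℤ) ^ m ∣ n - r).card := by
      apply card_le_card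
      intro n hn
      rw [mem_filter] at hn ⊢
      exact ⟨hA n hn.1, hn.2⟩
    exact_mod_cast h2
  have hfin : (0 : ℝ) ≤ 1 - P G + (1 / 2) ^ (k / 2) := by
    have : (0 : ℝ) ≤ (1 / 2) ^ (k / 2) := by positivity
    linarith
  calc (((Ob e α (α + ℓ)).filter fun n => Sf Ω z n ∧ ¬ Hit G (fun _ => Set.univ) n).card : ℝ)
      ≤ ((Bad.biUnion fun r => (Ob e α (α + ℓ)).filter fun n => Sf Ω z n ∧
          (2 : ℤ) ^ m ∣ n - r).card : ℝ) := by exact_mod_cast card_le_card hsub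
    _ ≤ ∑ r ∈ Bad, (((Ob e α (α + ℓ)).filter fun n => Sf Ω z n ∧
          (2 : ℤ) ^ m ∣ n - r).card : ℝ) := by
        exact_mod_cast card_biUnion_le
    _ ≤ ∑ _r ∈ Bad, C * ((ℓ + 1) / 2 ^ m) * VV Ω z := sum_le_sum hcls
    _ = (Bad.card : ℝ) * (C * ((ℓ + 1) / 2 ^ m) * VV Ω z) := by rw [sum_const, nsmul_eq_mul]
    _ ≤ (2 ^ m * ((1 - P G) + (1 / 2) ^ (k / 2))) * (C * ((ℓ + 1) / 2 ^ m) * VV Ω z) :=
        mul_le_mul_of_nonneg_right hcard (by positivity)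
    _ = C * (ℓ + 1) * VV Ω z * (1 - P G + (1 / 2) ^ (k / 2)) := by
        field_simp
    _ ≤ 2 * C * ℓ * VV Ω z * (1 - P G + (1 / 2) ^ (k / 2)) := by
        refine mul_le_mul_of_nonneg_right (mul_le_mul_of_nonneg_right ?_ hV) hfin
        nlinarith

end Pool.Agent.CPR
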