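import Mathlib
import Pool.Agent.CPR.St
import Pool.Agent.Collatz3.PROdd
import Pool.Agent.Collatz3.PRPrimes
import Pool.Agent.Collatz3.PRTail1
import Pool.Agent.Collatz3.PRTail2
import Pool.Agent.Collatz3.PRTail3

set_option autoImplicit false

/-!
# CPR: module SvB, primes in short intervals
-/

namespace Pool.Agent.CPR

open Finset Filter
open Pool.Agent.Collatz3 (cw)
open Pool.Agent.Collatz3.Mix (words mem_words)
open Pool.Agent.Collatz3.PD (rd en Fw II P Per)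
open Pool.Agent.Collatz3.FW (Hit)
open Pool.Agent.Collatz3.PR (Sf VV W2 mem_W2 W1 mem_W1 Odd_G Odd_P Odd_card Odd_two_pow VV_pos
  sys_zero VV_zero_le prime_Sf thm_Tail1 thm_Tail2 thm_Tail3 thm_VL)
open Pool.Agent.Helper90.Straus (Sys)

theorem SvB_tendsto_log : Tendsto (fun X : ℕ => Nat.log 2 X) atTop atTop := by
  rw [tendsto_atTop]
  intro b
  filter_upwards [eventually_ge_atTop (2 ^ b)] with X hX
  have h1 := Nat.log_mono_right (b := 2) hX
  rwa [Nat.log_pow (by norm_num)] at h1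

/-- The number of letters. -/
theorem SvB_num (A : ℕ) {cV : ℝ} (hcV : 0 < cV) (K₀ : ℕ) : ∀ᶠ X : ℕ in atTop, ∃ k : ℕ, K₀ ≤ k ∧
    k ^ 4 ≤ Nat.log 2 X ∧ ((Nat.log 2 X + 1 : ℕ) : ℝ) ^ 12 * (4 / 5) ^ (k / 2) ≤ 1 ∧
    (k : ℝ) * ((Nat.log 2 X : ℝ) + 2) ^ A ≤ cV * (397 / 300) ^ k := by
  obtain ⟨a, ha⟩ : ∃ a : ℕ, a = 38 + 6 * A := ⟨_, rfl⟩
  have ha0 : 0 < a := by omega
  have t1 : Tendsto (fun X : ℕ => Nat.log 2 (Nat.log 2 X) + 1) atTop atTop :=
    (tendsto_add_atTop_nat 1).comp (SvB_tendsto_log.comp SvB_tendsto_log)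
  have t2 : Tendsto (fun L : ℕ => 2 * a * L) atTop atTop :=
    tendsto_id.const_mul_atTop' (by omega)
  have e1 : ∀ᶠ L : ℕ in atTop, (2 * a * L) ^ 4 ≤ 2 ^ (L - 1) := by
    have h1 := (tendsto_pow_const_div_const_pow_of_one_lt 4
      (show (1 : ℝ) < 2 by norm_num)).eventually_lt_const
      (show (0 : ℝ) < 1 / (2 * (2 * a) ^ 4) by positivity)
    filter_upwards [h1, eventually_ge_atTop 1] with L hL hL1
    rw [div_lt_div_iff₀ (by positivity) (by positivity), one_mul] at hL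
    have h2 : (2 : ℝ) ^ L = 2 * 2 ^ (L - 1) := by
      rw [← pow_succ']
      congr 1
      omega
    rw [h2] at hL
    have h3 : ((2 * a * L : ℕ) : ℝ) ^ 4 ≤ 2 ^ (L - 1) := by
      push_cast
      rw [mul_pow]
      nlinarith
    exact_mod_cast h3
  have e2 : ∀ᶠ k : ℕ in atTop, (k : ℝ) ≤ cV * (9 / 8) ^ k := by
    have h1 := (tendsto_pow_const_div_const_pow_of_one_lt 1
      (show (1 : ℝ) < 9 / 8 by norm_num)).eventually_lt_const hcV
    filter_upwards [h1] with k hk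
    rw [div_lt_iff₀ (by positivity), pow_one] at hk
    exact hk.le
  filter_upwards [t1.eventually e1, (t2.comp t1).eventually e2,
    (t2.comp t1).eventually (eventually_ge_atTop K₀),
    SvB_tendsto_log.eventually (eventually_ge_atTop 2)] with X h1 h2 h3 h4
  obtain ⟨N, hN⟩ : ∃ N, N = Nat.log 2 X := ⟨_, rfl⟩
  obtain ⟨L, hL⟩ : ∃ L, L = Nat.log 2 N + 1 := ⟨_, rfl⟩
  simp only [Function.comp] at h2 h3
  rw [← hN, ← hL] at h1 h2 h3
  rw [← hN] at h4 ⊢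
  have hN0 : N ≠ 0 := by omega
  have hNL : 2 ^ (L - 1) ≤ N := by
    rw [hL, Nat.add_sub_cancel]
    exact Nat.pow_log_le_self 2 hN0
  have hNL' : N + 1 ≤ 2 ^ L := by
    rw [hL]
    exact Nat.lt_pow_succ_log_self (by norm_num) N
  have hL1 : 1 ≤ L := by omega
  refine ⟨2 * a * L, h3, h1.trans hNL, ?_, ?_⟩
  · have hk2 : 2 * a * L / 2 = a * L := by
      rw [mul_assoc]
      exact Nat.mul_div_cancel_left _ (by norm_num)
    rw [hk2]
    have g1 : ((N + 1 : ℕ) : ℝ) ≤ 2 ^ L := by exact_mod_cast hNL'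
    have g2 : ((N + 1 : ℕ) : ℝ) ^ 12 ≤ (2 ^ 12) ^ L := by
      calc ((N + 1 : ℕ) : ℝ) ^ 12 ≤ (2 ^ L) ^ 12 := pow_le_pow_left₀ (Nat.cast_nonneg _) g1 _
        _ = (2 ^ 12) ^ L := by rw [← pow_mul, ← pow_mul, mul_comm]
    have g3 : (4 / 5 : ℝ) ^ (a * L) ≤ ((4 / 5) ^ 38) ^ L := by
      rw [pow_mul]
      apply pow_le_pow_left₀ (by positivity)
      exact pow_le_pow_of_le_one (by norm_num) (by norm_num) (by omega)
    calc ((N + 1 : ℕ) : ℝ) ^ 12 * (4 / 5) ^ (a * L) ≤ (2 ^ 12) ^ L * ((4 / 5) ^ 38) ^ L :=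
          mul_le_mul g2 g3 (by positivity) (by positivity)
      _ = (2 ^ 12 * (4 / 5) ^ 38) ^ L := by rw [mul_pow]
      _ ≤ 1 := pow_le_one₀ (by positivity) (by norm_num)
  · have g1 : (N : ℝ) + 2 ≤ 4 ^ L := by
      have i1 : ((N + 1 : ℕ) : ℝ) ≤ 2 ^ L := by exact_mod_cast hNL'
      push_cast at i1
      have i2 : (2 : ℝ) ≤ 2 ^ L := by
        calc (2 : ℝ) = 2 ^ 1 := (pow_one _).symm
          _ ≤ 2 ^ L := pow_le_pow_right₀ (by norm_num) hL1
      have i3 : (4 : ℝ) ^ L = 2 ^ L * 2 ^ L := by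
        rw [← mul_pow]
        norm_num
      rw [i3]
      nlinarith
    have g2 : ((N : ℝ) + 2) ^ A ≤ (9 / 8) ^ (2 * a * L) := by
      calc ((N : ℝ) + 2) ^ A ≤ (4 ^ L) ^ A := pow_le_pow_left₀ (by positivity) g1 _
        _ = (4 ^ A) ^ L := by rw [← pow_mul, ← pow_mul, mul_comm]
        _ ≤ (((9 / 8) ^ 12) ^ A) ^ L := by
            apply pow_le_pow_left₀ (by positivity)
            exact pow_le_pow_left₀ (by norm_num) (by norm_num) _
        _ = (9 / 8) ^ (12 * A * L) := by rw [← pow_mul, ← pow_mul, mul_assoc]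
        _ ≤ (9 / 8) ^ (2 * a * L) := by
            apply pow_le_pow_right₀ (by norm_num)
            apply Nat.mul_le_mul_right
            omega
    obtain ⟨k, hk⟩ : ∃ k, k = 2 * a * L := ⟨_, rfl⟩
    rw [← hk] at h2 g2 ⊢
    calc (k : ℝ) * ((N : ℝ) + 2) ^ A ≤ (cV * (9 / 8) ^ k) * (9 / 8) ^ k :=
          mul_le_mul h2 g2 (by positivity) (by positivity)
      _ = cV * (81 / 64) ^ k := by
          rw [mul_assoc, ← mul_pow]
          norm_num
      _ ≤ cV * (397 / 300) ^ k :=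
          mul_le_mul_of_nonneg_left (pow_le_pow_left₀ (by norm_num) (by norm_num) _) hcV.le

/-- Sizes. -/
theorem SvB_size {X k : ℕ} (hk : 10 ≤ k) (hN : k ^ 4 ≤ Nat.log 2 X) :
    2 ^ Nat.log 2 X ≤ X ∧ (2 : ℝ) ^ (6 * k) ≤ ll X ∧ ll X ≤ X ∧ 2 ≤ ⌊ll X⌋₊ ∧
    1 / Real.log ⌊ll X⌋₊ ≤ 4 / Real.log X ∧ 0 < Real.log X ∧
    Real.log ⌊ll X⌋₊ ≤ Nat.log 2 X + 1 := by
  obtain ⟨N, hNd⟩ : ∃ N, N = Nat.log 2 X := ⟨_, rfl⟩
  rw [← hNd] at hN ⊢
  have hk4 : 20 * k ≤ k ^ 4 := by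
    have : k ^ 4 = k ^ 3 * k := by ring
    rw [this]
    apply Nat.mul_le_mul_right
    calc 20 ≤ 10 ^ 3 := by norm_num
      _ ≤ k ^ 3 := Nat.pow_le_pow_left hk 3
  have hN20 : 20 * k ≤ N := hk4.trans hN
  have hX0 : X ≠ 0 := by
    rintro rfl
    rw [Nat.log_zero_right] at hNd
    omega
  have hX1 : 2 ^ N ≤ X := by
    rw [hNd]
    exact Nat.pow_log_le_self 2 hX0
  have hX2 : X < 2 ^ (N + 1) := by
    rw [hNd]
    exact Nat.lt_pow_succ_log_self (by norm_num) X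
  have hX1r : (2 : ℝ) ^ N ≤ X := by exact_mod_cast hX1
  have hX2r : (X : ℝ) ≤ 2 ^ (N + 1) := by exact_mod_cast hX2.le
  have hXr1 : (1 : ℝ) ≤ X := by exact_mod_cast Nat.one_le_iff_ne_zero.2 hX0
  have hXr0 : (0 : ℝ) < X := by linarith
  have hl1 : (2 : ℝ) ^ (6 * k) ≤ ll X := by
    unfold ll
    calc (2 : ℝ) ^ (6 * k) = ((2 : ℝ) ^ (20 * k)) ^ (3 / 10 : ℝ) := by
          rw [← Real.rpow_natCast 2 (20 * k), ← Real.rpow_mul (by norm_num),
            ← Real.rpow_natCast 2 (6 * k)]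
          congr 1
          push_cast
          ring
      _ ≤ ((2 : ℝ) ^ N) ^ (3 / 10 : ℝ) := by
          apply Real.rpow_le_rpow (by positivity) _ (by norm_num)
          exact pow_le_pow_right₀ (by norm_num) hN20
      _ ≤ (X : ℝ) ^ (3 / 10 : ℝ) := Real.rpow_le_rpow (by positivity) hX1r (by norm_num)
  have hl2 : ll X ≤ X := by
    unfold ll
    calc (X : ℝ) ^ (3 / 10 : ℝ) ≤ (X : ℝ) ^ (1 : ℝ) :=
          Real.rpow_le_rpow_of_exponent_le hXr1 (by norm_num)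
      _ = X := Real.rpow_one _
  have hl4 : (2 : ℝ) ≤ ll X := by
    calc (2 : ℝ) = 2 ^ 1 := (pow_one _).symm
      _ ≤ 2 ^ (6 * k) := pow_le_pow_right₀ (by norm_num) (by omega)
      _ ≤ ll X := hl1
  have hz2 : 2 ≤ ⌊ll X⌋₊ := Nat.le_floor (by exact_mod_cast hl4)
  have hz2r : (2 : ℝ) ≤ (⌊ll X⌋₊ : ℝ) := by exact_mod_cast hz2
  have hzl : (⌊ll X⌋₊ : ℝ) ≤ ll X := Nat.floor_le (by linarith)
  have hzl' : ll X / 2 ≤ (⌊ll X⌋₊ : ℝ) := by
    have := Nat.lt_floor_add_one (ll X)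
    linarith
  have hlogz : 0 < Real.log ⌊ll X⌋₊ := Real.log_pos (by linarith)
  have hlog2 : 0 < Real.log 2 := Real.log_pos (by norm_num)
  have hlX : (N : ℝ) * Real.log 2 ≤ Real.log X := by
    have := Real.log_le_log (by positivity) hX1r
    rwa [Real.log_pow] at this
  have hN200 : (200 : ℝ) ≤ N := by exact_mod_cast (by omega : 200 ≤ N)
  have hlX0 : 0 < Real.log X := by nlinarith
  have hll : Real.log (ll X) = 3 / 10 * Real.log X := by
    unfold ll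
    rw [Real.log_rpow hXr0]
  refine ⟨hX1, hl1, hl2, hz2, ?_, hlX0, ?_⟩
  · rw [div_le_div_iff₀ hlogz hlX0, one_mul]
    have h1 := Real.log_le_log (by linarith) hzl'
    rw [Real.log_div (by linarith) (by norm_num), hll] at h1
    nlinarith
  · have h1 := Real.log_le_log (by linarith) (hzl.trans (hl2.trans hX2r))
    rw [Real.log_pow] at h1
    push_cast at h1
    have h2 := Real.log_two_lt_d9
    nlinarith

open Classical in
/-- The window is enlarged a little. -/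
theorem SvB_win {σ : ℤ} (hσ : σ = 1 ∨ σ = -1) (F : Set ℤ) {α β g : ℝ} (hg : 1 ≤ g) :
    (((Ob σ (α - g) (β + g)).filter fun b => b ∈ F).card : ℝ) ≤
      (((Ob σ α β).filter fun b => b ∈ F).card : ℝ) + 4 * g := by
  have h1 : ((Ob σ (α - g) (β + g)).filter fun b => b ∈ F) ⊆
      ((Ob σ α β).filter fun b => b ∈ F) ∪ (Ob σ (α - g) α ∪ Ob σ β (β + g)) := by
    intro n hn
    rw [mem_filter, mem_Ob hσ] at hn
    obtain ⟨⟨h1, h2, h3⟩, h4⟩ := hn
    rw [mem_union, mem_union, mem_filter, mem_Ob hσ, mem_Ob hσ, mem_Ob hσ]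
    rcases le_or_gt (((σ * n : ℤ) : ℝ)) α with h5 | h5
    · exact Or.inr (Or.inl ⟨h1, h2, h5⟩)
    · rcases le_or_gt (((σ * n : ℤ) : ℝ)) β with h6 | h6
      · exact Or.inl ⟨⟨h1, h5, h6⟩, h4⟩
      · exact Or.inr (Or.inr ⟨h1, h6, h3⟩)
  have h2 := (card_le_card h1).trans (card_union_le _ _)
  have h3 := card_union_le (Ob σ (α - g) α) (Ob σ β (β + g))
  have h4 := card_Ob_le (σ := σ) (show α - g ≤ α by linarith)
  have h5 := card_Ob_le (σ := σ) (show β ≤ β + g by linarith)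
  have h6 : (((Ob σ (α - g) (β + g)).filter fun b => b ∈ F).card : ℝ) ≤
      (((Ob σ α β).filter fun b => b ∈ F).card : ℝ) +
        (((Ob σ (α - g) α).card : ℝ) + ((Ob σ β (β + g)).card : ℝ)) := by
    exact_mod_cast h2.trans (Nat.add_le_add_left h3 _)
  linarith

open Classical in
/-- The cover. -/
theorem SvB_cover {σ : ℤ} (hσ : σ = 1 ∨ σ = -1) {X k : ℕ} {x ℓ : ℝ} (hx : (X : ℝ) ≤ x) (z : ℕ)
    (Ω : ℕ → Finset ℕ) {u l : ℝ} {R : ℕ} {S : Finset ℕ} (hS : ∀ w ∈ Odd_G u l k k R, w.sum ∈ S)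
    (F : Set ℤ) (hF : ∀ w ∈ words k k, ∀ b : ℤ, b % 2 = 1 → rd w b → (X : ℤ) ≤ |en w b| →
      en w b ∈ F → b ∈ F) :
    (((Ob σ x (x + ℓ)).filter fun n => Sf Ω z n ∧ n ∈ F).card : ℝ) ≤
      (((Ob σ x (x + ℓ)).filter fun n => Sf Ω z n ∧
        ¬ Hit (Odd_G u l k k R) (fun _ => Set.univ) n).card : ℝ) +
      ∑ s ∈ S, (((Ob σ x (x + ℓ)).filter fun n => Sf Ω z n ∧
        Hit ((W2 u k k R).filter fun w => w.sum = s) (fun _ => F) n).card : ℝ) := by
  have h1 : ((Ob σ x (x + ℓ)).filter fun n => Sf Ω z n ∧ n ∈ F) ⊆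
      ((Ob σ x (x + ℓ)).filter fun n => Sf Ω z n ∧
        ¬ Hit (Odd_G u l k k R) (fun _ => Set.univ) n) ∪
      S.biUnion fun s => (Ob σ x (x + ℓ)).filter fun n => Sf Ω z n ∧
        Hit ((W2 u k k R).filter fun w => w.sum = s) (fun _ => F) n := by
    intro n hn
    rw [mem_filter] at hn
    obtain ⟨h1, h2, h3⟩ := hn
    rw [mem_union, mem_filter, mem_biUnion]
    by_cases hH : Hit (Odd_G u l k k R) (fun _ => Set.univ) n
    · right
      obtain ⟨w, hw, b, hb, hr, hen, -⟩ := hH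
      refine ⟨w.sum, hS w hw, ?_⟩
      rw [mem_filter]
      have hw' := hw
      rw [Odd_G, mem_filter, mem_W2, mem_W1] at hw'
      refine ⟨h1, h2, w, ?_, b, hb, hr, hen, ?_⟩
      · rw [Odd_G, mem_filter] at hw
        rw [mem_filter]
        exact ⟨hw.1, rfl⟩
      · have h4 := ((mem_Ob hσ).1 h1).2.1
        have h5 : ((X : ℤ) : ℝ) < ((σ * n : ℤ) : ℝ) := by
          push_cast at h4 ⊢
          linarith
        have h6 : (X : ℤ) < σ * n := by exact_mod_cast h5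
        refine hF w hw'.1.1.1 b hb hr ?_ ?_
        · rw [hen]
          rcases hσ with h | h <;> rw [h] at h6
          · rw [one_mul] at h6
            exact h6.le.trans (le_abs_self n)
          · have : -1 * n = -n := by ring
            rw [this] at h6
            exact h6.le.trans (neg_le_abs n)
        · rw [hen]
          exact h3
    · left
      exact ⟨h1, h2, hH⟩
  have h2 := (card_le_card h1).trans (card_union_le _ _)
  have h3 : ((S.biUnion fun s => (Ob σ x (x + ℓ)).filter fun n => Sf Ω z n ∧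
        Hit ((W2 u k k R).filter fun w => w.sum = s) (fun _ => F) n).card : ℝ) ≤
      ∑ s ∈ S, (((Ob σ x (x + ℓ)).filter fun n => Sf Ω z n ∧
        Hit ((W2 u k k R).filter fun w => w.sum = s) (fun _ => F) n).card : ℝ) := by
    exact_mod_cast card_biUnion_le
  have h4 : (((Ob σ x (x + ℓ)).filter fun n => Sf Ω z n ∧ n ∈ F).card : ℝ) ≤
      (((Ob σ x (x + ℓ)).filter fun n => Sf Ω z n ∧
        ¬ Hit (Odd_G u l k k R) (fun _ => Set.univ) n).card : ℝ) +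
      ((S.biUnion fun s => (Ob σ x (x + ℓ)).filter fun n => Sf Ω z n ∧
        Hit ((W2 u k k R).filter fun w => w.sum = s) (fun _ => F) n).card : ℝ) := by
    exact_mod_cast h2
  linarith

open Classical in
/-- The primes are sifted. -/
theorem SvB_primes {σ : ℤ} (hσ : σ = 1 ∨ σ = -1) {X x z : ℕ} {ℓ : ℝ} (hx : X ≤ x) (hX : 2 ≤ X)
    (hz : z ≤ X) (F : Set ℤ) :
    (((Icc X (3 * X)).filter (fun p : ℕ => p.Prime ∧ x < p ∧ (p : ℝ) ≤ x + ℓ ∧
      σ * (p : ℤ) ∈ F)).card : ℝ) ≤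
    (((Ob σ x (x + ℓ)).filter fun n => Sf (fun _ => {0}) z n ∧ n ∈ F).card : ℝ) := by
  have hσ2 := sig_sq hσ
  have h1 : ((Icc X (3 * X)).filter (fun p : ℕ => p.Prime ∧ x < p ∧ (p : ℝ) ≤ x + ℓ ∧
      σ * (p : ℤ) ∈ F)).card ≤
      ((Ob σ x (x + ℓ)).filter fun n => Sf (fun _ => {0}) z n ∧ n ∈ F).card := by
    apply card_le_card_of_injOn (fun p : ℕ => σ * (p : ℤ))
    · intro p hp
      rw [mem_coe, mem_filter, mem_Icc] at hp
      obtain ⟨⟨p1, p2⟩, p3, p4, p5, p6⟩ := hp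
      rw [mem_coe, mem_filter, mem_Ob hσ]
      have hab : (σ * (p : ℤ)).natAbs = p := by
        rcases hσ with h | h <;> rw [h] <;> simp
      have hodd : p % 2 = 1 := by
        rcases p3.eq_two_or_odd with h | h
        · omega
        · exact h
      have e1 : σ * (σ * (p : ℤ)) = p := by rw [← mul_assoc, hσ2, one_mul]
      refine ⟨⟨?_, ?_, ?_⟩, ?_, p6⟩
      · show σ * (p : ℤ) % 2 = 1
        rcases hσ with h | h <;> rw [h] <;> omega
      · rw [e1]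
        push_cast
        exact_mod_cast p4
      · rw [e1]
        push_cast
        exact p5
      · apply prime_Sf
        · rw [hab]
          exact p3
        · rw [hab]
          omega
    · intro p _ q _ hpq
      have h2 : σ * (p : ℤ) = σ * (q : ℤ) := hpq
      have h3 : σ * (σ * (p : ℤ)) = σ * (σ * (q : ℤ)) := by rw [h2]
      rw [← mul_assoc, ← mul_assoc, hσ2, one_mul, one_mul] at h3
      exact_mod_cast h3
  exact_mod_cast h1

/-- Cauchy-Schwarz. -/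
theorem SvB_cauchy {S : Finset ℕ} {d : ℕ → ℝ} {u k l δ : ℝ} (hd : ∀ s ∈ S, 0 ≤ d s) (hk : 1 ≤ k)
    (hu : 0 ≤ u) (hl : 1 ≤ l) (hS : (S.card : ℝ) ≤ 2 * (l * √k) + 1)
    (hsum : ∑ s ∈ S, d s ≤ 2 * δ * √k) : ∑ s ∈ S, √(d s * u / k) ≤ √(6 * l * δ * u) := by
  apply Real.le_sqrt_of_sq_le
  have h1 := sq_sum_le_card_mul_sum_sq (s := S) (f := fun s => √(d s * u / k))
  have h2 : ∑ s ∈ S, √(d s * u / k) ^ 2 = (∑ s ∈ S, d s) * (u / k) := by
    rw [sum_mul]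
    apply sum_congr rfl
    intro s hs
    have := hd s hs
    rw [Real.sq_sqrt (by positivity)]
    ring
  rw [h2] at h1
  refine h1.trans ?_
  have hk0 : 0 < k := by linarith
  have hsk : 1 ≤ √k := by
    rw [Real.one_le_sqrt]
    exact hk
  have h3 : 2 * (l * √k) + 1 ≤ 3 * l * √k := by nlinarith
  calc (S.card : ℝ) * ((∑ s ∈ S, d s) * (u / k)) ≤ (3 * l * √k) * ((2 * δ * √k) * (u / k)) := by
        apply mul_le_mul (hS.trans h3)
        · exact mul_le_mul_of_nonneg_right hsum (by positivity)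
        · exact mul_nonneg (sum_nonneg hd) (by positivity)
        · positivity
    _ = 6 * l * δ * u * ((√k * √k) / k) := by ring
    _ = 6 * l * δ * u := by
        rw [Real.mul_self_sqrt hk0.le, div_self hk0.ne', mul_one]

open Classical in
theorem thm_SvB (hR : St_ResB) (hC : St_CSB) : St_SvB := by
  intro η hη
  obtain ⟨ρ, B, hρ0, hρ1, hB, hP⟩ := Odd_P thm_Tail1 thm_Tail2 thm_Tail3
  obtain ⟨cV, A, hcV, hVL⟩ := thm_VL 1 le_rfl
  obtain ⟨CR, hCR, hRes⟩ := hR 1 le_rfl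
  obtain ⟨CS, I₀, hCS0, hCS⟩ := hC 1 le_rfl
  obtain ⟨θ, hθ⟩ : ∃ θ : ℝ, θ = η / (20 * CR) := ⟨_, rfl⟩
  have hθ0 : 0 < θ := by rw [hθ]; positivity
  -- the parameters
  obtain ⟨u, hu⟩ : ∃ u : ℝ, u = 1 + 1 / θ := ⟨_, rfl⟩
  have hu1 : 1 ≤ u := by
    rw [hu]
    have : 0 ≤ 1 / θ := by positivity
    linarith
  have huθ : 1 / u ≤ θ := by
    rw [div_le_iff₀ (by linarith), hu, mul_add, mul_one_div_cancel hθ0.ne']
    linarith
  obtain ⟨R, hRθ⟩ : ∃ R : ℕ, B * ρ ^ R ≤ θ := by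
    obtain ⟨R, hR⟩ := exists_pow_lt_of_lt_one (show 0 < θ / B by positivity) hρ1
    refine ⟨R, ?_⟩
    rw [lt_div_iff₀ hB] at hR
    linarith
  obtain ⟨l, hl1, hlθ⟩ : ∃ l : ℕ, 1 ≤ l ∧ B * Real.exp (-((l : ℝ) / 2)) ≤ θ := by
    have h1 : Tendsto (fun l : ℕ => B * Real.exp (-((l : ℝ) / 2))) atTop (nhds (B * 0)) := by
      apply Tendsto.const_mul
      apply Real.tendsto_exp_atBot.comp
      apply tendsto_neg_atTop_atBot.comp
      exact tendsto_natCast_atTop_atTop.atTop_div_const (by norm_num)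
    rw [mul_zero] at h1
    obtain ⟨l, hl⟩ := ((h1.eventually_lt_const hθ0).and (eventually_ge_atTop 1)).exists
    exact ⟨l, hl.2, hl.1.le⟩
  have hl1r : (1 : ℝ) ≤ l := by exact_mod_cast hl1
  obtain ⟨τ, hτ⟩ : ∃ τ : ℝ, τ = η / (20 * CS * ((R : ℝ) + 1) ^ 4) := ⟨_, rfl⟩
  have hτ0 : 0 < τ := by rw [hτ]; positivity
  obtain ⟨δ, hδ⟩ : ∃ δ : ℝ, δ = τ ^ 2 / (6 * l * u) := ⟨_, rfl⟩
  have hδ0 : 0 < δ := by rw [hδ]; positivity
  have hδτ : √(6 * l * δ * u) = τ := by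
    have : 6 * l * δ * u = τ ^ 2 := by
      rw [hδ]
      field_simp
    rw [this, Real.sqrt_sq hτ0.le]
  refine ⟨l, δ, hl1, hδ0, ?_⟩
  -- small terms
  have e1 : ∀ᶠ k : ℕ in atTop, (k : ℝ) * (1 / 2) ^ k + (1 / 2) ^ (k / 2) ≤ θ := by
    have h1 : Tendsto (fun k : ℕ => (k : ℝ) * (1 / 2) ^ k) atTop (nhds 0) :=
      tendsto_self_mul_const_pow_of_lt_one (by norm_num) (by norm_num)
    have h2 : Tendsto (fun k : ℕ => (1 / 2 : ℝ) ^ (k / 2)) atTop (nhds 0) :=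
      (tendsto_pow_atTop_nhds_zero_of_lt_one (by norm_num) (by norm_num)).comp
        (Nat.tendsto_div_const_atTop (by norm_num))
    have h3 := h1.add h2
    rw [add_zero] at h3
    filter_upwards [h3.eventually_lt_const hθ0] with k hk
    exact hk.le
  have e2 : ∀ᶠ k : ℕ in atTop, (3 * (k : ℝ) + 1) * (4 * (1 / 12) ^ k) ≤ δ := by
    have h1 : Tendsto (fun k : ℕ => (k : ℝ) * (1 / 12) ^ k) atTop (nhds 0) :=
      tendsto_self_mul_const_pow_of_lt_one (by norm_num) (by norm_num)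
    have h2 : Tendsto (fun k : ℕ => (1 / 12 : ℝ) ^ k) atTop (nhds 0) :=
      tendsto_pow_atTop_nhds_zero_of_lt_one (by norm_num) (by norm_num)
    have h3 := (h1.const_mul 12).add (h2.const_mul 4)
    rw [mul_zero, mul_zero, add_zero] at h3
    filter_upwards [h3.eventually_lt_const hδ0] with k hk
    have e : (3 * (k : ℝ) + 1) * (4 * (1 / 12) ^ k) =
      12 * ((k : ℝ) * (1 / 12) ^ k) + 4 * (1 / 12) ^ k := by ring
    rw [e]
    exact hk.le
  obtain ⟨K₁, hK₁⟩ := eventually_atTop.1 (e1.and e2)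
  obtain ⟨K₀, hK₀⟩ : ∃ K₀, K₀ = K₁ + I₀ + 10 + 10000 * l ^ 2 + 2 * R := ⟨_, rfl⟩
  filter_upwards [SvB_num A hcV K₀] with X hX
  obtain ⟨k, hkK, hk4, hkB, hkV⟩ := hX
  obtain ⟨hsm1, hsm2⟩ := hK₁ k (by omega)
  have hk10 : 10 ≤ k := by omega
  have hk1 : 1 ≤ k := by omega
  have hkr : (1 : ℝ) ≤ k := by exact_mod_cast hk1
  have hlk : 10000 * l ^ 2 ≤ k := by omega
  refine ⟨k, hk4, by omega, ?_⟩
  intro x hXx hx2 σ hσ F hF hsum
  obtain ⟨hXN, hℓ6, hℓX, hz2, hzlog, hlogX, hlogz⟩ := SvB_size hk10 hk4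
  obtain ⟨ℓ, hℓ⟩ : ∃ ℓ, ℓ = ll X := ⟨_, rfl⟩
  rw [← hℓ] at hℓ6 hℓX hz2 hzlog hlogz hsum ⊢
  obtain ⟨z, hz⟩ : ∃ z, z = ⌊ℓ⌋₊ := ⟨_, rfl⟩
  rw [← hz] at hz2 hzlog hlogz
  have hℓ0 : 0 < ℓ := lt_of_lt_of_le (by positivity) hℓ6
  have hzℓ : (z : ℝ) ≤ ℓ := by rw [hz]; exact Nat.floor_le hℓ0.le
  have hX2 : 2 ≤ X := by
    have h1 : (2 : ℝ) ≤ z := by exact_mod_cast hz2
    have h2 : (2 : ℝ) ≤ X := by linarith
    exact_mod_cast h2
  have hzX : z ≤ X := by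
    have h2 : (z : ℝ) ≤ X := by linarith
    exact_mod_cast h2
  have hxr : (X : ℝ) ≤ x := by exact_mod_cast hXx
  obtain ⟨V, hV⟩ : ∃ V, V = VV (fun _ => {0}) z := ⟨_, rfl⟩
  have hV0 : 0 < V := by rw [hV]; exact VV_pos sys_zero z
  have hVlog : V ≤ 4 / Real.log X := by
    rw [hV]
    exact (VV_zero_le hz2).trans hzlog
  obtain ⟨N, hN⟩ : ∃ N, N = Nat.log 2 X := ⟨_, rfl⟩
  rw [← hN] at hkB hkV hlogz hk4 hXN
  have hzN : z ≤ 2 ^ (N + 1) := by
    rw [hN]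
    exact hzX.trans (Nat.lt_pow_succ_log_self (by norm_num) X).le
  -- the density is not too small
  have hkV' : (k : ℝ) * 3 ^ k ≤ (397 / 100) ^ k * V := by
    have h0 := hVL z (fun _ => {0}) hz2 sys_zero
    rw [← hV] at h0
    have hlz0 : 0 < Real.log z := Real.log_pos (by exact_mod_cast (by omega : 1 < z))
    have h1 : (Real.log z + 1) ^ A ≤ ((N : ℝ) + 2) ^ A :=
      pow_le_pow_left₀ (by linarith) (by linarith) _
    have hcV' : cV ≤ ((N : ℝ) + 2) ^ A * V := h0.trans (mul_le_mul_of_nonneg_right h1 hV0.le)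
    have h2 : (397 / 300 : ℝ) ^ k = (397 / 100) ^ k / 3 ^ k := by
      rw [← div_pow]
      norm_num
    have hlA : 0 < ((N : ℝ) + 2) ^ A := by positivity
    have h3 : k * ((N : ℝ) + 2) ^ A ≤ ((N : ℝ) + 2) ^ A * V * ((397 / 100) ^ k / 3 ^ k) := by
      rw [← h2]
      exact hkV.trans (mul_le_mul_of_nonneg_right hcV' (by positivity))
    have h4 : ((N : ℝ) + 2) ^ A * (k * 3 ^ k) ≤ ((N : ℝ) + 2) ^ A * ((397 / 100) ^ k * V) := by
      calc ((N : ℝ) + 2) ^ A * (k * 3 ^ k) = k * ((N : ℝ) + 2) ^ A * 3 ^ k := by ring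
        _ ≤ ((N : ℝ) + 2) ^ A * V * ((397 / 100) ^ k / 3 ^ k) * 3 ^ k :=
            mul_le_mul_of_nonneg_right h3 (by positivity)
        _ = ((N : ℝ) + 2) ^ A * ((397 / 100) ^ k * V) := by field_simp
    exact le_of_mul_le_mul_left h4 hlA
  -- the sums
  obtain ⟨S, hS⟩ : ∃ S : Finset ℕ, S = (range (3 * k + 1)).filter
    (fun s : ℕ => |(s : ℝ) - 2 * k| ≤ l * √k) := ⟨_, rfl⟩
  rw [← hS] at hsum
  have hsk : √(k : ℝ) * √k = k := Real.mul_self_sqrt (by linarith)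
  have hsk1 : 1 ≤ √(k : ℝ) := by
    rw [Real.one_le_sqrt]
    exact hkr
  have hlsk : 100 * ((l : ℝ) * √k) ≤ k := by
    have h1 : 100 * (l : ℝ) ≤ √k := by
      apply Real.le_sqrt_of_sq_le
      have : (10000 * l ^ 2 : ℝ) ≤ k := by exact_mod_cast hlk
      nlinarith
    calc 100 * ((l : ℝ) * √k) = 100 * l * √k := by ring
      _ ≤ √k * √k := mul_le_mul_of_nonneg_right h1 (by linarith)
      _ = k := hsk
  have hSb : ∀ s : ℕ, |(s : ℝ) - 2 * k| ≤ l * √k → 199 * k ≤ 100 * s ∧ 100 * s ≤ 201 * k := by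
    intro s hs
    have h1 := abs_le.1 hs
    constructor
    · have : (199 * k : ℝ) ≤ 100 * s := by linarith
      exact_mod_cast this
    · have : (100 * s : ℝ) ≤ 201 * k := by linarith
      exact_mod_cast this
  have hGS : ∀ w ∈ Odd_G u l k k R, w.sum ∈ S := by
    intro w hw
    rw [Odd_G, mem_filter] at hw
    have h1 := hSb w.sum hw.2
    rw [hS, mem_filter, mem_range]
    exact ⟨by omega, hw.2⟩
  have hSc : (S.card : ℝ) ≤ 2 * (l * √k) + 1 := by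
    apply Odd_card (a := 2 * k) (by positivity)
    intro s hs
    rw [hS, mem_filter] at hs
    exact hs.2
  have hGw : ∀ w ∈ Odd_G u l k k R, w ∈ words k k ∧ 100 * w.sum ≤ 201 * k := by
    intro w hw
    rw [Odd_G, mem_filter] at hw
    refine ⟨?_, (hSb w.sum hw.2).2⟩
    have h1 := hw.1
    rw [mem_W2, mem_W1] at h1
    exact h1.1.1
  -- the residual part
  have hres := hRes z x ℓ k k (Odd_G u l k k R) σ (fun _ => {0}) (fun w hw => (hGw w hw).1)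
    (fun w hw => (hGw w hw).2) hk10 hz2 hzℓ hℓ6 sys_zero hσ
  rw [← hV] at hres
  have hPb := hP k k R u l (by omega) (by linarith) (by linarith)
  have hres2 : (((Ob σ x (x + ℓ)).filter fun n => Sf (fun _ => {0}) z n ∧
        ¬ Hit (Odd_G u l k k R) (fun _ => Set.univ) n).card : ℝ) ≤ ℓ * V * (η / 5) := by
    refine hres.trans ?_
    have h1 : 1 - P (Odd_G u l k k R) + (1 / 2) ^ (k / 2) ≤ 4 * θ := by linarith
    calc CR * ℓ * V * (1 - P (Odd_G u l k k R) + (1 / 2) ^ (k / 2)) ≤ CR * ℓ * V * (4 * θ) :=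
          mul_le_mul_of_nonneg_left h1 (by positivity)
      _ = ℓ * V * (η / 5) := by
          rw [hθ]
          field_simp
          norm_num
  -- the parts with given sums
  obtain ⟨d, hd⟩ : ∃ d : ℕ → ℝ, d = fun s => (((Ob σ (3 ^ k * x / 2 ^ s)
    (3 ^ k * x / 2 ^ s + 3 ^ k * ℓ / 2 ^ s)).filter fun b => b ∈ F).card : ℝ) /
      (3 ^ k * ℓ / 2 ^ s) + 4 * (1 / 12) ^ k := ⟨_, rfl⟩
  have hd0 : ∀ s ∈ S, 0 ≤ d s := by
    intro s _
    rw [hd]
    positivity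
  have hx0 : (0 : ℝ) ≤ x := Nat.cast_nonneg x
  have hcs : ∀ s ∈ S, (((Ob σ x (x + ℓ)).filter fun n => Sf (fun _ => {0}) z n ∧
        Hit ((W2 u k k R).filter fun w => w.sum = s) (fun _ => F) n).card : ℝ) ≤
        CS * ℓ * V * (√(d s * u / k) * ((R : ℝ) + 1) ^ (4 * 1)) := by
    intro s hs
    have hs' := hs
    rw [hS, mem_filter, mem_range] at hs'
    obtain ⟨s1, s2⟩ := hSb s hs'.2
    rw [hV]
    refine hCS k k s R (N + 1) z u x ℓ (d s) σ F (fun _ => {0}) (by omega) hk1 hu1 (by omega) s2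
      hz2 hzℓ hzN ?_ hℓ6 sys_zero ?_ hσ hx0 (hd0 s hs) ?_
    · exact hkB
    · rw [← hV]
      exact hkV'.trans (mul_le_mul_of_nonneg_right (Odd_two_pow s1) hV0.le)
    · have hW : (24 : ℝ) ^ k ≤ 3 ^ k * ℓ / 2 ^ s := by
        rw [le_div_iff₀ (by positivity)]
        have h1 : (2 : ℝ) ^ s ≤ 2 ^ (3 * k) := pow_le_pow_right₀ (by norm_num) (by omega)
        calc (24 : ℝ) ^ k * 2 ^ s ≤ 24 ^ k * 2 ^ (3 * k) :=
              mul_le_mul_of_nonneg_left h1 (by positivity)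
          _ = 3 ^ k * 2 ^ (6 * k) := by
              rw [pow_mul, pow_mul, ← mul_pow, ← mul_pow]
              norm_num
          _ ≤ 3 ^ k * ℓ := mul_le_mul_of_nonneg_left hℓ6 (by positivity)
      have hW0 : 0 < 3 ^ k * ℓ / 2 ^ s := by positivity
      have h1 := SvB_win hσ F (α := 3 ^ k * x / 2 ^ s) (β := 3 ^ k * x / 2 ^ s + 3 ^ k * ℓ / 2 ^ s)
        (g := 2 ^ k) (one_le_pow₀ (by norm_num))
      have e : 3 ^ k * ((x : ℝ) + ℓ) / 2 ^ s = 3 ^ k * x / 2 ^ s + 3 ^ k * ℓ / 2 ^ s := by ring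
      rw [e]
      refine h1.trans ?_
      have h2 : 4 * (2 : ℝ) ^ k ≤ 4 * (1 / 12) ^ k * (3 ^ k * ℓ / 2 ^ s) := by
        have h3 : (2 : ℝ) ^ k = (1 / 12) ^ k * 24 ^ k := by
          rw [← mul_pow]
          norm_num
        rw [h3, mul_assoc]
        exact mul_le_mul_of_nonneg_left (mul_le_mul_of_nonneg_left hW (by positivity)) (by norm_num)
      have h3 : d s * (3 ^ k * ℓ / 2 ^ s) = (((Ob σ (3 ^ k * x / 2 ^ s)
          (3 ^ k * x / 2 ^ s + 3 ^ k * ℓ / 2 ^ s)).filter fun b => b ∈ F).card : ℝ) +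
          4 * (1 / 12) ^ k * (3 ^ k * ℓ / 2 ^ s) := by
        rw [hd]
        dsimp only
        rw [add_mul, div_mul_cancel₀ _ hW0.ne']
      have h4 : 0 ≤ d s * (2 * 2 ^ k) := mul_nonneg (hd0 s hs) (by positivity)
      rw [mul_add, h3]
      linarith
  have hdsum : ∑ s ∈ S, d s ≤ 2 * δ * √k := by
    have h1 : ∑ s ∈ S, d s = ∑ s ∈ S, (((Ob σ (3 ^ k * x / 2 ^ s)
        (3 ^ k * x / 2 ^ s + 3 ^ k * ℓ / 2 ^ s)).filter fun b => b ∈ F).card : ℝ) /
        (3 ^ k * ℓ / 2 ^ s) + S.card * (4 * (1 / 12) ^ k) := by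
      rw [hd, sum_add_distrib, sum_const, nsmul_eq_mul]
    have h2 : (S.card : ℝ) ≤ 3 * k + 1 := by
      have : S.card ≤ 3 * k + 1 := by
        rw [hS]
        exact (card_filter_le _ _).trans (card_range _).le
      exact_mod_cast this
    have h3 : (S.card : ℝ) * (4 * (1 / 12) ^ k) ≤ δ :=
      (mul_le_mul_of_nonneg_right h2 (by positivity)).trans hsm2
    have h4 : δ ≤ δ * √k := le_mul_of_one_le_right hδ0.le hsk1
    rw [h1]
    linarith
  have hcau := SvB_cauchy (u := u) hd0 hkr (by linarith) hl1r hSc hdsum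
  rw [hδτ] at hcau
  have hmain : ∑ s ∈ S, (((Ob σ x (x + ℓ)).filter fun n => Sf (fun _ => {0}) z n ∧
        Hit ((W2 u k k R).filter fun w => w.sum = s) (fun _ => F) n).card : ℝ) ≤
        ℓ * V * (η / 20) := by
    calc ∑ s ∈ S, (((Ob σ x (x + ℓ)).filter fun n => Sf (fun _ => {0}) z n ∧
        Hit ((W2 u k k R).filter fun w => w.sum = s) (fun _ => F) n).card : ℝ)
        ≤ ∑ s ∈ S, CS * ℓ * V * (√(d s * u / k) * ((R : ℝ) + 1) ^ (4 * 1)) := sum_le_sum hcs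
      _ = CS * ℓ * V * ((R : ℝ) + 1) ^ 4 * ∑ s ∈ S, √(d s * u / k) := by
          rw [mul_sum]
          apply sum_congr rfl
          intro s _
          ring
      _ ≤ CS * ℓ * V * ((R : ℝ) + 1) ^ 4 * τ := mul_le_mul_of_nonneg_left hcau (by positivity)
      _ = ℓ * V * (η / 20) := by
          rw [hτ]
          field_simp
  have hp := SvB_primes hσ (ℓ := ℓ) hXx hX2 hzX F
  have hcov := SvB_cover hσ (ℓ := ℓ) hxr z (fun _ => {0}) hGS F hF
  have hfin : ℓ * V * (η / 5) + ℓ * V * (η / 20) ≤ η * ℓ / Real.log X := by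
    calc ℓ * V * (η / 5) + ℓ * V * (η / 20) = ℓ * (η / 4) * V := by ring
      _ ≤ ℓ * (η / 4) * (4 / Real.log X) := mul_le_mul_of_nonneg_left hVlog (by positivity)
      _ = η * ℓ / Real.log X := by
          ring
  linarith

end Pool.Agent.CPR
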