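import Mathlib
import Pool.Agent.CPR.St
import Pool.Agent.Collatz3.PDMixB

set_option autoImplicit false

/-!
# CPR, module V1: the oscillation at levels beyond the number of letters
-/

namespace Pool.Agent.CPR

open Finset Real Filter
open Pool.Agent.Collatz3.Mix

/-- shifting the level -/
theorem V1_shift {z : ℝ} (hz : 0 < z) {I : ℕ} (hI : 1 ≤ I) (k' w l n : ℕ) (h1 : k' + l ≤ n)
    (h2 : n ≤ k' + w + l) : Vp z I (k' + w) (k' + w + l) ≤ Vp z I k' n := by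
  obtain ⟨v, rfl⟩ := Nat.exists_eq_add_of_le h1
  obtain ⟨x, rfl⟩ : ∃ x, w = v + x := ⟨w - v, by omega⟩
  have e1 : k' + (v + x) = x + (k' + v) := by omega
  have e2 : k' + (v + x) + l = x + (k' + v + l) := by omega
  have e3 : k' + l + v = k' + v + l := by omega
  rw [e2, e1, e3]
  calc Vp z I (x + (k' + v)) (x + (k' + v + l))
      ≤ Vp z I x (x + (k' + v + l)) * Vp z I (k' + v) (k' + v + l) :=
        Vp_comp hz I x (k' + v) (k' + v + l)
    _ ≤ 1 * Vp z I (k' + v) (k' + v + l) :=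
        mul_le_mul_of_nonneg_right (Vp_le_one hz hI _ _) (Vp_nonneg_conv hz I _ _)
    _ = Vp z I (k' + v) (k' + v + l) := one_mul _
    _ ≤ Vp z I k' (k' + v + l) := Vp_anti_left hz hI k' v _

/-- the sum of the `(1/2)^i` -/
theorem V1_Zs (I : ℕ) : Zs (1 / 2) I = 1 - (1 / 2 : ℝ) ^ I := by
  unfold Zs
  induction I with
  | zero => simp
  | succ I ih =>
    rw [Finset.sum_Icc_succ_top (by omega), ih, pow_succ]
    ring

/-- the entropy deficit -/
theorem V1_Df {I : ℕ} {x : ℝ} (hx0 : 2 ≤ x) (hx : x ≤ 2 ^ I) : Df (1 / 2) I ≤ 2 / x := by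
  have e : Df (1 / 2) I = - log (Zs (1 / 2) I) := by
    have e2 : log (1 / (1 / 2 : ℝ)) = log 2 := by norm_num
    unfold Df
    rw [e2]
    ring
  have hp : (1 / 2 : ℝ) ^ I ≤ 1 / x := by
    rw [one_div_pow]
    exact one_div_le_one_div_of_le (by linarith) hx
  have hp2 : 1 / x ≤ 1 / 2 := one_div_le_one_div_of_le (by norm_num) hx0
  have hp0 : (0 : ℝ) ≤ (1 / 2 : ℝ) ^ I := by positivity
  rw [e, V1_Zs]
  have hpos : (0 : ℝ) < 1 - (1 / 2 : ℝ) ^ I := by linarith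
  have h1 := Real.one_sub_inv_le_log_of_pos hpos
  have h2 : (1 - (1 / 2 : ℝ) ^ I)⁻¹ ≤ 1 + 2 * (1 / 2 : ℝ) ^ I := by
    rw [inv_le_iff_one_le_mul₀ hpos]
    nlinarith
  have h3 : 2 / x = 2 * (1 / x) := by ring
  rw [h3]
  linarith

/-- the sum over the levels -/
theorem V1_sum {I k : ℕ} {y : ℝ} (hI1 : 1 ≤ I)
    (p1 : (3 : ℝ) ^ (1 / 2 : ℝ) * em (1 / 2) I (1 / 2) ≤ 1)
    (p3 : e1 (1 / 2) I ≤ 3) (p5 : |log (Zs (1 / 2) I)| ≤ 1 / 4)
    (hy : 3 ≤ y) (hk : (k : ℝ) = y ^ 10) (hIy : 43 * (I : ℝ) ≤ y) (hkI : (k : ℝ) ≤ 2 ^ I) :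
    ∑ n ∈ Ico k (Lh (y ^ 3)⁻¹ I k), Vp (1 / 2) I k n ≤ 12 * y ^ 7 := by
  set δ : ℝ := (y ^ 3)⁻¹ with hδ
  have hl2 := log_two_bounds
  have hy0 : 0 < y := by linarith
  have hδ0 : 0 < δ := by positivity
  have hy3 : (27 : ℝ) ≤ y ^ 3 := by
    calc (27 : ℝ) = 3 ^ 3 := by norm_num
      _ ≤ y ^ 3 := pow_le_pow_left₀ (by norm_num) hy 3
  have hδ1 : δ ≤ 1 / 12 := by
    rw [hδ, ← one_div]
    exact one_div_le_one_div_of_le (by norm_num) (by linarith)
  have hδk : δ * k = y ^ 7 := by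
    rw [hk, hδ]
    field_simp
  have hy6 : (729 : ℝ) ≤ y ^ 6 := by
    calc (729 : ℝ) = 3 ^ 6 := by norm_num
      _ ≤ y ^ 6 := pow_le_pow_left₀ (by norm_num) hy 6
  have hy7 : 729 * y ≤ y ^ 7 := by
    calc 729 * y ≤ y ^ 6 * y := mul_le_mul_of_nonneg_right hy6 hy0.le
      _ = y ^ 7 := by ring
  have hlogy : log y ≤ y - 1 := Real.log_le_sub_one_of_pos hy0
  have hy10 : (3 : ℝ) ≤ y ^ 10 := by
    calc (3 : ℝ) ≤ 3 ^ 10 := by norm_num
      _ ≤ y ^ 10 := pow_le_pow_left₀ (by norm_num) hy 10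
  have hk2r : (2 : ℝ) ≤ k := by rw [hk]; linarith
  have hk2 : 2 ≤ k := by exact_mod_cast hk2r
  have hk0 : (0 : ℝ) < k := by linarith
  have p4 : Df (1 / 2) I ≤ δ := by
    refine (V1_Df hk2r hkI).trans ?_
    rw [div_le_iff₀ hk0, hδk]
    linarith
  have hIr : (1 : ℝ) ≤ I := by exact_mod_cast hI1
  have hpb := pbad_le (z := 1 / 2) (by norm_num) hI1 (α := 1 / 2) (by norm_num) (by norm_num)
    p1 hδ0 (k := k) (L := Lh δ I k) (by omega) (Lh_ge δ I k)
  have hkpb : k * pbad (1 / 2) I k (Lh δ I k) ≤ 42 * y ^ 6 + 1 := by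
    have h1 := mul_le_mul_of_nonneg_left hpb hk0.le
    have h3 : k * (vr (1 / 2) I / (δ / (2 * log 2)) ^ 2 / k + k * exp (-(1 / 2 * (δ / 2))) ^ k) =
        vr (1 / 2) I / (δ / (2 * log 2)) ^ 2 + (k : ℝ) ^ 2 * exp (-(1 / 2 * (δ / 2))) ^ k := by
      generalize vr (1 / 2) I / (δ / (2 * log 2)) ^ 2 = a
      generalize exp (-(1 / 2 * (δ / 2))) ^ k = b
      field_simp
    rw [h3] at h1
    have h4 : vr (1 / 2) I / (δ / (2 * log 2)) ^ 2 ≤ 42 * y ^ 6 := by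
      rw [div_le_iff₀ (by positivity)]
      have e1 : 42 * y ^ 6 * (δ / (2 * log 2)) ^ 2 = 42 / (2 * log 2) ^ 2 := by
        rw [hδ]
        have : log 2 ≠ 0 := by linarith
        field_simp
      rw [e1, le_div_iff₀ (by positivity)]
      have h5 := vr_half_le hI1 p3
      have h6 : (2 * log 2) ^ 2 ≤ 1.96 := by nlinarith
      have h7 : vr (1 / 2) I * (2 * log 2) ^ 2 ≤ 21 * (2 * log 2) ^ 2 :=
        mul_le_mul_of_nonneg_right h5 (by positivity)
      linarith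
    have h5 : (k : ℝ) ^ 2 * exp (-(1 / 2 * (δ / 2))) ^ k ≤ 1 := by
      have e1 : exp (-(1 / 2 * (δ / 2))) ^ k = exp (-(y ^ 7 / 4)) := by
        rw [← Real.exp_nat_mul]
        congr 1
        rw [← hδk]
        ring
      have e2 : (k : ℝ) ^ 2 = exp (20 * log y) := by
        rw [hk, ← pow_mul]
        have : (20 : ℝ) * log y = ((20 : ℕ) : ℝ) * log y := by norm_num
        rw [this, Real.exp_nat_mul, Real.exp_log hy0]
      rw [e1, e2, ← Real.exp_add]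
      apply Real.exp_le_one_iff.2
      linarith
    linarith
  have hVI : (42 * y ^ 6 + 1) * (I : ℝ) ≤ δ * k := by
    rw [hδk]
    have h1 : (I : ℝ) ≤ y / 43 := by
      rw [le_div_iff₀ (by norm_num)]
      linarith
    calc (42 * y ^ 6 + 1) * (I : ℝ) ≤ (42 * y ^ 6 + 1) * (y / 43) :=
          mul_le_mul_of_nonneg_left h1 (by positivity)
      _ ≤ (43 * y ^ 6) * (y / 43) :=
          mul_le_mul_of_nonneg_right (by linarith) (by positivity)
      _ = y ^ 7 := by ring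
  have hlogk : log (I * k + 1) ≤ δ * k := by
    rw [hδk]
    have h1 : (I : ℝ) * k + 1 ≤ y ^ 11 := by
      have h2 : (I : ℝ) ≤ y / 43 := by
        rw [le_div_iff₀ (by norm_num)]
        linarith
      have h3 : (I : ℝ) * k ≤ y / 43 * y ^ 10 := by
        rw [hk]
        exact mul_le_mul_of_nonneg_right h2 (by positivity)
      have h4 : y / 43 * y ^ 10 = y ^ 11 / 43 := by ring
      have h5 : (3 : ℝ) ≤ y ^ 11 := by
        calc (3 : ℝ) ≤ 3 ^ 11 := by norm_num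
          _ ≤ y ^ 11 := pow_le_pow_left₀ (by norm_num) hy 11
      linarith
    have h2 : log (I * k + 1) ≤ log (y ^ 11) := log_le_log (by positivity) h1
    rw [log_pow] at h2
    push_cast at h2
    linarith
  have h6k : 6 ≤ δ * k := by
    rw [hδk]
    linarith
  have hmain := sum_Vp_le (z := 1 / 2) (by norm_num) (by norm_num) hI1 k (Lh δ I k)
  have e2 : log (1 / (1 / 2 : ℝ)) = log 2 := by norm_num
  rw [e2] at hmain
  rw [← hδk]
  exact hmain.trans (collect hδ0 hδ1 hI1 p3 p4 p5 hk2 (by positivity) hkpb hVI hlogk h6k)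

theorem thm_V1 : St_V1 := by
  obtain ⟨I₁, hI₁⟩ := (half_params (δ := 1 / 12) (by norm_num)).exists_forall_of_atTop
  refine ⟨I₁, 100000, ?_⟩
  intro I k l hI hk hk2 hk3 hl
  obtain ⟨hI1, p1, p2, p3, -, p5⟩ := hI₁ I hI
  have hz : (0 : ℝ) < 1 / 2 := by norm_num
  obtain ⟨w, k', hw1, hw2, hkk⟩ : ∃ w k' : ℕ, 50 * w ≤ k ∧ k < 50 * w + 50 ∧ k = k' + w :=
    ⟨k / 50, k - k / 50, by omega, by omega, by omega⟩
  have hk' : 59049 ≤ k' := by omega
  -- the tenth root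
  set y : ℝ := (k' : ℝ) ^ (1 / 10 : ℝ) with hy
  set x : ℝ := (k : ℝ) ^ (1 / 10 : ℝ) with hx
  have hkr0 : (0 : ℝ) < k := by
    have : 0 < k := by omega
    exact_mod_cast this
  have hk'r0 : (0 : ℝ) < k' := by
    have : 0 < k' := by omega
    exact_mod_cast this
  have hy10 : (k' : ℝ) = y ^ 10 := by
    rw [hy, ← rpow_natCast, ← rpow_mul hk'r0.le]
    norm_num
  have hx10 : (k : ℝ) = x ^ 10 := by
    rw [hx, ← rpow_natCast, ← rpow_mul hkr0.le]
    norm_num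
  have hy0 : 0 < y := rpow_pos_of_pos hk'r0 _
  have hx0 : 0 < x := rpow_pos_of_pos hkr0 _
  have hy3 : 3 ≤ y := by
    have h1 : (3 : ℝ) ^ 10 ≤ y ^ 10 := by
      rw [← hy10]
      have : ((59049 : ℕ) : ℝ) ≤ k' := by exact_mod_cast hk'
      norm_num at this ⊢
      exact this
    exact le_of_pow_le_pow_left₀ (by norm_num) hy0.le h1
  have hyx : y ≤ x := by
    have h1 : y ^ 10 ≤ x ^ 10 := by
      rw [← hy10, ← hx10]
      exact_mod_cast (by omega : k' ≤ k)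
    exact le_of_pow_le_pow_left₀ (by norm_num) hx0.le h1
  have hIy : 43 * (I : ℝ) ≤ y := by
    have h1 : (43 * (I : ℝ)) ^ 10 ≤ y ^ 10 := by
      rw [← hy10]
      have h2 : ((50 * I : ℕ) : ℝ) ^ 10 ≤ k := by exact_mod_cast hk3
      push_cast at h2
      have h3 : (k : ℝ) ≤ 2 * k' := by exact_mod_cast (by omega : k ≤ 2 * k')
      have h4 : (43 * (I : ℝ)) ^ 10 * 2 ≤ (50 * (I : ℝ)) ^ 10 := by
        have h5 : (0 : ℝ) ≤ (I : ℝ) ^ 10 := by positivity
        have e1 : (43 * (I : ℝ)) ^ 10 * 2 = 43 ^ 10 * 2 * (I : ℝ) ^ 10 := by ring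
        have e2 : (50 * (I : ℝ)) ^ 10 = 50 ^ 10 * (I : ℝ) ^ 10 := by ring
        rw [e1, e2]
        exact mul_le_mul_of_nonneg_right (by norm_num) h5
      linarith
    exact le_of_pow_le_pow_left₀ (by norm_num) hy0.le h1
  have hkI : (k' : ℝ) ≤ 2 ^ I := by
    have : k' ≤ 2 ^ I := by omega
    exact_mod_cast this
  have hsum := V1_sum hI1 p1 p3 p5 hy3 hy10 hIy hkI
  -- the comparison
  have hL : k + l ≤ Lh (y ^ 3)⁻¹ I k' := le_Lh (by positivity) p2 (by omega)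
  have hw : (w : ℝ) * Vp (1 / 2) I k (k + l) ≤
      ∑ n ∈ Ico k' (Lh (y ^ 3)⁻¹ I k'), Vp (1 / 2) I k' n := by
    have h1 : ∑ n ∈ Ico (k' + l) (k' + l + w), Vp (1 / 2) I k (k + l) ≤
        ∑ n ∈ Ico (k' + l) (k' + l + w), Vp (1 / 2) I k' n := by
      refine sum_le_sum fun n hn => ?_
      rw [mem_Ico] at hn
      rw [hkk]
      exact V1_shift hz hI1 k' w l n hn.1 (by omega)
    rw [sum_const, Nat.card_Ico, nsmul_eq_mul] at h1
    have e : k' + l + w - (k' + l) = w := by omega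
    rw [e] at h1
    refine h1.trans ?_
    exact sum_le_sum_of_subset_of_nonneg (Ico_subset_Ico (by omega) (by omega))
      fun n _ _ => Vp_nonneg_conv hz I k' n
  have hfin : (w : ℝ) * Vp (1 / 2) I k (k + l) ≤ 12 * x ^ 7 := by
    refine (hw.trans hsum).trans ?_
    exact mul_le_mul_of_nonneg_left (pow_le_pow_left₀ hy0.le hyx 7) (by norm_num)
  have hwk : 12 * (k : ℝ) ≤ 700 * w := by
    have : 12 * k ≤ 700 * w := by omega
    exact_mod_cast this
  have hV0 : 0 ≤ Vp (1 / 2) I k (k + l) := Vp_nonneg_conv hz I k (k + l)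
  have h1 : 12 * (k : ℝ) * Vp (1 / 2) I k (k + l) ≤ 700 * (12 * x ^ 7) := by
    calc 12 * (k : ℝ) * Vp (1 / 2) I k (k + l) ≤ 700 * w * Vp (1 / 2) I k (k + l) :=
          mul_le_mul_of_nonneg_right hwk hV0
      _ = 700 * (w * Vp (1 / 2) I k (k + l)) := by ring
      _ ≤ 700 * (12 * x ^ 7) := mul_le_mul_of_nonneg_left hfin (by norm_num)
  have e : (k : ℝ) ^ (-(3 / 10) : ℝ) = (x ^ 3)⁻¹ := by
    rw [rpow_neg hkr0.le, hx, ← rpow_natCast, ← rpow_mul hkr0.le]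
    norm_num
  rw [e]
  have h2 : x ^ 10 * Vp (1 / 2) I k (k + l) ≤ 700 * x ^ 7 := by
    rw [hx10] at h1
    linarith
  have h3 : Vp (1 / 2) I k (k + l) ≤ 700 * x ^ 7 / x ^ 10 := by
    rw [le_div_iff₀ (by positivity)]
    linarith
  refine h3.trans (le_of_eq ?_)
  field_simp

end Pool.Agent.CPR
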