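import Mathlib
import Pool.Agent.CPR.St
import Pool.Agent.Collatz3.PDMixC

set_option autoImplicit false

/-!
# CPR: [V2] and [L1x], mixing at levels beyond the number of letters (helper21)
-/

namespace Pool.Agent.CPR

open Finset Filter
open Pool.Agent.Collatz3.Mix (words Vp Vp_comp Vp_nonneg_conv l1_claw Zs Zs_pos claw extp extp_eq
  sum_range_zmod sum_two_pow_mul)
open Pool.Agent.Collatz3.PD (rd en Fw II P Per Fw_eq)

/-- The size conditions. -/
theorem V2_large : ∃ k₀ : ℕ, ∀ k : ℕ, k₀ ≤ k → 520 * (50 * II k) ^ 10 ≤ k := by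
  have h1 : (fun x : ℝ => Real.log x ^ 10) =o[atTop] (id : ℝ → ℝ) :=
    Real.isLittleO_pow_log_id_atTop
  have h2 := h1.bound (c := 1 / (520 * 1200 ^ 10)) (by positivity)
  obtain ⟨x₀, hx₀⟩ := Filter.eventually_atTop.1 h2
  refine ⟨max 1 ⌈x₀⌉₊, fun k hk => ?_⟩
  have hk1 : 1 ≤ k := le_trans (le_max_left _ _) hk
  have hkx : x₀ ≤ (k : ℝ) := le_trans (Nat.le_ceil _) (by exact_mod_cast (le_max_right _ _).trans hk)
  have hkr : (1 : ℝ) ≤ k := by exact_mod_cast hk1
  have h3 := hx₀ _ hkx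
  have hlog : 0 ≤ Real.log (k : ℝ) := Real.log_nonneg hkr
  rw [Real.norm_of_nonneg (by positivity), id_eq, Real.norm_of_nonneg (by positivity)] at h3
  have h4 : (Nat.log 2 k : ℝ) ≤ 2 * Real.log k := by
    refine (Real.natLog_le_logb k 2).trans ?_
    rw [Real.logb, div_le_iff₀ (Real.log_pos (by norm_num))]
    push_cast
    have := Real.log_two_gt_d9
    nlinarith
  have h5 : ((520 * (50 * II k) ^ 10 : ℕ) : ℝ) ≤ k := by
    unfold Pool.Agent.Collatz3.PD.II
    push_cast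
    calc 520 * (50 * (12 * (Nat.log 2 k : ℝ))) ^ 10
        ≤ 520 * (50 * (12 * (2 * Real.log k))) ^ 10 := by gcongr
      _ = (520 * 1200 ^ 10) * Real.log k ^ 10 := by ring
      _ ≤ (520 * 1200 ^ 10) * (1 / (520 * 1200 ^ 10) * k) := by gcongr
      _ = k := by
        rw [← mul_assoc, mul_one_div_cancel (by positivity), one_mul]
  exact_mod_cast h5

/-- Three compositions. -/
theorem V2_prod (I k c b : ℕ) (hk : 1296 * c ≤ k) (B : ℝ)
    (hV : ∀ k' l, 5 * c ≤ k' → k' ≤ k → 5 * l ≤ k' → Vp (1 / 2) I k' (k' + l) ≤ B)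
    (hb : b ≤ c) : Vp (1 / 2) I k (k + b) ≤ B ^ 4 := by
  have hz : (0 : ℝ) < 1 / 2 := by norm_num
  have n0 : ∀ k n, 0 ≤ Vp (1 / 2) I k n := fun k n => Vp_nonneg_conv hz I k n
  have hB : 0 ≤ B := (n0 _ _).trans (hV k 0 (by omega) le_rfl (by omega))
  have e1 : Vp (1 / 2) I k (k + b) ≤
      Vp (1 / 2) I (k - 215 * c) (k - 215 * c + (215 * c + b)) *
        Vp (1 / 2) I (215 * c) (215 * c + b) := by
    have := Vp_comp hz I (k - 215 * c) (215 * c) (215 * c + b)
    have a1 : k - 215 * c + 215 * c = k := by omega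
    have a2 : k - 215 * c + (215 * c + b) = k + b := by omega
    rw [a1, a2] at this
    rw [a2]
    exact this
  have e2 : Vp (1 / 2) I (215 * c) (215 * c + b) ≤
      Vp (1 / 2) I (180 * c) (180 * c + (35 * c + b)) * Vp (1 / 2) I (35 * c) (35 * c + b) := by
    have := Vp_comp hz I (180 * c) (35 * c) (35 * c + b)
    have a1 : 180 * c + 35 * c = 215 * c := by omega
    have a2 : 180 * c + (35 * c + b) = 215 * c + b := by omega
    rw [a1, a2] at this
    rw [a2]
    exact this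
  have e3 : Vp (1 / 2) I (35 * c) (35 * c + b) ≤
      Vp (1 / 2) I (30 * c) (30 * c + (5 * c + b)) * Vp (1 / 2) I (5 * c) (5 * c + b) := by
    have := Vp_comp hz I (30 * c) (5 * c) (5 * c + b)
    have a1 : 30 * c + 5 * c = 35 * c := by omega
    have a2 : 30 * c + (5 * c + b) = 35 * c + b := by omega
    rw [a1, a2] at this
    rw [a2]
    exact this
  have f1 := hV (k - 215 * c) (215 * c + b) (by omega) (by omega) (by omega)
  have f2 := hV (180 * c) (35 * c + b) (by omega) (by omega) (by omega)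
  have f3 := hV (30 * c) (5 * c + b) (by omega) (by omega) (by omega)
  have f4 := hV (5 * c) b (by omega) (by omega) (by omega)
  calc Vp (1 / 2) I k (k + b) ≤ _ := e1
    _ ≤ B * (B * (B * B)) := by
      refine mul_le_mul f1 (e2.trans ?_) (n0 _ _) hB
      refine mul_le_mul f2 (e3.trans ?_) (n0 _ _) hB
      exact mul_le_mul f3 f4 (n0 _ _) hB
    _ = B ^ 4 := by ring

theorem thm_V2 (h : St_V1) : St_V2 := by
  obtain ⟨I₀, k₁, hV⟩ := h
  obtain ⟨k₂, hk₂⟩ := V2_large
  refine ⟨700 ^ 4 * (520 : ℝ) ^ (6 / 5 : ℝ), max (max k₂ (2 ^ (I₀ + 1))) (max (520 * k₁) 2592),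
    by positivity, fun k b hk hb => ?_⟩
  have a1 : k₂ ≤ k := le_trans ((le_max_left _ _).trans (le_max_left _ _)) hk
  have a2 : 2 ^ (I₀ + 1) ≤ k := le_trans ((le_max_right _ _).trans (le_max_left _ _)) hk
  have a3 : 520 * k₁ ≤ k := le_trans ((le_max_left _ _).trans (le_max_right _ _)) hk
  have a4 : 2592 ≤ k := le_trans ((le_max_right _ _).trans (le_max_right _ _)) hk
  have hlog : I₀ + 1 ≤ Nat.log 2 k := Nat.le_log_of_pow_le (by norm_num) a2
  have hI : I₀ ≤ II k := by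
    unfold Pool.Agent.Collatz3.PD.II
    omega
  have h2I : k ≤ 2 ^ II k := by
    have h1 := Nat.lt_pow_succ_log_self (b := 2) (by norm_num) k
    refine h1.le.trans (Nat.pow_le_pow_right (by norm_num) ?_)
    unfold Pool.Agent.Collatz3.PD.II
    omega
  have hc2 : k ≤ 520 * (5 * (k / 1296)) := by omega
  have hkr : (0 : ℝ) < k := by
    have : 0 < k := by omega
    exact_mod_cast this
  have key := V2_prod (II k) k (k / 1296) b (by omega)
    (700 * ((k : ℝ) / 520) ^ (-(3 / 10) : ℝ)) ?_ (by omega)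
  · refine key.trans (le_of_eq ?_)
    rw [mul_pow, ← Real.rpow_natCast (((k : ℝ) / 520) ^ (-(3 / 10) : ℝ)) 4, ← Real.rpow_mul
      (by positivity), Real.div_rpow (by positivity) (by norm_num)]
    have e : (-(3 / 10) : ℝ) * ((4 : ℕ) : ℝ) = -(6 / 5) := by norm_num
    rw [e, Real.rpow_neg (by norm_num : (0 : ℝ) ≤ 520)]
    field_simp
  · intro k' l h1 h2 h3
    refine (hV (II k) k' l hI (by omega) (h2.trans h2I) ?_ h3).trans ?_
    · have := hk₂ k a1
      have h5 : 520 * (50 * II k) ^ 10 ≤ 520 * k' := by omega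
      exact Nat.le_of_mul_le_mul_left h5 (by norm_num)
    · have h4 : (k : ℝ) / 520 ≤ k' := by
        rw [div_le_iff₀ (by norm_num)]
        have : k ≤ k' * 520 := by omega
        exact_mod_cast this
      have h5 : (k' : ℝ) ^ (-(3 / 10) : ℝ) ≤ ((k : ℝ) / 520) ^ (-(3 / 10) : ℝ) :=
        Real.rpow_le_rpow_of_nonpos (by positivity) h4 (by norm_num)
      linarith

theorem thm_L1x (h : St_V2) : St_L1x := by
  obtain ⟨C, k₀, hC, hV⟩ := h
  intro ε hε
  have hlim : Tendsto (fun k : ℕ => (k : ℝ) ^ (-(1 / 5) : ℝ)) atTop (nhds 0) :=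
    (tendsto_rpow_neg_atTop (by norm_num : (0 : ℝ) < 1 / 5)).comp tendsto_natCast_atTop_atTop
  have hev := (tendsto_order.1 hlim).2 (ε ^ 2 / (8 * C)) (by positivity)
  filter_upwards [hev, eventually_ge_atTop (max k₀ 2)] with k hk1 hk2 b hb
  have hk0 : k₀ ≤ k := (le_max_left _ _).trans hk2
  have hk3 : 2 ≤ k := (le_max_right _ _).trans hk2
  have hkr : (0 : ℝ) < k := by
    have : 0 < k := by omega
    exact_mod_cast this
  have hz : (0 : ℝ) < 1 / 2 := by norm_num
  have hI1 : 1 ≤ II k := by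
    unfold Pool.Agent.Collatz3.PD.II
    have : 1 ≤ Nat.log 2 k := Nat.le_log_of_pow_le (by norm_num) (by omega)
    omega
  have hZ := Zs_pos (z := 1 / 2) (by norm_num) hI1
  have hZ1 : Zs (1 / 2) (II k) ≤ 1 := by
    unfold Pool.Agent.Collatz3.Mix.Zs
    have h1 : ∀ n : ℕ, ∑ i ∈ Icc 1 n, (1 / 2 : ℝ) ^ i = 1 - (1 / 2) ^ n := by
      intro n
      induction n with
      | zero => simp
      | succ n ih =>
        rw [Finset.sum_Icc_succ_top (by omega), ih, pow_succ]
        ring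
    rw [h1]
    have : (0 : ℝ) ≤ (1 / 2) ^ II k := by positivity
    linarith
  have hmain : 2 * √(2 * ∑ l ∈ range b, Vp (1 / 2) (II k) k (k + l)) ≤ ε := by
    have h1 : ∑ l ∈ range b, Vp (1 / 2) (II k) k (k + l) ≤ C * (k : ℝ) ^ (-(1 / 5) : ℝ) := by
      calc ∑ l ∈ range b, Vp (1 / 2) (II k) k (k + l)
          ≤ ∑ _l ∈ range b, C * (k : ℝ) ^ (-(6 / 5) : ℝ) := by
            apply sum_le_sum
            intro l hl
            rw [mem_range] at hl
            exact hV k l hk0 (by omega)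
        _ = b * (C * (k : ℝ) ^ (-(6 / 5) : ℝ)) := by
            rw [sum_const, card_range, nsmul_eq_mul]
        _ ≤ k * (C * (k : ℝ) ^ (-(6 / 5) : ℝ)) := by
            apply mul_le_mul_of_nonneg_right _ (by positivity)
            have : b ≤ k := by omega
            exact_mod_cast this
        _ = C * (k : ℝ) ^ (-(1 / 5) : ℝ) := by
            have e : (k : ℝ) ^ (-(1 / 5) : ℝ) = k * (k : ℝ) ^ (-(6 / 5) : ℝ) := by
              have e2 : (-(1 / 5) : ℝ) = 1 + (-(6 / 5)) := by norm_num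
              rw [e2, Real.rpow_add hkr, Real.rpow_one]
            rw [e]
            ring
    have h2 : C * (k : ℝ) ^ (-(1 / 5) : ℝ) ≤ ε ^ 2 / 8 := by
      calc C * (k : ℝ) ^ (-(1 / 5) : ℝ) ≤ C * (ε ^ 2 / (8 * C)) := by gcongr
        _ = ε ^ 2 / 8 := by
          field_simp
    have h3 : √(2 * ∑ l ∈ range b, Vp (1 / 2) (II k) k (k + l)) ≤ ε / 2 := by
      rw [Real.sqrt_le_left (by positivity)]
      calc 2 * ∑ l ∈ range b, Vp (1 / 2) (II k) k (k + l) ≤ 2 * (ε ^ 2 / 8) := by linarith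
        _ = (ε / 2) ^ 2 := by ring
    linarith
  refine le_trans ?_ ((l1_claw hz hI1 k k b).trans hmain)
  apply sum_le_sum
  intro s _
  have h1 : ∀ x ∈ range (3 ^ (k + b)),
      |Fw (II k) k s (k + b) (x : ℤ) - Fw (II k) k s k (x : ℤ) / 3 ^ b| ≤
      (fun y : ZMod (3 ^ (k + b)) => (fun y => |claw (1 / 2) (II k) k s (k + b) y -
        extp (claw (1 / 2) (II k) k s) k b y|) (2 ^ s * y)) (x : ZMod (3 ^ (k + b))) := by
    intro x _
    simp only
    rw [Fw_eq _ _ _ _ hI1, Fw_eq _ _ _ _ hI1, extp_eq, map_mul, map_pow, map_ofNat, map_natCast,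
      mul_div_assoc, ← mul_sub, abs_mul, abs_of_pos (pow_pos hZ _)]
    exact mul_le_of_le_one_left (abs_nonneg _) (pow_le_one₀ hZ.le hZ1)
  refine (sum_le_sum h1).trans (le_of_eq ?_)
  rw [sum_range_zmod (k + b) (fun y : ZMod (3 ^ (k + b)) => (fun y =>
      |claw (1 / 2) (II k) k s (k + b) y - extp (claw (1 / 2) (II k) k s) k b y|) (2 ^ s * y)),
    sum_two_pow_mul (k + b) s (fun y => |claw (1 / 2) (II k) k s (k + b) y -
        extp (claw (1 / 2) (II k) k s) k b y|)]

end Pool.Agent.CPR
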