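import Mathlib
import Pool.Agent.CPR.St
import Pool.Agent.Helper86.CollatzRate

set_option autoImplicit false

/-!
# CPR: the sum of `vv` over a window
-/

namespace Pool.Agent.CPR

open Finset Filter
open Pool.Agent.Helper86.CollatzChain (vv)

theorem Win_val_fact (m : ℕ) :
    ∑ i ∈ range (m + 1), padicValNat 2 i = padicValNat 2 (m.factorial) := by
  induction m with
  | zero => simp
  | succ m ih =>
    rw [Finset.sum_range_succ, ih, Nat.factorial_succ,
      padicValNat.mul (Nat.succ_ne_zero m) (Nat.factorial_ne_zero m), add_comm]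

theorem Win_fact (m : ℕ) :
    padicValNat 2 (m.factorial) + (Nat.digits 2 m).sum = m := by
  have h1 := sub_one_mul_padicValNat_factorial (p := 2) m
  have h2 := Nat.digit_sum_le 2 m
  have h3 : (2 - 1) * padicValNat 2 (m.factorial) = padicValNat 2 (m.factorial) := by norm_num
  rw [h3] at h1
  omega

theorem Win_digits_le (m : ℕ) (hm : m ≠ 0) : (Nat.digits 2 m).sum ≤ Nat.log 2 m + 1 := by
  have h1 : (Nat.digits 2 m).length = Nat.log 2 m + 1 := Nat.length_digits 2 m (by norm_num) hm
  have h2 : (Nat.digits 2 m).sum ≤ (Nat.digits 2 m).length * 1 := by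
    have h3 := List.sum_le_card_nsmul (Nat.digits 2 m) 1 (fun x hx => by
      have := Nat.digits_lt_base (by norm_num : 1 < 2) hx
      omega)
    simpa using h3
  omega

theorem Win_digits_pos (m : ℕ) (hm : m ≠ 0) : 1 ≤ (Nat.digits 2 m).sum := by
  by_contra h
  have h0 : (Nat.digits 2 m).sum = 0 := by omega
  have h1 : ∀ x ∈ Nat.digits 2 m, x = 0 := List.sum_eq_zero_iff.1 h0
  have h2 : Nat.digits 2 m ≠ [] := by
    intro h3
    exact hm (Nat.digits_eq_nil_iff_eq_zero.1 h3)
  exact Nat.getLast_digit_ne_zero 2 hm (h1 _ (List.getLast_mem h2))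

theorem Win_up (m : ℕ) : ∑ i ∈ range m, padicValNat 2 i ≤ m - 2 := by
  rcases Nat.lt_or_ge m 2 with h | h
  · interval_cases m <;> simp
  · obtain ⟨k, rfl⟩ : ∃ k, m = k + 1 := ⟨m - 1, by omega⟩
    rw [Win_val_fact]
    have h1 := Win_fact k
    have h2 := Win_digits_pos k (by omega)
    omega

theorem Win_low (m : ℕ) : m ≤ ∑ i ∈ range m, padicValNat 2 i + 2 + Nat.log 2 m := by
  rcases Nat.lt_or_ge m 2 with h | h
  · interval_cases m <;> simp
  · obtain ⟨k, rfl⟩ : ∃ k, m = k + 1 := ⟨m - 1, by omega⟩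
    rw [Win_val_fact]
    have h1 := Win_fact k
    have h2 := Win_digits_le k (by omega)
    have h3 : Nat.log 2 k ≤ Nat.log 2 (k + 1) := Nat.log_mono_right (Nat.le_succ k)
    omega

theorem Win_vv_le (i : ℕ) : vv i ≤ padicValNat 2 i + 2 := by
  rcases Nat.eq_zero_or_pos i with rfl | h
  · simp [vv]
  · exact Pool.Agent.Helper86.CollatzRate.vv_le_val (by omega)

theorem thm_Win : St_Win := by
  intro a n
  have h1 : ∑ i ∈ range n, vv (a + i) ≤ ∑ i ∈ range n, (padicValNat 2 (a + i) + 2) :=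
    Finset.sum_le_sum (fun i _ => Win_vv_le (a + i))
  have h2 : ∑ i ∈ range n, (padicValNat 2 (a + i) + 2) =
      ∑ i ∈ range n, padicValNat 2 (a + i) + 2 * n := by
    rw [Finset.sum_add_distrib]
    simp [mul_comm]
  have h3 : ∑ i ∈ range (a + n), padicValNat 2 i =
      ∑ i ∈ range a, padicValNat 2 i + ∑ i ∈ range n, padicValNat 2 (a + i) :=
    Finset.sum_range_add _ a n
  have h4 := Win_up (a + n)
  have h5 := Win_low a
  have h6 : Nat.log 2 a ≤ Nat.log 2 (a + n) := Nat.log_mono_right (Nat.le_add_right a n)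
  omega

end Pool.Agent.CPR
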