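import Mathlib
import Pool.Agent.Collatz3.PRAll
import Pool.Agent.CPR.AvB
import Pool.Agent.CPR.Blk
import Pool.Agent.CPR.CSB
import Pool.Agent.CPR.Cov
import Pool.Agent.CPR.Cross
import Pool.Agent.CPR.D
import Pool.Agent.CPR.Dodd
import Pool.Agent.CPR.Est
import Pool.Agent.CPR.Evt
import Pool.Agent.CPR.Exc
import Pool.Agent.CPR.Extr
import Pool.Agent.CPR.Fin
import Pool.Agent.CPR.GJ
import Pool.Agent.CPR.Gs
import Pool.Agent.CPR.Hit
import Pool.Agent.CPR.Mass
import Pool.Agent.CPR.Mix2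
import Pool.Agent.CPR.NonHit
import Pool.Agent.CPR.Par
import Pool.Agent.CPR.Per
import Pool.Agent.CPR.Pers
import Pool.Agent.CPR.Ptw
import Pool.Agent.CPR.ResB
import Pool.Agent.CPR.SvB
import Pool.Agent.CPR.V1
import Pool.Agent.CPR.V2
import Pool.Agent.CPR.Win

set_option autoImplicit false

/-!
# CPR: a positive proportion of the primes lies in every invariant set of positive density
-/

namespace Pool.Agent.CPR

open Pool.Agent.Collatz3.PR (St_Chain thm_Chain thm_Loc thm_Pt thm_Err thm_Avg thm_Div thm_Sing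
  thm_S1 thm_S2 thm_Tail3)

theorem all_Sum1 : St_Sum1 := thm_Sum1 thm_Mix2

theorem all_NonHit : St_NonHit := thm_NonHit thm_Mix2 thm_Gs

theorem all_Exc : St_Exc := thm_Exc thm_GJ all_Sum1

theorem all_Blk : St_Blk := thm_Blk all_Exc (thm_Cov all_NonHit all_Exc thm_GJ thm_Mass) thm_GJ

theorem all_D : St_D := thm_D (thm_Dodd (thm_L1x (thm_V2 thm_V1)) all_NonHit all_Sum1 thm_GJ)

theorem all_Est : St_Est := thm_Est all_Blk thm_Inv all_Sum1 thm_Mass thm_Tail3
  (thm_Ptw thm_Extr thm_Per thm_Par) (thm_AvB thm_Cross thm_Per thm_Par) thm_Mix2 thm_Per thm_Par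

theorem all_Pers : St_Pers := thm_Pers all_Est (thm_Evt all_D (thm_Hit thm_Win) thm_Per thm_Par)

theorem all_SvB : St_SvB :=
  have hCh : St_Chain := thm_Chain thm_Loc thm_Pt thm_Err
  thm_SvB (thm_ResB thm_S1) (thm_CSB (thm_Avg hCh (thm_Div hCh) thm_Sing) thm_S2)

theorem all_Fin : St_Fin := thm_Fin all_SvB all_Pers

end Pool.Agent.CPR
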