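import Mathlib
import Pool.Agent.CPR.St

set_option autoImplicit false

/-!
# CPR [Mix2], [Sum1]: sums of periodic functions
-/

namespace Pool.Agent.CPR

open Finset
open Pool.Agent.Collatz3.PD (Per)

theorem Mix2_eq {N : ℕ} (F : ℤ → ℝ) (hF : ∀ x t : ℤ, F (x + (N : ℤ) * t) = F x) {x y : ℤ}
    (h : (x : ZMod N) = (y : ZMod N)) : F x = F y := by
  have h1 := (ZMod.intCast_eq_intCast_iff x y N).1 h
  obtain ⟨t, ht⟩ := (Int.modEq_iff_dvd.1 h1)
  have e : y = x + (N : ℤ) * t := by linarith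
  rw [e, hF]

theorem Mix2_sum {N : ℕ} [NeZero N] (F : ℤ → ℝ) (hF : ∀ x t : ℤ, F (x + (N : ℤ) * t) = F x)
    (a : ℤ) : ∑ i ∈ range N, F (a + i) = ∑ z : ZMod N, F (z.val : ℤ) := by
  refine Finset.sum_nbij' (fun i : ℕ => ((a + i : ℤ) : ZMod N))
    (fun z : ZMod N => (z - (a : ZMod N)).val) ?_ ?_ ?_ ?_ ?_
  · intro i _
    exact Finset.mem_univ _
  · intro z _
    exact Finset.mem_range.2 (ZMod.val_lt _)
  · intro i hi
    have e : (((a + i : ℤ) : ZMod N) - (a : ZMod N)) = ((i : ℕ) : ZMod N) := by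
      push_cast
      ring
    simp only [e]
    exact ZMod.val_natCast_of_lt (Finset.mem_range.1 hi)
  · intro z _
    push_cast
    rw [ZMod.natCast_zmod_val]
    ring
  · intro i _
    apply Mix2_eq F hF
    rw [Int.cast_natCast, ZMod.natCast_zmod_val]

theorem Mix2_full (M κ : ℕ) (f g : ℤ → ℝ) (hf : Per κ f)
    (hg : ∀ x t : ℤ, g (x + 2 ^ M * t) = g x) (a : ℤ) :
    ∑ i ∈ range (3 ^ κ * 2 ^ M), f (a + i) * g (a + i) =
      (∑ x ∈ range (3 ^ κ), f x) * ∑ x ∈ range (2 ^ M), g x := by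
  haveI h3 : NeZero (3 ^ κ) := ⟨by positivity⟩
  haveI h2 : NeZero (2 ^ M) := ⟨by positivity⟩
  haveI h6 : NeZero (3 ^ κ * 2 ^ M) := ⟨by positivity⟩
  have hf' : ∀ x t : ℤ, f (x + ((3 ^ κ : ℕ) : ℤ) * t) = f x := by
    intro x t
    rw [show (((3 ^ κ : ℕ) : ℤ)) = 3 ^ κ by push_cast; rfl]
    exact hf x t
  have hg' : ∀ x t : ℤ, g (x + ((2 ^ M : ℕ) : ℤ) * t) = g x := by
    intro x t
    rw [show (((2 ^ M : ℕ) : ℤ)) = 2 ^ M by push_cast; rfl]
    exact hg x t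
  have hfg : ∀ x t : ℤ, (fun y => f y * g y) (x + ((3 ^ κ * 2 ^ M : ℕ) : ℤ) * t) =
      (fun y => f y * g y) x := by
    intro x t
    have e1 : x + ((3 ^ κ * 2 ^ M : ℕ) : ℤ) * t = x + ((3 ^ κ : ℕ) : ℤ) * (2 ^ M * t) := by
      push_cast
      ring
    have e2 : x + ((3 ^ κ * 2 ^ M : ℕ) : ℤ) * t = x + ((2 ^ M : ℕ) : ℤ) * (3 ^ κ * t) := by
      push_cast
      ring
    show f _ * g _ = _
    rw [e1, hf', ← e1, e2, hg']
  have s1 := Mix2_sum (fun y => f y * g y) hfg a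
  have s2 := Mix2_sum f hf' 0
  have s3 := Mix2_sum g hg' 0
  simp only [zero_add] at s2 s3
  rw [s2, s3]
  have s1' : ∑ i ∈ range (3 ^ κ * 2 ^ M), f (a + i) * g (a + i) =
      ∑ z : ZMod (3 ^ κ * 2 ^ M), f (z.val : ℤ) * g (z.val : ℤ) := s1
  rw [s1']
  have hco : Nat.Coprime (3 ^ κ) (2 ^ M) := Nat.Coprime.pow _ _ (by norm_num)
  have key : ∑ z : ZMod (3 ^ κ * 2 ^ M), f (z.val : ℤ) * g (z.val : ℤ) =
      ∑ p : ZMod (3 ^ κ) × ZMod (2 ^ M), f (p.1.val : ℤ) * g (p.2.val : ℤ) := by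
    refine Fintype.sum_equiv (ZMod.chineseRemainder hco).toEquiv _ _ ?_
    intro z
    have hz : ((z.val : ℕ) : ZMod (3 ^ κ * 2 ^ M)) = z := ZMod.natCast_zmod_val z
    have hz1 : (ZMod.chineseRemainder hco) z = ((z.val : ℕ) : ZMod (3 ^ κ) × ZMod (2 ^ M)) := by
      conv_lhs => rw [← hz]
      exact map_natCast _ _
    have e1 : ((ZMod.chineseRemainder hco).toEquiv z).1 = ((z.val : ℕ) : ZMod (3 ^ κ)) := by
      show ((ZMod.chineseRemainder hco) z).1 = _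
      rw [hz1]
      simp
    have e2 : ((ZMod.chineseRemainder hco).toEquiv z).2 = ((z.val : ℕ) : ZMod (2 ^ M)) := by
      show ((ZMod.chineseRemainder hco) z).2 = _
      rw [hz1]
      simp
    rw [e1, e2]
    have k1 : f (z.val : ℤ) = f ((((z.val : ℕ) : ZMod (3 ^ κ)).val : ℕ) : ℤ) := by
      apply Mix2_eq f hf'
      rw [Int.cast_natCast, Int.cast_natCast, ZMod.natCast_zmod_val]
    have k2 : g (z.val : ℤ) = g ((((z.val : ℕ) : ZMod (2 ^ M)).val : ℕ) : ℤ) := by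
      apply Mix2_eq g hg'
      rw [Int.cast_natCast, Int.cast_natCast, ZMod.natCast_zmod_val]
    rw [← k1, ← k2]
  rw [key, Fintype.sum_prod_type, Finset.sum_mul_sum]

theorem thm_Mix2 : St_Mix2 := by
  intro M κ f g hf hg f0 g0 a L
  set N : ℕ := 3 ^ κ * 2 ^ M with hN
  have hNpos : 0 < N := by positivity
  set q : ℕ := L / N with hq
  have hL : L ≤ (q + 1) * N := by
    have := Nat.lt_div_mul_add hNpos (a := L)
    rw [← hq] at this
    calc L ≤ q * N + N := this.le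
      _ = (q + 1) * N := by ring
  have hper : ∀ (b : ℤ), ∑ i ∈ range N, f (b + i) * g (b + i) =
      (∑ x ∈ range (3 ^ κ), f x) * ∑ x ∈ range (2 ^ M), g x := fun b =>
    Mix2_full M κ f g hf hg b
  have hsum : ∀ n : ℕ, ∑ i ∈ range (n * N), f (a + i) * g (a + i) =
      n * ((∑ x ∈ range (3 ^ κ), f x) * ∑ x ∈ range (2 ^ M), g x) := by
    intro n
    induction n with
    | zero => simp
    | succ n ih =>
      rw [show (n + 1) * N = n * N + N by ring, Finset.sum_range_add, ih]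
      have e : ∑ x ∈ range N, f (a + ((n * N + x : ℕ) : ℤ)) * g (a + ((n * N + x : ℕ) : ℤ)) =
          ∑ x ∈ range N, f ((a + ((n * N : ℕ) : ℤ)) + x) * g ((a + ((n * N : ℕ) : ℤ)) + x) := by
        apply Finset.sum_congr rfl
        intro x _
        rw [show a + ((n * N + x : ℕ) : ℤ) = (a + ((n * N : ℕ) : ℤ)) + x by push_cast; ring]
      rw [e, hper]
      push_cast
      ring
  have hB0 : 0 ≤ (∑ x ∈ range (3 ^ κ), f x) * ∑ x ∈ range (2 ^ M), g x :=
    mul_nonneg (Finset.sum_nonneg fun _ _ => f0 _) (Finset.sum_nonneg fun _ _ => g0 _)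
  calc ∑ i ∈ range L, f (a + i) * g (a + i)
      ≤ ∑ i ∈ range ((q + 1) * N), f (a + i) * g (a + i) :=
        Finset.sum_le_sum_of_subset_of_nonneg (Finset.range_mono hL)
          fun _ _ _ => mul_nonneg (f0 _) (g0 _)
    _ = ((q + 1 : ℕ) : ℝ) * ((∑ x ∈ range (3 ^ κ), f x) * ∑ x ∈ range (2 ^ M), g x) := hsum _
    _ ≤ ((L : ℝ) / (2 ^ M * 3 ^ κ) + 1) *
        ((∑ x ∈ range (3 ^ κ), f x) * ∑ x ∈ range (2 ^ M), g x) := by
        apply mul_le_mul_of_nonneg_right _ hB0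
        have h1 : ((q : ℕ) : ℝ) ≤ (L : ℝ) / (N : ℝ) := Nat.cast_div_le
        have h2 : (N : ℝ) = 2 ^ M * 3 ^ κ := by
          rw [hN]
          push_cast
          ring
        rw [h2] at h1
        push_cast
        linarith

theorem thm_Sum1 (h : St_Mix2) : St_Sum1 := by
  intro σ hσ κ f hf f0 α L hL
  set u : ℤ := ⌊α⌋ with hu
  set v : ℤ := ⌊α + L⌋ with hv
  have h3 : (1 : ℝ) ≤ 3 ^ κ := one_le_pow₀ (by norm_num)
  have hL0 : 0 ≤ L := by linarith
  have huv : u ≤ v := Int.floor_le_floor (by linarith)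
  set K : ℕ := (v - u).toNat with hK
  have hKz : (K : ℤ) = v - u := Int.toNat_of_nonneg (by linarith)
  have hKr : (K : ℝ) ≤ L + 1 := by
    have h4 : ((K : ℤ) : ℝ) = (v : ℝ) - u := by
      rw [hKz]
      push_cast
      ring
    have h5 : (K : ℝ) = (v : ℝ) - u := by exact_mod_cast h4
    have h6 := Int.floor_le (α + L)
    have h7 := Int.lt_floor_add_one α
    rw [← hv] at h6
    rw [← hu] at h7
    linarith
  obtain ⟨a, ha⟩ : ∃ a : ℤ, Ob σ α (α + L) ⊆ (range K).image fun i : ℕ => a + (i : ℤ) := by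
    rcases hσ with rfl | rfl
    · refine ⟨u + 1, ?_⟩
      intro n hn
      rw [mem_Ob (Or.inl rfl)] at hn
      obtain ⟨_, h1, h2⟩ := hn
      have h1' : u < 1 * n := Int.floor_lt.2 h1
      have h2' : 1 * n ≤ v := Int.le_floor.2 h2
      rw [Finset.mem_image]
      refine ⟨(n - (u + 1)).toNat, ?_, ?_⟩
      · rw [Finset.mem_range]
        omega
      · omega
    · refine ⟨-v, ?_⟩
      intro n hn
      rw [mem_Ob (Or.inr rfl)] at hn
      obtain ⟨_, h1, h2⟩ := hn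
      have h1' : u < -1 * n := Int.floor_lt.2 h1
      have h2' : -1 * n ≤ v := Int.le_floor.2 h2
      rw [Finset.mem_image]
      refine ⟨(n + v).toNat, ?_, ?_⟩
      · rw [Finset.mem_range]
        omega
      · omega
  have hm := h 0 κ f (fun _ => 1) hf (fun _ _ => rfl) f0 (fun _ => zero_le_one) a K
  have hinj : Set.InjOn (fun i : ℕ => a + (i : ℤ)) (range K : Set ℕ) := by
    intro x _ y _ hxy
    have : a + (x : ℤ) = a + (y : ℤ) := hxy
    omega
  have hS0 : 0 ≤ ∑ x ∈ range (3 ^ κ), f x := Finset.sum_nonneg fun _ _ => f0 _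
  calc ∑ n ∈ Ob σ α (α + L), f n
      ≤ ∑ n ∈ (range K).image (fun i : ℕ => a + (i : ℤ)), f n :=
        Finset.sum_le_sum_of_subset_of_nonneg ha fun _ _ _ => f0 _
    _ = ∑ i ∈ range K, f (a + i) := Finset.sum_image hinj
    _ = ∑ i ∈ range K, f (a + i) * 1 := by simp
    _ ≤ ((K : ℝ) / (2 ^ 0 * 3 ^ κ) + 1) *
        ((∑ x ∈ range (3 ^ κ), f x) * ∑ x ∈ range (2 ^ 0), (1 : ℝ)) := hm
    _ = ((K : ℝ) / 3 ^ κ + 1) * ∑ x ∈ range (3 ^ κ), f x := by simp
    _ ≤ 3 * L / 3 ^ κ * ∑ x ∈ range (3 ^ κ), f x := by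
        apply mul_le_mul_of_nonneg_right _ hS0
        rw [div_add_one (by positivity), div_le_div_iff_of_pos_right (by positivity)]
        linarith

end Pool.Agent.CPR
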