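import Mathlib
import Pool.Agent.CPR.St

set_option autoImplicit false

/-!
# CPR: the upper bound
-/

namespace Pool.Agent.CPR

open Finset Filter
open Pool.Agent.Collatz3.DN (EvInv)

/-- [Upp] The relative density of `A` in the primes is at most `C d^(1/4)`.  Pieces: the theorems of
`PRAll` (no new sieve work): `thm_Res thm_S1 : St_Res`,
`thm_CS (thm_Avg hCh (thm_Div hCh) thm_Sing) thm_S2 : St_CS`, `thm_Tail1, 2, 3`, `thm_VL`,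
`PRPrimes` (`sys_zero, VV_zero_le, prime_Sf`).
`κ = 1`, `Ω p = {0}`, `X = x`, `z = ⌊√x⌋`, so `VV ≤ 1 / log z ≤ 3 / log x`;
`I = k = A₁ (⌊log₂ log₂ x⌋ + 1)` with a large `A₁` (conditions of `St_CS`: `z ≤ 2^B`, `B = log₂ x + 1`,
`B^12 (4/5)^(k/2) ≤ 1`, `k 3^k ≤ 2^s VV` for `|s - 2k| ≤ l √k`, `VV ≥ c / (log z + 1)^A` by `thm_VL`).
`0 < d ≤ 1` (density).  `u = d^(-1/3)`, `l = ⌈log (1/d)⌉ + 1`, `R = ⌈log (1/d) / (3 log (1/ρ))⌉`,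
`G = W2 u k k R ∩ {|sum - 2k| ≤ l √k}`; `l, R, u` are fixed while `x → ∞`.
The primes `p ≤ √x`: at most `√x`.  For `√x < p ≤ x`, `n = σ p ∈ A`: `Sf Ω z n`, `n ∈ Od σ x`.
(a) `n` not hit by `G`: `St_Res`, `≤ C x VV (1 - P G + 2^(-k/2))`,
`1 - P G ≤ k 2^(-k) + 1/u + C ρ^R + C e^(-l/2) ≤ C' d^(1/3)` for large `x`.
(b) `n = en w b`, `w ∈ G`, `b` odd; `w.sum ≤ k²`, `|n| > √x > 2^(k²) C₁`, so `b ∈ A` (`T_en`, `inv_iter`).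
For each `s` with `|s - 2k| ≤ l √k` (at most `2 l √k + 1` of them): `St_CS` with `F = A`, `δ = d`: the
hypothesis `#{b ∈ Od σ Y, b ∈ A} ≤ d Y`, `Y = 3^k x / 2^s + 2^k`, holds for large `x` since the left side
is `(d/2 + o(1)) Y` (`Dens` with `q = 2`, `r = 1`) and `Y ≥ √x`.  The sum over `s` is
`≤ 3 l √k · C x VV √(d u / k) (R + 1)^4 = 3 C x VV l (R + 1)^4 d^(1/3) ≤ C'' d^(1/4) x / log x`, because
`l (R + 1)^4 d^(1/12)` is bounded for `0 < d ≤ 1` (`exp`/`log` inequality). -/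
def St_Upp : Prop := ∃ C : ℝ, 0 < C ∧ ∀ (C₁ : ℕ) (A : Set ℤ) (σ : ℤ) (d : ℝ), (σ = 1 ∨ σ = -1) →
  EvInv C₁ A → Dens σ A d → 0 < d → ∀ᶠ x : ℝ in atTop,
  (Set.ncard {p : ℕ | p.Prime ∧ (p : ℝ) ≤ x ∧ σ * (p : ℤ) ∈ A} : ℝ) ≤
    C * d ^ (1 / 4 : ℝ) * (x / Real.log x)

end Pool.Agent.CPR
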