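import Mathlib
import Pool.Agent.CPR.St2
import Pool.Agent.Collatz3.PRAll
import Pool.Agent.Collatz3.PRPrimes

set_option autoImplicit false

/-!
# CPR, module Upp: the upper bound for the relative density in the primes
-/

namespace Pool.Agent.CPR

open Finset Filter
open Pool.Agent.Collatz3.Mix (words mem_words)
open Pool.Agent.Collatz3.PD (rd en P Per)
open Pool.Agent.Collatz3.FW (Hit Od mem_Od)
open Pool.Agent.Collatz3.DN (EvInv)
open Pool.Agent.Collatz3.PR (Sf VV W2 mem_W2 mem_W1 Odd_G Odd_P Odd_log Odd_num Odd_two_pow Odd_card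
  St_Chain)
open Pool.Agent.Helper90.Straus (Sys)

theorem Upp_le_one {σ : ℤ} {A : Set ℤ} {d : ℝ} (h : Dens σ A d) : d ≤ 1 := by
  have h1 := h 1 0 le_rfl
  have h2 : Tendsto (fun x : ℝ => 1 + x⁻¹) atTop (nhds (1 + 0)) :=
    tendsto_const_nhds.add tendsto_inv_atTop_zero
  rw [add_zero] at h2
  refine le_of_tendsto_of_tendsto h1 h2 ?_
  filter_upwards [eventually_gt_atTop 0] with x hx
  rw [div_le_iff₀ hx, add_mul, one_mul, inv_mul_cancel₀ hx.ne']
  have h3 : {m : ℕ | (m : ℝ) ≤ x ∧ σ * (((1 : ℕ) : ℤ) * m + ((0 : ℕ) : ℤ)) ∈ A} ⊆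
      ((range (⌊x⌋₊ + 1) : Finset ℕ) : Set ℕ) := by
    rintro m ⟨hm, -⟩
    rw [mem_coe, mem_range]
    have := Nat.le_floor hm
    omega
  have h4 := Set.ncard_le_ncard h3 (Finset.finite_toSet _)
  rw [Set.ncard_coe_finset, card_range] at h4
  have h5 := Nat.floor_le hx.le
  have h6 : (Set.ncard {m : ℕ | (m : ℝ) ≤ x ∧ σ * (((1 : ℕ) : ℤ) * m + ((0 : ℕ) : ℤ)) ∈ A} : ℝ) ≤
      (⌊x⌋₊ : ℝ) + 1 := by exact_mod_cast h4
  linarith

open Classical in
theorem Upp_Od {σ : ℤ} {A : Set ℤ} {d₀ d : ℝ} (h : Dens σ A d₀) (hle : d₀ ≤ d) (hd : 0 < d) :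
    ∀ᶠ Y : ℝ in atTop, (((Od σ Y).filter fun b => b ∈ A).card : ℝ) ≤ d * Y := by
  have h1 := (h 2 1 (by norm_num)).eventually_lt_const (show d₀ < 2 * d by linarith)
  have h2 : Tendsto (fun Y : ℝ => Y / 2) atTop atTop := tendsto_id.atTop_div_const (by norm_num)
  filter_upwards [h2.eventually h1, eventually_gt_atTop 0] with Y hY hY0
  rw [div_lt_iff₀ (by linarith)] at hY
  have h3 : ((Od σ Y).filter fun b => b ∈ A) ⊆
      ((range (Collatz3.FW.oc Y)).filter fun j => Collatz3.FW.od σ j ∈ A).image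
        (Collatz3.FW.od σ) := by
    intro n hn
    rw [mem_filter] at hn
    obtain ⟨h4, h5⟩ := hn
    unfold Collatz3.FW.Od at h4
    rw [mem_image] at h4
    obtain ⟨j, hj, rfl⟩ := h4
    rw [mem_image]
    exact ⟨j, mem_filter.2 ⟨hj, h5⟩, rfl⟩
  have h4 := (card_le_card h3).trans card_image_le
  have h5 : (((range (Collatz3.FW.oc Y)).filter fun j => Collatz3.FW.od σ j ∈ A : Finset ℕ) :
      Set ℕ) ⊆ {m : ℕ | (m : ℝ) ≤ Y / 2 ∧ σ * (((2 : ℕ) : ℤ) * m + ((1 : ℕ) : ℤ)) ∈ A} := by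
    intro j hj
    rw [mem_coe, mem_filter, mem_range] at hj
    obtain ⟨h6, h7⟩ := hj
    refine ⟨?_, ?_⟩
    · unfold Collatz3.FW.oc at h6
      have h8 : j + 1 ≤ ⌊(Y + 1) / 2⌋₊ := h6
      have h9 := (Nat.le_floor_iff (by linarith)).1 h8
      push_cast at h9
      linarith
    · have h8 : Collatz3.FW.od σ j = σ * (((2 : ℕ) : ℤ) * j + ((1 : ℕ) : ℤ)) := by
        unfold Collatz3.FW.od
        push_cast
        ring
      rw [← h8]
      exact h7
  have hfin : {m : ℕ | (m : ℝ) ≤ Y / 2 ∧ σ * (((2 : ℕ) : ℤ) * m + ((1 : ℕ) : ℤ)) ∈ A}.Finite := by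
    refine (Finset.finite_toSet (range (⌊Y / 2⌋₊ + 1))).subset ?_
    rintro m ⟨hm, -⟩
    rw [mem_coe, mem_range]
    have := Nat.le_floor hm
    omega
  have h6 := Set.ncard_le_ncard h5 hfin
  rw [Set.ncard_coe_finset] at h6
  have h7 : (((Od σ Y).filter fun b => b ∈ A).card : ℝ) ≤
      (Set.ncard {m : ℕ | (m : ℝ) ≤ Y / 2 ∧ σ * (((2 : ℕ) : ℤ) * m + ((1 : ℕ) : ℤ)) ∈ A} : ℝ) := by
    exact_mod_cast h4.trans h6
  linarith

open Classical in
/-- The cover. -/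
theorem Upp_cover {σ : ℤ} {A : Set ℤ} {C₁ : ℕ} (hA : EvInv C₁ A) (X : ℝ) (z : ℕ)
    (Ω : ℕ → Finset ℕ) {u l : ℝ} {I k R : ℕ} {S : Finset ℕ}
    (hS : ∀ w ∈ Odd_G u l I k R, w.sum ∈ S ∧ w.sum ≤ 3 * k)
    (hz : 2 ^ (3 * k) * (C₁ : ℤ) < z) :
    (((Od σ X).filter fun n => Sf Ω z n ∧ n ∈ A ∧ (z : ℤ) ≤ |n|).card : ℝ) ≤
      (((Od σ X).filter fun n => Sf Ω z n ∧
        ¬ Hit (Odd_G u l I k R) (fun _ => Set.univ) n).card : ℝ) +
      ∑ s ∈ S, (((Od σ X).filter fun n => Sf Ω z n ∧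
        Hit ((W2 u I k R).filter fun w => w.sum = s) (fun _ => A) n).card : ℝ) := by
  have h1 : ((Od σ X).filter fun n => Sf Ω z n ∧ n ∈ A ∧ (z : ℤ) ≤ |n|) ⊆
      ((Od σ X).filter fun n => Sf Ω z n ∧ ¬ Hit (Odd_G u l I k R) (fun _ => Set.univ) n) ∪
      S.biUnion fun s => (Od σ X).filter fun n => Sf Ω z n ∧
        Hit ((W2 u I k R).filter fun w => w.sum = s) (fun _ => A) n := by
    intro n hn
    rw [mem_filter] at hn
    obtain ⟨h1, h2, h3, h4⟩ := hn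
    rw [mem_union, mem_filter, mem_biUnion]
    by_cases hH : Hit (Odd_G u l I k R) (fun _ => Set.univ) n
    · right
      obtain ⟨w, hw, b, hb, hr, hen, -⟩ := hH
      refine ⟨w.sum, (hS w hw).1, ?_⟩
      rw [mem_filter]
      refine ⟨h1, h2, w, ?_, b, hb, hr, hen, ?_⟩
      · rw [Odd_G, mem_filter] at hw
        rw [mem_filter]
        exact ⟨hw.1, rfl⟩
      · have hpos : ∀ i ∈ w, 1 ≤ i := by
          intro i hi
          rw [Odd_G, mem_filter, mem_W2, mem_W1] at hw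
          exact ((mem_words.1 hw.1.1.1).2 i hi).1
        have h5 := Collatz3.PD.T_en hr hpos
        rw [hen] at h5
        have h6 : 2 ^ w.sum * (C₁ : ℤ) < |n| := by
          have h7 : (2 : ℤ) ^ w.sum ≤ 2 ^ (3 * k) := pow_le_pow_right₀ (by norm_num) (hS w hw).2
          have h8 : (0 : ℤ) ≤ C₁ := Int.natCast_nonneg _
          have h9 := mul_le_mul_of_nonneg_right h7 h8
          linarith
        have h7 := (inv_iter hA w.sum n h6).2 h3
        rw [h5] at h7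
        exact h7
    · left
      exact ⟨h1, h2, hH⟩
  have h2 := (card_le_card h1).trans (card_union_le _ _)
  have h3 : ((S.biUnion fun s => (Od σ X).filter fun n => Sf Ω z n ∧
        Hit ((W2 u I k R).filter fun w => w.sum = s) (fun _ => A) n).card : ℝ) ≤
      ∑ s ∈ S, (((Od σ X).filter fun n => Sf Ω z n ∧
        Hit ((W2 u I k R).filter fun w => w.sum = s) (fun _ => A) n).card : ℝ) := by
    exact_mod_cast card_biUnion_le
  have h4 : (((Od σ X).filter fun n => Sf Ω z n ∧ n ∈ A ∧ (z : ℤ) ≤ |n|).card : ℝ) ≤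
      (((Od σ X).filter fun n => Sf Ω z n ∧
        ¬ Hit (Odd_G u l I k R) (fun _ => Set.univ) n).card : ℝ) +
      ((S.biUnion fun s => (Od σ X).filter fun n => Sf Ω z n ∧
        Hit ((W2 u I k R).filter fun w => w.sum = s) (fun _ => A) n).card : ℝ) := by
    exact_mod_cast h2
  linarith

/-- The error terms vanish. -/
theorem Upp_err (I₀ : ℕ) {ε : ℝ} (hε : 0 < ε) : ∀ᶠ k : ℕ in atTop,
    (k : ℝ) * (1 / 2 : ℝ) ^ (I₀ + 2 * k) + (1 / 2 : ℝ) ^ (k / 2) ≤ ε := by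
  have h1 := (tendsto_pow_const_div_const_pow_of_one_lt 1
    (show (1 : ℝ) < 4 by norm_num)).eventually_lt_const (show 0 < ε / 2 by positivity)
  have h2 : Tendsto (fun k : ℕ => (1 / 2 : ℝ) ^ (k / 2)) atTop (nhds 0) :=
    (tendsto_pow_atTop_nhds_zero_of_lt_one (by norm_num) (by norm_num)).comp
      (Nat.tendsto_div_const_atTop (by norm_num))
  have h3 := h2.eventually_lt_const (show 0 < ε / 2 by positivity)
  filter_upwards [h1, h3] with k hk1 hk2
  have h4 : (k : ℝ) * (1 / 2 : ℝ) ^ (I₀ + 2 * k) ≤ (k : ℝ) ^ 1 / 4 ^ k := by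
    have h5 : (1 / 2 : ℝ) ^ (I₀ + 2 * k) ≤ (1 / 2 : ℝ) ^ (2 * k) :=
      pow_le_pow_of_le_one (by norm_num) (by norm_num) (by omega)
    have h6 : (1 / 2 : ℝ) ^ (2 * k) = 1 / 4 ^ k := by
      rw [pow_mul, show ((1 : ℝ) / 2) ^ 2 = 1 / 4 by norm_num, one_div_pow]
    rw [h6] at h5
    have h7 := mul_le_mul_of_nonneg_left h5 (Nat.cast_nonneg k : (0 : ℝ) ≤ k)
    rw [pow_one]
    refine h7.trans (le_of_eq ?_)
    ring
  linarith

open Classical in
theorem Upp_core : ∃ C : ℝ, 0 < C ∧ ∀ (C₁ : ℕ) (A : Set ℤ) (σ : ℤ) (d : ℝ), (σ = 1 ∨ σ = -1) →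
    EvInv C₁ A → 0 < d → d ≤ 1 →
    (∀ᶠ Y : ℝ in atTop, (((Od σ Y).filter fun b => b ∈ A).card : ℝ) ≤ d * Y) →
    ∀ᶠ x : ℝ in atTop,
    (Set.ncard {p : ℕ | p.Prime ∧ (p : ℝ) ≤ x ∧ σ * (p : ℤ) ∈ A} : ℝ) ≤
      C * d ^ (1 / 4 : ℝ) * (x / Real.log x) := by
  obtain ⟨ρ, B, hρ0, hρ1, hB, hP⟩ := Odd_P Collatz3.PR.thm_Tail1 Collatz3.PR.thm_Tail2
    Collatz3.PR.thm_Tail3
  obtain ⟨cV, A₀, hcV, hVL⟩ := Collatz3.PR.thm_VL 1 le_rfl
  obtain ⟨CR, hCR, hRes⟩ := Collatz3.PR.thm_Res Collatz3.PR.thm_S1 1 le_rfl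
  have hCh : St_Chain := Collatz3.PR.thm_Chain Collatz3.PR.thm_Loc Collatz3.PR.thm_Pt
    Collatz3.PR.thm_Err
  obtain ⟨CS, I₀, hCS0, hCS⟩ := Collatz3.PR.thm_CS (Collatz3.PR.thm_Avg hCh
    (Collatz3.PR.thm_Div hCh) Collatz3.PR.thm_Sing) Collatz3.PR.thm_S2 1 le_rfl
  obtain ⟨CL, hCL, hlog⟩ := Odd_log 5 (show (0 : ℝ) < 1 / 12 by norm_num)
  have hρl : 0 < -Real.log ρ := by
    have := Real.log_neg hρ0 hρ1
    linarith
  obtain ⟨a, ha⟩ : ∃ a : ℝ, a = 1 / (3 * (-Real.log ρ)) := ⟨_, rfl⟩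
  have ha0 : 0 < a := by rw [ha]; positivity
  have haρ : a * (-Real.log ρ) = 1 / 3 := by
    have hne : Real.log ρ ≠ 0 := by
      intro h0
      rw [h0] at hρl
      simp at hρl
    rw [ha]
    field_simp
  obtain ⟨E, hE⟩ : ∃ E : ℝ, E = CR * (2 + 2 * B) + CS * (2 * (a + 2) ^ 4 * CL) := ⟨_, rfl⟩
  have hE0 : 0 < E := by rw [hE]; positivity
  refine ⟨1 + 3 * E, by positivity, ?_⟩
  intro C₁ A σ d hσ hA hd hd1 hD
  obtain ⟨L, hL⟩ : ∃ L : ℝ, L = -Real.log d := ⟨_, rfl⟩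
  have hL0 : 0 ≤ L := by
    rw [hL]
    have := Real.log_nonpos hd.le hd1
    linarith
  have hdL : d = Real.exp (-L) := by rw [hL, neg_neg, Real.exp_log hd]
  have hd4 : d ^ (1 / 4 : ℝ) = Real.exp (-(L / 4)) := by
    rw [Real.rpow_def_of_pos hd, hL]
    congr 1
    ring
  obtain ⟨u, hu⟩ : ∃ u : ℝ, u = Real.exp (L / 3) := ⟨_, rfl⟩
  have hu1 : 1 ≤ u := by rw [hu]; exact Real.one_le_exp (by positivity)
  obtain ⟨R, hR⟩ : ∃ R : ℕ, R = ⌈a * L⌉₊ := ⟨_, rfl⟩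
  have hR1 : a * L ≤ R := by rw [hR]; exact Nat.le_ceil _
  have hR2 : (R : ℝ) ≤ a * L + 1 := by
    rw [hR]
    exact (Nat.ceil_lt_add_one (by positivity)).le
  have hρR : ρ ^ R ≤ Real.exp (-(L / 3)) := by
    rw [← Real.rpow_natCast, Real.rpow_def_of_pos hρ0]
    apply Real.exp_le_exp.2
    have h1 : a * L * (-Real.log ρ) ≤ R * (-Real.log ρ) := mul_le_mul_of_nonneg_right hR1 hρl.le
    have h2 : a * L * (-Real.log ρ) = L / 3 := by
      rw [mul_right_comm, haρ]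
      ring
    linarith
  have hk_ev : ∀ᶠ k : ℕ in atTop, 2 * R ≤ k ∧ C₁ < 2 ^ (3 * k) ∧
      (k : ℝ) * (1 / 2 : ℝ) ^ (I₀ + 2 * k) + (1 / 2 : ℝ) ^ (k / 2) ≤ Real.exp (-(L / 3)) := by
    filter_upwards [eventually_ge_atTop (2 * R), eventually_ge_atTop C₁,
      Upp_err I₀ (Real.exp_pos (-(L / 3)))] with k h1 h2 h3
    refine ⟨h1, ?_, h3⟩
    calc C₁ ≤ k := h2
      _ < 2 ^ k := Nat.lt_two_pow_self
      _ ≤ 2 ^ (3 * k) := Nat.pow_le_pow_right (by norm_num) (by omega)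
  obtain ⟨K₀, hK₀⟩ := hk_ev.exists_forall_of_atTop
  obtain ⟨Y₀, hY₀⟩ := hD.exists_forall_of_atTop
  obtain ⟨l₀, hnum⟩ := Odd_num (A₀ + 1) 12 (by norm_num) (one_pos : (0 : ℝ) < 1) hcV
    (one_pos : (0 : ℝ) < 1)
  have hev2 : Tendsto (fun x : ℝ => Real.log x / 3 + 1) atTop atTop :=
    tendsto_atTop_add_const_right _ _ (Real.tendsto_log_atTop.atTop_div_const (by norm_num))
  have hev3 : Tendsto (fun x : ℝ => 2 * ((A₀ + 1 : ℕ) : ℝ) * Real.log (Real.log x / 3 + 1))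
      atTop atTop :=
    Tendsto.const_mul_atTop (by positivity) (Real.tendsto_log_atTop.comp hev2)
  have hev5 : ∀ᶠ x : ℝ in atTop, Real.log x ≤ d ^ (1 / 4 : ℝ) * √x := by
    have h1 := (isLittleO_log_rpow_atTop (show (0 : ℝ) < 1 / 2 by norm_num)).def
      (show 0 < d ^ (1 / 4 : ℝ) by positivity)
    filter_upwards [h1, eventually_ge_atTop 1] with x hx hx1
    rw [Real.norm_of_nonneg (Real.log_nonneg hx1), Real.norm_of_nonneg (by positivity),
      ← Real.sqrt_eq_rpow] at hx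
    exact hx
  filter_upwards [eventually_ge_atTop 64, hev2.eventually_ge_atTop l₀,
    hev3.eventually_ge_atTop (K₀ : ℝ), Real.tendsto_sqrt_atTop.eventually_ge_atTop Y₀, hev5]
    with x hx1 hx2 hx3 hx4 hx5
  have hx0 : 0 < x := by linarith
  obtain ⟨z, hz⟩ : ∃ z : ℕ, z = ⌊√x⌋₊ := ⟨_, rfl⟩
  have hzs : (z : ℝ) ≤ √x := by rw [hz]; exact Nat.floor_le (Real.sqrt_nonneg _)
  have hzs' : √x < z + 1 := by rw [hz]; exact Nat.lt_floor_add_one _
  have hlz3 : Real.log x / 3 ≤ Real.log z ∧ (4 : ℝ) ≤ z := by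
    obtain ⟨t, ht⟩ : ∃ t : ℝ, t = x ^ (1 / 6 : ℝ) := ⟨_, rfl⟩
    have ht0 : 0 < t := by rw [ht]; positivity
    have ht6 : t ^ 6 = x := by
      rw [ht, ← Real.rpow_natCast, ← Real.rpow_mul hx0.le]
      norm_num
    have ht2 : 2 ≤ t := by
      by_contra hcon
      push Not at hcon
      have : t ^ 6 < 2 ^ 6 := pow_lt_pow_left₀ hcon ht0.le (by norm_num)
      rw [ht6] at this
      linarith
    have hst : √x = t ^ 3 := by
      rw [← ht6, show t ^ 6 = (t ^ 3) ^ 2 by ring]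
      exact Real.sqrt_sq (by positivity)
    have hzt : t ^ 2 ≤ z := by
      rw [hst] at hzs'
      nlinarith
    refine ⟨?_, by nlinarith⟩
    have h1 : Real.log x = 6 * Real.log t := by
      rw [← ht6, Real.log_pow]
      norm_num
    have h2 := Real.log_le_log (by positivity) hzt
    rw [Real.log_pow] at h2
    push_cast at h2
    linarith
  obtain ⟨hlz3, hz4⟩ := hlz3
  have hz4' : 4 ≤ z := by exact_mod_cast hz4
  have hlx : 0 < Real.log x := Real.log_pos (by linarith)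
  have hlz : 0 < Real.log z := by linarith
  have hzx : (z : ℝ) ≤ x := by
    refine hzs.trans ?_
    rw [Real.sqrt_le_left hx0.le, sq]
    exact le_mul_of_one_le_left hx0.le (by linarith)
  have hlzx : Real.log z ≤ Real.log x := Real.log_le_log (by linarith) hzx
  obtain ⟨l, hl⟩ : ∃ l : ℝ, l = Real.log z + 1 := ⟨_, rfl⟩
  have hl1 : 1 ≤ l := by rw [hl]; linarith
  have hll : l₀ ≤ l := by rw [hl]; linarith
  obtain ⟨k, hk10, hm, hBk, hkV, hk6, -⟩ := hnum l hll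
  have hkK : K₀ ≤ k := by
    have h1 : 1 * (K₀ : ℝ) ≤ 2 * ((A₀ + 1 : ℕ) : ℝ) * Real.log l := by
      rw [one_mul]
      refine hx3.trans ?_
      apply mul_le_mul_of_nonneg_left _ (by positivity)
      apply Real.log_le_log (by linarith)
      rw [hl]
      linarith
    have h2 := (hm K₀ h1).1
    have h3 : (0 : ℝ) ≤ K₀ := Nat.cast_nonneg _
    have h4 : (K₀ : ℝ) ≤ k := by linarith
    exact_mod_cast h4
  obtain ⟨hk2R, hkC, hkerr⟩ := hK₀ k hkK
  have hk1 : 1 ≤ k := by omega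
  have hkr : (1 : ℝ) ≤ k := by exact_mod_cast hk1
  have hsk : 1 ≤ √(k : ℝ) := by rw [Real.one_le_sqrt]; exact hkr
  obtain ⟨I, hI⟩ : ∃ I, I = I₀ + 2 * k := ⟨_, rfl⟩
  have hΩ := Collatz3.PR.sys_zero
  obtain ⟨Ω, hΩd⟩ : ∃ Ω : ℕ → Finset ℕ, Ω = fun _ => {0} := ⟨_, rfl⟩
  have hVle : VV Ω z ≤ 1 / Real.log z := by
    rw [hΩd]
    exact Collatz3.PR.VV_zero_le (by omega)
  rw [← hΩd] at hΩ
  have hV0 := Collatz3.PR.VV_nonneg hΩ z
  have hV := hVL z Ω (by omega) hΩ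
  obtain ⟨V, hVd⟩ : ∃ V, V = VV Ω z := ⟨_, rfl⟩
  rw [← hVd] at hV0 hV hVle
  rw [← hl] at hV
  have hV' : cV ≤ l ^ (A₀ + 1) * V := by
    refine hV.trans (mul_le_mul_of_nonneg_right ?_ hV0)
    exact pow_le_pow_right₀ hl1 (by omega)
  obtain ⟨G, hG⟩ : ∃ G, G = Odd_G u L I k R := ⟨_, rfl⟩
  have hGm : ∀ w ∈ G, w ∈ words I k ∧ 199 * k ≤ 100 * w.sum ∧ 100 * w.sum ≤ 201 * k ∧
      |(w.sum : ℝ) - 2 * k| ≤ L * √k := by
    intro w hw
    rw [hG, Odd_G, mem_filter, mem_W2, mem_W1] at hw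
    have h1 := hw.1.2 k (by omega) le_rfl
    rw [Nat.sub_self, List.drop_zero] at h1
    exact ⟨hw.1.1.1, h1.1, h1.2, hw.2⟩
  obtain ⟨S, hS⟩ : ∃ S : Finset ℕ, S = (range (3 * k + 1)).filter fun s => 199 * k ≤ 100 * s ∧
    100 * s ≤ 201 * k ∧ |(s : ℝ) - 2 * k| ≤ L * √k := ⟨_, rfl⟩
  have hGS : ∀ w ∈ Odd_G u L I k R, w.sum ∈ S ∧ w.sum ≤ 3 * k := by
    intro w hw
    rw [← hG] at hw
    obtain ⟨-, h2, h3, h4⟩ := hGm w hw
    rw [hS, mem_filter, mem_range]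
    exact ⟨⟨by omega, h2, h3, h4⟩, by omega⟩
  have hkz : 6 * (k : ℝ) ≤ Real.log z := by rw [hl] at hk6; linarith
  have hz6 : (2 : ℝ) ^ (6 * k) ≤ z := by
    rw [← Real.log_le_log_iff (by positivity) (by linarith), Real.log_pow]
    have h1 := Real.log_two_lt_d9
    push_cast
    have h2 : 6 * (k : ℝ) * Real.log 2 ≤ 6 * k * 1 :=
      mul_le_mul_of_nonneg_left (by linarith) (by positivity)
    linarith
  have hX6 : (2 : ℝ) ^ (6 * k) ≤ x := hz6.trans hzx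
  have hzC : 2 ^ (3 * k) * (C₁ : ℤ) < z := by
    have h1 : 2 ^ (3 * k) * C₁ < z := by
      have h2 : 2 ^ (3 * k) * C₁ < 2 ^ (3 * k) * 2 ^ (3 * k) :=
        Nat.mul_lt_mul_of_pos_left hkC (by positivity)
      have h3 : 2 ^ (3 * k) * 2 ^ (3 * k) = 2 ^ (6 * k) := by
        rw [← pow_add]
        congr 1
        ring
      have h4 : 2 ^ (6 * k) ≤ z := by exact_mod_cast hz6
      omega
    exact_mod_cast h1
  -- the binary length of `z`
  obtain ⟨b, hb⟩ : ∃ b, b = Nat.clog 2 z := ⟨_, rfl⟩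
  have hzb : z ≤ 2 ^ b := by rw [hb]; exact Nat.le_pow_clog (by norm_num) z
  have hb2 : (b : ℝ) ≤ 2 * l := by
    rcases Nat.eq_zero_or_pos b with h0 | h0
    · rw [h0, Nat.cast_zero]
      linarith
    · have h1 : 2 ^ (b - 1) < z := by
        rw [hb]
        exact Nat.pow_pred_clog_lt_self (by norm_num) (by omega)
      have h2 : (2 : ℝ) ^ (b - 1) ≤ z := by exact_mod_cast h1.le
      have h3 := Real.log_le_log (by positivity) h2
      rw [Real.log_pow, Nat.cast_sub h0, Nat.cast_one] at h3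
      have h4 := Real.log_two_gt_d9
      have h5 : (1 : ℝ) ≤ b := by exact_mod_cast h0
      have h6 : ((b : ℝ) - 1) * (1 / 2) ≤ (b - 1) * Real.log 2 :=
        mul_le_mul_of_nonneg_left (by linarith) (by linarith)
      rw [hl]
      linarith
  have hbk : (b : ℝ) ^ (8 * 1 + 4) * (4 / 5) ^ (k / 2) ≤ 1 := by
    refine le_trans ?_ hBk
    exact mul_le_mul_of_nonneg_right (pow_le_pow_left₀ (Nat.cast_nonneg _) hb2 _) (by positivity)
  have hkV' : (k : ℝ) * 3 ^ k ≤ (397 / 100) ^ k * V := by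
    have h1 : (397 / 300 : ℝ) ^ k = (397 / 100) ^ k / 3 ^ k := by
      rw [← div_pow]
      norm_num
    have hlA : 0 < l ^ (A₀ + 1) := by positivity
    have h2 : k * l ^ (A₀ + 1) ≤ l ^ (A₀ + 1) * V * ((397 / 100) ^ k / 3 ^ k) := by
      rw [← h1]
      exact hkV.trans (mul_le_mul_of_nonneg_right hV' (by positivity))
    have h3 : l ^ (A₀ + 1) * (k * 3 ^ k) ≤ l ^ (A₀ + 1) * ((397 / 100) ^ k * V) := by
      calc l ^ (A₀ + 1) * (k * 3 ^ k) = k * l ^ (A₀ + 1) * 3 ^ k := by ring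
        _ ≤ l ^ (A₀ + 1) * V * ((397 / 100) ^ k / 3 ^ k) * 3 ^ k :=
            mul_le_mul_of_nonneg_right h2 (by positivity)
        _ = l ^ (A₀ + 1) * ((397 / 100) ^ k * V) := by field_simp
    exact le_of_mul_le_mul_left h3 hlA
  -- the count
  have hcover := Upp_cover (σ := σ) hA x z Ω (u := u) (l := L) (I := I) (k := k) (R := R) (S := S)
    hGS hzC
  have h1 := hRes z x I k G σ Ω (fun w hw => (hGm w hw).1) (fun w hw => (hGm w hw).2.2.1) hk10
    (by omega) hzx hX6 hΩ hσ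
  rw [← hVd, hG] at h1
  have h2 := hP I k R u L (by omega) (by linarith) hL0
  have e43 : Real.exp (-(L / 3)) ≤ Real.exp (-(L / 4)) := Real.exp_le_exp.2 (by linarith)
  have h3 : 1 - P (Odd_G u L I k R) + (1 / 2) ^ (k / 2) ≤
      (2 + 2 * B) * Real.exp (-(L / 4)) := by
    have i1 : 1 / u = Real.exp (-(L / 3)) := by
      rw [hu, Real.exp_neg, one_div]
    have i2 : B * ρ ^ R ≤ B * Real.exp (-(L / 3)) := mul_le_mul_of_nonneg_left hρR hB.le
    have i3 : B * Real.exp (-(L / 2)) ≤ B * Real.exp (-(L / 3)) :=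
      mul_le_mul_of_nonneg_left (Real.exp_le_exp.2 (by linarith)) hB.le
    rw [i1, hI] at h2
    rw [hI]
    have i4 : (2 + 2 * B) * Real.exp (-(L / 3)) ≤ (2 + 2 * B) * Real.exp (-(L / 4)) :=
      mul_le_mul_of_nonneg_left e43 (by positivity)
    linarith
  have h4 : CR * x * V * (1 - P (Odd_G u L I k R) + (1 / 2) ^ (k / 2)) ≤
      CR * x * V * ((2 + 2 * B) * Real.exp (-(L / 4))) :=
    mul_le_mul_of_nonneg_left h3 (by positivity)
  have h5 : ∀ s ∈ S, (((Od σ x).filter fun n => Sf Ω z n ∧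
      Hit ((W2 u I k R).filter fun w => w.sum = s) (fun _ => A) n).card : ℝ) ≤
      CS * x * V * (√(d * u / k) * ((R : ℝ) + 1) ^ (4 * 1)) := by
    intro s hs
    rw [hS, mem_filter, mem_range] at hs
    obtain ⟨s0, s1, s2, -⟩ := hs
    have hs397 := Odd_two_pow s1
    rw [hVd]
    refine hCS I k s R b z u x d σ A Ω (by omega) hk1 hu1 hk2R s2 (by omega) hzx hzb
      hbk hX6 hΩ ?_ hσ hd.le ?_
    · rw [← hVd]
      exact hkV'.trans (mul_le_mul_of_nonneg_right hs397 hV0)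
    · apply hY₀
      refine hx4.trans ?_
      have j1 : (2 : ℝ) ^ s ≤ 2 ^ (3 * k) := pow_le_pow_right₀ (by norm_num) (by omega)
      have j2 : (2 : ℝ) ^ (3 * k) ≤ √x := by
        apply Real.le_sqrt_of_sq_le
        rw [← pow_mul]
        have : 3 * k * 2 = 6 * k := by ring
        rw [this]
        exact hX6
      have j3 : √x * 2 ^ s ≤ 3 ^ k * x := by
        have j4 : (1 : ℝ) ≤ 3 ^ k := one_le_pow₀ (by norm_num)
        calc √x * 2 ^ s ≤ √x * √x := mul_le_mul_of_nonneg_left (j1.trans j2) (Real.sqrt_nonneg _)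
          _ = x := Real.mul_self_sqrt hx0.le
          _ = 1 * x := (one_mul x).symm
          _ ≤ 3 ^ k * x := mul_le_mul_of_nonneg_right j4 hx0.le
      have j5 : √x ≤ 3 ^ k * x / 2 ^ s := by
        rw [le_div_iff₀ (by positivity)]
        exact j3
      have j6 : (0 : ℝ) < 2 ^ k := by positivity
      linarith
  have h6 : (S.card : ℝ) ≤ 2 * (L * √k) + 1 := by
    apply Odd_card (a := 2 * k) (by positivity)
    intro s hs
    rw [hS, mem_filter] at hs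
    exact hs.2.2.2
  have h8 := sum_le_card_nsmul _ _ _ h5
  rw [nsmul_eq_mul] at h8
  have hsq : √(d * u / k) = Real.exp (-(L / 3)) / √k := by
    have : d * u = Real.exp (-(L / 3)) ^ 2 := by
      rw [hdL, hu, ← Real.exp_add, ← Real.exp_nat_mul]
      congr 1
      push_cast
      ring
    rw [this, Real.sqrt_div (by positivity), Real.sqrt_sq (Real.exp_pos _).le]
  have h7 : (2 * (L * √k) + 1) * (√(d * u / k) * ((R : ℝ) + 1) ^ (4 * 1)) ≤
      2 * (a + 2) ^ 4 * CL * Real.exp (-(L / 4)) := by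
    rw [hsq]
    have i1 : (2 * (L * √k) + 1) * (Real.exp (-(L / 3)) / √k) ≤
        (2 * L + 1) * Real.exp (-(L / 3)) := by
      rw [mul_div_assoc', div_le_iff₀ (by positivity)]
      have i2 : 2 * (L * √k) + 1 ≤ (2 * L + 1) * √k := by
        have i2' : (2 * L + 1) * √(k : ℝ) = 2 * (L * √k) + √k := by ring
        rw [i2']
        linarith
      calc (2 * (L * √k) + 1) * Real.exp (-(L / 3)) ≤
          ((2 * L + 1) * √k) * Real.exp (-(L / 3)) :=
            mul_le_mul_of_nonneg_right i2 (Real.exp_pos _).le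
        _ = (2 * L + 1) * Real.exp (-(L / 3)) * √k := by ring
    have i3 : (R : ℝ) + 1 ≤ (a + 2) * (L + 1) := by
      have i3' : (a + 2) * (L + 1) = a * L + a + 2 * L + 2 := by ring
      rw [i3']
      linarith
    have i4 : ((R : ℝ) + 1) ^ (4 * 1) ≤ ((a + 2) * (L + 1)) ^ (4 * 1) :=
      pow_le_pow_left₀ (by positivity) i3 _
    have i5 : (L + 1) ^ 5 ≤ CL * Real.exp (L / 12) := by
      have i6 := hlog (Real.exp L) (Real.one_le_exp hL0)
      rw [Real.log_exp, ← Real.exp_mul] at i6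
      have i7 : L * (1 / 12) = L / 12 := by ring
      rw [i7] at i6
      exact i6
    have i8 : Real.exp (L / 12) * Real.exp (-(L / 3)) = Real.exp (-(L / 4)) := by
      rw [← Real.exp_add]
      congr 1
      ring
    calc (2 * (L * √k) + 1) * (Real.exp (-(L / 3)) / √k * ((R : ℝ) + 1) ^ (4 * 1))
        = (2 * (L * √k) + 1) * (Real.exp (-(L / 3)) / √k) * ((R : ℝ) + 1) ^ (4 * 1) := by ring
      _ ≤ (2 * L + 1) * Real.exp (-(L / 3)) * ((a + 2) * (L + 1)) ^ (4 * 1) :=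
          mul_le_mul i1 i4 (by positivity) (by positivity)
      _ ≤ (2 * (L + 1)) * Real.exp (-(L / 3)) * ((a + 2) * (L + 1)) ^ (4 * 1) := by
          apply mul_le_mul_of_nonneg_right _ (by positivity)
          apply mul_le_mul_of_nonneg_right _ (Real.exp_pos _).le
          linarith
      _ = 2 * (a + 2) ^ 4 * (L + 1) ^ 5 * Real.exp (-(L / 3)) := by ring
      _ ≤ 2 * (a + 2) ^ 4 * (CL * Real.exp (L / 12)) * Real.exp (-(L / 3)) := by
          apply mul_le_mul_of_nonneg_right _ (Real.exp_pos _).le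
          exact mul_le_mul_of_nonneg_left i5 (by positivity)
      _ = 2 * (a + 2) ^ 4 * CL * (Real.exp (L / 12) * Real.exp (-(L / 3))) := by ring
      _ = 2 * (a + 2) ^ 4 * CL * Real.exp (-(L / 4)) := by rw [i8]
  have h9 : (S.card : ℝ) * (CS * x * V * (√(d * u / k) * ((R : ℝ) + 1) ^ (4 * 1))) ≤
      CS * x * V * (2 * (a + 2) ^ 4 * CL * Real.exp (-(L / 4))) := by
    calc (S.card : ℝ) * (CS * x * V * (√(d * u / k) * ((R : ℝ) + 1) ^ (4 * 1))) ≤
        (2 * (L * √k) + 1) * (CS * x * V * (√(d * u / k) * ((R : ℝ) + 1) ^ (4 * 1))) :=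
          mul_le_mul_of_nonneg_right h6 (by positivity)
      _ = CS * x * V * ((2 * (L * √k) + 1) * (√(d * u / k) * ((R : ℝ) + 1) ^ (4 * 1))) := by ring
      _ ≤ _ := mul_le_mul_of_nonneg_left h7 (by positivity)
  have h10 : (((Od σ x).filter fun n => Sf Ω z n ∧ n ∈ A ∧ (z : ℤ) ≤ |n|).card : ℝ) ≤
      x * V * (E * Real.exp (-(L / 4))) := by
    have h11 : x * V * (E * Real.exp (-(L / 4))) =
        CR * x * V * ((2 + 2 * B) * Real.exp (-(L / 4))) +
        CS * x * V * (2 * (a + 2) ^ 4 * CL * Real.exp (-(L / 4))) := by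
      rw [hE]
      ring
    rw [h11]
    linarith
  -- from the primes to the odd integers
  have h12 : {p : ℕ | p.Prime ∧ (p : ℝ) ≤ x ∧ σ * (p : ℤ) ∈ A} ⊆
      ((range z ∪ ((Od σ x).filter fun n => Sf Ω z n ∧ n ∈ A ∧ (z : ℤ) ≤ |n|).image
        Int.natAbs : Finset ℕ) : Set ℕ) := by
    rintro p ⟨hp, hpx, hpA⟩
    rw [mem_coe, mem_union, mem_range, mem_image]
    rcases lt_or_ge p z with hpz | hpz
    · exact Or.inl hpz
    · right
      have hp2 : p % 2 = 1 := by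
        rcases hp.eq_two_or_odd with h | h
        · omega
        · exact h
      have habs : (σ * (p : ℤ)).natAbs = p := by
        rcases hσ with h | h <;> rw [h] <;> simp
      have habs2 : |σ * (p : ℤ)| = p := by
        rcases hσ with h | h <;> rw [h] <;> simp
      refine ⟨σ * (p : ℤ), ?_, habs⟩
      rw [mem_filter, mem_Od hσ]
      have hσσ : σ * (σ * (p : ℤ)) = p := by rw [← mul_assoc, sig_sq hσ, one_mul]
      refine ⟨⟨?_, ?_, ?_⟩, ?_, hpA, ?_⟩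
      · rcases hσ with h | h <;> rw [h] <;> omega
      · rw [hσσ]
        exact_mod_cast hp.pos
      · rw [hσσ]
        exact_mod_cast hpx
      · rw [hΩd]
        apply Collatz3.PR.prime_Sf
        · rw [habs]
          exact hp
        · rw [habs]
          exact hpz
      · rw [habs2]
        exact_mod_cast hpz
  have h13 := Set.ncard_le_ncard h12 (Finset.finite_toSet _)
  rw [Set.ncard_coe_finset] at h13
  have h14 := h13.trans ((card_union_le _ _).trans (Nat.add_le_add_left card_image_le _))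
  rw [card_range] at h14
  have h15 : (Set.ncard {p : ℕ | p.Prime ∧ (p : ℝ) ≤ x ∧ σ * (p : ℤ) ∈ A} : ℝ) ≤
      z + (((Od σ x).filter fun n => Sf Ω z n ∧ n ∈ A ∧ (z : ℤ) ≤ |n|).card : ℝ) := by
    exact_mod_cast h14
  have h16 : (z : ℝ) ≤ d ^ (1 / 4 : ℝ) * (x / Real.log x) := by
    refine hzs.trans ?_
    rw [← mul_div_assoc, le_div_iff₀ hlx]
    calc √x * Real.log x ≤ √x * (d ^ (1 / 4 : ℝ) * √x) :=
          mul_le_mul_of_nonneg_left hx5 (Real.sqrt_nonneg _)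
      _ = d ^ (1 / 4 : ℝ) * (√x * √x) := by ring
      _ = d ^ (1 / 4 : ℝ) * x := by rw [Real.mul_self_sqrt hx0.le]
  have h17 : x * V * (E * Real.exp (-(L / 4))) ≤
      3 * E * d ^ (1 / 4 : ℝ) * (x / Real.log x) := by
    rw [hd4]
    have h18 : V ≤ 3 / Real.log x := by
      refine hVle.trans ?_
      rw [div_le_div_iff₀ hlz hlx]
      linarith
    calc x * V * (E * Real.exp (-(L / 4))) ≤ x * (3 / Real.log x) * (E * Real.exp (-(L / 4))) := by
          apply mul_le_mul_of_nonneg_right _ (by positivity)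
          exact mul_le_mul_of_nonneg_left h18 hx0.le
      _ = 3 * E * Real.exp (-(L / 4)) * (x / Real.log x) := by ring
  have h19 : (1 + 3 * E) * d ^ (1 / 4 : ℝ) * (x / Real.log x) =
      d ^ (1 / 4 : ℝ) * (x / Real.log x) + 3 * E * d ^ (1 / 4 : ℝ) * (x / Real.log x) := by ring
  rw [h19]
  linarith

/-- The upper bound, for sets of density at most `d`. -/
theorem thm_Upp' : ∃ C : ℝ, 0 < C ∧ ∀ (C₁ : ℕ) (A : Set ℤ) (σ : ℤ) (d₀ d : ℝ),
    (σ = 1 ∨ σ = -1) → EvInv C₁ A → Dens σ A d₀ → d₀ ≤ d → 0 < d → ∀ᶠ x : ℝ in atTop,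
    (Set.ncard {p : ℕ | p.Prime ∧ (p : ℝ) ≤ x ∧ σ * (p : ℤ) ∈ A} : ℝ) ≤
      C * d ^ (1 / 4 : ℝ) * (x / Real.log x) := by
  obtain ⟨C, hC, h⟩ := Upp_core
  refine ⟨C, hC, fun C₁ A σ d₀ d hσ hA hD hle hd => ?_⟩
  rcases le_or_gt d 1 with h1 | h1
  · exact h C₁ A σ d hσ hA hd h1 (Upp_Od hD hle hd)
  · filter_upwards [h C₁ A σ 1 hσ hA one_pos le_rfl (Upp_Od hD (Upp_le_one hD) one_pos),
      eventually_gt_atTop 1] with x hx hx1
    refine hx.trans ?_
    have h2 : 0 < x / Real.log x := div_pos (by linarith) (Real.log_pos hx1)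
    apply mul_le_mul_of_nonneg_right _ h2.le
    apply mul_le_mul_of_nonneg_left _ hC.le
    exact Real.rpow_le_rpow (by norm_num) h1.le (by norm_num)

theorem thm_Upp : St_Upp := by
  obtain ⟨C, hC, h⟩ := thm_Upp'
  exact ⟨C, hC, fun C₁ A σ d hσ hA hD hd => h C₁ A σ d d hσ hA hD le_rfl hd⟩

end Pool.Agent.CPR
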